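import Pool.Agent.Work.MP_02e829_sb.B_GLB

/-!
# Block VAL: the motion of a rigidly moving point depends on the rigid motion only
-/

open Set Filter Manifold Matrix MeasureTheory Metric
open scoped Topology ContDiff Manifold

set_option autoImplicit false

universe w

namespace Pool.SXB

open Pool.FR (pd ee)

/-- coordinates, as a linear equivalence -/
noncomputable def VAL_e : E3 ≃ₗ[ℝ] V3 := (EuclideanSpace.equiv (Fin 3) ℝ).toLinearEquiv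

lemma VAL_e_apply (z : E3) : VAL_e z = L3 z := rfl

lemma VAL_surj (z : V3) : ∃ u : E3, L3 u = z := ⟨VAL_e.symm z, VAL_e.apply_symm_apply z⟩

/-- proper linear isometries preserve the cross product -/
lemma VAL_cross (R : E3 ≃ₗᵢ[ℝ] E3) (hR : 0 < LinearMap.det (R.toLinearEquiv : E3 →ₗ[ℝ] E3))
    (a b c : E3) (h : L3 c = L3 a ⨯₃ L3 b) : L3 (R c) = L3 (R a) ⨯₃ L3 (R b) := by
  obtain ⟨φ, hφ⟩ : ∃ φ : V3 →ₗ[ℝ] V3, φ = (VAL_e : E3 →ₗ[ℝ] V3) ∘ₗ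
    (R.toLinearEquiv : E3 →ₗ[ℝ] E3) ∘ₗ (VAL_e.symm : V3 →ₗ[ℝ] E3) := ⟨_, rfl⟩
  obtain ⟨M, hM⟩ : ∃ M : Matrix (Fin 3) (Fin 3) ℝ, M = LinearMap.toMatrix' φ := ⟨_, rfl⟩
  have hdet : M.det = LinearMap.det (R.toLinearEquiv : E3 →ₗ[ℝ] E3) := by
    rw [hM, LinearMap.det_toMatrix', hφ]
    exact LinearMap.det_conj _ VAL_e
  have h1 : ∀ x : V3, M *ᵥ x = φ x := by
    intro x
    rw [hM, LinearMap.toMatrix'_mulVec]
  have h2 : ∀ z : E3, M *ᵥ L3 z = L3 (R z) := by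
    intro z
    rw [h1, hφ]
    change L3 (R (VAL_e.symm (VAL_e z))) = _
    rw [LinearEquiv.symm_apply_apply]
  have h3 : ∀ x y : V3, (M *ᵥ x) ⬝ᵥ (M *ᵥ y) = x ⬝ᵥ y := by
    intro x y
    obtain ⟨u, rfl⟩ := VAL_surj x
    obtain ⟨v, rfl⟩ := VAL_surj y
    rw [h2, h2, ← LOC_inner, ← LOC_inner, LinearIsometryEquiv.inner_map_map]
  have h4 : Mᵀ * M = 1 := by
    ext i j
    have h5 := h3 (Pi.single i 1) (Pi.single j 1)
    rw [Matrix.mulVec_single_one, Matrix.mulVec_single_one] at h5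
    have h6 : (Mᵀ * M) i j = M.col i ⬝ᵥ M.col j := rfl
    rw [h6, h5, single_one_dotProduct, Matrix.one_apply, Pi.single_apply]
  have h7 : M.det = 1 := by
    have h8 := congrArg Matrix.det h4
    rw [det_mul, det_transpose, det_one] at h8
    have h9 : 0 < M.det := hdet ▸ hR
    nlinarith
  have h10 : ∀ x y z : V3, (M *ᵥ x) ⬝ᵥ ((M *ᵥ y) ⨯₃ (M *ᵥ z)) = x ⬝ᵥ (y ⨯₃ z) := by
    intro x y z
    rw [triple_product_eq_det, triple_product_eq_det]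
    obtain ⟨N, hN⟩ : ∃ N : Matrix (Fin 3) (Fin 3) ℝ, N = ![x, y, z] := ⟨_, rfl⟩
    have h11 : (![M *ᵥ x, M *ᵥ y, M *ᵥ z] : Matrix (Fin 3) (Fin 3) ℝ) = N * Mᵀ := by
      ext i j
      rw [Matrix.mul_apply, hN]
      fin_cases i <;> simp [Matrix.mulVec, dotProduct, mul_comm]
    rw [h11, det_mul, det_transpose, h7, mul_one, hN]
  have h12 : ∀ x : V3, x ⬝ᵥ (L3 (R c) - L3 (R a) ⨯₃ L3 (R b)) = 0 := by
    intro x
    have h13 : x = M *ᵥ (Mᵀ *ᵥ x) := by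
      have h14 : M * Mᵀ = 1 := mul_eq_one_comm.1 h4
      rw [mulVec_mulVec, h14, one_mulVec]
    rw [h13, dotProduct_sub, ← h2, ← h2, ← h2, h3, h10, h, sub_self]
  have h15 := h12 (L3 (R c) - L3 (R a) ⨯₃ L3 (R b))
  exact sub_eq_zero.1 (dotProduct_self_eq_zero.1 h15)

/-- the cross product of the images -/
lemma VAL_alg (y f1 f2 g1 g2 : V3) (h1 : g1 - f1 = y ⨯₃ (g1 + f1)) (h2 : g2 - f2 = y ⨯₃ (g2 + f2)) :
    g1 ⨯₃ g2 - f1 ⨯₃ f2 = y ⨯₃ (g1 ⨯₃ g2 + f1 ⨯₃ f2) := by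
  -- put `g = m + v`, `f = m - v` with `v = y x m`
  obtain ⟨m1, hm1⟩ : ∃ m1, m1 = (1 / 2 : ℝ) • (g1 + f1) := ⟨_, rfl⟩
  obtain ⟨m2, hm2⟩ : ∃ m2, m2 = (1 / 2 : ℝ) • (g2 + f2) := ⟨_, rfl⟩
  have e1 : g1 = m1 + y ⨯₃ m1 := by
    rw [hm1, map_smul (crossProduct y), ← h1]
    module
  have e2 : f1 = m1 - y ⨯₃ m1 := by
    rw [hm1, map_smul (crossProduct y), ← h1]
    module
  have e3 : g2 = m2 + y ⨯₃ m2 := by
    rw [hm2, map_smul (crossProduct y), ← h2]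
    module
  have e4 : f2 = m2 - y ⨯₃ m2 := by
    rw [hm2, map_smul (crossProduct y), ← h2]
    module
  rw [e1, e2, e3, e4]
  simp only [cross_apply]
  ext i
  fin_cases i <;> simp <;> ring

/-- the reciprocal basis -/
lemma VAL_basis (a b z : V3) (hn : a ⨯₃ b ≠ 0) :
    ∃ α β γ : ℝ, z = α • a + β • b + γ • (a ⨯₃ b) := by
  have h0 : (a ⨯₃ b) ⬝ᵥ (a ⨯₃ b) ≠ 0 := fun h => hn (dotProduct_self_eq_zero.1 h)
  have h1 : ((a ⨯₃ b) ⬝ᵥ (a ⨯₃ b)) • z = (z ⬝ᵥ (b ⨯₃ (a ⨯₃ b))) • a +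
      (z ⬝ᵥ ((a ⨯₃ b) ⨯₃ a)) • b + (z ⬝ᵥ (a ⨯₃ b)) • (a ⨯₃ b) := by
    simp only [cross_apply, vec3_dotProduct]
    ext i
    fin_cases i <;> simp <;> ring
  refine ⟨((a ⨯₃ b) ⬝ᵥ (a ⨯₃ b))⁻¹ * (z ⬝ᵥ (b ⨯₃ (a ⨯₃ b))),
    ((a ⨯₃ b) ⬝ᵥ (a ⨯₃ b))⁻¹ * (z ⬝ᵥ ((a ⨯₃ b) ⨯₃ a)),
    ((a ⨯₃ b) ⬝ᵥ (a ⨯₃ b))⁻¹ * (z ⬝ᵥ (a ⨯₃ b)), ?_⟩
  rw [mul_smul, mul_smul, mul_smul, ← smul_add, ← smul_add, ← h1, smul_smul,
    inv_mul_cancel₀ h0, one_smul]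

section VAL

variable {S : Type w} [TopologicalSpace S] [ChartedSpace E2 S] [IsManifold (𝓡 2) 2 S]

/-- the Cayley equation holds for all vectors -/
lemma VAL_all (hGLB : Stmt_GLB.{w}) {f g : S → E3} (h : MPair f g) {R : E3 ≃ₗᵢ[ℝ] E3}
    (hR : 0 < LinearMap.det (R.toLinearEquiv : E3 →ₗ[ℝ] E3)) {q : S}
    (hq : ∀ v, FRD.dvec g q v = R (FRD.dvec f q v)) (z : E3) :
    L3 (R z) - L3 z = Yg f g q ⨯₃ (L3 (R z) + L3 z) := by
  have h1 := (hGLB S f g h).2.1 q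
  obtain ⟨f1, hf1⟩ : ∃ f1, f1 = FRD.dvec f q (ee 0) := ⟨_, rfl⟩
  obtain ⟨f2, hf2⟩ : ∃ f2, f2 = FRD.dvec f q (ee 1) := ⟨_, rfl⟩
  have e1 : L3 (R f1) - L3 f1 = Yg f g q ⨯₃ (L3 (R f1) + L3 f1) := by
    have := h1 (ee 0)
    rw [hq, ← hf1] at this
    exact this
  have e2 : L3 (R f2) - L3 f2 = Yg f g q ⨯₃ (L3 (R f2) + L3 f2) := by
    have := h1 (ee 1)
    rw [hq, ← hf2] at this
    exact this
  obtain ⟨f3, hf3⟩ := VAL_surj (L3 f1 ⨯₃ L3 f2)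
  have hR3 := VAL_cross R hR f1 f2 f3 hf3
  have e3 : L3 (R f3) - L3 f3 = Yg f g q ⨯₃ (L3 (R f3) + L3 f3) := by
    rw [hR3, hf3]
    exact VAL_alg _ _ _ _ _ e1 e2
  have hn : L3 f1 ⨯₃ L3 f2 ≠ 0 := by
    intro h0
    obtain ⟨r, s, hrs, h2⟩ := LOC_cross h0
    have h3 : r • f1 + s • f2 = 0 := LOC_inj (by rw [map_add, map_smul, map_smul, h2, map_zero])
    rw [hf1, hf2, ← LOC_lin] at h3
    have h4 : FRD.dvec f q (r • ee 0 + s • ee 1) = FRD.dvec f q 0 := by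
      rw [h3]
      change _ = (FRD.differential f q) 0
      rw [map_zero]
    have h9 := h.imm q h4
    apply hrs
    constructor
    · have := congrArg (fun z : E2 => z 0) h9
      simpa [ee] using this
    · have := congrArg (fun z : E2 => z 1) h9
      simpa [ee] using this
  obtain ⟨α, β, γ, hz⟩ := VAL_basis (L3 f1) (L3 f2) (L3 z) hn
  have hz' : z = α • f1 + β • f2 + γ • f3 := LOC_inj (by
    rw [map_add, map_add, map_smul, map_smul, map_smul, hf3]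
    exact hz)
  rw [hz']
  simp only [map_add, map_smul]
  rw [map_add] at e1 e2 e3
  have e4 : α • L3 (R f1) + β • L3 (R f2) + γ • L3 (R f3) - (α • L3 f1 + β • L3 f2 + γ • L3 f3) =
      α • (L3 (R f1) - L3 f1) + β • (L3 (R f2) - L3 f2) + γ • (L3 (R f3) - L3 f3) := by
    module
  rw [e4, e1, e2, e3]
  module

lemma VAL_affine (A : E3 ≃ᵃⁱ[ℝ] E3) (z : E3) : A z = A.linearIsometryEquiv z + A 0 := by
  have h4 := A.map_vadd (0 : E3) z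
  simp only [vadd_eq_add, add_zero] at h4
  exact h4

/-- the translation part -/
lemma VAL_W (hGLB : Stmt_GLB.{w}) {f g : S → E3} (h : MPair f g) {A : E3 ≃ᵃⁱ[ℝ] E3}
    (hA : Proper A) {q : S} (hq0 : g q = A (f q))
    (hq : ∀ v, FRD.dvec g q v = A.linearIsometryEquiv (FRD.dvec f q v)) :
    (2 : ℝ) • Wg f g q = L3 (A 0) - Yg f g q ⨯₃ L3 (A 0) := by
  have h1 := (hGLB S f g h).2.2 q
  have h2 := VAL_all hGLB h hA hq (f q)
  rw [hq0, VAL_affine A (f q)] at h1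
  simp only [map_add] at h1 h2
  have h3 : (2 : ℝ) • Wg f g q = L3 (A.linearIsometryEquiv (f q)) + L3 (A 0) - L3 (f q) -
      (Yg f g q ⨯₃ L3 (A.linearIsometryEquiv (f q)) + Yg f g q ⨯₃ L3 (A 0) +
        Yg f g q ⨯₃ L3 (f q)) := by
    rw [h1]
    abel
  rw [h3]
  have h4 : L3 (A.linearIsometryEquiv (f q)) = L3 (f q) +
      (Yg f g q ⨯₃ L3 (A.linearIsometryEquiv (f q)) + Yg f g q ⨯₃ L3 (f q)) := by
    rw [← h2]
    abel
  have h5 : L3 (A.linearIsometryEquiv (f q)) + L3 (A 0) - L3 (f q) -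
      (Yg f g q ⨯₃ L3 (A.linearIsometryEquiv (f q)) + Yg f g q ⨯₃ L3 (A 0) +
        Yg f g q ⨯₃ L3 (f q)) = (L3 (A.linearIsometryEquiv (f q)) - (L3 (f q) +
      (Yg f g q ⨯₃ L3 (A.linearIsometryEquiv (f q)) + Yg f g q ⨯₃ L3 (f q)))) +
      (L3 (A 0) - Yg f g q ⨯₃ L3 (A 0)) := by abel
  rw [h5, sub_eq_zero.2 h4, zero_add]

end VAL

theorem blk_VAL (hGLB : Stmt_GLB.{w}) (hSOL : Stmt_SOL) : Stmt_VAL.{w} := by
  intro S _ _ _ f g h A hA q q' h0 hd h0' hd'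
  have hY : Yg f g q = Yg f g q' := by
    have h1 := (hGLB S f g h).2.1 q
    have h2 : ∀ v, L3 (FRD.dvec g q v) - L3 (FRD.dvec f q v) =
        Yg f g q' ⨯₃ (L3 (FRD.dvec g q v) + L3 (FRD.dvec f q v)) := by
      intro v
      rw [hd v]
      exact VAL_all hGLB h hA hd' _
    have hx := mem_extChartAt_target (I := 𝓡 2) q
    refine GLB_unq hSOL blk_LOC h q hx (y := Yg f g q) (y' := Yg f g q') ?_ ?_
    · intro v
      rw [extChartAt_to_inv]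
      exact h1 v
    · intro v
      rw [extChartAt_to_inv]
      exact h2 v
  refine ⟨hY, ?_⟩
  have h3 := VAL_W hGLB h hA h0 hd
  have h4 := VAL_W hGLB h hA h0' hd'
  rw [hY, ← h4] at h3
  exact smul_right_injective V3 (two_ne_zero (α := ℝ)) h3

end Pool.SXB
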