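import Pool.Agent.Work.MP_02e829_sb.Interface

/-! # Block ELP: positive curvature in the chart -/

open Set Filter Manifold Matrix MeasureTheory Metric
open scoped Topology ContDiff Manifold

set_option autoImplicit false

universe w

namespace Pool.SXB

open Pool.FR (pd ee)

/-- the second order condition at a local minimum -/
theorem ELP_hess {U : Set E2} (hU : IsOpen U) {φ : E2 → ℝ} (hφ : ContDiffOn ℝ 2 φ U) {x0 : E2}
    (hx : x0 ∈ U) (hmin : IsLocalMin φ x0) : (∀ i, pd i φ x0 = 0) ∧ ∀ a b : ℝ,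
      0 ≤ a * (a * pd 0 (pd 0 φ) x0 + b * pd 1 (pd 0 φ) x0) +
        b * (a * pd 0 (pd 1 φ) x0 + b * pd 1 (pd 1 φ) x0) := by
  refine ⟨fun i => ?_, fun a b => ?_⟩
  · rw [pd, hmin.fderiv_eq_zero]
    rfl
  set ξ : E2 := a • ee 0 + b • ee 1 with hξ
  set γ : ℝ → E2 := fun t => x0 + t • ξ with hγ
  have hγ0 : γ 0 = x0 := by simp [hγ]
  have hγd : ∀ t, HasDerivAt γ ξ t := by
    intro t
    have h1 : HasDerivAt (fun t : ℝ => t • ξ) ((1 : ℝ) • ξ) t := (hasDerivAt_id t).smul_const ξ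
    rw [one_smul] at h1
    exact h1.const_add x0
  have hγc : Continuous γ := by
    rw [hγ]
    fun_prop
  have hγU : ∀ᶠ t in 𝓝 (0 : ℝ), γ t ∈ U := by
    apply hγc.continuousAt.eventually
    rw [hγ0]
    exact hU.mem_nhds hx
  set ψ : E2 → ℝ := fun x => a * pd 0 φ x + b * pd 1 φ x with hψ
  have hψe : ∀ x, fderiv ℝ φ x ξ = ψ x := by
    intro x
    rw [hξ, map_add, map_smul, map_smul]
    rfl
  have hd1 : ∀ᶠ t in 𝓝 (0 : ℝ), deriv (φ ∘ γ) t = (ψ ∘ γ) t := by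
    filter_upwards [hγU] with t ht
    have h1 : HasFDerivAt φ (fderiv ℝ φ (γ t)) (γ t) :=
      (Pool.FR.diff_at hU hφ (by norm_num) ht).hasFDerivAt
    have h2 := h1.comp_hasDerivAt t (hγd t)
    rw [h2.deriv]
    exact hψe _
  have hpd : ∀ i, DifferentiableAt ℝ (pd i φ) x0 := fun i =>
    Pool.FR.diff_at hU (Pool.FR.pd_contDiffOn hU hφ (m := 1) (by norm_num) i) le_rfl hx
  have hψd : DifferentiableAt ℝ ψ x0 :=
    ((hpd 0).const_mul a).add ((hpd 1).const_mul b)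
  have hd2 : deriv (deriv (φ ∘ γ)) 0 = a * (a * pd 0 (pd 0 φ) x0 + b * pd 1 (pd 0 φ) x0) +
        b * (a * pd 0 (pd 1 φ) x0 + b * pd 1 (pd 1 φ) x0) := by
    have h1 : deriv (deriv (φ ∘ γ)) 0 = deriv (ψ ∘ γ) 0 := Filter.EventuallyEq.deriv_eq hd1
    have h2 : HasFDerivAt ψ (fderiv ℝ ψ x0) (γ 0) := by
      rw [hγ0]
      exact hψd.hasFDerivAt
    rw [h1, (h2.comp_hasDerivAt 0 (hγd 0)).deriv]
    have h3 : ∀ i, pd i ψ x0 = a * pd i (pd 0 φ) x0 + b * pd i (pd 1 φ) x0 := by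
      intro i
      have h4 : fderiv ℝ ψ x0 = a • fderiv ℝ (pd 0 φ) x0 + b • fderiv ℝ (pd 1 φ) x0 := by
        have h5 := ((hpd 0).hasFDerivAt.const_mul a).add ((hpd 1).hasFDerivAt.const_mul b)
        exact h5.fderiv
      rw [pd, h4]
      rfl
    rw [hξ, map_add, map_smul, map_smul]
    have h6 : fderiv ℝ ψ x0 (ee 0) = pd 0 ψ x0 := rfl
    have h7 : fderiv ℝ ψ x0 (ee 1) = pd 1 ψ x0 := rfl
    rw [h6, h7, h3, h3, smul_eq_mul, smul_eq_mul]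
    ring
  rw [← hd2]
  by_contra hneg
  push Not at hneg
  have hd0 : deriv (φ ∘ γ) 0 = 0 := by
    rw [hd1.self_of_nhds]
    show ψ (γ 0) = 0
    rw [hγ0, ← hψe, hmin.fderiv_eq_zero]
    rfl
  have hcont : ContinuousAt (φ ∘ γ) 0 := by
    have h1 : ContinuousAt φ (γ 0) := by
      rw [hγ0]
      exact (Pool.FR.diff_at hU hφ (by norm_num) hx).continuousAt
    exact h1.comp hγc.continuousAt
  have hmax : IsLocalMax (φ ∘ γ) 0 := isLocalMax_of_deriv_deriv_neg hneg hd0 hcont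
  have hT : Tendsto γ (𝓝 0) (𝓝 x0) := by
    have h1 := hγc.tendsto 0
    rwa [hγ0] at h1
  have hmin' : ∀ᶠ t in 𝓝 (0 : ℝ), φ x0 ≤ φ (γ t) :=
    hT.eventually (p := fun y => φ x0 ≤ φ y) hmin
  have hconst : (φ ∘ γ) =ᶠ[𝓝 0] fun _ => φ x0 := by
    filter_upwards [hmax, hmin'] with t h1 h2
    have h3 : φ (γ t) ≤ φ (γ 0) := h1
    rw [hγ0] at h3
    exact le_antisymm h3 h2
  have h1 : deriv (φ ∘ γ) =ᶠ[𝓝 0] deriv (fun _ : ℝ => φ x0) := hconst.deriv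
  have h2 : deriv (deriv (φ ∘ γ)) 0 = 0 := by
    rw [h1.deriv_eq]
    simp
  rw [h2] at hneg
  exact lt_irrefl _ hneg

theorem ELP_dot3 (v w : V3) : v ⬝ᵥ w = v 0 * w 0 + v 1 * w 1 + v 2 * w 2 := by
  rw [Matrix.vec3_dotProduct]

/-- algebra in the space -/
theorem ELP_id (A B n v : V3) : (v ⬝ᵥ n) * ((A ⨯₃ B) ⬝ᵥ (A ⨯₃ B)) =
    (n ⬝ᵥ (A ⨯₃ B)) * (v ⬝ᵥ (A ⨯₃ B)) +
      ((n ⬝ᵥ A) * (B ⬝ᵥ B) - (n ⬝ᵥ B) * (A ⬝ᵥ B)) * (A ⬝ᵥ v) +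
      ((n ⬝ᵥ B) * (A ⬝ᵥ A) - (n ⬝ᵥ A) * (A ⬝ᵥ B)) * (B ⬝ᵥ v) := by
  simp only [ELP_dot3, cross_apply, Matrix.cons_val_zero, Matrix.cons_val_one, Matrix.cons_val]
  ring

theorem ELP_lag (A B : V3) : (A ⨯₃ B) ⬝ᵥ (A ⨯₃ B) =
    (A ⬝ᵥ A) * (B ⬝ᵥ B) - (A ⬝ᵥ B) ^ 2 := by
  simp only [ELP_dot3, cross_apply, Matrix.cons_val_zero, Matrix.cons_val_one, Matrix.cons_val]
  ring

theorem ELP_comb (A B : V3) (a b : ℝ) : (a • A + b • B) ⬝ᵥ (a • A + b • B) =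
    a ^ 2 * (A ⬝ᵥ A) + 2 * a * b * (A ⬝ᵥ B) + b ^ 2 * (B ⬝ᵥ B) := by
  simp only [ELP_dot3, Pi.add_apply, Pi.smul_apply, smul_eq_mul]
  ring

/-- the algebraic part -/
theorem ELP_alg (A B n F00 F01 F11 : V3)
    (hpos : ∀ a b : ℝ, ¬ (a = 0 ∧ b = 0) → 0 < (a • A + b • B) ⬝ᵥ (a • A + b • B))
    (hA : A ⬝ᵥ n = 0) (hB : B ⬝ᵥ n = 0)
    (hH : ∀ a b : ℝ, 2 * ((a • A + b • B) ⬝ᵥ (a • A + b • B)) ≤
      a ^ 2 * (F00 ⬝ᵥ n) + 2 * a * b * (F01 ⬝ᵥ n) + b ^ 2 * (F11 ⬝ᵥ n)) :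
    0 < (F00 ⬝ᵥ (A ⨯₃ B)) * (F11 ⬝ᵥ (A ⨯₃ B)) - (F01 ⬝ᵥ (A ⨯₃ B)) ^ 2 := by
  have hBB : 0 < B ⬝ᵥ B := by
    have h1 := hpos 0 1 (by norm_num)
    rw [ELP_comb] at h1
    simpa using h1
  have hW : 0 < (A ⨯₃ B) ⬝ᵥ (A ⨯₃ B) := by
    have h1 := hpos (B ⬝ᵥ B) (-(A ⬝ᵥ B)) (fun h => hBB.ne' h.1)
    rw [ELP_comb] at h1
    have h2 : (B ⬝ᵥ B) ^ 2 * (A ⬝ᵥ A) + 2 * (B ⬝ᵥ B) * -(A ⬝ᵥ B) * (A ⬝ᵥ B) +
        (-(A ⬝ᵥ B)) ^ 2 * (B ⬝ᵥ B) = (B ⬝ᵥ B) * ((A ⨯₃ B) ⬝ᵥ (A ⨯₃ B)) := by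
      rw [ELP_lag]
      ring
    rw [h2] at h1
    exact pos_of_mul_pos_right h1 hBB.le
  have hn : ∀ v : V3, (v ⬝ᵥ n) * ((A ⨯₃ B) ⬝ᵥ (A ⨯₃ B)) =
      (n ⬝ᵥ (A ⨯₃ B)) * (v ⬝ᵥ (A ⨯₃ B)) := by
    intro v
    rw [ELP_id, dotProduct_comm n A, dotProduct_comm n B, hA, hB]
    ring
  have hp11 : 0 < F11 ⬝ᵥ n := by
    have h1 := hH 0 1
    have h2 := hpos 0 1 (by norm_num)
    nlinarith
  have hdet : 0 < (F00 ⬝ᵥ n) * (F11 ⬝ᵥ n) - (F01 ⬝ᵥ n) ^ 2 := by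
    have h1 := hH (F11 ⬝ᵥ n) (-(F01 ⬝ᵥ n))
    have h2 := hpos (F11 ⬝ᵥ n) (-(F01 ⬝ᵥ n)) (fun h => hp11.ne' h.1)
    have h3 : 0 < (F11 ⬝ᵥ n) * ((F00 ⬝ᵥ n) * (F11 ⬝ᵥ n) - (F01 ⬝ᵥ n) ^ 2) := by
      nlinarith
    exact pos_of_mul_pos_right h3 hp11.le
  set W := A ⨯₃ B with hWd
  have h1 : ((F00 ⬝ᵥ n) * (F11 ⬝ᵥ n) - (F01 ⬝ᵥ n) ^ 2) * (W ⬝ᵥ W) ^ 2 =
      (n ⬝ᵥ W) ^ 2 * ((F00 ⬝ᵥ W) * (F11 ⬝ᵥ W) - (F01 ⬝ᵥ W) ^ 2) := by
    have e0 := hn F00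
    have e1 := hn F01
    have e2 := hn F11
    calc _ = ((F00 ⬝ᵥ n) * (W ⬝ᵥ W)) * ((F11 ⬝ᵥ n) * (W ⬝ᵥ W)) -
          ((F01 ⬝ᵥ n) * (W ⬝ᵥ W)) ^ 2 := by ring
      _ = _ := by rw [e0, e1, e2]; ring
  have h2 : 0 < (n ⬝ᵥ W) ^ 2 * ((F00 ⬝ᵥ W) * (F11 ⬝ᵥ W) - (F01 ⬝ᵥ W) ^ 2) := by
    rw [← h1]
    positivity
  exact pos_of_mul_pos_right h2 (sq_nonneg _)

theorem ELP_inner (a b : E3) : inner ℝ a b = L3 a ⬝ᵥ L3 b := by
  rw [ELP_dot3, PiLp.inner_apply, Fin.sum_univ_three]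
  simp only [RCLike.inner_apply, conj_trivial]
  show b 0 * a 0 + b 1 * a 1 + b 2 * a 2 = a 0 * b 0 + a 1 * b 1 + a 2 * b 2
  ring

/-- the local statement -/
theorem ELP_loc {U : Set E2} (hU : IsOpen U) {F : E2 → V3} (hF : ContDiffOn ℝ 2 F U) {x0 : E2}
    (hx : x0 ∈ U)
    (hpos : ∀ a b : ℝ, ¬ (a = 0 ∧ b = 0) →
      0 < (a • pd 0 F x0 + b • pd 1 F x0) ⬝ᵥ (a • pd 0 F x0 + b • pd 1 F x0)) (n : V3)
    (hn : ∀ᶠ x in 𝓝 x0, (F x - F x0) ⬝ᵥ (F x - F x0) ≤ (F x - F x0) ⬝ᵥ n) :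
    0 < hh F 0 0 x0 * hh F 1 1 x0 - hh F 0 1 x0 ^ 2 := by
  set G : E2 → V3 := fun x => F x - F x0 with hG
  have hGU : ContDiffOn ℝ 2 G U := hF.sub contDiffOn_const
  have hG0 : G x0 = 0 := by simp [hG]
  have hFd : ∀ x ∈ U, DifferentiableAt ℝ F x := fun x hx => Pool.FR.diff_at hU hF (by norm_num) hx
  have hGd : ∀ x ∈ U, DifferentiableAt ℝ G x := fun x hx => Pool.FR.diff_at hU hGU (by norm_num) hx
  have hGpd : ∀ i, ∀ x ∈ U, pd i G x = pd i F x := by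
    intro i x hx
    rw [hG, Pool.FR.pd_sub i (hFd x hx) (differentiableAt_const _), Pool.FR.pd_const, sub_zero]
  set φ : E2 → ℝ := fun x => G x ⬝ᵥ n - G x ⬝ᵥ G x with hφ
  have hnc : ContDiffOn ℝ 2 (fun _ : E2 => n) U := contDiffOn_const
  have hφU : ContDiffOn ℝ 2 φ U :=
    (Pool.FR.contDiffOn_dot hGU hnc).sub (Pool.FR.contDiffOn_dot hGU hGU)
  have hmin : IsLocalMin φ x0 := by
    filter_upwards [hn] with x h1
    have h2 : φ x0 = 0 := by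
      simp only [hφ, hG0, zero_dotProduct, sub_zero]
    rw [h2]
    show 0 ≤ G x ⬝ᵥ n - G x ⬝ᵥ G x
    exact sub_nonneg.mpr h1
  obtain ⟨hφ1, hφ2⟩ := ELP_hess hU hφU hx hmin
  have hdotd : ∀ {f g : E2 → V3} {x : E2}, DifferentiableAt ℝ f x → DifferentiableAt ℝ g x →
      DifferentiableAt ℝ (fun y => f y ⬝ᵥ g y) x := by
    intro f g x hf hg
    have hf' := differentiableAt_pi.1 hf
    have hg' := differentiableAt_pi.1 hg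
    have h1 : (fun y => f y ⬝ᵥ g y) = fun y => f y 0 * g y 0 + f y 1 * g y 1 + f y 2 * g y 2 :=
      funext fun y => ELP_dot3 _ _
    rw [h1]
    exact (((hf' 0).mul (hg' 0)).add ((hf' 1).mul (hg' 1))).add ((hf' 2).mul (hg' 2))
  -- first derivatives
  have hpd1 : ∀ i, ∀ x ∈ U, pd i φ x = pd i F x ⬝ᵥ n - (pd i F x ⬝ᵥ G x + G x ⬝ᵥ pd i F x) := by
    intro i x hx
    have hc : DifferentiableAt ℝ (fun _ : E2 => n) x := differentiableAt_const _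
    rw [hφ, Pool.FR.pd_sub i (hdotd (hGd x hx) hc) (hdotd (hGd x hx) (hGd x hx)),
      Pool.FR.pd_dot i (hGd x hx) hc, Pool.FR.pd_dot i (hGd x hx) (hGd x hx),
      Pool.FR.pd_const, hGpd i x hx, dotProduct_zero, add_zero]
  have hFi : ∀ i, DifferentiableAt ℝ (pd i F) x0 := fun i =>
    Pool.FR.diff_at hU (Pool.FR.pd_contDiffOn hU hF (m := 1) (by norm_num) i) le_rfl hx
  have hpd2 : ∀ i j, pd j (pd i φ) x0 = pd j (pd i F) x0 ⬝ᵥ n -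
      2 * (pd i F x0 ⬝ᵥ pd j F x0) := by
    intro i j
    have hc : DifferentiableAt ℝ (fun _ : E2 => n) x0 := differentiableAt_const _
    have hs : DifferentiableAt ℝ (fun x => pd i F x ⬝ᵥ G x + G x ⬝ᵥ pd i F x) x0 :=
      (hdotd (hFi i) (hGd x0 hx)).add (hdotd (hGd x0 hx) (hFi i))
    rw [Pool.FR.pd_congr hU (hpd1 i) j hx, Pool.FR.pd_sub j (hdotd (hFi i) hc) hs,
      Pool.FR.pd_add j (hdotd (hFi i) (hGd x0 hx)) (hdotd (hGd x0 hx) (hFi i)),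
      Pool.FR.pd_dot j (hFi i) hc, Pool.FR.pd_dot j (hFi i) (hGd x0 hx),
      Pool.FR.pd_dot j (hGd x0 hx) (hFi i), Pool.FR.pd_const, hGpd j x0 hx, hG0,
      dotProduct_zero, dotProduct_zero, zero_dotProduct, dotProduct_comm (pd j F x0)]
    ring
  have hperp : ∀ i, pd i F x0 ⬝ᵥ n = 0 := by
    intro i
    have h1 := hφ1 i
    rw [hpd1 i x0 hx, hG0, dotProduct_zero, zero_dotProduct, add_zero, sub_zero] at h1
    exact h1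
  have hcomm : pd 0 (pd 1 F) x0 = pd 1 (pd 0 F) x0 := Pool.FR.pd_comm hU hF le_rfl 0 1 hx
  refine ELP_alg (pd 0 F x0) (pd 1 F x0) n _ _ _ hpos (hperp 0) (hperp 1) fun a b => ?_
  have h1 := hφ2 a b
  rw [hpd2, hpd2, hpd2, hpd2, ← hcomm] at h1
  rw [ELP_comb]
  rw [dotProduct_comm (pd 1 F x0) (pd 0 F x0)] at h1
  nlinarith

theorem blk_ELP : Stmt_ELP.{w} := by
  intro S _ _ _ f hf himm q hq
  obtain ⟨n, hn⟩ := hq
  set U : Set E2 := (extChartAt (𝓡 2) q).target with hUd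
  have hU : IsOpen U := isOpen_extChartAt_target q
  set x0 : E2 := extChartAt (𝓡 2) q q with hx0
  have hx : x0 ∈ U := mem_extChartAt_target q
  set fh : E2 → E3 := fun x => f ((extChartAt (𝓡 2) q).symm x) with hfh
  have hfhU : ContDiffOn ℝ 2 fh U := by
    have h1 := hf.comp_contMDiffOn (contMDiffOn_extChartAt_symm (I := 𝓡 2) (n := 2) q)
    exact contMDiffOn_iff_contDiffOn.1 h1
  have hFU : ContDiffOn ℝ 2 (loc f q) U := L3.contDiff.comp_contDiffOn hfhU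
  have hsymm : (extChartAt (𝓡 2) q).symm x0 = q := extChartAt_to_inv q
  have hpdF : ∀ i, pd i (loc f q) x0 = L3 (pd i fh x0) := fun i =>
    Pool.FR.pd_clm i L3 (Pool.FR.diff_at hU hfhU (by norm_num) hx)
  have hinj : Function.Injective (fderiv ℝ fh x0) := by
    have h1 : ⇑(fderiv ℝ fh x0) =
        FRD.dvec f ((extChartAt (𝓡 2) q).symm x0) ∘
          (mfderiv 𝓘(ℝ, E2) (𝓡 2) (extChartAt (𝓡 2) q).symm x0) :=
      funext fun w => Pool.RL.fderiv_chart hf q hx w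
    rw [h1]
    exact (himm _).comp (Pool.RL.chart_injective q hx)
  refine ELP_loc hU hFU hx (fun a b hab => ?_) (L3 n) ?_
  · have h1 : a • pd 0 (loc f q) x0 + b • pd 1 (loc f q) x0 =
        L3 (fderiv ℝ fh x0 (a • ee 0 + b • ee 1)) := by
      rw [hpdF, hpdF, map_add, map_smul, map_smul, map_add, map_smul, map_smul]
      rfl
    rw [h1, ← ELP_inner]
    have h2 : fderiv ℝ fh x0 (a • ee 0 + b • ee 1) ≠ 0 := by
      intro h3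
      have h4 : a • ee 0 + b • ee 1 = 0 := by
        apply hinj
        rw [h3, map_zero]
      apply hab
      have h5 := congrArg (fun v : E2 => v 0) h4
      have h6 := congrArg (fun v : E2 => v 1) h4
      simp [ee] at h5 h6
      exact ⟨h5, h6⟩
    rw [real_inner_self_eq_norm_sq]
    have := norm_pos_iff.mpr h2
    positivity
  · have h1 : ContinuousAt (extChartAt (𝓡 2) q).symm x0 := continuousAt_extChartAt_symm q
    have h2 : ∀ᶠ x in 𝓝 x0, ‖f ((extChartAt (𝓡 2) q).symm x) - f q‖ ^ 2 ≤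
        inner ℝ (f ((extChartAt (𝓡 2) q).symm x) - f q) n := by
      have h3 := h1.eventually (p := fun q' => ‖f q' - f q‖ ^ 2 ≤ inner ℝ (f q' - f q) n)
      rw [hsymm] at h3
      exact h3 hn
    filter_upwards [h2] with x h3
    have h4 : loc f q x - loc f q x0 = L3 (f ((extChartAt (𝓡 2) q).symm x) - f q) := by
      unfold loc
      rw [hsymm, map_sub]
    rw [h4, ← ELP_inner, ← ELP_inner, real_inner_self_eq_norm_sq]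
    exact h3

end Pool.SXB
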