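import Pool.Agent.Work.MP_02e829_sb.Interface

/-! # Block CLO: nearby times give close pairs (helper94) -/

open Set Filter Manifold Matrix MeasureTheory Metric
open scoped Topology ContDiff Manifold

set_option autoImplicit false

universe w

namespace Pool.SXB

open Pool.FR (pd ee)

section surface

variable {S : Type w} [TopologicalSpace S] [ChartedSpace E2 S] [IsManifold (𝓡 2) 2 S]

/-- the differential of the chart is surjective -/
theorem CLO_surj (p : S) {x : E2} (hx : x ∈ (extChartAt (𝓡 2) p).target) :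
    Function.Surjective (mfderiv 𝓘(ℝ, E2) (𝓡 2) (extChartAt (𝓡 2) p).symm x) := by
  have : IsManifold (𝓡 2) 1 S := IsManifold.of_le (n := 2) (by norm_num)
  have h1 := isInvertible_mfderivWithin_extChartAt_symm (I := 𝓡 2) hx
  have h2 : range (𝓡 2) = univ := (𝓡 2).range_eq_univ
  rw [h2, mfderivWithin_univ] at h1
  exact h1.surjective

theorem CLO_lower {A : E2 →L[ℝ] E3} (hA : Function.Injective A) :
    ∃ c : ℝ, 0 < c ∧ ∀ v, c * ‖v‖ ≤ ‖A v‖ := by
  have hker : (A : E2 →ₗ[ℝ] E3).ker = ⊥ := LinearMap.ker_eq_bot.2 hA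
  obtain ⟨K, K0, hK⟩ := LinearMap.exists_antilipschitzWith (A : E2 →ₗ[ℝ] E3) hker
  obtain ⟨k, hk⟩ : ∃ k : ℝ, k = K := ⟨_, rfl⟩
  have hkpos : 0 < k := by
    rw [hk]
    exact K0
  refine ⟨k⁻¹, inv_pos.2 hkpos, fun v => ?_⟩
  have h1 : ‖v‖ ≤ k * ‖A v‖ := by
    have := hK.le_mul_dist v 0
    rw [dist_zero_right] at this
    rw [hk]
    simpa using this
  rw [inv_mul_le_iff₀ hkpos]
  exact h1

theorem CLO_op {A B C : E2 →L[ℝ] E3} {c : ℝ} (hC : ∀ v, c * ‖v‖ ≤ ‖C v‖)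
    (hA : ‖A - C‖ ≤ c / 8) (hB : ‖B - C‖ ≤ c / 8) (v : E2) : 2 * ‖A v - B v‖ ≤ ‖B v‖ := by
  have h1 : ‖A v - C v‖ ≤ c / 8 * ‖v‖ := by
    have := (A - C).le_of_opNorm_le hA v
    simpa using this
  have h2 : ‖B v - C v‖ ≤ c / 8 * ‖v‖ := by
    have := (B - C).le_of_opNorm_le hB v
    simpa using this
  have h3 : ‖A v - B v‖ ≤ ‖A v - C v‖ + ‖B v - C v‖ := by
    have := norm_sub_le (A v - C v) (B v - C v)
    simpa using this
  have h4 : ‖C v‖ ≤ ‖B v‖ + ‖B v - C v‖ := by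
    have := norm_sub_le (B v) (B v - C v)
    simpa using this
  have h5 := hC v
  have h6 := norm_nonneg (A v - C v)
  linarith

omit [IsManifold (𝓡 2) 2 S] in
theorem CLO_norm {f g : S → E3} (iso : ∀ p v w, FRD.firstForm f p v w = FRD.firstForm g p v w)
    (p : S) (v : E2) : ‖FRD.dvec f p v‖ = ‖FRD.dvec g p v‖ := by
  have h1 := iso p v v
  unfold FRD.firstForm at h1
  rw [real_inner_self_eq_norm_sq, real_inner_self_eq_norm_sq] at h1
  exact (sq_eq_sq₀ (norm_nonneg _) (norm_nonneg _)).1 h1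

theorem CLO_close {f : ℝ → S → E3} (hf : Fam2 f) {t0 : ℝ} (ht0 : t0 ∈ Icc (0 : ℝ) 1) (p : S) :
    ∀ᶠ z : ℝ × S in 𝓝 (t0, p), z.1 ∈ Icc (0 : ℝ) 1 →
      ∀ v, 2 * ‖FRD.dvec (f z.1) z.2 v - FRD.dvec (f t0) z.2 v‖ ≤ ‖FRD.dvec (f t0) z.2 v‖ := by
  set φ := extChartAt (𝓡 2) p with hφ
  set A : ℝ × E2 → (E2 →L[ℝ] E3) := fun z => fderiv ℝ (fun x => f z.1 (φ.symm x)) z.2 with hA
  have hxp : φ p ∈ φ.target := φ.map_source (mem_extChartAt_source (I := 𝓡 2) p)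
  have hinj : Function.Injective (A (t0, φ p)) := by
    have h1 : ⇑(A (t0, φ p)) = FRD.dvec (f t0) (φ.symm (φ p)) ∘
        (mfderiv 𝓘(ℝ, E2) (𝓡 2) φ.symm (φ p)) :=
      funext fun w => Pool.RL.fderiv_chart (hf.smooth t0 ht0) p hxp w
    rw [h1]
    exact (hf.imm t0 ht0 _).comp (Pool.RL.chart_injective p hxp)
  obtain ⟨c, hc, hcl⟩ := CLO_lower hinj
  have hcont : ∀ᶠ z in 𝓝[Icc (0 : ℝ) 1 ×ˢ φ.target] (t0, φ p), ‖A z - A (t0, φ p)‖ ≤ c / 8 := by
    have h1 : ContinuousWithinAt A (Icc (0 : ℝ) 1 ×ˢ φ.target) (t0, φ p) :=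
      hf.cont1 p (t0, φ p) ⟨ht0, hxp⟩
    have h2 := Metric.continuousWithinAt_iff'.1 h1 (c / 8) (by positivity)
    filter_upwards [h2] with z hz
    rw [dist_eq_norm] at hz
    exact hz.le
  rw [eventually_nhdsWithin_iff] at hcont
  have hφc : ContinuousAt φ p := continuousAt_extChartAt (I := 𝓡 2) p
  have c1 : Tendsto (fun z : ℝ × S => (z.1, φ z.2)) (𝓝 (t0, p)) (𝓝 (t0, φ p)) := by
    have h1 : ContinuousAt (fun z : ℝ × S => (z.1, φ z.2)) (t0, p) :=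
      continuousAt_fst.prodMk (ContinuousAt.comp (f := Prod.snd) (g := φ) hφc continuousAt_snd)
    exact h1
  have c2 : Tendsto (fun z : ℝ × S => (t0, φ z.2)) (𝓝 (t0, p)) (𝓝 (t0, φ p)) := by
    have h1 : ContinuousAt (fun z : ℝ × S => (t0, φ z.2)) (t0, p) :=
      continuousAt_const.prodMk (ContinuousAt.comp (f := Prod.snd) (g := φ) hφc continuousAt_snd)
    exact h1
  have c3 : ∀ᶠ z : ℝ × S in 𝓝 (t0, p), z.2 ∈ φ.source := by
    have h1 : Tendsto (fun z : ℝ × S => z.2) (𝓝 (t0, p)) (𝓝 p) := continuousAt_snd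
    exact h1.eventually (extChartAt_source_mem_nhds (I := 𝓡 2) p)
  filter_upwards [c1.eventually hcont, c2.eventually hcont, c3] with z h1 h2 h3 hz v
  have hx : φ z.2 ∈ φ.target := φ.map_source h3
  have h4 := h1 ⟨hz, hx⟩
  have h5 := h2 ⟨ht0, hx⟩
  obtain ⟨w, hw⟩ := CLO_surj p hx v
  have h6 := CLO_op hcl h4 h5 w
  have e1 : A (z.1, φ z.2) w = FRD.dvec (f z.1) z.2 v := by
    have := Pool.RL.fderiv_chart (hf.smooth z.1 hz) p hx w
    rw [hw, φ.left_inv h3] at this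
    exact this
  have e2 : A (t0, φ z.2) w = FRD.dvec (f t0) z.2 v := by
    have := Pool.RL.fderiv_chart (hf.smooth t0 ht0) p hx w
    rw [hw, φ.left_inv h3] at this
    exact this
  rw [e1, e2] at h6
  exact h6

end surface

theorem blk_CLO : Stmt_CLO.{w} := by
  intro S _ _ _ _ f hf t0 ht0
  have h1 : ∀ᶠ t in 𝓝 t0, ∀ p ∈ (univ : Set S), t ∈ Icc (0 : ℝ) 1 →
      ∀ v, 2 * ‖FRD.dvec (f t) p v - FRD.dvec (f t0) p v‖ ≤ ‖FRD.dvec (f t0) p v‖ :=
    isCompact_univ.eventually_forall_of_forall_eventually fun p _ => CLO_close hf ht0 p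
  rw [eventually_nhdsWithin_iff]
  filter_upwards [h1] with t ht htI
  have iso : ∀ p v w, FRD.firstForm (f t0) p v w = FRD.firstForm (f t) p v w := fun p v w => by
    rw [hf.iso t0 ht0, hf.iso t htI]
  refine ⟨⟨hf.smooth t0 ht0, hf.smooth t htI, hf.imm t0 ht0, iso, fun p v => ?_⟩,
    ⟨hf.smooth t htI, hf.smooth t0 ht0, hf.imm t htI, fun p v w => (iso p v w).symm,
      fun p v => ?_⟩⟩
  · exact ht p (mem_univ p) htI v
  · rw [← CLO_norm iso p v, norm_sub_rev]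
    exact ht p (mem_univ p) htI v

end Pool.SXB
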