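import Pool.Agent.Work.MP_02e829_sb.Interface

/-!
# Block LOC: the pair in a chart
-/

open Set Filter Manifold Matrix MeasureTheory Metric
open scoped Topology ContDiff Manifold

set_option autoImplicit false

universe w

namespace Pool.SXB

open Pool.FR (pd ee)

lemma LOC_L3 (v : E3) (a : Fin 3) : L3 v a = v a := rfl

lemma LOC_inner (v w : E3) : inner ℝ v w = L3 v ⬝ᵥ L3 w := by
  rw [PiLp.inner_apply, dotProduct]
  refine Finset.sum_congr rfl fun a _ => ?_
  rw [LOC_L3, LOC_L3]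
  simp [mul_comm]

lemma LOC_inj : Function.Injective L3 := fun v w h => by
  ext a
  exact congrFun h a

section LOC

variable {S : Type w} [TopologicalSpace S] [ChartedSpace E2 S] [IsManifold (𝓡 2) 2 S]

lemma LOC_smooth {f : S → E3} (hf : ContMDiff (𝓡 2) (𝓡 3) 2 f) (p : S) :
    ContDiffOn ℝ 2 (fun x => f ((extChartAt (𝓡 2) p).symm x)) (extChartAt (𝓡 2) p).target := by
  have h1 := hf.comp_contMDiffOn (contMDiffOn_extChartAt_symm (I := 𝓡 2) (n := 2) p)
  exact contMDiffOn_iff_contDiffOn.1 h1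

lemma LOC_smooth' {f : S → E3} (hf : ContMDiff (𝓡 2) (𝓡 3) 2 f) (p : S) :
    ContDiffOn ℝ 2 (loc f p) (extChartAt (𝓡 2) p).target :=
  L3.contDiff.comp_contDiffOn (LOC_smooth hf p)

/-- the differential of the inverse chart -/
noncomputable def LOC_D (p : S) (x : E2) : E2 →L[ℝ] E2 :=
  mfderiv 𝓘(ℝ, E2) (𝓡 2) (extChartAt (𝓡 2) p).symm x

omit [IsManifold (𝓡 2) 2 S] in
lemma LOC_lin (k : S → E3) (q : S) (r s : ℝ) (v u : E2) :
    FRD.dvec k q (r • v + s • u) = r • FRD.dvec k q v + s • FRD.dvec k q u := by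
  change (FRD.differential k q) (r • v + s • u) =
    r • (FRD.differential k q) v + s • (FRD.differential k q) u
  rw [map_add, map_smul, map_smul]

lemma LOC_Dinj (p : S) {x : E2} (hx : x ∈ (extChartAt (𝓡 2) p).target) :
    Function.Injective (LOC_D p x) := Pool.RL.chart_injective p hx

/-- the partial derivatives in the chart -/
lemma LOC_pd {f : S → E3} (hf : ContMDiff (𝓡 2) (𝓡 3) 2 f) (p : S) {x : E2}
    (hx : x ∈ (extChartAt (𝓡 2) p).target) (i : Fin 2) :
    pd i (loc f p) x = L3 (FRD.dvec f ((extChartAt (𝓡 2) p).symm x) (LOC_D p x (ee i))) := by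
  have h1 : DifferentiableAt ℝ (fun x => f ((extChartAt (𝓡 2) p).symm x)) x :=
    Pool.FR.diff_at (isOpen_extChartAt_target p) (LOC_smooth hf p) (by norm_num) hx
  have h2 : pd i (loc f p) x =
      L3 (pd i (fun x => f ((extChartAt (𝓡 2) p).symm x)) x) := Pool.FR.pd_clm i L3 h1
  rw [h2, Pool.FR.pd, Pool.RL.fderiv_chart hf p hx]
  rfl

omit [IsManifold (𝓡 2) 2 S] in
lemma LOC_close {f g : S → E3} (h : MPair f g) (q : S) (v : E2)
    (h0 : FRD.dvec f q v + FRD.dvec g q v = 0) : v = 0 := by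
  have h1 := h.close q v
  have h2 : FRD.dvec g q v = - FRD.dvec f q v := eq_neg_of_add_eq_zero_right h0
  have h3 : FRD.dvec g q v - FRD.dvec f q v = -((2 : ℝ) • FRD.dvec f q v) := by
    rw [h2, two_smul]
    abel
  rw [h3, norm_neg, norm_smul] at h1
  have h4 : ‖(2 : ℝ)‖ = 2 := by norm_num
  rw [h4] at h1
  have h5 : ‖FRD.dvec f q v‖ = 0 := le_antisymm (by linarith [norm_nonneg (FRD.dvec f q v)])
    (norm_nonneg _)
  have h6 : FRD.dvec f q v = 0 := norm_eq_zero.1 h5
  have h7 : FRD.dvec f q v = FRD.dvec f q 0 := by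
    rw [h6]
    change _ = (FRD.differential f q) 0
    rw [map_zero]
  exact h.imm q h7

/-- parallel vectors -/
lemma LOC_cross {a b : V3} (h : a ⨯₃ b = 0) : ∃ r s : ℝ, ¬ (r = 0 ∧ s = 0) ∧
    r • a + s • b = 0 := by
  by_cases hb : b = 0
  · exact ⟨0, 1, by simp, by simp [hb]⟩
  · -- a is a multiple of b
    have h1 : b ⬝ᵥ b ≠ 0 := fun h => hb (dotProduct_self_eq_zero.1 h)
    refine ⟨b ⬝ᵥ b, -(a ⬝ᵥ b), fun h2 => h1 h2.1, ?_⟩
    have h3 : ∀ i, (a ⨯₃ b) i = 0 := fun i => by rw [h]; rfl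
    have e0 := h3 0
    have e1 := h3 1
    have e2 := h3 2
    rw [cross_apply] at e0 e1 e2
    simp at e0 e1 e2
    ext i
    simp only [Pi.add_apply, Pi.smul_apply, smul_eq_mul, vec3_dotProduct, Pi.zero_apply]
    fin_cases i <;> simp
    · linear_combination b 1 * e2 - b 2 * e1
    · linear_combination -b 0 * e2 + b 2 * e0
    · linear_combination b 0 * e1 - b 1 * e0

end LOC

theorem blk_LOC : Stmt_LOC.{w} := by
  intro S _ _ _ f g h p
  have hop := isOpen_extChartAt_target (I := 𝓡 2) p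
  have hF := LOC_smooth' h.smf p
  have hG := LOC_smooth' h.smg p
  refine ⟨hop, hF, hG, fun x hx i j => ?_, fun x hx hn => ?_⟩
  · rw [LOC_pd h.smf p hx, LOC_pd h.smf p hx, LOC_pd h.smg p hx, LOC_pd h.smg p hx,
      ← LOC_inner, ← LOC_inner]
    exact h.iso _ _ _
  · have hdF : DifferentiableAt ℝ (loc f p) x := Pool.FR.diff_at hop hF (by norm_num) hx
    have hdG : DifferentiableAt ℝ (loc g p) x := Pool.FR.diff_at hop hG (by norm_num) hx
    set q := (extChartAt (𝓡 2) p).symm x with hq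
    obtain ⟨D, hD⟩ : ∃ D : E2 →L[ℝ] E2, D = LOC_D p x := ⟨_, rfl⟩
    have hm : ∀ i, pd i (mm (loc f p) (loc g p)) x = (1 / 2 : ℝ) •
        L3 (FRD.dvec f q (D (ee i)) + FRD.dvec g q (D (ee i))) := by
      intro i
      have h1 : pd i (mm (loc f p) (loc g p)) x =
          (1 / 2 : ℝ) • (pd i (loc f p) x + pd i (loc g p) x) := by
        rw [← Pool.FR.pd_add i hdF hdG]
        change fderiv ℝ (fun y => (1 / 2 : ℝ) • (loc f p y + loc g p y)) x (ee i) = _
        rw [fderiv_fun_const_smul (hdF.fun_add hdG)]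
        rfl
      rw [h1, LOC_pd h.smf p hx, LOC_pd h.smg p hx, map_add, hD]
    obtain ⟨r, s, hrs, h2⟩ := LOC_cross hn
    rw [hm 0, hm 1] at h2
    have h3 : L3 (FRD.dvec f q (D (r • ee 0 + s • ee 1)) +
        FRD.dvec g q (D (r • ee 0 + s • ee 1))) = 0 := by
      have h4 : ∀ k : S → E3, FRD.dvec k q (D (r • ee 0 + s • ee 1)) =
          r • FRD.dvec k q (D (ee 0)) + s • FRD.dvec k q (D (ee 1)) := by
        intro k
        rw [map_add, map_smul, map_smul, LOC_lin]
      have h5 : FRD.dvec f q (D (r • ee 0 + s • ee 1)) + FRD.dvec g q (D (r • ee 0 + s • ee 1)) =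
          (2 : ℝ) • (r • (1 / 2 : ℝ) • (FRD.dvec f q (D (ee 0)) + FRD.dvec g q (D (ee 0))) +
          s • (1 / 2 : ℝ) • (FRD.dvec f q (D (ee 1)) + FRD.dvec g q (D (ee 1)))) := by
        rw [h4, h4]
        module
      rw [h5, map_smul, map_add, map_smul, map_smul, map_smul, map_smul, h2, smul_zero]
    have h7 : FRD.dvec f q (D (r • ee 0 + s • ee 1)) +
        FRD.dvec g q (D (r • ee 0 + s • ee 1)) = 0 := LOC_inj (by rw [h3, map_zero])
    have h8 := LOC_close h q _ h7
    have h9 : r • ee 0 + s • ee 1 = (0 : E2) := by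
      refine LOC_Dinj p hx ?_
      rw [← hD, h8, map_zero]
    apply hrs
    constructor
    · have := congrArg (fun z : E2 => z 0) h9
      simpa [ee] using this
    · have := congrArg (fun z : E2 => z 1) h9
      simpa [ee] using this

end Pool.SXB
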