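import Pool.Agent.Work.MP_02e829_sb.Interface

/-!
# Block STA: the static theorem
-/

open Set Filter Manifold Matrix MeasureTheory Metric
open scoped Topology ContDiff Manifold

set_option autoImplicit false

universe w

namespace Pool.SXB

open Pool.FR (pd ee)

section STA

variable {S : Type w} [TopologicalSpace S] [ChartedSpace E2 S] [IsManifold (𝓡 2) 2 S]

/-- a linear functional of the motion on the surface -/
noncomputable def STA_L (f g : S → E3) (a b : V3) (q : S) : ℝ :=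
  a ⬝ᵥ Yg f g q + b ⬝ᵥ Wg f g q

lemma STA_pos (hSIG : Stmt_SIG) (hLOC : Stmt_LOC.{w}) {f g : S → E3} (h : MPair f g) {q : S}
    (hq : Ell f g q) : PosAt (loc f q) (loc g q) (extChartAt (𝓡 2) q q) :=
  (hSIG _ _ _ (hLOC S f g h q) _ (mem_extChartAt_target q)).2 hq.1 hq.2

lemma STA_ll (hGLB : Stmt_GLB.{w}) {f g : S → E3} (h : MPair f g) (a b : V3) (q : S) {x : E2}
    (hx : x ∈ (extChartAt (𝓡 2) q).target) :
    ll (loc f q) (loc g q) a b x = STA_L f g a b ((extChartAt (𝓡 2) q).symm x) := by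
  have h1 := (hGLB S f g h).1 q x hx
  rw [ll, STA_L, h1.1, h1.2]

omit [IsManifold (𝓡 2) 2 S] in
lemma STA_tend (q : S) : Tendsto (extChartAt (𝓡 2) q).symm (𝓝 (extChartAt (𝓡 2) q q)) (𝓝 q) := by
  have h1 : ContinuousAt (extChartAt (𝓡 2) q).symm (extChartAt (𝓡 2) q q) :=
    continuousAt_extChartAt_symm q
  have h2 : (extChartAt (𝓡 2) q).symm (extChartAt (𝓡 2) q q) = q := extChartAt_to_inv q
  rw [ContinuousAt, h2] at h1
  exact h1

lemma STA_open (hSIG : Stmt_SIG) (hLPR : Stmt_LPR) (hLOC : Stmt_LOC.{w}) (hGLB : Stmt_GLB.{w})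
    (hLCN : Stmt_LCN.{w}) {f g : S → E3} (h : MPair f g) {q : S} (hq : Ell f g q) {a b : V3}
    (hab : a ⬝ᵥ b ≠ 0) (hm : ∀ q', STA_L f g a b q' ≤ STA_L f g a b q) :
    ∀ᶠ q' in 𝓝 q, Yg f g q' = Yg f g q ∧ Wg f g q' = Wg f g q := by
  refine hLCN S f g h q ?_
  refine hLPR _ _ _ (hLOC S f g h q) a b hab _ (mem_extChartAt_target q)
    (STA_pos hSIG hLOC h hq) ?_
  filter_upwards [(isOpen_extChartAt_target q).mem_nhds (mem_extChartAt_target (I := 𝓡 2) q)]
    with x hx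
  rw [STA_ll hGLB h a b q hx, STA_ll hGLB h a b q (mem_extChartAt_target q), extChartAt_to_inv]
  exact hm _

lemma STA_kil (hSIG : Stmt_SIG) (hKIL : Stmt_KIL) (hLOC : Stmt_LOC.{w}) (hGLB : Stmt_GLB.{w})
    (hLCN : Stmt_LCN.{w}) {f g : S → E3} (h : MPair f g) {q : S} (hq : Ell f g q) {a b : V3}
    {c : ℝ} (hab : ¬ (a = 0 ∧ b = 0)) (hm : ∀ q', STA_L f g a b q' = c) :
    ∀ᶠ q' in 𝓝 q, Yg f g q' = Yg f g q ∧ Wg f g q' = Wg f g q := by
  refine hLCN S f g h q ?_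
  refine hKIL _ _ _ (hLOC S f g h q) a b c hab _ (mem_extChartAt_target q)
    (STA_pos hSIG hLOC h hq) ?_
  filter_upwards [(isOpen_extChartAt_target q).mem_nhds (mem_extChartAt_target (I := 𝓡 2) q)]
    with x hx
  rw [STA_ll hGLB h a b q hx]
  exact hm _

omit [ChartedSpace E2 S] [IsManifold (𝓡 2) 2 S] in
lemma STA_const [ConnectedSpace S] {P : S → V3 × V3} (h : ∀ q, ∀ᶠ q' in 𝓝 q, P q' = P q) :
    ∃ c, ∀ q, P q = c := by
  have h1 : IsLocallyConstant P := (IsLocallyConstant.iff_eventually_eq P).2 h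
  obtain ⟨q0⟩ : Nonempty S := inferInstance
  exact ⟨P q0, fun q => h1.apply_eq_of_preconnectedSpace q q0⟩

/-- perturbation of a functional -/
lemma STA_pert (Φ : Fin 6 → V3 × V3) (Y0 W0 a b : V3) (hab : ¬ (a = 0 ∧ b = 0))
    (hlt : ∀ i, a ⬝ᵥ (Φ i).1 + b ⬝ᵥ (Φ i).2 < a ⬝ᵥ Y0 + b ⬝ᵥ W0) :
    ∃ a' b' : V3, a' ⬝ᵥ b' ≠ 0 ∧
      ∀ i, a' ⬝ᵥ (Φ i).1 + b' ⬝ᵥ (Φ i).2 < a' ⬝ᵥ Y0 + b' ⬝ᵥ W0 := by
  -- a direction
  obtain ⟨u, v, huv⟩ : ∃ u v : V3, ∀ ε : ℝ, 0 < ε → ε < 1 →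
      (a + ε • u) ⬝ᵥ (b + ε • v) ≠ 0 := by
    by_cases h0 : a ⬝ᵥ b = 0
    · by_cases hb : b = 0
      · have ha : a ≠ 0 := fun ha => hab ⟨ha, hb⟩
        refine ⟨0, a, fun ε h1 _ => ?_⟩
        rw [smul_zero, add_zero, hb, zero_add, dotProduct_smul, smul_eq_mul]
        exact mul_ne_zero h1.ne' (fun h => ha (dotProduct_self_eq_zero.1 h))
      · refine ⟨b, 0, fun ε h1 _ => ?_⟩
        rw [smul_zero, add_zero, add_dotProduct, h0, zero_add, smul_dotProduct, smul_eq_mul]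
        exact mul_ne_zero h1.ne' (fun h => hb (dotProduct_self_eq_zero.1 h))
    · exact ⟨0, 0, fun ε _ _ => by simpa using h0⟩
  have hev : ∀ᶠ ε : ℝ in 𝓝 0, ∀ i, (a + ε • u) ⬝ᵥ (Φ i).1 + (b + ε • v) ⬝ᵥ (Φ i).2 <
      (a + ε • u) ⬝ᵥ Y0 + (b + ε • v) ⬝ᵥ W0 := by
    rw [eventually_all]
    intro i
    have hc : ∀ X Z : V3, Continuous fun ε : ℝ => (a + ε • u) ⬝ᵥ X + (b + ε • v) ⬝ᵥ Z := by
      intro X Z
      have h1 : (fun ε : ℝ => (a + ε • u) ⬝ᵥ X + (b + ε • v) ⬝ᵥ Z) =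
          fun ε => a ⬝ᵥ X + ε * (u ⬝ᵥ X) + (b ⬝ᵥ Z + ε * (v ⬝ᵥ Z)) := by
        funext ε
        simp [add_dotProduct, smul_dotProduct]
      rw [h1]
      fun_prop
    have h2 := (hc (Φ i).1 (Φ i).2).tendsto 0
    have h3 := (hc Y0 W0).tendsto 0
    refine h2.eventually_lt h3 ?_
    simpa using hlt i
  obtain ⟨δ, hδ, hball⟩ := Metric.eventually_nhds_iff.1 hev
  obtain ⟨ε, h1, h2⟩ := exists_between (lt_min hδ one_pos)
  refine ⟨a + ε • u, b + ε • v, huv ε h1 (h2.trans_le (min_le_right _ _)), hball ?_⟩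
  rw [Real.dist_eq, sub_zero, abs_of_pos h1]
  exact h2.trans_le (min_le_left _ _)

/-- a functional which is somewhere larger than on the pieces -/
lemma STA_max (hSIG : Stmt_SIG) (hLPR : Stmt_LPR) (hLOC : Stmt_LOC.{w}) (hGLB : Stmt_GLB.{w})
    (hCTY : Stmt_CTY.{w}) (hLCN : Stmt_LCN.{w}) [CompactSpace S] [ConnectedSpace S]
    {f g : S → E3} (h : MPair f g) {Sg : Set S} (hE : ∀ q, q ∉ Sg → Ell f g q)
    {Φ : Fin 6 → V3 × V3} (hΦ : ∀ q ∈ Sg, ∃ i, Yg f g q = (Φ i).1 ∧ Wg f g q = (Φ i).2)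
    {a b : V3} (hab : ¬ (a = 0 ∧ b = 0)) {q0 : S}
    (hlt : ∀ i, a ⬝ᵥ (Φ i).1 + b ⬝ᵥ (Φ i).2 < STA_L f g a b q0) :
    ∀ q, ∀ᶠ q' in 𝓝 q, Yg f g q' = Yg f g q ∧ Wg f g q' = Wg f g q := by
  obtain ⟨a', b', hab', hlt'⟩ := STA_pert Φ (Yg f g q0) (Wg f g q0) a b hab hlt
  have hY := (hCTY S f g h).1
  have hW := (hCTY S f g h).2
  have hc : Continuous (STA_L f g a' b') := by
    have h1 : STA_L f g a' b' = fun q => (∑ i, a' i * Yg f g q i) + ∑ i, b' i * Wg f g q i := rfl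
    rw [h1]
    fun_prop
  obtain ⟨q1, -, hq1⟩ := isCompact_univ.exists_isMaxOn (univ_nonempty (α := S)) hc.continuousOn
  have hmax : ∀ q, STA_L f g a' b' q ≤ STA_L f g a' b' q1 := fun q => hq1 (mem_univ q)
  have hnot : ∀ q, STA_L f g a' b' q = STA_L f g a' b' q1 → q ∉ Sg := by
    intro q hq hS
    obtain ⟨i, hi1, hi2⟩ := hΦ q hS
    have h1 := hlt' i
    have h2 := hmax q0
    have h3 : STA_L f g a' b' q = a' ⬝ᵥ (Φ i).1 + b' ⬝ᵥ (Φ i).2 := by rw [STA_L, hi1, hi2]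
    rw [← hq, h3] at h2
    exact absurd (h1.trans_le h2) (lt_irrefl _)
  have hop : ∀ q, STA_L f g a' b' q = STA_L f g a' b' q1 →
      ∀ᶠ q' in 𝓝 q, Yg f g q' = Yg f g q ∧ Wg f g q' = Wg f g q := by
    intro q hq
    refine STA_open hSIG hLPR hLOC hGLB hLCN h (hE q (hnot q hq)) hab' ?_
    intro q'
    rw [hq]
    exact hmax q'
  have hcl : IsClopen {q | STA_L f g a' b' q = STA_L f g a' b' q1} := by
    refine ⟨isClosed_eq hc continuous_const, ?_⟩
    rw [isOpen_iff_mem_nhds]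
    intro q hq
    filter_upwards [hop q hq] with q' hq'
    have h3 : STA_L f g a' b' q' = STA_L f g a' b' q := by rw [STA_L, STA_L, hq'.1, hq'.2]
    exact h3.trans hq
  have huniv := hcl.eq_univ ⟨q1, rfl⟩
  intro q
  refine hop q ?_
  have : q ∈ {q | STA_L f g a' b' q = STA_L f g a' b' q1} := huniv ▸ mem_univ q
  exact this

end STA

theorem blk_STA (hHYP : Stmt_HYP) (hSIG : Stmt_SIG) (hLPR : Stmt_LPR) (hKIL : Stmt_KIL)
    (hLOC : Stmt_LOC.{w}) (hGLB : Stmt_GLB.{w}) (hCTY : Stmt_CTY.{w}) (hLCN : Stmt_LCN.{w}) :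
    Stmt_STA.{w} := by
  intro S _ _ _ _ _ f g h Sg hE Φ hΦ
  -- it is enough that the motion is constant as a pair
  suffices hs : ∃ c : V3 × V3, ∀ q, (Yg f g q, Wg f g q) = c by
    obtain ⟨c, hc⟩ := hs
    exact ⟨c.1, c.2, fun q => ⟨congrArg Prod.fst (hc q), congrArg Prod.snd (hc q)⟩⟩
  have hloc : (∀ q, ∀ᶠ q' in 𝓝 q, Yg f g q' = Yg f g q ∧ Wg f g q' = Wg f g q) →
      ∃ c : V3 × V3, ∀ q, (Yg f g q, Wg f g q) = c := by
    intro h1
    refine STA_const (P := fun q => (Yg f g q, Wg f g q)) fun q => ?_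
    filter_upwards [h1 q] with q' hq'
    exact Prod.ext hq'.1 hq'.2
  obtain ⟨a, b, c, hab, hc⟩ := hHYP Φ
  by_cases hall : ∀ q, STA_L f g a b q = c
  · -- the functional is constant
    have hL : ∀ q, q ∉ Sg → ∀ᶠ q' in 𝓝 q, Yg f g q' = Yg f g q ∧ Wg f g q' = Wg f g q :=
      fun q hq => STA_kil hSIG hKIL hLOC hGLB hLCN h (hE q hq) hab hall
    have hY := (hCTY S f g h).1
    have hW := (hCTY S f g h).2
    have hP : Continuous fun q => (Yg f g q, Wg f g q) := hY.prodMk hW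
    rcases Sg.eq_empty_or_nonempty with hemp | ⟨p0, hp0⟩
    · exact hloc fun q => hL q (by rw [hemp]; exact notMem_empty q)
    · -- every value is among the six
      have hval : ∀ q, ∃ i, (Yg f g q, Wg f g q) = Φ i := by
        intro q
        by_contra hno
        push Not at hno
        have hcl : IsClopen {q' | (Yg f g q', Wg f g q') = (Yg f g q, Wg f g q)} := by
          refine ⟨isClosed_eq hP continuous_const, ?_⟩
          rw [isOpen_iff_mem_nhds]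
          intro q' hq'
          have hq'S : q' ∉ Sg := by
            intro hS
            obtain ⟨i, hi1, hi2⟩ := hΦ q' hS
            refine hno i ?_
            rw [← show (Yg f g q', Wg f g q') = (Yg f g q, Wg f g q) from hq']
            exact Prod.ext hi1 hi2
          filter_upwards [hL q' hq'S] with q'' h2
          have h3 : (Yg f g q'', Wg f g q'') = (Yg f g q', Wg f g q') := Prod.ext h2.1 h2.2
          exact h3.trans hq'
        have huniv := hcl.eq_univ ⟨q, rfl⟩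
        have h4 : p0 ∈ {q' | (Yg f g q', Wg f g q') = (Yg f g q, Wg f g q)} :=
          huniv ▸ mem_univ p0
        obtain ⟨i, hi1, hi2⟩ := hΦ p0 hp0
        refine hno i ?_
        rw [← show (Yg f g p0, Wg f g p0) = (Yg f g q, Wg f g q) from h4]
        exact Prod.ext hi1 hi2
      refine ⟨(Yg f g p0, Wg f g p0), fun q => ?_⟩
      have hcl : IsClopen {q' | (Yg f g q', Wg f g q') = (Yg f g p0, Wg f g p0)} := by
        refine ⟨isClosed_eq hP continuous_const, ?_⟩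
        have h5 : {q' | (Yg f g q', Wg f g q') = (Yg f g p0, Wg f g p0)}ᶜ =
            ⋃ i ∈ {i : Fin 6 | Φ i ≠ (Yg f g p0, Wg f g p0)},
              {q' | (Yg f g q', Wg f g q') = Φ i} := by
          ext q'
          simp only [mem_compl_iff, mem_ofPred_eq, mem_iUnion, exists_prop]
          constructor
          · intro h6
            obtain ⟨i, hi⟩ := hval q'
            exact ⟨i, fun h7 => h6 (hi.trans h7), hi⟩
          · rintro ⟨i, hi1, hi2⟩ h6
            exact hi1 (hi2.symm.trans h6)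
        rw [← isClosed_compl_iff, h5]
        exact (Set.toFinite _).isClosed_biUnion fun i _ => isClosed_eq hP continuous_const
      have huniv := hcl.eq_univ ⟨p0, rfl⟩
      have h4 : q ∈ {q' | (Yg f g q', Wg f g q') = (Yg f g p0, Wg f g p0)} :=
        huniv ▸ mem_univ q
      exact h4
  · push Not at hall
    obtain ⟨q0, hq0⟩ := hall
    refine hloc ?_
    rcases lt_or_gt_of_ne hq0 with hlt | hgt
    · -- negative functional
      have hneg : ∀ X Z : V3, (-a) ⬝ᵥ X + (-b) ⬝ᵥ Z = -(a ⬝ᵥ X + b ⬝ᵥ Z) := by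
        intro X Z
        rw [neg_dotProduct, neg_dotProduct]
        ring
      refine STA_max hSIG hLPR hLOC hGLB hCTY hLCN h hE hΦ (a := -a) (b := -b) (q0 := q0) ?_ ?_
      · rintro ⟨h1, h2⟩
        exact hab ⟨neg_eq_zero.1 h1, neg_eq_zero.1 h2⟩
      · intro i
        rw [STA_L, hneg, hneg, hc i]
        exact neg_lt_neg hlt
    · refine STA_max hSIG hLPR hLOC hGLB hCTY hLCN h hE hΦ (a := a) (b := b) (q0 := q0) hab ?_
      intro i
      rw [hc i]
      exact hgt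

end Pool.SXB
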