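import Pool.Agent.Work.MP_02e829_sb.B_YC1

/-! # Six rigid pieces, block DIF: the derivatives of the Rodrigues vector -/

open Set Filter Manifold Matrix MeasureTheory Metric
open scoped Topology ContDiff Manifold

set_option autoImplicit false

universe w

namespace Pool.SXB

open Pool.FR (pd ee pd_smul pd_add pd_sub pd_const diff_at pd_contDiffOn contDiffOn_dot
  contDiffOn_cross pd_cross pd_comm pd_congr)

/-- decomposition with respect to `m0`, `m1`, `m0 × m1` -/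
theorem DIF_dec (m0 m1 y : V3) :
    ((m0 ⨯₃ m1) ⬝ᵥ (m0 ⨯₃ m1)) • y = ((y ⨯₃ m1) ⬝ᵥ (m0 ⨯₃ m1)) • m0 -
      ((y ⨯₃ m0) ⬝ᵥ (m0 ⨯₃ m1)) • m1 + (y ⬝ᵥ (m0 ⨯₃ m1)) • (m0 ⨯₃ m1) := by
  ext i
  simp only [cross_apply, Matrix.vec3_dotProduct, Pi.smul_apply, Pi.add_apply, Pi.sub_apply,
    smul_eq_mul]
  fin_cases i <;> simp <;> ring

theorem DIF_c0 (m0 m1 y : V3) : (y ⨯₃ m1) ⬝ᵥ m0 = -(y ⬝ᵥ (m0 ⨯₃ m1)) := by
  simp only [cross_apply, Matrix.vec3_dotProduct]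
  simp
  ring

theorem DIF_c1 (m0 m1 y : V3) : (y ⨯₃ m0) ⬝ᵥ m1 = y ⬝ᵥ (m0 ⨯₃ m1) := by
  simp only [cross_apply, Matrix.vec3_dotProduct]
  simp
  ring

theorem DIF_self (m y : V3) : (y ⨯₃ m) ⬝ᵥ m = 0 := by
  simp only [cross_apply, Matrix.vec3_dotProduct]
  simp
  ring

theorem DIF_anti (m y : V3) : -(y ⨯₃ m) = m ⨯₃ y := cross_anticomm y m

theorem DIF_cross {U : Set E2} {F G : E2 → V3} (hP : Pair U F G) (hYC1 : Stmt_YC1) {x : E2}
    (hx : x ∈ U) : pd 1 (yy F G) x ⨯₃ pd 0 (mm F G) x = pd 0 (yy F G) x ⨯₃ pd 1 (mm F G) x := by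
  obtain ⟨hy, -, hv⟩ := hYC1 U F G hP
  have hm := YC1_mm hP
  have hv2 := YC1_vv hP
  have hyd := diff_at hP.op hy le_rfl hx
  have hm1 : ∀ i, DifferentiableAt ℝ (pd i (mm F G)) x := fun i =>
    diff_at hP.op (pd_contDiffOn hP.op hm (m := 1) (by norm_num) i) le_rfl hx
  have key : ∀ i j, pd i (pd j (vv F G)) x =
      pd i (yy F G) x ⨯₃ pd j (mm F G) x + yy F G x ⨯₃ pd i (pd j (mm F G)) x := by
    intro i j
    rw [pd_congr hP.op (fun z hz => hv z hz j) i hx]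
    exact pd_cross i hyd (hm1 j)
  have h1 := key 1 0
  have h2 := key 0 1
  rw [pd_comm hP.op hv2 le_rfl 1 0 hx, h2, pd_comm hP.op hm le_rfl 1 0 hx] at h1
  exact (add_right_cancel h1).symm

theorem blk_DIF (hYC1 : Stmt_YC1) : Stmt_DIF := by
  intro U F G hP x hx
  obtain ⟨hy, -, hv⟩ := hYC1 U F G hP
  have hm := YC1_mm hP
  have hv2 := YC1_vv hP
  have hyd := diff_at hP.op hy le_rfl hx
  have hmd := diff_at hP.op hm (by norm_num) hx
  have hvd := diff_at hP.op hv2 (by norm_num) hx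
  have hcr := DIF_cross hP hYC1 hx
  have hn0 : nn F G x ⬝ᵥ nn F G x ≠ 0 := fun h0 => hP.imm x hx (dotProduct_self_eq_zero.1 h0)
  have hn : nn F G x = pd 0 (mm F G) x ⨯₃ pd 1 (mm F G) x := rfl
  have hy0 : pd 0 (yy F G) x ⬝ᵥ nn F G x = 0 := by
    have h1 := DIF_c0 (pd 0 (mm F G) x) (pd 1 (mm F G) x) (pd 0 (yy F G) x)
    rw [← hcr, DIF_self] at h1
    rw [hn]
    linarith
  have hy1 : pd 1 (yy F G) x ⬝ᵥ nn F G x = 0 := by
    have h1 := DIF_c1 (pd 0 (mm F G) x) (pd 1 (mm F G) x) (pd 1 (yy F G) x)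
    rw [hcr, DIF_self] at h1
    rw [hn]
    linarith
  have hdec : ∀ i, pd i (yy F G) x ⬝ᵥ nn F G x = 0 → pd i (yy F G) x =
      kk F G i 1 x • pd 0 (mm F G) x - kk F G i 0 x • pd 1 (mm F G) x := by
    intro i hi
    have h1 := DIF_dec (pd 0 (mm F G) x) (pd 1 (mm F G) x) (pd i (yy F G) x)
    rw [← hn, hi, zero_smul, add_zero] at h1
    have h2 : pd i (yy F G) x = (nn F G x ⬝ᵥ nn F G x)⁻¹ •
        ((nn F G x ⬝ᵥ nn F G x) • pd i (yy F G) x) := by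
      rw [smul_smul, inv_mul_cancel₀ hn0, one_smul]
    rw [h2, h1, smul_sub, smul_smul, smul_smul]
    unfold kk
    rw [div_eq_inv_mul, div_eq_inv_mul]
  have hk : kk F G 1 0 x = kk F G 0 1 x := by
    unfold kk
    rw [hcr]
  refine ⟨hdec 0 hy0, ?_, hk, ?_⟩
  · have h := hdec 1 hy1
    rw [hk] at h
    exact h
  · intro i
    have hc : DifferentiableAt ℝ (fun z => yy F G z ⨯₃ mm F G z) x :=
      diff_at hP.op (contDiffOn_cross hy (hm.of_le (by norm_num))) le_rfl hx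
    have h1 : pd i (ww F G) x = pd i (vv F G) x -
        pd i (fun z => yy F G z ⨯₃ mm F G z) x := pd_sub i hvd hc
    rw [h1, pd_cross i hyd hmd, hv x hx i, ← DIF_anti (mm F G x) (pd i (yy F G) x)]
    abel

end Pool.SXB
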