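import Pool.Agent.Work.MP_02e829_sb.B_LOC

/-!
# Block GLB: the motion does not depend on the chart
-/

open Set Filter Manifold Matrix MeasureTheory Metric
open scoped Topology ContDiff Manifold

set_option autoImplicit false

universe w

namespace Pool.SXB

open Pool.FR (pd ee)

section GLB

variable {S : Type w} [TopologicalSpace S] [ChartedSpace E2 S] [IsManifold (𝓡 2) 2 S]

/-- partial derivatives of the mean surface and of half the difference -/
lemma GLB_mm {U : Set E2} {F G : E2 → V3} (hP : Pair U F G) {x : E2} (hx : x ∈ U) (i : Fin 2) :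
    pd i (mm F G) x = (1 / 2 : ℝ) • (pd i F x + pd i G x) := by
  have hdF : DifferentiableAt ℝ F x := Pool.FR.diff_at hP.op hP.smF (by norm_num) hx
  have hdG : DifferentiableAt ℝ G x := Pool.FR.diff_at hP.op hP.smG (by norm_num) hx
  rw [← Pool.FR.pd_add i hdF hdG]
  change fderiv ℝ (fun y => (1 / 2 : ℝ) • (F y + G y)) x (ee i) = _
  rw [fderiv_fun_const_smul (hdF.fun_add hdG)]
  rfl

lemma GLB_vv {U : Set E2} {F G : E2 → V3} (hP : Pair U F G) {x : E2} (hx : x ∈ U) (i : Fin 2) :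
    pd i (vv F G) x = (1 / 2 : ℝ) • (pd i G x - pd i F x) := by
  have hdF : DifferentiableAt ℝ F x := Pool.FR.diff_at hP.op hP.smF (by norm_num) hx
  have hdG : DifferentiableAt ℝ G x := Pool.FR.diff_at hP.op hP.smG (by norm_num) hx
  rw [← Pool.FR.pd_sub i hdG hdF]
  change fderiv ℝ (fun y => (1 / 2 : ℝ) • (G y - F y)) x (ee i) = _
  rw [fderiv_fun_const_smul (hdG.fun_sub hdF)]
  rfl

/-- a tangent vector of the surface in a chart -/
lemma GLB_surj (p : S) {x : E2} (hx : x ∈ (extChartAt (𝓡 2) p).target) (v : E2) :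
    ∃ r s : ℝ, v = r • LOC_D p x (ee 0) + s • LOC_D p x (ee 1) := by
  have h1 : Function.Injective (LOC_D p x : E2 →ₗ[ℝ] E2) := LOC_Dinj p hx
  obtain ⟨z, hz⟩ := LinearMap.injective_iff_surjective.1 h1 v
  refine ⟨z 0, z 1, ?_⟩
  have h2 := Pool.RL.decomp z
  rw [← hz]
  change LOC_D p x z = _
  conv_lhs => rw [h2]
  rw [map_add, map_smul, map_smul]
  rfl

/-- in any chart the Rodrigues vector rotates the differentials -/
lemma GLB_rot (hYC1 : Stmt_YC1) (hLOC : Stmt_LOC.{w}) {f g : S → E3} (h : MPair f g) (p : S)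
    {x : E2} (hx : x ∈ (extChartAt (𝓡 2) p).target) (v : E2) :
    L3 (FRD.dvec g ((extChartAt (𝓡 2) p).symm x) v) -
      L3 (FRD.dvec f ((extChartAt (𝓡 2) p).symm x) v) =
      yy (loc f p) (loc g p) x ⨯₃ (L3 (FRD.dvec g ((extChartAt (𝓡 2) p).symm x) v) +
        L3 (FRD.dvec f ((extChartAt (𝓡 2) p).symm x) v)) := by
  have hP := hLOC S f g h p
  have h1 := (hYC1 _ _ _ hP).2.2 x hx
  obtain ⟨q, hq⟩ : ∃ q, q = (extChartAt (𝓡 2) p).symm x := ⟨_, rfl⟩
  have h2 : ∀ i, L3 (FRD.dvec g q (LOC_D p x (ee i))) - L3 (FRD.dvec f q (LOC_D p x (ee i))) =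
      yy (loc f p) (loc g p) x ⨯₃ (L3 (FRD.dvec g q (LOC_D p x (ee i))) +
        L3 (FRD.dvec f q (LOC_D p x (ee i)))) := by
    intro i
    have h3 := h1 i
    rw [GLB_mm hP hx, GLB_vv hP hx, LOC_pd h.smf p hx, LOC_pd h.smg p hx, ← hq] at h3
    rw [map_smul (crossProduct (yy (loc f p) (loc g p) x))] at h3
    have h4 := congrArg (fun z => (2 : ℝ) • z) h3
    simp only [smul_smul] at h4
    norm_num at h4
    rw [h4, add_comm, map_add]
  obtain ⟨r, s, hv⟩ := GLB_surj p hx v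
  rw [← hq, hv, LOC_lin, LOC_lin]
  simp only [map_add, map_smul]
  have e0 := h2 0
  have e1 := h2 1
  rw [map_add] at e0 e1
  have e2 : r • L3 (FRD.dvec g q (LOC_D p x (ee 0))) + s • L3 (FRD.dvec g q (LOC_D p x (ee 1))) -
      (r • L3 (FRD.dvec f q (LOC_D p x (ee 0))) + s • L3 (FRD.dvec f q (LOC_D p x (ee 1)))) =
      r • (L3 (FRD.dvec g q (LOC_D p x (ee 0))) - L3 (FRD.dvec f q (LOC_D p x (ee 0)))) +
      s • (L3 (FRD.dvec g q (LOC_D p x (ee 1))) - L3 (FRD.dvec f q (LOC_D p x (ee 1)))) := by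
    module
  rw [e2, e0, e1]
  module

/-- uniqueness of the Rodrigues vector -/
lemma GLB_unq (hSOL : Stmt_SOL) (hLOC : Stmt_LOC.{w}) {f g : S → E3} (h : MPair f g) (p : S)
    {x : E2} (hx : x ∈ (extChartAt (𝓡 2) p).target) {y y' : V3}
    (h1 : ∀ v, L3 (FRD.dvec g ((extChartAt (𝓡 2) p).symm x) v) -
      L3 (FRD.dvec f ((extChartAt (𝓡 2) p).symm x) v) =
      y ⨯₃ (L3 (FRD.dvec g ((extChartAt (𝓡 2) p).symm x) v) +
        L3 (FRD.dvec f ((extChartAt (𝓡 2) p).symm x) v)))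
    (h2 : ∀ v, L3 (FRD.dvec g ((extChartAt (𝓡 2) p).symm x) v) -
      L3 (FRD.dvec f ((extChartAt (𝓡 2) p).symm x) v) =
      y' ⨯₃ (L3 (FRD.dvec g ((extChartAt (𝓡 2) p).symm x) v) +
        L3 (FRD.dvec f ((extChartAt (𝓡 2) p).symm x) v))) : y = y' := by
  have hP := hLOC S f g h p
  have h3 : ∀ i, y ⨯₃ pd i (mm (loc f p) (loc g p)) x = y' ⨯₃ pd i (mm (loc f p) (loc g p)) x := by
    intro i
    rw [GLB_mm hP hx, LOC_pd h.smf p hx, LOC_pd h.smg p hx]
    have h4 := (h1 (LOC_D p x (ee i))).symm.trans (h2 (LOC_D p x (ee i)))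
    rw [add_comm] at h4
    rw [map_smul (crossProduct y), map_smul (crossProduct y'), h4]
  exact hSOL.2 _ _ y y' (hP.imm x hx) (h3 0) (h3 1)

end GLB

theorem blk_GLB (hSOL : Stmt_SOL) (hYC1 : Stmt_YC1) (hLOC : Stmt_LOC.{w}) : Stmt_GLB.{w} := by
  intro S _ _ _ f g h
  -- the Rodrigues vector of the surface
  have hY : ∀ q v, L3 (FRD.dvec g q v) - L3 (FRD.dvec f q v) =
      Yg f g q ⨯₃ (L3 (FRD.dvec g q v) + L3 (FRD.dvec f q v)) := by
    intro q v
    have h1 := GLB_rot hYC1 hLOC h q (mem_extChartAt_target (I := 𝓡 2) q) v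
    rw [extChartAt_to_inv] at h1
    exact h1
  have hYc : ∀ p, ∀ x ∈ (extChartAt (𝓡 2) p).target,
      Yg f g ((extChartAt (𝓡 2) p).symm x) = yy (loc f p) (loc g p) x := by
    intro p x hx
    exact GLB_unq hSOL hLOC h p hx (fun v => hY _ v) (fun v => GLB_rot hYC1 hLOC h p hx v)
  have hW : ∀ p, ∀ x ∈ (extChartAt (𝓡 2) p).target,
      ww (loc f p) (loc g p) x = (1 / 2 : ℝ) • (L3 (g ((extChartAt (𝓡 2) p).symm x)) -
        L3 (f ((extChartAt (𝓡 2) p).symm x))) - Yg f g ((extChartAt (𝓡 2) p).symm x) ⨯₃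
        ((1 / 2 : ℝ) • (L3 (f ((extChartAt (𝓡 2) p).symm x)) +
          L3 (g ((extChartAt (𝓡 2) p).symm x)))) := by
    intro p x hx
    rw [hYc p x hx]
    rfl
  have hW' : ∀ q, Wg f g q = (1 / 2 : ℝ) • (L3 (g q) - L3 (f q)) - Yg f g q ⨯₃
        ((1 / 2 : ℝ) • (L3 (f q) + L3 (g q))) := by
    intro q
    have h1 := hW q _ (mem_extChartAt_target (I := 𝓡 2) q)
    rw [extChartAt_to_inv] at h1
    exact h1
  refine ⟨fun p x hx => ⟨hYc p x hx, ?_⟩, hY, fun q => ?_⟩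
  · rw [hW p x hx, hW']
  · rw [hW' q, map_smul (crossProduct (Yg f g q)), add_comm (L3 (f q)) (L3 (g q))]
    module

end Pool.SXB
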