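import Pool.Agent.Work.MP_02e829_sb.Interface

/-!
# Block LCN: where the Rodrigues vector is locally constant the motion is
-/

open Set Filter Manifold Matrix MeasureTheory Metric
open scoped Topology ContDiff Manifold

set_option autoImplicit false

universe w

namespace Pool.SXB

open Pool.FR (pd ee)

theorem blk_LCN (hYC1 : Stmt_YC1) (hDIF : Stmt_DIF) (hLOC : Stmt_LOC.{w})
    (hGLB : Stmt_GLB.{w}) : Stmt_LCN.{w} := by
  intro S _ _ _ f g h q hR
  have hP := hLOC S f g h q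
  obtain ⟨x0, hx0⟩ : ∃ x0, x0 = extChartAt (𝓡 2) q q := ⟨_, rfl⟩
  rw [← hx0] at hR
  have hxt : x0 ∈ (extChartAt (𝓡 2) q).target := hx0 ▸ mem_extChartAt_target q
  obtain ⟨r, hr, hball⟩ := Metric.mem_nhds_iff.1 (inter_mem (hP.op.mem_nhds hxt) hR)
  have hc := hYC1 _ _ _ hP
  have hYd : ∀ x ∈ ball x0 r, DifferentiableAt ℝ (yy (loc f q) (loc g q)) x := fun x hx =>
    Pool.FR.diff_at hP.op hc.1 le_rfl (hball hx).1
  have hWd : ∀ x ∈ ball x0 r, DifferentiableAt ℝ (ww (loc f q) (loc g q)) x := fun x hx =>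
    Pool.FR.diff_at hP.op hc.2.1 le_rfl (hball hx).1
  obtain ⟨c1, hc1⟩ := Pool.FR.eq_const_of_pd isOpen_ball
    (convex_ball x0 r).isPreconnected hYd (fun x hx i => (hball hx).2 i)
  obtain ⟨c2, hc2⟩ := Pool.FR.eq_const_of_pd isOpen_ball
    (convex_ball x0 r).isPreconnected hWd (fun x hx i => by
      rw [(hDIF _ _ _ hP x (hball hx).1).2.2.2 i, (hball hx).2 i, map_zero])
  have hx0b : x0 ∈ ball x0 r := mem_ball_self hr
  have hG := (hGLB S f g h).1 q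
  have h1 : ∀ᶠ q' in 𝓝 q, q' ∈ (extChartAt (𝓡 2) q).source ∧
      extChartAt (𝓡 2) q q' ∈ ball x0 r := by
    have h2 := (continuousAt_extChartAt (I := 𝓡 2) q).tendsto
    rw [← hx0] at h2
    have h3 : ∀ᶠ q' in 𝓝 q, q' ∈ (extChartAt (𝓡 2) q).source :=
      extChartAt_source_mem_nhds (I := 𝓡 2) q
    exact h3.and (h2.eventually (ball_mem_nhds x0 hr))
  filter_upwards [h1] with q' hq'
  have e1 := hG _ ((extChartAt (𝓡 2) q).map_source hq'.1)
  have e0 := hG _ hxt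
  rw [(extChartAt (𝓡 2) q).left_inv hq'.1] at e1
  rw [hx0, extChartAt_to_inv, ← hx0] at e0
  rw [e1.1, e1.2, e0.1, e0.2, hc1 _ hq'.2, hc1 _ hx0b, hc2 _ hq'.2, hc2 _ hx0b]
  exact ⟨rfl, rfl⟩

end Pool.SXB
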