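import Pool.Agent.Work.MP_02e829_sb.Interface

/-! Block ROT of MP_02e829_gt (SixBodies), helper56. -/

open Set Filter Manifold Matrix MeasureTheory Metric
open scoped Topology ContDiff Manifold

set_option autoImplicit false

namespace Pool.SXB

open Pool.FR (pd ee)

/-- the matrix of the Rodrigues rotation -/
noncomputable def ROT_M (y : V3) : Matrix (Fin 3) (Fin 3) ℝ :=
  let s := 2 / (1 + (y 0 ^ 2 + y 1 ^ 2 + y 2 ^ 2))
  !![1 - s * (y 1 ^ 2 + y 2 ^ 2), s * (y 0 * y 1 - y 2), s * (y 0 * y 2 + y 1);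
    s * (y 0 * y 1 + y 2), 1 - s * (y 0 ^ 2 + y 2 ^ 2), s * (y 1 * y 2 - y 0);
    s * (y 0 * y 2 - y 1), s * (y 1 * y 2 + y 0), 1 - s * (y 0 ^ 2 + y 1 ^ 2)]

theorem ROT_pos (y : V3) : 0 < 1 + (y 0 ^ 2 + y 1 ^ 2 + y 2 ^ 2) := by positivity

theorem ROT_det (y : V3) : (ROT_M y).det = 1 := by
  have h := (ROT_pos y).ne'
  unfold ROT_M
  rw [Matrix.det_fin_three]
  simp
  field_simp
  ring

theorem ROT_mul (y z : V3) : ROT_M y *ᵥ z = fun i =>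
    z i + 2 / (1 + (y 0 ^ 2 + y 1 ^ 2 + y 2 ^ 2)) * ((y ⨯₃ z) i + (y ⨯₃ (y ⨯₃ z)) i) := by
  ext i
  fin_cases i <;> simp [ROT_M, Matrix.mulVec, dotProduct, Fin.sum_univ_three, cross_apply] <;> ring

theorem ROT_norm (y z : V3) : (ROT_M y *ᵥ z) 0 ^ 2 + (ROT_M y *ᵥ z) 1 ^ 2 + (ROT_M y *ᵥ z) 2 ^ 2 =
    z 0 ^ 2 + z 1 ^ 2 + z 2 ^ 2 := by
  have h := (ROT_pos y).ne'
  rw [ROT_mul]
  simp [cross_apply]
  field_simp
  ring

theorem ROT_eq (y z : V3) : ROT_M y *ᵥ z - z = y ⨯₃ (ROT_M y *ᵥ z + z) := by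
  have h := (ROT_pos y).ne'
  rw [ROT_mul]
  ext i
  fin_cases i <;> simp [cross_apply] <;> field_simp <;> ring

theorem ROT_zero (y d : V3) (h : d = y ⨯₃ d) : d = 0 := by
  have h1 : d ⬝ᵥ d = 0 := by
    nth_rewrite 1 [h]
    rw [dotProduct_comm]
    exact dot_cross_self y d
  exact dotProduct_self_eq_zero.mp h1

/-- the rotation as a linear map -/
noncomputable def ROT_L (y : V3) : E3 →ₗ[ℝ] E3 :=
  ((EuclideanSpace.equiv (Fin 3) ℝ).symm.toLinearEquiv : V3 →ₗ[ℝ] E3) ∘ₗ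
    (Matrix.toLin' (ROT_M y)) ∘ₗ
      ((EuclideanSpace.equiv (Fin 3) ℝ).symm.toLinearEquiv.symm : E3 →ₗ[ℝ] V3)

theorem ROT_L_apply (y : V3) (z : E3) : L3 (ROT_L y z) = ROT_M y *ᵥ L3 z := by
  rfl

theorem ROT_L_det (y : V3) : LinearMap.det (ROT_L y) = 1 := by
  unfold ROT_L
  rw [LinearMap.det_conj, LinearMap.det_toLin', ROT_det]

theorem ROT_norm3 (z : E3) : ‖z‖ ^ 2 = (L3 z) 0 ^ 2 + (L3 z) 1 ^ 2 + (L3 z) 2 ^ 2 := by
  rw [EuclideanSpace.norm_sq_eq, Fin.sum_univ_three]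
  simp only [Real.norm_eq_abs, sq_abs]
  rfl

theorem ROT_L_norm (y : V3) (z : E3) : ‖ROT_L y z‖ = ‖z‖ := by
  have h1 : ‖ROT_L y z‖ ^ 2 = ‖z‖ ^ 2 := by
    rw [ROT_norm3, ROT_norm3, ROT_L_apply]
    exact ROT_norm y (L3 z)
  exact (sq_eq_sq₀ (norm_nonneg _) (norm_nonneg _)).mp h1

/-- the rotation as an isometric equivalence -/
noncomputable def ROT_E (y : V3) : E3 ≃ₗᵢ[ℝ] E3 :=
  LinearIsometry.toLinearIsometryEquiv ⟨ROT_L y, ROT_L_norm y⟩ rfl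

theorem ROT_E_apply (y : V3) (z : E3) : ROT_E y z = ROT_L y z := by
  unfold ROT_E
  rw [LinearIsometry.toLinearIsometryEquiv_apply]
  rfl

/-- the motion -/
noncomputable def ROT_A (y : V3) (c : E3) : E3 ≃ᵃⁱ[ℝ] E3 :=
  AffineIsometryEquiv.mk' (fun z => ROT_E y z + c) (ROT_E y) 0 (by
    intro z
    simp)

theorem ROT_A_proper (y : V3) (c : E3) : Proper (ROT_A y c) := by
  unfold Proper ROT_A
  rw [AffineIsometryEquiv.linearIsometryEquiv_mk']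
  have h1 : ((ROT_E y).toLinearEquiv : E3 →ₗ[ℝ] E3) = ROT_L y := by
    ext1 z
    exact ROT_E_apply y z
  rw [h1, ROT_L_det]
  exact one_pos

theorem ROT_inj (a b : E3) (h : L3 a = L3 b) : a = b :=
  (EuclideanSpace.equiv (Fin 3) ℝ).injective h

theorem blk_ROT : Stmt_ROT := by
  intro y u
  let U : E3 := (EuclideanSpace.equiv (Fin 3) ℝ).symm u
  have hU : L3 U = u := (EuclideanSpace.equiv (Fin 3) ℝ).apply_symm_apply u
  refine ⟨ROT_A y (ROT_L y U + U), ROT_A_proper y _, ?_⟩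
  intro z z' h
  have hA : ROT_A y (ROT_L y U + U) z = ROT_L y z + (ROT_L y U + U) := by
    show ROT_E y z + _ = _
    rw [ROT_E_apply]
  rw [hA]
  apply ROT_inj
  rw [map_add, map_add, ROT_L_apply, ROT_L_apply, hU]
  have h1 := ROT_eq y (L3 z)
  have h2 := ROT_eq y u
  rw [← sub_eq_zero]
  apply ROT_zero y
  have h3 : y ⨯₃ (L3 z' - (ROT_M y *ᵥ L3 z + (ROT_M y *ᵥ u + u))) =
      y ⨯₃ (L3 z' + L3 z) - y ⨯₃ (ROT_M y *ᵥ L3 z + L3 z) - y ⨯₃ (ROT_M y *ᵥ u + u) := by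
    rw [← map_sub, ← map_sub]
    congr 1
    abel
  rw [h3, ← h1, ← h2]
  have h4 : y ⨯₃ (L3 z' + L3 z) = L3 z' - L3 z - (2 : ℝ) • u := by
    rw [h]
    abel
  rw [h4, two_smul]
  abel

end Pool.SXB
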