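import Pool.Agent.Work.MP_02e829_sb.Interface

/-! Block SOL of MP_02e829_gt (SixBodies), helper56. -/

open Set Filter Manifold Matrix MeasureTheory Metric
open scoped Topology ContDiff Manifold

set_option autoImplicit false

namespace Pool.SXB

open Pool.FR (pd ee)

theorem SOL_dot (n : V3) (h : n ≠ 0) : n ⬝ᵥ n ≠ 0 := by
  intro h0
  exact h (dotProduct_self_eq_zero.mp h0)

theorem SOL_a (m1 m2 v1 v2 : V3) (h1 : m1 ⬝ᵥ v1 = 0) :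
    ((v2 ⬝ᵥ (m1 ⨯₃ m2)) • m1 - (v1 ⬝ᵥ (m1 ⨯₃ m2)) • m2 + (v1 ⬝ᵥ m2) • (m1 ⨯₃ m2)) ⨯₃ m1 =
      ((m1 ⨯₃ m2) ⬝ᵥ (m1 ⨯₃ m2)) • v1 := by
  simp only [vec3_dotProduct] at h1
  ext i
  fin_cases i <;>
    simp only [cross_apply, vec3_dotProduct, Pi.add_apply, Pi.sub_apply, Pi.smul_apply, smul_eq_mul] <;>
    simp <;>
    first
    | linear_combination
        (-((m2 0 * m2 0 + m2 1 * m2 1 + m2 2 * m2 2) * m1 0 -
          (m1 0 * m2 0 + m1 1 * m2 1 + m1 2 * m2 2) * m2 0)) * h1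
    | linear_combination
        (-((m2 0 * m2 0 + m2 1 * m2 1 + m2 2 * m2 2) * m1 1 -
          (m1 0 * m2 0 + m1 1 * m2 1 + m1 2 * m2 2) * m2 1)) * h1
    | linear_combination
        (-((m2 0 * m2 0 + m2 1 * m2 1 + m2 2 * m2 2) * m1 2 -
          (m1 0 * m2 0 + m1 1 * m2 1 + m1 2 * m2 2) * m2 2)) * h1

theorem SOL_b (m1 m2 v1 v2 : V3) (h2 : m2 ⬝ᵥ v2 = 0) (h3 : m1 ⬝ᵥ v2 + m2 ⬝ᵥ v1 = 0) :
    ((v2 ⬝ᵥ (m1 ⨯₃ m2)) • m1 - (v1 ⬝ᵥ (m1 ⨯₃ m2)) • m2 + (v1 ⬝ᵥ m2) • (m1 ⨯₃ m2)) ⨯₃ m2 =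
      ((m1 ⨯₃ m2) ⬝ᵥ (m1 ⨯₃ m2)) • v2 := by
  have h4 : v1 ⬝ᵥ m2 = - (v2 ⬝ᵥ m1) := by
    rw [dotProduct_comm v1 m2, dotProduct_comm v2 m1]
    linarith
  rw [h4]
  simp only [vec3_dotProduct] at h2
  ext i
  fin_cases i <;>
    simp only [cross_apply, vec3_dotProduct, Pi.add_apply, Pi.sub_apply, Pi.smul_apply, smul_eq_mul] <;>
    simp <;>
    first
    | linear_combination
        (-((m1 0 * m1 0 + m1 1 * m1 1 + m1 2 * m1 2) * m2 0 -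
          (m1 0 * m2 0 + m1 1 * m2 1 + m1 2 * m2 2) * m1 0)) * h2
    | linear_combination
        (-((m1 0 * m1 0 + m1 1 * m1 1 + m1 2 * m1 2) * m2 1 -
          (m1 0 * m2 0 + m1 1 * m2 1 + m1 2 * m2 2) * m1 1)) * h2
    | linear_combination
        (-((m1 0 * m1 0 + m1 1 * m1 1 + m1 2 * m1 2) * m2 2 -
          (m1 0 * m2 0 + m1 1 * m2 1 + m1 2 * m2 2) * m1 2)) * h2

theorem SOL_c (m1 m2 d : V3) :
    ((m1 ⨯₃ m2) ⬝ᵥ (m1 ⨯₃ m2)) • d = ((d ⨯₃ m1) ⬝ᵥ m2) • (m1 ⨯₃ m2) +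
      ((d ⨯₃ m2) ⬝ᵥ (m1 ⨯₃ m2)) • m1 - ((d ⨯₃ m1) ⬝ᵥ (m1 ⨯₃ m2)) • m2 := by
  ext i
  fin_cases i <;>
    simp only [cross_apply, vec3_dotProduct, Pi.add_apply, Pi.sub_apply, Pi.smul_apply, smul_eq_mul] <;>
    simp <;> ring

theorem blk_SOL : Stmt_SOL := by
  constructor
  · intro m1 m2 v1 v2 h1 h2 h3 hn y hy
    have hn' := SOL_dot _ hn
    subst hy
    constructor
    · rw [map_smul, LinearMap.smul_apply, SOL_a m1 m2 v1 v2 h1, smul_smul, inv_mul_cancel₀ hn',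
        one_smul]
    · rw [map_smul, LinearMap.smul_apply, SOL_b m1 m2 v1 v2 h2 h3, smul_smul,
        inv_mul_cancel₀ hn', one_smul]
  · intro m1 m2 y y' hn h1 h2
    have hn' := SOL_dot _ hn
    have e1 : (y - y') ⨯₃ m1 = 0 := by
      rw [map_sub, LinearMap.sub_apply, h1, sub_self]
    have e2 : (y - y') ⨯₃ m2 = 0 := by
      rw [map_sub, LinearMap.sub_apply, h2, sub_self]
    have h3 := SOL_c m1 m2 (y - y')
    rw [e1, e2, zero_dotProduct, zero_dotProduct, zero_smul, zero_smul, zero_smul, add_zero,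
      sub_zero] at h3
    rcases smul_eq_zero.mp h3 with h4 | h4
    · exact absurd h4 hn'
    · exact sub_eq_zero.mp h4

end Pool.SXB
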