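import Pool.Agent.Work.MP_02e829_sb.Interface

/-! # Six rigid pieces, block YC1: the Rodrigues vector is continuously differentiable -/

open Set Filter Manifold Matrix MeasureTheory Metric
open scoped Topology ContDiff Manifold

set_option autoImplicit false

universe w

namespace Pool.SXB

open Pool.FR (pd ee pd_smul pd_add pd_sub pd_const diff_at pd_contDiffOn contDiffOn_dot
  contDiffOn_cross)

theorem YC1_csmul (i : Fin 2) (c : ℝ) {f : E2 → V3} {x : E2} (hf : DifferentiableAt ℝ f x) :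
    pd i (fun y => c • f y) x = c • pd i f x := by
  have h := pd_smul i (f := fun _ => c) (g := f) (x := x) (differentiableAt_const c) hf
  rw [pd_const, zero_smul, zero_add] at h
  exact h

theorem YC1_mm {U : Set E2} {F G : E2 → V3} (hP : Pair U F G) : ContDiffOn ℝ 2 (mm F G) U :=
  (hP.smF.add hP.smG).const_smul (1 / 2 : ℝ)

theorem YC1_vv {U : Set E2} {F G : E2 → V3} (hP : Pair U F G) : ContDiffOn ℝ 2 (vv F G) U :=
  (hP.smG.sub hP.smF).const_smul (1 / 2 : ℝ)

theorem YC1_pm {U : Set E2} {F G : E2 → V3} (hP : Pair U F G) (i : Fin 2) {x : E2} (hx : x ∈ U) :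
    pd i (mm F G) x = (1 / 2 : ℝ) • (pd i F x + pd i G x) := by
  have hF := diff_at hP.op hP.smF (by norm_num) hx
  have hG := diff_at hP.op hP.smG (by norm_num) hx
  have h := YC1_csmul i (1 / 2) (f := fun y => F y + G y) (hF.add hG)
  rw [pd_add i hF hG] at h
  exact h

theorem YC1_pv {U : Set E2} {F G : E2 → V3} (hP : Pair U F G) (i : Fin 2) {x : E2} (hx : x ∈ U) :
    pd i (vv F G) x = (1 / 2 : ℝ) • (pd i G x - pd i F x) := by
  have hF := diff_at hP.op hP.smF (by norm_num) hx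
  have hG := diff_at hP.op hP.smG (by norm_num) hx
  have h := YC1_csmul i (1 / 2) (f := fun y => G y - F y) (hG.sub hF)
  rw [pd_sub i hG hF] at h
  exact h

theorem YC1_iso {U : Set E2} {F G : E2 → V3} (hP : Pair U F G) (i j : Fin 2) {x : E2}
    (hx : x ∈ U) : pd i (mm F G) x ⬝ᵥ pd j (vv F G) x + pd j (mm F G) x ⬝ᵥ pd i (vv F G) x = 0 := by
  rw [YC1_pm hP i hx, YC1_pm hP j hx, YC1_pv hP i hx, YC1_pv hP j hx]
  have h1 := hP.iso x hx i j
  simp only [Matrix.vec3_dotProduct, Pi.smul_apply, Pi.add_apply, Pi.sub_apply, smul_eq_mul]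
    at h1 ⊢
  linear_combination (-(1 / 2 : ℝ)) * h1

theorem blk_YC1 (hSOL : Stmt_SOL) : Stmt_YC1 := by
  intro U F G hP
  have hm := YC1_mm hP
  have hv := YC1_vv hP
  have hm1 : ∀ i, ContDiffOn ℝ 1 (pd i (mm F G)) U := fun i =>
    pd_contDiffOn hP.op hm (by norm_num) i
  have hv1 : ∀ i, ContDiffOn ℝ 1 (pd i (vv F G)) U := fun i =>
    pd_contDiffOn hP.op hv (by norm_num) i
  have hn : ContDiffOn ℝ 1 (nn F G) U := contDiffOn_cross (hm1 0) (hm1 1)
  have hnn : ContDiffOn ℝ 1 (fun x => nn F G x ⬝ᵥ nn F G x) U := contDiffOn_dot hn hn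
  have hn0 : ∀ x ∈ U, nn F G x ⬝ᵥ nn F G x ≠ 0 := fun x hx h0 =>
    hP.imm x hx (dotProduct_self_eq_zero.1 h0)
  have hy : ContDiffOn ℝ 1 (yy F G) U := by
    refine (hnn.inv hn0).smul ?_
    exact (((contDiffOn_dot (hv1 1) hn).smul (hm1 0)).sub
      ((contDiffOn_dot (hv1 0) hn).smul (hm1 1))).add
      ((contDiffOn_dot (hv1 0) (hm1 1)).smul hn)
  refine ⟨hy, ?_, ?_⟩
  · exact (hv.of_le (by norm_num)).sub (contDiffOn_cross hy (hm.of_le (by norm_num)))
  · intro x hx i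
    have h1 := YC1_iso hP 0 0 hx
    have h2 := YC1_iso hP 1 1 hx
    have h3 := YC1_iso hP 0 1 hx
    obtain ⟨e0, e1⟩ := hSOL.1 (pd 0 (mm F G) x) (pd 1 (mm F G) x) (pd 0 (vv F G) x)
      (pd 1 (vv F G) x) (by linarith) (by linarith) h3 (hP.imm x hx) (yy F G x) rfl
    fin_cases i
    · exact e0.symm
    · exact e1.symm

end Pool.SXB
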