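import Pool.Agent.Work.MP_02e829_sb.Interface

/-!
# Block FIN: the theorem
-/

open Set Filter Manifold Matrix MeasureTheory Metric
open scoped Topology ContDiff Manifold

set_option autoImplicit false

universe w

namespace Pool.SXB

open Pool.FR (pd ee)

lemma FIN_det (A : E3 ≃ᵃⁱ[ℝ] E3) : Proper A ↔
    0 < LinearMap.det (A.linearIsometryEquiv.toLinearEquiv : E3 →ₗ[ℝ] E3) := Iff.rfl

lemma FIN_refl : Proper (AffineIsometryEquiv.refl ℝ E3) := by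
  have h1 : ((AffineIsometryEquiv.refl ℝ E3).linearIsometryEquiv.toLinearEquiv : E3 →ₗ[ℝ] E3) =
      LinearMap.id := rfl
  rw [Proper, h1, LinearMap.det_id]
  exact one_pos

lemma FIN_trans {A B : E3 ≃ᵃⁱ[ℝ] E3} (hA : Proper A) (hB : Proper B) : Proper (A.trans B) := by
  have h1 : ((A.trans B).linearIsometryEquiv.toLinearEquiv : E3 →ₗ[ℝ] E3) =
      (B.linearIsometryEquiv.toLinearEquiv : E3 →ₗ[ℝ] E3) ∘ₗ
        (A.linearIsometryEquiv.toLinearEquiv : E3 →ₗ[ℝ] E3) := rfl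
  rw [Proper, h1, LinearMap.det_comp]
  exact mul_pos hB hA

lemma FIN_symm {A : E3 ≃ᵃⁱ[ℝ] E3} (hA : Proper A) : Proper A.symm := by
  have h2 : ((A.symm).linearIsometryEquiv.toLinearEquiv : E3 →ₗ[ℝ] E3) ∘ₗ
      (A.linearIsometryEquiv.toLinearEquiv : E3 →ₗ[ℝ] E3) = LinearMap.id := by
    ext v
    change A.linearIsometryEquiv.symm (A.linearIsometryEquiv v) _ = _
    rw [LinearIsometryEquiv.symm_apply_apply]
    rfl
  have h3 := congrArg LinearMap.det h2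
  rw [LinearMap.det_comp, LinearMap.det_id] at h3
  have h4 : 0 < LinearMap.det (A.linearIsometryEquiv.toLinearEquiv : E3 →ₗ[ℝ] E3) := hA
  rw [Proper]
  by_contra hn
  push Not at hn
  have := mul_nonpos_of_nonpos_of_nonneg hn h4.le
  linarith

section FIN

variable {S : Type w} [TopologicalSpace S] [ChartedSpace E2 S] [IsManifold (𝓡 2) 2 S]

omit [IsManifold (𝓡 2) 2 S] in
lemma FIN_dvec {f g : S → E3} (hf : ContMDiff (𝓡 2) (𝓡 3) 2 f) (A : E3 ≃ᵃⁱ[ℝ] E3)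
    (h : ∀ p, g p = A (f p)) (p : S) (v : E2) :
    FRD.dvec g p v = A.linearIsometryEquiv (FRD.dvec f p v) := by
  have h0 : g = A ∘ f := funext h
  have h1 : MDifferentiableAt (𝓡 2) (𝓡 3) f p := (hf p).mdifferentiableAt (by norm_num)
  have h2 : HasFDerivAt (⇑A) (A.linearIsometryEquiv.toContinuousLinearEquiv : E3 →L[ℝ] E3)
      (f p) := by
    have h3 : (⇑A) = fun z => A.linearIsometryEquiv z + A 0 := by
      funext z
      have h4 := A.map_vadd (0 : E3) z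
      simp only [vadd_eq_add, add_zero] at h4
      rw [h4]
    rw [h3]
    exact (A.linearIsometryEquiv.toContinuousLinearEquiv.hasFDerivAt (x := f p)).add_const (A 0)
  have h5 : HasMFDerivAt (𝓡 3) (𝓡 3) (⇑A) (f p)
      (A.linearIsometryEquiv.toContinuousLinearEquiv : E3 →L[ℝ] E3) := h2.hasMFDerivAt
  have h6 := h5.comp p h1.hasMFDerivAt
  have h7 := h6.mfderiv
  subst h0
  change mfderiv (𝓡 2) (𝓡 3) (⇑A ∘ f) p v = _
  rw [h7]
  rfl

/-- the rigid motion relation -/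
def FIN_T (f : ℝ → S → E3) (t : ℝ) : Prop :=
  ∃ A : E3 ≃ᵃⁱ[ℝ] E3, Proper A ∧ ∀ p, f t p = A (f 0 p)

lemma FIN_step (hSTA : Stmt_STA.{w}) (hROT : Stmt_ROT) (hVAL : Stmt_VAL.{w})
    (hGLB : Stmt_GLB.{w}) (hELP : Stmt_ELP.{w}) (hSGN : Stmt_SGN.{w}) [CompactSpace S]
    [ConnectedSpace S] {f : ℝ → S → E3} (hf : Fam2 f)
    (hb : ∀ t ∈ Icc (0 : ℝ) 1, ∃ g : Fin 6 → (E3 ≃ᵃⁱ[ℝ] E3), (∀ i, Proper (g i)) ∧
      ∀ p, ¬ PosCurv (f 0) p → ∃ i, f t p = g i (f 0 p) ∧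
        ∀ v, FRD.dvec (f t) p v = (g i).linearIsometryEquiv (FRD.dvec (f 0) p v))
    {s t : ℝ} (hs : s ∈ Icc (0 : ℝ) 1) (ht : t ∈ Icc (0 : ℝ) 1) (hM : MPair (f s) (f t))
    (hT : FIN_T f s) : FIN_T f t := by
  obtain ⟨A, hA, hAf⟩ := hT
  obtain ⟨g, hg, hgb⟩ := hb t ht
  have h0 : (0 : ℝ) ∈ Icc (0 : ℝ) 1 := ⟨le_rfl, zero_le_one⟩
  -- the motions from time s to time t
  set B : Fin 6 → (E3 ≃ᵃⁱ[ℝ] E3) := fun i => A.symm.trans (g i) with hB
  have hBp : ∀ i, Proper (B i) := fun i => FIN_trans (FIN_symm hA) (hg i)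
  have hBd : ∀ p, ¬ PosCurv (f 0) p → ∃ i, f t p = B i (f s p) ∧
      ∀ v, FRD.dvec (f t) p v = (B i).linearIsometryEquiv (FRD.dvec (f s) p v) := by
    intro p hp
    obtain ⟨i, h1, h2⟩ := hgb p hp
    refine ⟨i, ?_, fun v => ?_⟩
    · rw [h1, hAf p]
      change _ = g i (A.symm (A (f 0 p)))
      rw [AffineIsometryEquiv.symm_apply_apply]
    · rw [h2 v, FIN_dvec (hf.smooth 0 h0) A hAf p v]
      change _ = (g i).linearIsometryEquiv
        (A.linearIsometryEquiv.symm (A.linearIsometryEquiv (FRD.dvec (f 0) p v)))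
      rw [LinearIsometryEquiv.symm_apply_apply]
  -- the values of the motion
  set C : Fin 6 → S → Prop := fun i q => f t q = B i (f s q) ∧
    ∀ v, FRD.dvec (f t) q v = (B i).linearIsometryEquiv (FRD.dvec (f s) q v) with hC
  obtain ⟨Φ, hΦ⟩ : ∃ Φ : Fin 6 → V3 × V3, ∀ i q, C i q →
      Yg (f s) (f t) q = (Φ i).1 ∧ Wg (f s) (f t) q = (Φ i).2 := by
    classical
    refine ⟨fun i => if hx : ∃ q, C i q then
      (Yg (f s) (f t) hx.choose, Wg (f s) (f t) hx.choose) else (0, 0), fun i q hq => ?_⟩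
    have hx : ∃ q, C i q := ⟨q, hq⟩
    beta_reduce
    rw [dif_pos hx]
    have h1 := hVAL S (f s) (f t) hM (B i) (hBp i) q hx.choose hq.1 hq.2 hx.choose_spec.1
      hx.choose_spec.2
    exact h1
  obtain ⟨y0, w0, hyw⟩ := hSTA S (f s) (f t) hM {p | ¬ PosCurv (f 0) p} (by
    intro q hq
    have hq' : PosCurv (f 0) q := by
      by_contra hn
      exact hq hn
    exact hSGN S f hf q (hELP S (f 0) (hf.smooth 0 h0) (hf.imm 0 h0) q hq') s hs t ht) Φ (by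
    intro q hq
    obtain ⟨i, hi⟩ := hBd q hq
    exact ⟨i, hΦ i q hi⟩)
  obtain ⟨A', hA', hA'z⟩ := hROT y0 w0
  refine ⟨A.trans A', FIN_trans hA hA', fun p => ?_⟩
  have h3 := (hGLB S (f s) (f t) hM).2.2 p
  rw [(hyw p).1, (hyw p).2] at h3
  have h4 := hA'z (f s p) (f t p) h3
  rw [h4, hAf p]
  rfl

end FIN

theorem blk_FIN (hSTA : Stmt_STA.{w}) (hROT : Stmt_ROT) (hVAL : Stmt_VAL.{w})
    (hGLB : Stmt_GLB.{w}) (hCLO : Stmt_CLO.{w}) (hELP : Stmt_ELP.{w}) (hSGN : Stmt_SGN.{w}) :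
    Stmt_FIN.{w} := by
  intro S _ _ _ _ _ f hf hb t ht
  set T : Set (Icc (0 : ℝ) 1) := {s | FIN_T f s} with hT
  have hev : ∀ s : Icc (0 : ℝ) 1, ∀ᶠ r : Icc (0 : ℝ) 1 in 𝓝 s, (FIN_T f r ↔ FIN_T f s) := by
    intro s
    have h1 : Tendsto (Subtype.val : Icc (0 : ℝ) 1 → ℝ) (𝓝 s) (𝓝[Icc (0 : ℝ) 1] (s : ℝ)) :=
      tendsto_nhdsWithin_iff.2 ⟨continuous_subtype_val.tendsto s,
        Eventually.of_forall fun x => x.2⟩
    filter_upwards [h1.eventually (hCLO S f hf s s.2)] with r hr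
    exact ⟨fun h => FIN_step hSTA hROT hVAL hGLB hELP hSGN hf hb r.2 s.2 hr.2 h,
      fun h => FIN_step hSTA hROT hVAL hGLB hELP hSGN hf hb s.2 r.2 hr.1 h⟩
  have hcl : IsClopen T := by
    constructor
    · rw [← isOpen_compl_iff, isOpen_iff_mem_nhds]
      intro s hs
      filter_upwards [hev s] with r hr h
      exact hs (hr.1 h)
    · rw [isOpen_iff_mem_nhds]
      intro s hs
      filter_upwards [hev s] with r hr
      exact hr.2 hs
  have : ConnectedSpace (Icc (0 : ℝ) 1) :=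
    Subtype.connectedSpace (isConnected_Icc (zero_le_one' ℝ))
  have hu := hcl.eq_univ ⟨⟨0, ⟨le_rfl, zero_le_one⟩⟩, AffineIsometryEquiv.refl ℝ E3, FIN_refl,
    fun p => rfl⟩
  have h5 : (⟨t, ht⟩ : Icc (0 : ℝ) 1) ∈ T := hu ▸ mem_univ _
  exact h5

end Pool.SXB
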