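import Pool.Agent.Work.MP_02e829_sb.Interface

/-! # Block INJ: the points where the Killing field is normal are isolated (helper94) -/

open Set Filter Manifold Matrix MeasureTheory Metric
open scoped Topology ContDiff Manifold

set_option autoImplicit false

universe w

namespace Pool.SXB

open Pool.FR (pd ee)

/-- a strictly differentiable function with injective derivative is injective near the point -/
theorem INJ_injOn {E F : Type} [NormedAddCommGroup E] [NormedSpace ℝ E] [FiniteDimensional ℝ E]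
    [NormedAddCommGroup F] [NormedSpace ℝ F] {f : E → F} {f' : E →L[ℝ] F} {p : E}
    (hf : HasStrictFDerivAt f f' p) (hi : ∀ v, f' v = 0 → v = 0) : ∃ s ∈ 𝓝 p, InjOn f s := by
  have hker : (f' : E →ₗ[ℝ] F).ker = ⊥ := by
    rw [LinearMap.ker_eq_bot']
    exact hi
  obtain ⟨K, K0, hK⟩ := LinearMap.exists_antilipschitzWith (f' : E →ₗ[ℝ] F) hker
  obtain ⟨k, hk⟩ : ∃ k : ℝ, k = K := ⟨_, rfl⟩
  have hKv : ∀ v, ‖v‖ ≤ k * ‖f' v‖ := by
    intro v
    have := hK.le_mul_dist v 0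
    rw [dist_zero_right] at this
    rw [hk]
    simpa using this
  have hKpos : 0 < k := by
    rw [hk]
    exact K0
  have hc : 0 < (2 * k)⁻¹ := by positivity
  have hev := hf.isLittleO.def hc
  rw [nhds_prod_eq] at hev
  obtain ⟨s, hs, hs2⟩ := Filter.eventually_prod_self_iff'.1 hev
  refine ⟨s, hs, ?_⟩
  intro y hy z hz hyz
  have h1 : ‖f y - f z - f' (y - z)‖ ≤ (2 * k)⁻¹ * ‖y - z‖ := hs2 y hy z hz
  rw [hyz, sub_self, zero_sub, norm_neg] at h1
  have h2 := hKv (y - z)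
  have h3 : k * ‖f' (y - z)‖ ≤ k * ((2 * k)⁻¹ * ‖y - z‖) :=
    mul_le_mul_of_nonneg_left h1 hKpos.le
  have h4 : k * ((2 * k)⁻¹ * ‖y - z‖) = ‖y - z‖ / 2 := by
    field_simp
  have h5 : ‖y - z‖ = 0 := by
    have := norm_nonneg (y - z)
    linarith
  exact sub_eq_zero.1 (norm_eq_zero.1 h5)

theorem INJ_dot {A n m : V3} (h : A ⨯₃ n = 0) (hm : m ⬝ᵥ n = 0) (hn : n ≠ 0) : A ⬝ᵥ m = 0 := by
  have h1 := cross_dot_cross A n m n
  rw [h, zero_dotProduct] at h1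
  rw [dotProduct_comm n m, hm, mul_zero, sub_zero] at h1
  rcases mul_eq_zero.1 h1.symm with h2 | h2
  · exact h2
  · exact (hn (dotProduct_self_eq_zero.1 h2)).elim

theorem INJ_lin {M00 M01 M10 M11 w0 w1 : ℝ} (hd : M00 * M11 - M01 * M10 ≠ 0)
    (h0 : w0 * M00 + w1 * M01 = 0) (h1 : w0 * M10 + w1 * M11 = 0) : w0 = 0 ∧ w1 = 0 := by
  constructor
  · have : w0 * (M00 * M11 - M01 * M10) = 0 := by linear_combination M11 * h0 - M01 * h1
    exact (mul_eq_zero.1 this).resolve_right hd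
  · have : w1 * (M00 * M11 - M01 * M10) = 0 := by linear_combination M00 * h1 - M10 * h0
    exact (mul_eq_zero.1 this).resolve_right hd

theorem INJ_expand {f : E2 → ℝ} {x w : E2} :
    fderiv ℝ f x w = w 0 * pd 0 f x + w 1 * pd 1 f x := by
  have hv : w = ∑ i, w i • ee i := by
    ext j
    fin_cases j <;> simp [ee]
  conv_lhs => rw [hv]
  rw [map_sum, Fin.sum_univ_two]
  simp only [map_smul, smul_eq_mul, pd]

theorem blk_INJ : Stmt_INJ := by
  intro U F G hP a b x0 hx0 hpos L hL hA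
  set m := mm F G with hm
  have cm : ContDiffOn ℝ 2 m U := (hP.smF.add hP.smG).const_smul (1 / 2 : ℝ)
  have cmi : ∀ i, ContDiffOn ℝ 1 (pd i m) U := fun i =>
    Pool.FR.pd_contDiffOn hP.op cm (by norm_num) i
  have dm : ∀ x ∈ U, DifferentiableAt ℝ m x := fun x hx =>
    Pool.FR.diff_at hP.op cm (by norm_num) hx
  have dmi : ∀ i, ∀ x ∈ U, DifferentiableAt ℝ (pd i m) x := fun i x hx =>
    Pool.FR.diff_at hP.op (cmi i) le_rfl hx
  have hUn : U ∈ 𝓝 x0 := hP.op.mem_nhds hx0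
  -- the functions
  set Ψ : Fin 2 → V3 × E2 → ℝ := fun i p => AA F G p.1 b p.2 ⬝ᵥ pd i m p.2 with hΨ
  have cΨ : ∀ i, ContDiffAt ℝ 1 (Ψ i) (a, x0) := by
    intro i
    have c1 : ContDiffAt ℝ 1 (fun p : V3 × E2 => pd i m p.2) (a, x0) :=
      ((cmi i x0 hx0).contDiffAt hUn).comp (a, x0) contDiffAt_snd
    have cb : ContDiffOn ℝ 1 (fun x => (b ⨯₃ m x) ⬝ᵥ pd i m x) U :=
      Pool.FR.contDiffOn_dot (Pool.FR.contDiffOn_cross contDiffOn_const (cm.of_le (by norm_num)))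
        (cmi i)
    have c2 : ContDiffAt ℝ 1 (fun p : V3 × E2 => (b ⨯₃ m p.2) ⬝ᵥ pd i m p.2) (a, x0) :=
      ContDiffAt.comp (g := fun x => (b ⨯₃ m x) ⬝ᵥ pd i m x) (a, x0)
        ((cb x0 hx0).contDiffAt hUn) contDiffAt_snd
    have c3 : ContDiffAt ℝ 1 (fun p : V3 × E2 => p.1 ⬝ᵥ pd i m p.2) (a, x0) := by
      have e : (fun p : V3 × E2 => p.1 ⬝ᵥ pd i m p.2) =
          fun p => ∑ k, p.1 k * pd i m p.2 k := rfl
      rw [e]
      apply ContDiffAt.sum
      intro k _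
      apply ContDiffAt.mul
      · exact (contDiffAt_pi.1 contDiffAt_fst) k
      · exact (contDiffAt_pi.1 c1) k
    have e : Ψ i = fun p => p.1 ⬝ᵥ pd i m p.2 + (b ⨯₃ m p.2) ⬝ᵥ pd i m p.2 := by
      funext p
      simp only [hΨ, AA]
      rw [add_dotProduct]
    rw [e]
    exact c3.add c2
  have sΨ : ∀ i, HasStrictFDerivAt (Ψ i) (fderiv ℝ (Ψ i) (a, x0)) (a, x0) := fun i =>
    (cΨ i).hasStrictFDerivAt one_ne_zero
  set Θ : V3 × E2 → V3 × (ℝ × ℝ) := fun p => (p.1, (Ψ 0 p, Ψ 1 p)) with hΘ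
  have sΘ : HasStrictFDerivAt Θ ((ContinuousLinearMap.fst ℝ V3 E2).prod
      ((fderiv ℝ (Ψ 0) (a, x0)).prod (fderiv ℝ (Ψ 1) (a, x0)))) (a, x0) :=
    hasStrictFDerivAt_fst.prodMk ((sΨ 0).prodMk (sΨ 1))
  -- the partial derivatives of `Ψ i (a, .)`
  set g : Fin 2 → E2 → ℝ := fun i x => AA F G a b x ⬝ᵥ pd i m x with hg
  have hgd : ∀ i w, fderiv ℝ (Ψ i) (a, x0) (0, w) = fderiv ℝ (g i) x0 w := by
    intro i w
    have h1 : HasFDerivAt (g i) ((fderiv ℝ (Ψ i) (a, x0)).comp (ContinuousLinearMap.inr ℝ V3 E2))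
        x0 := by
      have h2 := (sΨ i).hasFDerivAt
      exact h2.comp x0 (hasFDerivAt_prodMk_right a x0)
    rw [h1.fderiv]
    rfl
  have dA : DifferentiableAt ℝ (fun x => AA F G a b x) x0 := by
    have h1 : ContDiffOn ℝ 1 (fun x => b ⨯₃ m x) U :=
      Pool.FR.contDiffOn_cross contDiffOn_const (cm.of_le (by norm_num))
    exact (differentiableAt_const a).add (Pool.FR.diff_at hP.op h1 le_rfl hx0)
  have pA : ∀ j, pd j (fun x => AA F G a b x) x0 = b ⨯₃ pd j m x0 := by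
    intro j
    have h1 : ContDiffOn ℝ 1 (fun x => b ⨯₃ m x) U :=
      Pool.FR.contDiffOn_cross contDiffOn_const (cm.of_le (by norm_num))
    have e : (fun x => AA F G a b x) = fun x => a + b ⨯₃ m x := rfl
    rw [e, Pool.FR.pd_add j (differentiableAt_const a) (Pool.FR.diff_at hP.op h1 le_rfl hx0),
      Pool.FR.pd_const, Pool.FR.pd_cross j (differentiableAt_const b) (dm x0 hx0),
      Pool.FR.pd_const]
    simp
  have pg : ∀ i j, pd j (g i) x0 = (b ⨯₃ pd j m x0) ⬝ᵥ pd i m x0 + L * ss F G j i x0 := by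
    intro i j
    rw [hg]
    simp only
    rw [Pool.FR.pd_dot j dA (dmi i x0 hx0), pA, hA, smul_dotProduct, smul_eq_mul,
      dotProduct_comm (nn F G x0)]
    rfl
  have hsym : ss F G 1 0 x0 = ss F G 0 1 x0 := by
    unfold ss
    rw [Pool.FR.pd_comm hP.op cm le_rfl 1 0 hx0]
  have z0 : (b ⨯₃ pd 0 m x0) ⬝ᵥ pd 0 m x0 = 0 := by
    rw [dotProduct_comm]
    exact dot_cross_self _ _
  have z1 : (b ⨯₃ pd 1 m x0) ⬝ᵥ pd 1 m x0 = 0 := by
    rw [dotProduct_comm]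
    exact dot_cross_self _ _
  have z2 : (b ⨯₃ pd 1 m x0) ⬝ᵥ pd 0 m x0 = - ((b ⨯₃ pd 0 m x0) ⬝ᵥ pd 1 m x0) := by
    rw [cross_apply, cross_apply, vec3_dotProduct, vec3_dotProduct]
    simp
    ring
  have hinj : ∀ v, ((ContinuousLinearMap.fst ℝ V3 E2).prod
      ((fderiv ℝ (Ψ 0) (a, x0)).prod (fderiv ℝ (Ψ 1) (a, x0)))) v = 0 → v = 0 := by
    rintro ⟨v, w⟩ hv
    have hv0 : v = 0 := congrArg Prod.fst hv
    subst hv0
    have h0 : fderiv ℝ (Ψ 0) (a, x0) (0, w) = 0 := congrArg (fun t => t.2.1) hv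
    have h1 : fderiv ℝ (Ψ 1) (a, x0) (0, w) = 0 := congrArg (fun t => t.2.2) hv
    rw [hgd, INJ_expand, pg, pg] at h0 h1
    rw [z0, z2, hsym] at h0
    rw [z1] at h1
    unfold PosAt at hpos
    have hdet : (0 + L * ss F G 0 0 x0) * (0 + L * ss F G 1 1 x0) -
        (-((b ⨯₃ pd 0 m x0) ⬝ᵥ pd 1 m x0) + L * ss F G 0 1 x0) *
          ((b ⨯₃ pd 0 m x0) ⬝ᵥ pd 1 m x0 + L * ss F G 0 1 x0) ≠ 0 := by
      apply ne_of_gt
      have hL2 : 0 < L ^ 2 := by positivity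
      have := mul_pos hL2 hpos
      nlinarith [sq_nonneg ((b ⨯₃ pd 0 m x0) ⬝ᵥ pd 1 m x0)]
    obtain ⟨e0, e1⟩ := INJ_lin hdet h0 h1
    have hw : w = 0 := by
      ext k
      fin_cases k
      · exact e0
      · exact e1
    rw [hw]
    rfl
  obtain ⟨s, hs, hinjs⟩ := INJ_injOn sΘ hinj
  obtain ⟨ε, hε, hεs⟩ := Metric.mem_nhds_iff.1 hs
  obtain ⟨δ, hδ, hδU⟩ := Metric.mem_nhds_iff.1 hUn
  refine ⟨min ε δ, ε, lt_min hε hδ, hε, (ball_subset_ball (min_le_right _ _)).trans hδU, ?_⟩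
  intro a' ha' x hx x' hx' hn hn'
  have hxU : x ∈ U := hδU (ball_subset_ball (min_le_right _ _) hx)
  have hxU' : x' ∈ U := hδU (ball_subset_ball (min_le_right _ _) hx')
  have key : ∀ z ∈ U, AA F G a' b z ⨯₃ nn F G z = 0 → ∀ i, Ψ i (a', z) = 0 := by
    intro z hz hzn i
    simp only [hΨ]
    refine INJ_dot hzn ?_ (hP.imm z hz)
    unfold nn
    fin_cases i
    · exact dot_self_cross _ _
    · exact dot_cross_self _ _
  have hmem : ∀ z ∈ ball x0 (min ε δ), (a', z) ∈ s := by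
    intro z hz
    apply hεs
    rw [← ball_prod_same]
    refine ⟨?_, ball_subset_ball (min_le_left _ _) hz⟩
    rw [mem_ball, dist_eq_norm]
    exact ha'
  have e : Θ (a', x) = Θ (a', x') := by
    simp only [hΘ]
    rw [key x hxU hn, key x hxU hn, key x' hxU' hn', key x' hxU' hn']
  have := hinjs (hmem x hx) (hmem x' hx') e
  exact congrArg Prod.snd this

end Pool.SXB
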