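import Pool.Agent.Work.MP_02e829_sb.Interface

set_option autoImplicit false

/-! # SixBodies: block KIL (constant functionals) -/

open Set Filter Manifold Matrix MeasureTheory Metric
open scoped Topology ContDiff Manifold

namespace Pool.SXB

open Pool.FR (pd ee)

/-! ### Algebra -/

theorem KIL_alg1 (a b m y : V3) : a ⬝ᵥ y + b ⬝ᵥ (m ⨯₃ y) = (a + b ⨯₃ m) ⬝ᵥ y := by
  simp only [cross_apply, Matrix.vec3_dotProduct, Pi.add_apply, Matrix.cons_val_zero,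
    Matrix.cons_val_one, Matrix.cons_val]
  ring

theorem KIL_alg2 (b m0 m1 : V3) (h0 : b ⨯₃ m0 = 0) (h1 : b ⨯₃ m1 = 0) (hn : m0 ⨯₃ m1 ≠ 0) :
    b = 0 := by
  have hnn : (m0 ⨯₃ m1) ⬝ᵥ (m0 ⨯₃ m1) ≠ 0 := fun h => hn (dotProduct_self_eq_zero.1 h)
  have e0 := congrFun h0 0
  have e1 := congrFun h0 1
  have e2 := congrFun h0 2
  have f0 := congrFun h1 0
  have f1 := congrFun h1 1
  have f2 := congrFun h1 2
  simp only [cross_apply, Matrix.vec3_dotProduct, Matrix.cons_val_zero, Matrix.cons_val_one,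
    Matrix.cons_val, Pi.zero_apply] at e0 e1 e2 f0 f1 f2 hnn
  have key : ∀ j : Fin 3, b j = 0 := by
    intro j
    refine (mul_eq_zero.1 ?_).resolve_right hnn
    fin_cases j
    · simp only [Fin.zero_eta, Fin.mk_one, Fin.reduceFinMk, Fin.isValue]
      linear_combination (-(m0 1 * m1 2 - m0 2 * m1 1) * m1 0 + m1 0 * (m0 1 * m1 2 - m0 2 * m1 1)) * e0
        + (-(m0 2 * m1 0 - m0 0 * m1 2) * m1 0 + m1 1 * (m0 1 * m1 2 - m0 2 * m1 1)) * e1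
        + (-(m0 0 * m1 1 - m0 1 * m1 0) * m1 0 + m1 2 * (m0 1 * m1 2 - m0 2 * m1 1)) * e2
        + ((m0 1 * m1 2 - m0 2 * m1 1) * m0 0) * f0 + ((m0 2 * m1 0 - m0 0 * m1 2) * m0 0) * f1
        + ((m0 0 * m1 1 - m0 1 * m1 0) * m0 0) * f2
    · simp only [Fin.zero_eta, Fin.mk_one, Fin.reduceFinMk, Fin.isValue]
      linear_combination (-(m0 1 * m1 2 - m0 2 * m1 1) * m1 1 + m1 0 * (m0 2 * m1 0 - m0 0 * m1 2)) * e0
        + (-(m0 2 * m1 0 - m0 0 * m1 2) * m1 1 + m1 1 * (m0 2 * m1 0 - m0 0 * m1 2)) * e1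
        + (-(m0 0 * m1 1 - m0 1 * m1 0) * m1 1 + m1 2 * (m0 2 * m1 0 - m0 0 * m1 2)) * e2
        + ((m0 1 * m1 2 - m0 2 * m1 1) * m0 1) * f0 + ((m0 2 * m1 0 - m0 0 * m1 2) * m0 1) * f1
        + ((m0 0 * m1 1 - m0 1 * m1 0) * m0 1) * f2
    · simp only [Fin.zero_eta, Fin.mk_one, Fin.reduceFinMk, Fin.isValue]
      linear_combination (-(m0 1 * m1 2 - m0 2 * m1 1) * m1 2 + m1 0 * (m0 0 * m1 1 - m0 1 * m1 0)) * e0
        + (-(m0 2 * m1 0 - m0 0 * m1 2) * m1 2 + m1 1 * (m0 0 * m1 1 - m0 1 * m1 0)) * e1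
        + (-(m0 0 * m1 1 - m0 1 * m1 0) * m1 2 + m1 2 * (m0 0 * m1 1 - m0 1 * m1 0)) * e2
        + ((m0 1 * m1 2 - m0 2 * m1 1) * m0 2) * f0 + ((m0 2 * m1 0 - m0 0 * m1 2) * m0 2) * f1
        + ((m0 0 * m1 1 - m0 1 * m1 0) * m0 2) * f2
  funext j
  exact key j

theorem KIL_alg3 (A m0 m1 q : V3) (h0 : A ⬝ᵥ m0 = 0) (h1 : A ⬝ᵥ m1 = 0) (hn : m0 ⨯₃ m1 ≠ 0)
    (hq : A ⬝ᵥ q = 0) (hs : q ⬝ᵥ (m0 ⨯₃ m1) ≠ 0) : A = 0 := by
  have hnn : (m0 ⨯₃ m1) ⬝ᵥ (m0 ⨯₃ m1) ≠ 0 := fun h => hn (dotProduct_self_eq_zero.1 h)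
  -- `(n ⬝ n) A = (A ⬝ n) n + (A ⬝ m1) (n × m0) - (A ⬝ m0) (n × m1)`
  have key : ((m0 ⨯₃ m1) ⬝ᵥ (m0 ⨯₃ m1)) • A = (A ⬝ᵥ (m0 ⨯₃ m1)) • (m0 ⨯₃ m1) +
      (A ⬝ᵥ m1) • ((m0 ⨯₃ m1) ⨯₃ m0) - (A ⬝ᵥ m0) • ((m0 ⨯₃ m1) ⨯₃ m1) := by
    funext j
    fin_cases j <;>
      simp only [cross_apply, Matrix.vec3_dotProduct, Pi.add_apply, Pi.sub_apply, Pi.smul_apply,
        smul_eq_mul, Matrix.cons_val_zero, Matrix.cons_val_one, Matrix.cons_val, Fin.zero_eta,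
        Fin.mk_one, Fin.reduceFinMk, Fin.isValue] <;> ring
  rw [h0, h1, zero_smul, zero_smul, add_zero, sub_zero] at key
  have h2 : (A ⬝ᵥ (m0 ⨯₃ m1)) * (q ⬝ᵥ (m0 ⨯₃ m1)) = 0 := by
    have h3 := congrArg (fun v => q ⬝ᵥ v) key
    simp only [dotProduct_smul, smul_eq_mul] at h3
    rw [dotProduct_comm q A, hq, mul_zero] at h3
    exact h3.symm
  have h4 : A ⬝ᵥ (m0 ⨯₃ m1) = 0 := (mul_eq_zero.1 h2).resolve_right hs
  rw [h4, zero_smul] at key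
  exact (smul_eq_zero.1 key).resolve_left hnn

theorem KIL_alg4 (s00 s01 s11 k00 k01 k11 : ℝ) (hs : 0 < s00 * s11 - s01 ^ 2)
    (ht : s00 * k11 + s11 * k00 - 2 * s01 * k01 = 0) (hd : k01 ^ 2 - k00 * k11 = 0) :
    k00 = 0 ∧ k01 = 0 ∧ k11 = 0 := by
  have h1 : 4 * (s00 * s11 - s01 ^ 2) * k01 ^ 2 + (s00 * k11 - s11 * k00) ^ 2 = 0 := by
    have h2 : s00 * k11 + s11 * k00 = 2 * s01 * k01 := by linarith
    have h3 : 4 * (s00 * s11 - s01 ^ 2) * k01 ^ 2 + (s00 * k11 - s11 * k00) ^ 2 =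
        4 * s00 * s11 * (k01 ^ 2 - k00 * k11) + ((s00 * k11 + s11 * k00) ^ 2 -
          (2 * s01 * k01) ^ 2) := by ring
    rw [h3, h2, hd]
    ring
  have h4 : k01 ^ 2 = 0 := by
    have h5 : 0 ≤ (s00 * s11 - s01 ^ 2) * k01 ^ 2 := mul_nonneg hs.le (sq_nonneg _)
    have h6 : (s00 * s11 - s01 ^ 2) * k01 ^ 2 = 0 := by nlinarith [sq_nonneg (s00 * k11 - s11 * k00)]
    exact (mul_eq_zero.1 h6).resolve_left hs.ne'
  have h7 : k01 = 0 := by simpa using h4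
  have h8 : (s00 * k11 - s11 * k00) ^ 2 = 0 := by
    rw [h4] at h1
    linarith
  have h9 : s00 * k11 - s11 * k00 = 0 := by simpa using h8
  rw [h7] at ht
  have h10 : s00 * k11 = 0 := by linarith
  have h11 : s11 * k00 = 0 := by linarith
  have hss : 0 < s00 * s11 := by nlinarith [sq_nonneg s01]
  have hs0 : s00 ≠ 0 := by
    rintro rfl
    simp at hss
  have hs1 : s11 ≠ 0 := by
    rintro rfl
    simp at hss
  exact ⟨(mul_eq_zero.1 h11).resolve_left hs1, h7, (mul_eq_zero.1 h10).resolve_left hs0⟩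

/-! ### Regularity -/

section reg

variable {U : Set E2} {F G : E2 → V3}

theorem KIL_mm (h : Pair U F G) : ContDiffOn ℝ 2 (mm F G) U :=
  (h.smF.add h.smG).const_smul (1 / 2 : ℝ)

theorem KIL_pm (h : Pair U F G) (i : Fin 2) : ContDiffOn ℝ 1 (pd i (mm F G)) U :=
  Pool.FR.pd_contDiffOn h.op (KIL_mm h) (by norm_num) i

theorem KIL_nn (h : Pair U F G) : ContDiffOn ℝ 1 (nn F G) U :=
  Pool.FR.contDiffOn_cross (KIL_pm h 0) (KIL_pm h 1)

theorem KIL_ss (h : Pair U F G) (i j : Fin 2) : ContinuousOn (ss F G i j) U := by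
  have h1 : ContDiffOn ℝ 0 (pd i (pd j (mm F G))) U :=
    Pool.FR.pd_contDiffOn h.op (KIL_pm h j) (by norm_num) i
  have h2 : ContDiffOn ℝ 0 (nn F G) U := (KIL_nn h).of_le (by norm_num)
  exact (Pool.FR.contDiffOn_dot h1 h2).continuousOn

theorem KIL_kk (hYC1 : Stmt_YC1) (h : Pair U F G) (i j : Fin 2) :
    ContinuousOn (kk F G i j) U := by
  have h1 : ContDiffOn ℝ 0 (pd i (yy F G)) U :=
    Pool.FR.pd_contDiffOn h.op (hYC1 U F G h).1 (by norm_num) i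
  have h2 : ContDiffOn ℝ 0 (nn F G) U := (KIL_nn h).of_le (by norm_num)
  have h3 : ContDiffOn ℝ 0 (pd j (mm F G)) U := (KIL_pm h j).of_le (by norm_num)
  refine ContinuousOn.div
    (Pool.FR.contDiffOn_dot (Pool.FR.contDiffOn_cross h1 h3) h2).continuousOn
    (Pool.FR.contDiffOn_dot h2 h2).continuousOn ?_
  intro x hx h0
  exact h.imm x hx (dotProduct_self_eq_zero.1 h0)

/-- the partial derivatives of the Killing field -/
theorem KIL_pdA (h : Pair U F G) (a b : V3) {x : E2} (hx : x ∈ U) (i : Fin 2) :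
    pd i (AA F G a b) x = b ⨯₃ pd i (mm F G) x := by
  have hd : DifferentiableAt ℝ (mm F G) x := Pool.FR.diff_at h.op (KIL_mm h) (by norm_num) hx
  have hcd : DifferentiableAt ℝ (fun y => b ⨯₃ mm F G y) x :=
    Pool.FR.diff_at h.op (Pool.FR.contDiffOn_cross (contDiffOn_const (c := b)) (KIL_mm h))
      (by norm_num) hx
  have h1 : pd i (fun y => a + b ⨯₃ mm F G y) x = pd i (fun _ => a) x +
      pd i (fun y => b ⨯₃ mm F G y) x := Pool.FR.pd_add i (differentiableAt_const a) hcd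
  have h2 : pd i (fun y => (fun _ => b) y ⨯₃ mm F G y) x =
      pd i (fun _ => b) x ⨯₃ mm F G x + b ⨯₃ pd i (mm F G) x :=
    Pool.FR.pd_cross i (differentiableAt_const b) hd
  rw [Pool.FR.pd_const] at h1 h2
  rw [LinearMap.map_zero₂, zero_add] at h2
  change pd i (fun y => a + b ⨯₃ mm F G y) x = _
  rw [h1, zero_add]
  exact h2

theorem KIL_diffA (h : Pair U F G) (a b : V3) {x : E2} (hx : x ∈ U) :
    DifferentiableAt ℝ (AA F G a b) x := by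
  have hcd : DifferentiableAt ℝ (fun y => b ⨯₃ mm F G y) x :=
    Pool.FR.diff_at h.op (Pool.FR.contDiffOn_cross (contDiffOn_const (c := b)) (KIL_mm h))
      (by norm_num) hx
  exact (differentiableAt_const a).add hcd

/-- the partial derivatives of the functional -/
theorem KIL_pdl (hYC1 : Stmt_YC1) (hDIF : Stmt_DIF) (h : Pair U F G) (a b : V3) {x : E2}
    (hx : x ∈ U) (i : Fin 2) : pd i (ll F G a b) x = AA F G a b x ⬝ᵥ pd i (yy F G) x := by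
  have hy : DifferentiableAt ℝ (yy F G) x :=
    Pool.FR.diff_at h.op (hYC1 U F G h).1 le_rfl hx
  have hw : DifferentiableAt ℝ (ww F G) x :=
    Pool.FR.diff_at h.op (hYC1 U F G h).2.1 le_rfl hx
  have d1 : DifferentiableAt ℝ (fun y => a ⬝ᵥ yy F G y) x :=
    Pool.FR.diff_at h.op (Pool.FR.contDiffOn_dot (contDiffOn_const (c := a)) (hYC1 U F G h).1)
      le_rfl hx
  have d2 : DifferentiableAt ℝ (fun y => b ⬝ᵥ ww F G y) x :=
    Pool.FR.diff_at h.op (Pool.FR.contDiffOn_dot (contDiffOn_const (c := b)) (hYC1 U F G h).2.1)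
      le_rfl hx
  have h1 : pd i (fun y => a ⬝ᵥ yy F G y + b ⬝ᵥ ww F G y) x =
      pd i (fun y => a ⬝ᵥ yy F G y) x + pd i (fun y => b ⬝ᵥ ww F G y) x :=
    Pool.FR.pd_add i d1 d2
  have h2 : pd i (fun y => (fun _ => a) y ⬝ᵥ yy F G y) x =
      pd i (fun _ => a) x ⬝ᵥ yy F G x + a ⬝ᵥ pd i (yy F G) x :=
    Pool.FR.pd_dot i (differentiableAt_const a) hy
  have h3 : pd i (fun y => (fun _ => b) y ⬝ᵥ ww F G y) x =
      pd i (fun _ => b) x ⬝ᵥ ww F G x + b ⬝ᵥ pd i (ww F G) x :=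
    Pool.FR.pd_dot i (differentiableAt_const b) hw
  rw [Pool.FR.pd_const, zero_dotProduct, zero_add] at h2 h3
  have h4 := (hDIF U F G h x hx).2.2.2 i
  change pd i (fun y => a ⬝ᵥ yy F G y + b ⬝ᵥ ww F G y) x = _
  rw [h1]
  have h5 : pd i (fun y => a ⬝ᵥ yy F G y) x + pd i (fun y => b ⬝ᵥ ww F G y) x =
      a ⬝ᵥ pd i (yy F G) x + b ⬝ᵥ pd i (ww F G) x := congrArg₂ (· + ·) h2 h3
  rw [h5, h4, KIL_alg1]
  rfl

end reg

theorem KIL_pt (hYC1 : Stmt_YC1) (hDIF : Stmt_DIF) (hMIX : Stmt_MIX) {U : Set E2} {F G : E2 → V3}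
    (h : Pair U F G) {a b : V3} {c : ℝ} (hab : ¬ (a = 0 ∧ b = 0)) {z : E2} (hz : z ∈ U)
    (hP : PosAt F G z) (hl : ∀ᶠ x in 𝓝 z, ll F G a b x = c) : ∀ i, pd i (yy F G) z = 0 := by
  have hDz := hDIF U F G h z hz
  by_contra hne
  -- the determinant of `k` is not zero at `z`
  have hD : kk F G 0 1 z ^ 2 - kk F G 0 0 z * kk F G 1 1 z ≠ 0 := by
    intro h0
    obtain ⟨k0, k1, k2⟩ := KIL_alg4 _ _ _ _ _ _ hP
      (by
        have h1 := (hMIX U F G h z hz).2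
        exact h1) h0
    apply hne
    intro i
    fin_cases i
    · change pd 0 (yy F G) z = 0
      rw [hDz.1, k0, k1, zero_smul, zero_smul, sub_zero]
    · change pd 1 (yy F G) z = 0
      rw [hDz.2.1, k1, k2, zero_smul, zero_smul, sub_zero]
  have hUz : U ∈ 𝓝 z := h.op.mem_nhds hz
  have hDc : ContinuousAt (fun x => kk F G 0 1 x ^ 2 - kk F G 0 0 x * kk F G 1 1 x) z := by
    have c01 := (KIL_kk hYC1 h 0 1).continuousAt hUz
    have c00 := (KIL_kk hYC1 h 0 0).continuousAt hUz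
    have c11 := (KIL_kk hYC1 h 1 1).continuousAt hUz
    exact (c01.pow 2).sub (c00.mul c11)
  have hDe : ∀ᶠ x in 𝓝 z, kk F G 0 1 x ^ 2 - kk F G 0 0 x * kk F G 1 1 x ≠ 0 :=
    hDc.eventually_ne hD
  have hPc : ContinuousAt (fun x => ss F G 0 0 x * ss F G 1 1 x - ss F G 0 1 x ^ 2) z := by
    have c01 := (KIL_ss h 0 1).continuousAt hUz
    have c00 := (KIL_ss h 0 0).continuousAt hUz
    have c11 := (KIL_ss h 1 1).continuousAt hUz
    exact (c00.mul c11).sub (c01.pow 2)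
  have hPe : ∀ᶠ x in 𝓝 z, 0 < ss F G 0 0 x * ss F G 1 1 x - ss F G 0 1 x ^ 2 :=
    hPc.eventually (lt_mem_nhds hP)
  have hUe : ∀ᶠ x in 𝓝 z, x ∈ U := hUz
  -- the Killing field is normal near `z`
  have hα : ∀ᶠ x in 𝓝 z, AA F G a b x ⬝ᵥ pd 0 (mm F G) x = 0 ∧
      AA F G a b x ⬝ᵥ pd 1 (mm F G) x = 0 := by
    filter_upwards [hDe, hUe, eventually_eventually_nhds.2 hl] with x hDx hxU hlx
    have hp : ∀ i, AA F G a b x ⬝ᵥ pd i (yy F G) x = 0 := by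
      intro i
      rw [← KIL_pdl hYC1 hDIF h a b hxU i]
      have h1 : ll F G a b =ᶠ[𝓝 x] fun _ => c := hlx
      rw [pd, h1.fderiv_eq]
      exact Pool.FR.pd_const i c x
    have hDx' := hDIF U F G h x hxU
    have p0 := hp 0
    have p1 := hp 1
    rw [hDx'.1, dotProduct_sub, dotProduct_smul, dotProduct_smul, smul_eq_mul, smul_eq_mul] at p0
    rw [hDx'.2.1, dotProduct_sub, dotProduct_smul, dotProduct_smul, smul_eq_mul,
      smul_eq_mul] at p1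
    constructor
    · refine (mul_eq_zero.1 ?_).resolve_left hDx
      linear_combination kk F G 0 1 x * p0 - kk F G 0 0 x * p1
    · refine (mul_eq_zero.1 ?_).resolve_left hDx
      linear_combination kk F G 1 1 x * p0 - kk F G 0 1 x * p1
  -- it is zero near `z`
  have hA : ∀ᶠ x in 𝓝 z, AA F G a b x = 0 := by
    filter_upwards [hPe, hUe, eventually_eventually_nhds.2 hα] with x hPx hxU hαx
    have hα0 := hαx.self_of_nhds
    have h1 : (fun y => AA F G a b y ⬝ᵥ pd 0 (mm F G) y) =ᶠ[𝓝 x] fun _ => 0 :=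
      hαx.mono fun y hy => hy.1
    have h2 : pd 0 (fun y => AA F G a b y ⬝ᵥ pd 0 (mm F G) y) x = 0 := by
      rw [pd, h1.fderiv_eq]
      exact Pool.FR.pd_const 0 0 x
    rw [Pool.FR.pd_dot 0 (KIL_diffA h a b hxU)
      (Pool.FR.diff_at h.op (KIL_pm h 0) le_rfl hxU), KIL_pdA h a b hxU] at h2
    have h3 : (b ⨯₃ pd 0 (mm F G) x) ⬝ᵥ pd 0 (mm F G) x = 0 := by
      rw [dotProduct_comm]
      exact dot_cross_self _ _
    rw [h3, zero_add] at h2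
    have hs0 : pd 0 (pd 0 (mm F G)) x ⬝ᵥ (pd 0 (mm F G) x ⨯₃ pd 1 (mm F G) x) ≠ 0 := by
      intro h4
      have h5 : ss F G 0 0 x = 0 := h4
      rw [h5] at hPx
      nlinarith [sq_nonneg (ss F G 0 1 x)]
    exact KIL_alg3 _ _ _ _ hα0.1 hα0.2 (h.imm x hxU) h2 hs0
  -- so `b = 0` and `a = 0`
  have hz0 := hA.self_of_nhds
  have hb : ∀ i, b ⨯₃ pd i (mm F G) z = 0 := by
    intro i
    rw [← KIL_pdA h a b hz i]
    have h1 : AA F G a b =ᶠ[𝓝 z] fun _ => 0 := hA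
    rw [pd, h1.fderiv_eq]
    exact Pool.FR.pd_const i 0 z
  have hb0 : b = 0 := KIL_alg2 b _ _ (hb 0) (hb 1) (h.imm z hz)
  apply hab
  refine ⟨?_, hb0⟩
  have h6 : a + b ⨯₃ mm F G z = 0 := hz0
  rw [hb0, LinearMap.map_zero₂, add_zero] at h6
  exact h6

theorem blk_KIL (h1 : Stmt_YC1) (h2 : Stmt_DIF) (h3 : Stmt_MIX) : Stmt_KIL := by
  intro U F G h a b c hab x0 hx0 hP hl
  have hUz : U ∈ 𝓝 x0 := h.op.mem_nhds hx0
  have hPc : ContinuousAt (fun x => ss F G 0 0 x * ss F G 1 1 x - ss F G 0 1 x ^ 2) x0 := by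
    have c01 := (KIL_ss h 0 1).continuousAt hUz
    have c00 := (KIL_ss h 0 0).continuousAt hUz
    have c11 := (KIL_ss h 1 1).continuousAt hUz
    exact (c00.mul c11).sub (c01.pow 2)
  have hPe : ∀ᶠ x in 𝓝 x0, 0 < ss F G 0 0 x * ss F G 1 1 x - ss F G 0 1 x ^ 2 :=
    hPc.eventually (lt_mem_nhds hP)
  have hUe : ∀ᶠ x in 𝓝 x0, x ∈ U := hUz
  change ∀ᶠ z in 𝓝 x0, ∀ i, pd i (yy F G) z = 0
  filter_upwards [hPe, hUe, eventually_eventually_nhds.2 hl] with z hPz hzU hlz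
  exact KIL_pt h1 h2 h3 h hab hzU hPz hlz

end Pool.SXB
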