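import Pool.Agent.Work.MP_02e829_sb.Interface

/-! # Six rigid pieces, block SAD: local maximum, the Killing field is normal -/

open Set Filter Manifold Matrix MeasureTheory Metric
open scoped Topology ContDiff Manifold

set_option autoImplicit false

universe w

namespace Pool.SXB

open Pool.FR (pd ee)

/-- second derivative test along a line -/
theorem SAD_line (h P R A0 A1 : ℝ → ℝ) (c0 c1 : ℝ)
    (hd : ∀ᶠ t in 𝓝 (0 : ℝ), HasDerivAt h (P t * A0 t - R t * A1 t) t)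
    (hP : ContinuousAt P 0) (hR : ContinuousAt R 0) (h0 : HasDerivAt A0 c0 0)
    (h1 : HasDerivAt A1 c1 0) (z0 : A0 0 = 0) (z1 : A1 0 = 0)
    (hm : ∀ᶠ t in 𝓝 (0 : ℝ), h t ≤ h 0) : P 0 * c0 - R 0 * c1 ≤ 0 := by
  by_contra hcon
  push Not at hcon
  have hne : 𝓝[≠] (0 : ℝ) ≤ 𝓝 0 := nhdsWithin_le_nhds
  have hs0 := hasDerivAt_iff_tendsto_slope.1 h0
  have hs1 := hasDerivAt_iff_tendsto_slope.1 h1
  have hP' : Tendsto P (𝓝[≠] (0 : ℝ)) (𝓝 (P 0)) := hP.tendsto.mono_left hne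
  have hR' : Tendsto R (𝓝[≠] (0 : ℝ)) (𝓝 (R 0)) := hR.tendsto.mono_left hne
  have hlim := (hP'.mul hs0).sub (hR'.mul hs1)
  have hpos := hlim.eventually (lt_mem_nhds hcon)
  have hpos' : ∀ᶠ t in 𝓝 (0 : ℝ), t ≠ 0 →
      0 < P t * slope A0 0 t - R t * slope A1 0 t := by
    rw [eventually_nhdsWithin_iff] at hpos
    exact hpos
  obtain ⟨δ, hδ, hball⟩ := Metric.eventually_nhds_iff.1 (hd.and (hm.and hpos'))
  have hδ2 : 0 < δ / 2 := by linarith
  have hmem : ∀ t ∈ Icc (0 : ℝ) (δ / 2), dist t 0 < δ := by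
    intro t ht
    rw [Real.dist_eq, sub_zero, abs_of_nonneg ht.1]
    linarith [ht.2]
  have hmono : StrictMonoOn h (Icc (0 : ℝ) (δ / 2)) := by
    refine strictMonoOn_of_deriv_pos (convex_Icc _ _) ?_ ?_
    · intro t ht
      exact (hball (hmem t ht)).1.continuousAt.continuousWithinAt
    · intro t ht
      rw [interior_Icc] at ht
      obtain ⟨hd1, _, hp⟩ := hball (hmem t ⟨ht.1.le, ht.2.le⟩)
      rw [hd1.deriv]
      have h2 := hp (ne_of_gt ht.1)
      have h3 : P t * A0 t - R t * A1 t = t * (P t * slope A0 0 t - R t * slope A1 0 t) := by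
        rw [slope_def_field, slope_def_field, z0, z1, sub_zero, sub_zero, sub_zero]
        have := ne_of_gt ht.1
        field_simp
      rw [h3]
      exact mul_pos ht.1 h2
  have hlt := hmono (left_mem_Icc.2 hδ2.le) (right_mem_Icc.2 hδ2.le) hδ2
  have hle := (hball (hmem (δ / 2) ⟨hδ2.le, le_rfl⟩)).2.1
  linarith

/-- the algebra -/
theorem SAD_alg (s00 s01 s11 k00 k01 k11 B L : ℝ) (hL : L ≠ 0)
    (hs : 0 < s00 * s11 - s01 ^ 2) (hk : s00 * k11 + s11 * k00 - 2 * s01 * k01 = 0)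
    (hQ : ∀ a b : ℝ, (a * k01 + b * k11) * (a * (L * s00) + b * (L * s01 - B)) -
      (a * k00 + b * k01) * (a * (L * s01 + B) + b * (L * s11)) ≤ 0) :
    k00 = 0 ∧ k01 = 0 ∧ k11 = 0 := by
  set H0 := k01 * (L * s00) - k00 * (L * s01 + B) with hH0
  set H1 := k01 * (L * s01 - B) - k00 * (L * s11) with hH1
  set H2 := k11 * (L * s01 - B) - k01 * (L * s11) with hH2
  have hsym : k11 * (L * s00) - k01 * (L * s01 + B) = H1 := by
    rw [hH1]
    linear_combination L * hk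
  have hQ' : ∀ a b : ℝ, a ^ 2 * H0 + 2 * a * b * H1 + b ^ 2 * H2 ≤ 0 := by
    intro a b
    have h1 := hQ a b
    have h2 : a ^ 2 * H0 + 2 * a * b * H1 + b ^ 2 * H2 =
        (a * k01 + b * k11) * (a * (L * s00) + b * (L * s01 - B)) -
        (a * k00 + b * k01) * (a * (L * s01 + B) + b * (L * s11)) := by
      rw [hH0, hH1, hH2]
      linear_combination (-(a * b * L)) * hk
    rw [h2]
    exact h1
  have hdet : H0 * H2 - H1 ^ 2 = (k00 * k11 - k01 ^ 2) * (L ^ 2 * (s00 * s11 - s01 ^ 2) + B ^ 2) := by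
    have : H1 ^ 2 = H1 * (k11 * (L * s00) - k01 * (L * s01 + B)) := by rw [hsym]; ring
    rw [this, hH0, hH1, hH2]
    ring
  have hdet0 : 0 ≤ H0 * H2 - H1 ^ 2 := by
    by_contra hcon
    push Not at hcon
    have e0 := hQ' 1 0
    have e2 := hQ' 0 1
    have f1 := hQ' H1 (-H0)
    have f2 := hQ' H2 (-H1)
    have f1' : H0 * (H0 * H2 - H1 ^ 2) ≤ 0 := by nlinarith [f1]
    have f2' : H2 * (H0 * H2 - H1 ^ 2) ≤ 0 := by nlinarith [f2]
    have g0 : 0 ≤ H0 := by
      by_contra h; push Not at h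
      have := mul_pos_of_neg_of_neg h hcon
      linarith
    have g2 : 0 ≤ H2 := by
      by_contra h; push Not at h
      have := mul_pos_of_neg_of_neg h hcon
      linarith
    have z0 : H0 = 0 := by linarith
    have z2 : H2 = 0 := by linarith
    have e3 := hQ' 1 1
    have e4 := hQ' 1 (-1)
    have z1 : H1 = 0 := by
      rw [z0, z2] at e3 e4
      linarith
    rw [z0, z1, z2] at hcon
    norm_num at hcon
  rw [hdet] at hdet0
  have hpos : 0 < L ^ 2 * (s00 * s11 - s01 ^ 2) + B ^ 2 := by positivity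
  have hk0 : 0 ≤ k00 * k11 - k01 ^ 2 := by
    by_contra h; push Not at h
    have := mul_neg_of_neg_of_pos h hpos
    linarith
  have key : 4 * (s00 * s11) * (k01 ^ 2 - k00 * k11) =
      4 * (s00 * s11 - s01 ^ 2) * k01 ^ 2 + (s00 * k11 - s11 * k00) ^ 2 := by
    linear_combination (-(s00 * k11 + s11 * k00 + 2 * s01 * k01)) * hk
  have hss : 0 < s00 * s11 := by nlinarith [sq_nonneg s01]
  have hle : 4 * (s00 * s11) * (k01 ^ 2 - k00 * k11) ≤ 0 := by
    have : k01 ^ 2 - k00 * k11 ≤ 0 := by linarith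
    exact mul_nonpos_of_nonneg_of_nonpos (by linarith) this
  have g1 : 0 ≤ (s00 * s11 - s01 ^ 2) * k01 ^ 2 := by positivity
  have g2 : 0 ≤ (s00 * k11 - s11 * k00) ^ 2 := sq_nonneg _
  have g3 : (s00 * s11 - s01 ^ 2) * k01 ^ 2 = 0 := by linarith
  have g4 : (s00 * k11 - s11 * k00) ^ 2 = 0 := by linarith
  have k1 : k01 = 0 := by
    rcases mul_eq_zero.1 g3 with h | h
    · exact absurd h (ne_of_gt hs)
    · exact pow_eq_zero_iff (two_ne_zero) |>.1 h
  have g5 : s00 * k11 - s11 * k00 = 0 := pow_eq_zero_iff (two_ne_zero) |>.1 g4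
  rw [k1, mul_zero, sub_zero] at hk
  have g6 : s00 * k11 = 0 := by linarith
  have g7 : s11 * k00 = 0 := by linarith
  have n0 : s00 ≠ 0 := left_ne_zero_of_mul (ne_of_gt hss)
  have n1 : s11 ≠ 0 := right_ne_zero_of_mul (ne_of_gt hss)
  refine ⟨?_, k1, ?_⟩
  · rcases mul_eq_zero.1 g7 with h | h
    · exact absurd h n1
    · exact h
  · rcases mul_eq_zero.1 g6 with h | h
    · exact absurd h n0
    · exact h

theorem SAD_fderiv {G : Type*} [NormedAddCommGroup G] [NormedSpace ℝ G] (f : E2 → G) (x ξ : E2) :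
    fderiv ℝ f x ξ = ξ 0 • pd 0 f x + ξ 1 • pd 1 f x := by
  have hv : ξ = ξ 0 • ee 0 + ξ 1 • ee 1 := by
    ext j
    fin_cases j <;> simp [ee]
  conv_lhs => rw [hv, map_add, map_smul, map_smul]
  rfl

theorem SAD_lineDeriv {G : Type*} [NormedAddCommGroup G] [NormedSpace ℝ G] (f : E2 → G)
    (x0 ξ : E2) (t : ℝ) (hf : DifferentiableAt ℝ f (x0 + t • ξ)) :
    HasDerivAt (fun t : ℝ => f (x0 + t • ξ))
      (ξ 0 • pd 0 f (x0 + t • ξ) + ξ 1 • pd 1 f (x0 + t • ξ)) t := by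
  have h1 : HasDerivAt (fun t : ℝ => x0 + t • ξ) ξ t := by
    have := ((hasDerivAt_id t).smul_const ξ).const_add x0
    simpa using this
  have h2 := hf.hasFDerivAt.comp_hasDerivAt t h1
  rw [SAD_fderiv] at h2
  exact h2

theorem SAD_triple (b m y : V3) : b ⬝ᵥ (m ⨯₃ y) = (b ⨯₃ m) ⬝ᵥ y := by
  simp only [cross_apply, dotProduct, Fin.sum_univ_three, Matrix.cons_val_zero,
    Matrix.cons_val_one, Matrix.cons_val]
  ring

theorem blk_SAD (hY : Stmt_YC1) (hD : Stmt_DIF) (hM : Stmt_MIX) : Stmt_SAD := by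
  intro U F G hU a b x0 hx0 hpos L hL hA hmax
  obtain ⟨hy, hw, -⟩ := hY U F G hU
  have hdif := hD U F G hU
  obtain ⟨hs10, hmix⟩ := hM U F G hU x0 hx0
  have hop := hU.op
  -- smoothness
  have hm : ContDiffOn ℝ 2 (mm F G) U := by
    change ContDiffOn ℝ 2 (fun x => (1 / 2 : ℝ) • (F x + G x)) U
    exact ContDiffOn.const_smul _ (hU.smF.add hU.smG)
  have hm1 : ∀ i, ContDiffOn ℝ 1 (pd i (mm F G)) U := fun i =>
    Pool.FR.pd_contDiffOn hop hm (by norm_num) i
  have hmC1 : ContDiffOn ℝ 1 (mm F G) U := hm.of_le (by norm_num)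
  have hn : ContDiffOn ℝ 1 (nn F G) U := Pool.FR.contDiffOn_cross (hm1 0) (hm1 1)
  have hyp : ∀ i, ContDiffOn ℝ 0 (pd i (yy F G)) U := fun i =>
    Pool.FR.pd_contDiffOn hop hy (by norm_num) i
  have hAA : ContDiffOn ℝ 1 (AA F G a b) U :=
    contDiffOn_const.add (Pool.FR.contDiffOn_cross contDiffOn_const hmC1)
  have hal : ∀ i, ContDiffOn ℝ 1 (fun x => AA F G a b x ⬝ᵥ pd i (mm F G) x) U := fun i =>
    Pool.FR.contDiffOn_dot hAA (hm1 i)
  have hkc : ∀ i j, ContDiffOn ℝ 0 (kk F G i j) U := by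
    intro i j
    have h1 : ContDiffOn ℝ 0 (fun x => (pd i (yy F G) x ⨯₃ pd j (mm F G) x) ⬝ᵥ nn F G x) U :=
      Pool.FR.contDiffOn_dot (Pool.FR.contDiffOn_cross (hyp i) ((hm1 j).of_le (by norm_num)))
        (hn.of_le (by norm_num))
    have h2 : ContDiffOn ℝ 0 (fun x => nn F G x ⬝ᵥ nn F G x) U :=
      Pool.FR.contDiffOn_dot (hn.of_le (by norm_num)) (hn.of_le (by norm_num))
    refine h1.div h2 ?_
    intro x hx h0
    exact hU.imm x hx (dotProduct_self_eq_zero.1 h0)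
  have hkcont : ∀ i j, ContinuousAt (kk F G i j) x0 := fun i j =>
    (hkc i j).continuousOn.continuousAt (hop.mem_nhds hx0)
  -- the derivative of ll
  have hll : ∀ x ∈ U, DifferentiableAt ℝ (ll F G a b) x ∧ ∀ i, pd i (ll F G a b) x =
      AA F G a b x ⬝ᵥ pd i (yy F G) x := by
    intro x hx
    have hyd := Pool.FR.diff_at hop hy le_rfl hx
    have hwd := Pool.FR.diff_at hop hw le_rfl hx
    have hl1 : ContDiffOn ℝ 1 (fun x => a ⬝ᵥ yy F G x) U :=
      Pool.FR.contDiffOn_dot contDiffOn_const hy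
    have hl2 : ContDiffOn ℝ 1 (fun x => b ⬝ᵥ ww F G x) U :=
      Pool.FR.contDiffOn_dot contDiffOn_const hw
    have hd1 := Pool.FR.diff_at hop hl1 le_rfl hx
    have hd2 := Pool.FR.diff_at hop hl2 le_rfl hx
    refine ⟨hd1.add hd2, fun i => ?_⟩
    have h1 : pd i (ll F G a b) x = pd i (fun y => a ⬝ᵥ yy F G y) x +
        pd i (fun y => b ⬝ᵥ ww F G y) x := Pool.FR.pd_add i hd1 hd2
    rw [h1, Pool.FR.pd_dot i (differentiableAt_const a) hyd,
      Pool.FR.pd_dot i (differentiableAt_const b) hwd, Pool.FR.pd_const, Pool.FR.pd_const,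
      zero_dotProduct, zero_dotProduct, zero_add, zero_add, (hdif x hx).2.2.2 i, SAD_triple,
      AA, add_dotProduct]
  have hll0 : ∀ x ∈ U, pd 0 (ll F G a b) x =
      kk F G 0 1 x * (AA F G a b x ⬝ᵥ pd 0 (mm F G) x) -
      kk F G 0 0 x * (AA F G a b x ⬝ᵥ pd 1 (mm F G) x) := by
    intro x hx
    rw [(hll x hx).2 0, (hdif x hx).1, dotProduct_sub, dotProduct_smul, dotProduct_smul,
      smul_eq_mul, smul_eq_mul]
  have hll1 : ∀ x ∈ U, pd 1 (ll F G a b) x =
      kk F G 1 1 x * (AA F G a b x ⬝ᵥ pd 0 (mm F G) x) -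
      kk F G 0 1 x * (AA F G a b x ⬝ᵥ pd 1 (mm F G) x) := by
    intro x hx
    rw [(hll x hx).2 1, (hdif x hx).2.1, dotProduct_sub, dotProduct_smul, dotProduct_smul,
      smul_eq_mul, smul_eq_mul]
  -- the derivative of the alphas
  have hald : ∀ i j, pd j (fun x => AA F G a b x ⬝ᵥ pd i (mm F G) x) x0 =
      (b ⨯₃ pd j (mm F G) x0) ⬝ᵥ pd i (mm F G) x0 + L * ss F G j i x0 := by
    intro i j
    have hAd := Pool.FR.diff_at hop hAA le_rfl hx0
    have hmd := Pool.FR.diff_at hop (hm1 i) le_rfl hx0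
    have hmd0 := Pool.FR.diff_at hop hmC1 le_rfl hx0
    rw [Pool.FR.pd_dot j hAd hmd, hA, smul_dotProduct, smul_eq_mul]
    congr 1
    · have h1 : ContDiffOn ℝ 1 (fun x => b ⨯₃ mm F G x) U :=
        Pool.FR.contDiffOn_cross contDiffOn_const hmC1
      have h2 : pd j (AA F G a b) x0 = pd j (fun _ => a) x0 + pd j (fun x => b ⨯₃ mm F G x) x0 :=
        Pool.FR.pd_add j (differentiableAt_const a) (Pool.FR.diff_at hop h1 le_rfl hx0)
      rw [h2, Pool.FR.pd_const, zero_add, Pool.FR.pd_cross j (differentiableAt_const b) hmd0,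
        Pool.FR.pd_const]
      simp
    · rw [ss, dotProduct_comm]
  have hal0 : ∀ i, AA F G a b x0 ⬝ᵥ pd i (mm F G) x0 = 0 := by
    intro i
    rw [hA, smul_dotProduct, nn]
    fin_cases i
    · simp [cross_dot_cross, cross_apply, dotProduct, Fin.sum_univ_three]
      right
      ring
    · simp [cross_dot_cross, cross_apply, dotProduct, Fin.sum_univ_three]
      right
      ring
  set B := b ⬝ᵥ nn F G x0 with hB
  have hB0 : (b ⨯₃ pd 0 (mm F G) x0) ⬝ᵥ pd 0 (mm F G) x0 = 0 := by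
    simp only [cross_apply, dotProduct, Fin.sum_univ_three, Matrix.cons_val_zero,
      Matrix.cons_val_one, Matrix.cons_val]
    ring
  have hB1 : (b ⨯₃ pd 1 (mm F G) x0) ⬝ᵥ pd 1 (mm F G) x0 = 0 := by
    simp only [cross_apply, dotProduct, Fin.sum_univ_three, Matrix.cons_val_zero,
      Matrix.cons_val_one, Matrix.cons_val]
    ring
  have hB01 : (b ⨯₃ pd 0 (mm F G) x0) ⬝ᵥ pd 1 (mm F G) x0 = B := by
    rw [hB, nn]
    simp only [cross_apply, dotProduct, Fin.sum_univ_three, Matrix.cons_val_zero,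
      Matrix.cons_val_one, Matrix.cons_val]
    ring
  have hB10 : (b ⨯₃ pd 1 (mm F G) x0) ⬝ᵥ pd 0 (mm F G) x0 = -B := by
    rw [hB, nn]
    simp only [cross_apply, dotProduct, Fin.sum_univ_three, Matrix.cons_val_zero,
      Matrix.cons_val_one, Matrix.cons_val]
    ring
  have hQ : ∀ c d : ℝ, (c * kk F G 0 1 x0 + d * kk F G 1 1 x0) *
      (c * (L * ss F G 0 0 x0) + d * (L * ss F G 0 1 x0 - B)) -
      (c * kk F G 0 0 x0 + d * kk F G 0 1 x0) *
      (c * (L * ss F G 0 1 x0 + B) + d * (L * ss F G 1 1 x0)) ≤ 0 := by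
    intro c d
    set ξ : E2 := c • ee 0 + d • ee 1 with hξ
    have hξ0 : ξ 0 = c := by simp [hξ, ee]
    have hξ1 : ξ 1 = d := by simp [hξ, ee]
    have hcont : ContinuousAt (fun t : ℝ => x0 + t • ξ) 0 := by fun_prop
    have hz : x0 + (0 : ℝ) • ξ = x0 := by simp
    have hnhds : Tendsto (fun t : ℝ => x0 + t • ξ) (𝓝 0) (𝓝 x0) := by
      have := hcont.tendsto
      rwa [hz] at this
    have hevU : ∀ᶠ t in 𝓝 (0 : ℝ), x0 + t • ξ ∈ U := hnhds.eventually (hop.mem_nhds hx0)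
    have hcomp : ∀ f : E2 → ℝ, ContinuousAt f x0 → ContinuousAt (fun t : ℝ => f (x0 + t • ξ)) 0 := by
      intro f hf
      have h1 : ContinuousAt f (x0 + (0 : ℝ) • ξ) := by rwa [hz]
      exact ContinuousAt.comp (f := fun t : ℝ => x0 + t • ξ) (g := f) h1 hcont
    have hAder : ∀ i, HasDerivAt (fun t : ℝ => AA F G a b (x0 + t • ξ) ⬝ᵥ
        pd i (mm F G) (x0 + t • ξ))
        (c * ((b ⨯₃ pd 0 (mm F G) x0) ⬝ᵥ pd i (mm F G) x0 + L * ss F G 0 i x0) +
          d * ((b ⨯₃ pd 1 (mm F G) x0) ⬝ᵥ pd i (mm F G) x0 + L * ss F G 1 i x0)) 0 := by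
      intro i
      have hd : DifferentiableAt ℝ (fun x => AA F G a b x ⬝ᵥ pd i (mm F G) x)
          (x0 + (0 : ℝ) • ξ) := by
        rw [hz]
        exact Pool.FR.diff_at hop (hal i) le_rfl hx0
      have h1 := SAD_lineDeriv (fun x => AA F G a b x ⬝ᵥ pd i (mm F G) x) x0 ξ 0 hd
      rw [hz, hald i 0, hald i 1, hξ0, hξ1] at h1
      exact h1
    have key := SAD_line (fun t : ℝ => ll F G a b (x0 + t • ξ))
      (fun t : ℝ => c * kk F G 0 1 (x0 + t • ξ) + d * kk F G 1 1 (x0 + t • ξ))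
      (fun t : ℝ => c * kk F G 0 0 (x0 + t • ξ) + d * kk F G 0 1 (x0 + t • ξ))
      (fun t : ℝ => AA F G a b (x0 + t • ξ) ⬝ᵥ pd 0 (mm F G) (x0 + t • ξ))
      (fun t : ℝ => AA F G a b (x0 + t • ξ) ⬝ᵥ pd 1 (mm F G) (x0 + t • ξ)) _ _ ?_ ?_ ?_
      (hAder 0) (hAder 1) ?_ ?_ ?_
    · simp only [hz] at key
      rw [hB0, hB1, hB01, hB10, hs10] at key
      refine le_trans (le_of_eq ?_) key
      ring
    · filter_upwards [hevU] with t ht
      have h1 := SAD_lineDeriv (ll F G a b) x0 ξ t (hll _ ht).1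
      rw [hll0 _ ht, hll1 _ ht, hξ0, hξ1, smul_eq_mul, smul_eq_mul] at h1
      refine h1.congr_deriv ?_
      ring
    · exact ((hcomp _ (hkcont 0 1)).const_mul c).add ((hcomp _ (hkcont 1 1)).const_mul d)
    · exact ((hcomp _ (hkcont 0 0)).const_mul c).add ((hcomp _ (hkcont 0 1)).const_mul d)
    · simp only [hz]
      exact hal0 0
    · simp only [hz]
      exact hal0 1
    · have := hnhds.eventually hmax
      simp only [hz]
      exact this
  obtain ⟨k0, k1, k2⟩ := SAD_alg _ _ _ _ _ _ B L hL hpos hmix hQ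
  intro i
  fin_cases i
  · change pd 0 (yy F G) x0 = 0
    rw [(hdif x0 hx0).1, k0, k1, zero_smul, zero_smul, sub_zero]
  · change pd 1 (yy F G) x0 = 0
    rw [(hdif x0 hx0).2.1, k1, k2, zero_smul, zero_smul, sub_zero]

end Pool.SXB
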