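import Pool.Agent.Work.MP_02e829_sb.Interface

/-! # Six rigid pieces, block BND: a trace free form with respect to a definite form -/

open Set Filter Manifold Matrix MeasureTheory Metric
open scoped Topology ContDiff Manifold

set_option autoImplicit false

universe w

namespace Pool.SXB

theorem BND_one (p s r k l j : ℝ) (h : 0 < p * r - s ^ 2) (hk : p * j + r * k - 2 * s * l = 0) :
    (p * r - s ^ 2) * j ^ 2 ≤ 2 * r ^ 2 * (l ^ 2 - k * j) := by
  have hpr : 0 < p * r := by nlinarith [sq_nonneg s]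
  have hp : p ≠ 0 := fun h0 => by rw [h0, zero_mul] at hpr; exact lt_irrefl _ hpr
  have hp2 : 0 < p ^ 2 := by positivity
  have key : 4 * (p * r) * (l ^ 2 - k * j) =
      4 * (p * r - s ^ 2) * l ^ 2 + (p * j - r * k) ^ 2 := by
    linear_combination (-(p * j + r * k + 2 * s * l)) * hk
  have e1 : 2 * (p * j) = 2 * s * l + (p * j - r * k) := by linear_combination hk
  have e2 : 4 * (p * j) ^ 2 ≤ 8 * s ^ 2 * l ^ 2 + 2 * (p * j - r * k) ^ 2 := by
    have : 4 * (p * j) ^ 2 = (2 * s * l + (p * j - r * k)) ^ 2 := by rw [← e1]; ring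
    rw [this]
    nlinarith [sq_nonneg (2 * s * l - (p * j - r * k))]
  have e3 : (p * r - s ^ 2) * (4 * (p * j) ^ 2) ≤
      (p * r - s ^ 2) * (8 * s ^ 2 * l ^ 2 + 2 * (p * j - r * k) ^ 2) :=
    mul_le_mul_of_nonneg_left e2 h.le
  have e4 : (p * r - s ^ 2) * (8 * s ^ 2 * l ^ 2 + 2 * (p * j - r * k) ^ 2) ≤
      2 * (p * r) * (4 * (p * r - s ^ 2) * l ^ 2 + (p * j - r * k) ^ 2) := by
    have f1 : 0 ≤ (p * r - s ^ 2) * l ^ 2 := mul_nonneg h.le (sq_nonneg _)
    have f2 : 0 ≤ (p * r - s ^ 2) * ((p * r - s ^ 2) * l ^ 2) := mul_nonneg h.le f1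
    have f3 : 0 ≤ s ^ 2 * (p * j - r * k) ^ 2 := mul_nonneg (sq_nonneg _) (sq_nonneg _)
    nlinarith [f1, f2, f3]
  rw [← key] at e4
  have e5 : p ^ 2 * ((p * r - s ^ 2) * j ^ 2) ≤ p ^ 2 * (2 * r ^ 2 * (l ^ 2 - k * j)) := by
    nlinarith [e3, e4]
  exact le_of_mul_le_mul_left e5 hp2

theorem blk_BND : Stmt_BND := by
  intro s00 s01 s11 k00 k01 k11 h hk
  have h1 := BND_one s00 s01 s11 k00 k01 k11 h hk
  have h2 := BND_one s11 s01 s00 k11 k01 k00 (by linarith) (by linarith)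
  have h3 : 4 * (s00 * s11) * (k01 ^ 2 - k00 * k11) =
      4 * (s00 * s11 - s01 ^ 2) * k01 ^ 2 + (s00 * k11 - s11 * k00) ^ 2 := by
    linear_combination (-(s00 * k11 + s11 * k00 + 2 * s01 * k01)) * hk
  have h4 := sq_nonneg (s00 * k11 - s11 * k00)
  nlinarith [h1, h2, h3, h4]

end Pool.SXB
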