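import Pool.Agent.Work.MP_02e829_sb.Interface

/-!
# Block CTY: the motion is continuous
-/

open Set Filter Manifold Matrix MeasureTheory Metric
open scoped Topology ContDiff Manifold

set_option autoImplicit false

universe w

namespace Pool.SXB

open Pool.FR (pd ee)

theorem blk_CTY (hYC1 : Stmt_YC1) (hLOC : Stmt_LOC.{w}) (hGLB : Stmt_GLB.{w}) :
    Stmt_CTY.{w} := by
  intro S _ _ _ f g h
  have key : ∀ (P : S → V3) (R : S → E2 → V3),
      (∀ p, ∀ x ∈ (extChartAt (𝓡 2) p).target, P ((extChartAt (𝓡 2) p).symm x) = R p x) →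
      (∀ p, ContDiffOn ℝ 1 (R p) (extChartAt (𝓡 2) p).target) → Continuous P := by
    intro P R h1 h2
    rw [continuous_iff_continuousAt]
    intro q
    have h3 : P =ᶠ[𝓝 q] fun q' => R q (extChartAt (𝓡 2) q q') := by
      filter_upwards [extChartAt_source_mem_nhds (I := 𝓡 2) q] with q' hq'
      rw [← h1 q _ ((extChartAt (𝓡 2) q).map_source hq'), (extChartAt (𝓡 2) q).left_inv hq']
    refine ContinuousAt.congr ?_ h3.symm
    have h4 : ContinuousAt (R q) (extChartAt (𝓡 2) q q) :=
      (h2 q).continuousOn.continuousAt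
        ((isOpen_extChartAt_target q).mem_nhds (mem_extChartAt_target q))
    exact ContinuousAt.comp h4 (continuousAt_extChartAt (I := 𝓡 2) q)
  have hG := (hGLB S f g h).1
  exact ⟨key _ _ (fun p x hx => (hG p x hx).1) (fun p => (hYC1 _ _ _ (hLOC S f g h p)).1),
    key _ _ (fun p x hx => (hG p x hx).2) (fun p => (hYC1 _ _ _ (hLOC S f g h p)).2.1)⟩

end Pool.SXB
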