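import Pool.Agent.Work.MP_02e829_sb.B_DIF

/-! # Six rigid pieces, block EGR: the second forms of the two surfaces -/

open Set Filter Manifold Matrix MeasureTheory Metric
open scoped Topology ContDiff Manifold

set_option autoImplicit false

universe w

namespace Pool.SXB

open Pool.FR (pd ee pd_smul pd_add pd_sub pd_const diff_at pd_contDiffOn contDiffOn_dot
  contDiffOn_cross pd_cross pd_comm pd_congr)

/-- the normal of the first surface -/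
theorem EGR_nF (m0 m1 y : V3) : (m0 - y ⨯₃ m0) ⨯₃ (m1 - y ⨯₃ m1) =
    (m0 ⨯₃ m1) - y ⨯₃ (m0 ⨯₃ m1) + (y ⬝ᵥ (m0 ⨯₃ m1)) • y := by
  ext i
  simp only [cross_apply, Matrix.vec3_dotProduct, Pi.smul_apply, Pi.add_apply, Pi.sub_apply,
    smul_eq_mul]
  fin_cases i <;> simp <;> ring

/-- the normal of the second surface -/
theorem EGR_nG (m0 m1 y : V3) : (m0 + y ⨯₃ m0) ⨯₃ (m1 + y ⨯₃ m1) =
    (m0 ⨯₃ m1) + y ⨯₃ (m0 ⨯₃ m1) + (y ⬝ᵥ (m0 ⨯₃ m1)) • y := by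
  ext i
  simp only [cross_apply, Matrix.vec3_dotProduct, Pi.smul_apply, Pi.add_apply, Pi.sub_apply,
    smul_eq_mul]
  fin_cases i <;> simp <;> ring

theorem EGR_dF (z n y : V3) (k : ℝ) : (z - (k • n + y ⨯₃ z)) ⬝ᵥ (n - y ⨯₃ n + (y ⬝ᵥ n) • y) =
    (1 + y ⬝ᵥ y) * (z ⬝ᵥ n) - (n ⬝ᵥ n + (y ⬝ᵥ n) ^ 2) * k := by
  simp only [cross_apply, Matrix.vec3_dotProduct, Pi.smul_apply, Pi.add_apply, Pi.sub_apply,
    smul_eq_mul]
  simp
  ring

theorem EGR_dG (z n y : V3) (k : ℝ) : (z + (k • n + y ⨯₃ z)) ⬝ᵥ (n + y ⨯₃ n + (y ⬝ᵥ n) • y) =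
    (1 + y ⬝ᵥ y) * (z ⬝ᵥ n) + (n ⬝ᵥ n + (y ⬝ᵥ n) ^ 2) * k := by
  simp only [cross_apply, Matrix.vec3_dotProduct, Pi.smul_apply, Pi.add_apply, Pi.sub_apply,
    smul_eq_mul]
  simp
  ring

theorem EGR_k (m0 m1 : V3) (a b : ℝ) : (a • m0 - b • m1) ⨯₃ m0 = b • (m0 ⨯₃ m1) ∧
    (a • m0 - b • m1) ⨯₃ m1 = a • (m0 ⨯₃ m1) := by
  constructor
  · ext i
    simp only [cross_apply, Pi.smul_apply, Pi.sub_apply, smul_eq_mul]
    fin_cases i <;> simp <;> ring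
  · ext i
    simp only [cross_apply, Pi.smul_apply, Pi.sub_apply, smul_eq_mul]
    fin_cases i <;> simp <;> ring

theorem blk_EGR (hYC1 : Stmt_YC1) (hDIF : Stmt_DIF) : Stmt_EGR := by
  intro U F G hP x hx i j
  obtain ⟨hy, -, hv⟩ := hYC1 U F G hP
  obtain ⟨hd0, hd1, hk10, -⟩ := hDIF U F G hP x hx
  have hm := YC1_mm hP
  have hyd := diff_at hP.op hy le_rfl hx
  have hm1 : ∀ i, ContDiffOn ℝ 1 (pd i (mm F G)) U := fun i =>
    pd_contDiffOn hP.op hm (by norm_num) i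
  have hm1d : ∀ i, DifferentiableAt ℝ (pd i (mm F G)) x := fun i =>
    diff_at hP.op (hm1 i) le_rfl hx
  have hn : nn F G x = pd 0 (mm F G) x ⨯₃ pd 1 (mm F G) x := rfl
  -- first derivatives
  have hF : ∀ z ∈ U, ∀ i, pd i F z = pd i (mm F G) z - yy F G z ⨯₃ pd i (mm F G) z := by
    intro z hz i
    rw [← hv z hz i, YC1_pm hP i hz, YC1_pv hP i hz]
    module
  have hG : ∀ z ∈ U, ∀ i, pd i G z = pd i (mm F G) z + yy F G z ⨯₃ pd i (mm F G) z := by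
    intro z hz i
    rw [← hv z hz i, YC1_pm hP i hz, YC1_pv hP i hz]
    module
  have hc : ∀ j, DifferentiableAt ℝ (fun z => yy F G z ⨯₃ pd j (mm F G) z) x := fun j =>
    diff_at hP.op (contDiffOn_cross hy (hm1 j)) le_rfl hx
  -- the derivative of the Rodrigues vector
  have hyk : ∀ i j, pd i (yy F G) x ⨯₃ pd j (mm F G) x = kk F G i j x • nn F G x := by
    intro i j
    have e0 := EGR_k (pd 0 (mm F G) x) (pd 1 (mm F G) x) (kk F G 0 1 x) (kk F G 0 0 x)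
    have e1 := EGR_k (pd 0 (mm F G) x) (pd 1 (mm F G) x) (kk F G 1 1 x) (kk F G 0 1 x)
    rw [← hd0] at e0
    rw [← hd1] at e1
    fin_cases i <;> fin_cases j
    · exact e0.1
    · exact e0.2
    · show pd 1 (yy F G) x ⨯₃ pd 0 (mm F G) x = kk F G 1 0 x • nn F G x
      rw [hk10]
      exact e1.1
    · exact e1.2
  have hFF : pd i (pd j F) x = pd i (pd j (mm F G)) x -
      (kk F G i j x • nn F G x + yy F G x ⨯₃ pd i (pd j (mm F G)) x) := by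
    rw [pd_congr hP.op (fun z hz => hF z hz j) i hx, pd_sub i (hm1d j) (hc j),
      pd_cross i hyd (hm1d j), hyk]
  have hGG : pd i (pd j G) x = pd i (pd j (mm F G)) x +
      (kk F G i j x • nn F G x + yy F G x ⨯₃ pd i (pd j (mm F G)) x) := by
    rw [pd_congr hP.op (fun z hz => hG z hz j) i hx, pd_add i (hm1d j) (hc j),
      pd_cross i hyd (hm1d j), hyk]
  constructor
  · unfold hh ss
    rw [hFF, hF x hx 0, hF x hx 1, EGR_nF, ← hn, EGR_dF]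
  · unfold hh ss
    rw [hGG, hG x hx 0, hG x hx 1, EGR_nG, ← hn, EGR_dG]

end Pool.SXB
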