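import Pool.Agent.Work.MP_02e829_sb.Interface

/-! # Block ENE: the energy of the logarithm (helper94) -/

open Set Filter Manifold Matrix MeasureTheory Metric
open scoped Topology ContDiff Manifold

set_option autoImplicit false

universe w

namespace Pool.SXB

open Pool.FR (pd ee)

/-- a function continuous on `O` which vanishes off a compact subset of `O` is integrable -/
theorem ENE_int {O K : Set E2} (hO : IsOpen O) (hK : IsCompact K) (hKO : K ⊆ O) {F : E2 → ℝ}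
    (hc : ContinuousOn F O) (h0 : ∀ x, x ∉ K → F x = 0) : Integrable F := by
  have hcont : Continuous F := by
    rw [continuous_iff_continuousAt]
    intro x
    by_cases hx : x ∈ O
    · exact hc.continuousAt (hO.mem_nhds hx)
    · have h1 : x ∈ Kᶜ := fun h => hx (hKO h)
      have h2 : F =ᶠ[𝓝 x] fun _ => 0 :=
        Filter.eventuallyEq_of_mem (hK.isClosed.isOpen_compl.mem_nhds h1) fun y hy => h0 y hy
      exact (continuousAt_congr h2).2 continuousAt_const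
  exact hcont.integrable_of_hasCompactSupport (HasCompactSupport.intro hK h0)

theorem ENE_alg {κ p r P a0 a1 b0 b1 w0 w1 : ℝ} (hp : p = P * r)
    (hd : b0 ^ 2 + b1 ^ 2 + w0 ^ 2 + w1 ^ 2 ≤ κ * (b0 * w1 - b1 * w0)) :
    P ^ 2 * r ^ 2 * (b0 ^ 2 + b1 ^ 2) - κ ^ 2 * (a0 ^ 2 + a1 ^ 2) ≤
      κ * (((a0 * P + P * a0) * r + P * P * (r ^ 2 * b0)) * w1 -
        ((a1 * P + P * a1) * r + P * P * (r ^ 2 * b1)) * w0) := by
  have h1 := mul_le_mul_of_nonneg_left hd (sq_nonneg p)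
  have h2 := sq_nonneg (κ * a0 + p * w1)
  have h3 := sq_nonneg (κ * a1 - p * w0)
  subst hp
  nlinarith

theorem blk_ENE (hW0 : Stmt_W0) : Stmt_ENE := by
  intro O u W κ q hQ ψ hψ hcs hts ε hε
  set K := tsupport ψ with hKdef
  have hK : IsCompact K := hcs
  have hpos : ∀ x ∈ O, 0 < u q - u x + ε := fun x hx => by
    have := hQ.max x hx
    linarith
  set R : E2 → ℝ := fun y => (u q - u y + ε)⁻¹ with hR
  set Ψ : E2 → ℝ := fun y => ψ y * ψ y * R y with hΨ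
  have hRc : ContDiffOn ℝ 1 R O := by
    apply ContDiffOn.inv
    · exact (contDiffOn_const.sub hQ.cu).add contDiffOn_const
    · intro x hx
      exact (hpos x hx).ne'
  have hΨO : ContDiffOn ℝ 1 Ψ O := (hψ.contDiffOn.mul hψ.contDiffOn).mul hRc
  have hψ0 : ∀ x, x ∉ K → ψ x = 0 := fun x hx => image_eq_zero_of_notMem_tsupport hx
  have hΨ0 : ∀ x, x ∉ K → Ψ x = 0 := fun x hx => by
    simp only [hΨ]
    rw [hψ0 x hx]
    ring
  have hev : ∀ x, x ∉ K → Ψ =ᶠ[𝓝 x] fun _ => 0 := fun x hx =>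
    Filter.eventuallyEq_of_mem (hK.isClosed.isOpen_compl.mem_nhds hx) fun y hy => hΨ0 y hy
  have hΨc : ContDiff ℝ 1 Ψ := by
    rw [contDiff_iff_contDiffAt]
    intro x
    by_cases hx : x ∈ O
    · exact (hΨO x hx).contDiffAt (hQ.op.mem_nhds hx)
    · exact contDiffAt_const.congr_of_eventuallyEq (hev x fun h => hx (hts h))
  have hΨs : HasCompactSupport Ψ := HasCompactSupport.intro hK hΨ0
  have hΨt : tsupport Ψ ⊆ O := by
    refine Subset.trans ?_ hts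
    apply closure_minimal _ hK.isClosed
    intro x hx
    by_contra h
    exact hx (hΨ0 x h)
  have hzero := hW0 O Ψ W hQ.op hΨc hΨs hΨt hQ.cW
  -- the derivative of `Ψ` on `O`
  have hRpd : ∀ x ∈ O, ∀ i, pd i R x = R x ^ 2 * pd i u x := by
    intro x hx i
    have hu : DifferentiableAt ℝ u x := Pool.FR.diff_at hQ.op hQ.cu le_rfl hx
    have h1 : HasFDerivAt (fun y => u q - u y + ε) (-(fderiv ℝ u x)) x :=
      (hu.hasFDerivAt.const_sub (u q)).add_const ε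
    have h2 := (hasDerivAt_inv (hpos x hx).ne').comp_hasFDerivAt x h1
    have h3 : fderiv ℝ R x = -((u q - u x + ε) ^ 2)⁻¹ • -(fderiv ℝ u x) := h2.fderiv
    rw [pd, h3, pd]
    simp only [hR]
    rw [inv_pow]
    simp
  have hΨpd : ∀ x ∈ O, ∀ i, pd i Ψ x =
      (pd i ψ x * ψ x + ψ x * pd i ψ x) * R x + ψ x * ψ x * (R x ^ 2 * pd i u x) := by
    intro x hx i
    have hd1 : DifferentiableAt ℝ ψ x := (hψ.differentiable one_ne_zero) x
    have hd2 : DifferentiableAt ℝ R x := Pool.FR.diff_at hQ.op hRc le_rfl hx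
    have hd3 : DifferentiableAt ℝ (fun y => ψ y * ψ y) x := hd1.mul hd1
    have e1 : pd i Ψ x = pd i (fun y => (fun z => ψ z * ψ z) y * R y) x := rfl
    rw [e1, Pool.FR.pd_mul i hd3 hd2, Pool.FR.pd_mul i hd1 hd1, hRpd x hx i]
  have hΨpd0 : ∀ x, x ∉ K → ∀ i, pd i Ψ x = 0 := fun x hx i => by
    rw [pd, (hev x hx).fderiv_eq]
    simp
  have cΨ : ∀ i, ContinuousOn (pd i Ψ) O := fun i =>
    (Pool.FR.pd_contDiffOn hQ.op hΨO (m := 0) (by norm_num) i).continuousOn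
  have cW : ∀ i, ContinuousOn (pd i W) O := fun i =>
    (Pool.FR.pd_contDiffOn hQ.op hQ.cW (m := 0) (by norm_num) i).continuousOn
  have cu : ∀ i, ContinuousOn (pd i u) O := fun i =>
    (Pool.FR.pd_contDiffOn hQ.op hQ.cu (m := 0) (by norm_num) i).continuousOn
  have cψ : ∀ i, ContinuousOn (pd i ψ) O := fun i =>
    (Pool.FR.pd_contDiffOn hQ.op hψ.contDiffOn (m := 0) (by norm_num) i).continuousOn
  have iI : Integrable (fun x => κ * (pd 0 Ψ x * pd 1 W x - pd 1 Ψ x * pd 0 W x)) := by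
    apply ENE_int hQ.op hK hts
    · exact continuousOn_const.mul (((cΨ 0).mul (cW 1)).sub ((cΨ 1).mul (cW 0)))
    · intro x hx
      rw [hΨpd0 x hx, hΨpd0 x hx]
      ring
  have eg : ∀ x, ψ x ^ 2 * (pd 0 u x ^ 2 + pd 1 u x ^ 2) / (u q - u x + ε) ^ 2 =
      ψ x ^ 2 * R x ^ 2 * (pd 0 u x ^ 2 + pd 1 u x ^ 2) := by
    intro x
    simp only [hR]
    rw [inv_pow, div_eq_mul_inv]
    ring
  have ig : Integrable (fun x => ψ x ^ 2 * R x ^ 2 * (pd 0 u x ^ 2 + pd 1 u x ^ 2)) := by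
    apply ENE_int hQ.op hK hts
    · exact ((hψ.continuous.continuousOn.pow 2).mul (hRc.continuousOn.pow 2)).mul
        (((cu 0).pow 2).add ((cu 1).pow 2))
    · intro x hx
      rw [hψ0 x hx]
      ring
  have hψpd0 : ∀ x, x ∉ K → ∀ i, pd i ψ x = 0 := fun x hx i => by
    have : ψ =ᶠ[𝓝 x] fun _ => 0 :=
      Filter.eventuallyEq_of_mem (hK.isClosed.isOpen_compl.mem_nhds hx) fun y hy => hψ0 y hy
    rw [pd, this.fderiv_eq]
    simp
  have iψ : Integrable (fun x => pd 0 ψ x ^ 2 + pd 1 ψ x ^ 2) := by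
    apply ENE_int hQ.op hK hts
    · exact ((cψ 0).pow 2).add ((cψ 1).pow 2)
    · intro x hx
      rw [hψpd0 x hx, hψpd0 x hx]
      ring
  have key : ∫ x, (ψ x ^ 2 * R x ^ 2 * (pd 0 u x ^ 2 + pd 1 u x ^ 2) -
      κ ^ 2 * (pd 0 ψ x ^ 2 + pd 1 ψ x ^ 2)) ≤
      ∫ x, κ * (pd 0 Ψ x * pd 1 W x - pd 1 Ψ x * pd 0 W x) := by
    apply integral_mono (ig.sub (iψ.const_mul _)) iI
    intro x
    by_cases hx : x ∈ K
    · have hxO := hts hx
      have := ENE_alg (κ := κ) (p := ψ x * R x) (r := R x) (P := ψ x) (a0 := pd 0 ψ x)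
        (a1 := pd 1 ψ x) rfl (hQ.dist x hxO)
      change ψ x ^ 2 * R x ^ 2 * (pd 0 u x ^ 2 + pd 1 u x ^ 2) -
        κ ^ 2 * (pd 0 ψ x ^ 2 + pd 1 ψ x ^ 2) ≤ κ * (pd 0 Ψ x * pd 1 W x - pd 1 Ψ x * pd 0 W x)
      rw [hΨpd x hxO 0, hΨpd x hxO 1]
      exact this
    · change ψ x ^ 2 * R x ^ 2 * (pd 0 u x ^ 2 + pd 1 u x ^ 2) -
        κ ^ 2 * (pd 0 ψ x ^ 2 + pd 1 ψ x ^ 2) ≤ κ * (pd 0 Ψ x * pd 1 W x - pd 1 Ψ x * pd 0 W x)
      rw [hΨpd0 x hx, hΨpd0 x hx, hψpd0 x hx, hψpd0 x hx, hψ0 x hx]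
      apply le_of_eq
      ring
  rw [integral_sub ig (iψ.const_mul _), integral_const_mul, integral_const_mul, hzero, mul_zero] at key
  simp only [eg]
  linarith

end Pool.SXB
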