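import Pool.Agent.Work.MP_02e829_sb.B_DIF

/-! # Six rigid pieces, block MIX: the mixed equation -/

open Set Filter Manifold Matrix MeasureTheory Metric
open scoped Topology ContDiff Manifold

set_option autoImplicit false

universe w

namespace Pool.SXB

open Pool.FR (pd ee pd_smul pd_add pd_sub pd_const diff_at pd_contDiffOn contDiffOn_dot
  contDiffOn_cross pd_cross pd_comm pd_congr pd_mul pd_apply pd_dot)

theorem MIX_dn0 (m0 m1 : V3) : (m0 ⨯₃ m1) ⬝ᵥ m0 = 0 := by
  simp only [cross_apply, Matrix.vec3_dotProduct]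
  simp
  ring

theorem MIX_dn1 (m0 m1 : V3) : (m0 ⨯₃ m1) ⬝ᵥ m1 = 0 := by
  simp only [cross_apply, Matrix.vec3_dotProduct]
  simp
  ring

/-- the normal is orthogonal to the derivatives of the Rodrigues vector -/
theorem MIX_orth (hDIF : Stmt_DIF) {U : Set E2} {F G : E2 → V3} (hP : Pair U F G) {x : E2}
    (hx : x ∈ U) (i : Fin 2) : nn F G x ⬝ᵥ pd i (yy F G) x = 0 := by
  obtain ⟨h0, h1, -, -⟩ := hDIF U F G hP x hx
  have e0 : nn F G x ⬝ᵥ pd 0 (mm F G) x = 0 := MIX_dn0 _ _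
  have e1 : nn F G x ⬝ᵥ pd 1 (mm F G) x = 0 := MIX_dn1 _ _
  fin_cases i
  · show nn F G x ⬝ᵥ pd 0 (yy F G) x = 0
    rw [h0, dotProduct_sub, dotProduct_smul, dotProduct_smul, e0, e1]
    simp
  · show nn F G x ⬝ᵥ pd 1 (yy F G) x = 0
    rw [h1, dotProduct_sub, dotProduct_smul, dotProduct_smul, e0, e1]
    simp

/-- the integrated form -/
theorem MIX_int (hW0 : Stmt_W0) (hDIF : Stmt_DIF) {U : Set E2} {F G : E2 → V3}
    (hP : Pair U F G) (hn : ContDiffOn ℝ 1 (nn F G) U) (hy : ContDiffOn ℝ 1 (yy F G) U)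
    (φ : E2 → ℝ) (hφ : ContDiff ℝ ∞ φ) (hc : HasCompactSupport φ) (hs : tsupport φ ⊆ U) :
    ∫ z, φ z • (pd 0 (nn F G) z ⬝ᵥ pd 1 (yy F G) z - pd 1 (nn F G) z ⬝ᵥ pd 0 (yy F G) z) = 0 := by
  have hφ1 : ContDiff ℝ 1 φ := hφ.of_le (by exact_mod_cast le_top)
  set ψ : Fin 3 → E2 → ℝ := fun a z => φ z * nn F G z a with hψ
  have hψs : ∀ a, tsupport (ψ a) ⊆ tsupport φ := fun a => tsupport_mul_subset_left
  have hna : ∀ a, ContDiffOn ℝ 1 (fun z => nn F G z a) U := fun a => contDiffOn_pi.1 hn a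
  have hya : ∀ a, ContDiffOn ℝ 1 (fun z => yy F G z a) U := fun a => contDiffOn_pi.1 hy a
  have hψ1 : ∀ a, ContDiff ℝ 1 (ψ a) := by
    intro a
    rw [contDiff_iff_contDiffAt]
    intro z
    by_cases hz : z ∈ tsupport (ψ a)
    · have hzU := hs (hψs a hz)
      exact (hφ1.contDiffAt).mul (((hna a) z hzU).contDiffAt (hP.op.mem_nhds hzU))
    · exact contDiffAt_const.congr_of_eventuallyEq (notMem_tsupport_iff_eventuallyEq.1 hz)
  have hψc : ∀ a, HasCompactSupport (ψ a) := fun a => hc.mul_right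
  have hW : ∀ a, ∫ z, (pd 0 (ψ a) z * pd 1 (fun z => yy F G z a) z -
      pd 1 (ψ a) z * pd 0 (fun z => yy F G z a) z) = 0 := fun a =>
    hW0 U (ψ a) (fun z => yy F G z a) hP.op (hψ1 a) (hψc a) ((hψs a).trans hs) (hya a)
  have hout : ∀ a i, ∀ z ∉ tsupport φ, pd i (ψ a) z = 0 := by
    intro a i z hz
    have h1 : z ∉ tsupport (ψ a) := fun h => hz (hψs a h)
    have h2 : fderiv ℝ (ψ a) z = 0 := by
      by_contra h
      exact h1 (support_fderiv_subset ℝ (f := ψ a) h)
    unfold pd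
    rw [h2]
    rfl
  have hint : ∀ a, Integrable (fun z => pd 0 (ψ a) z * pd 1 (fun z => yy F G z a) z -
      pd 1 (ψ a) z * pd 0 (fun z => yy F G z a) z) := by
    intro a
    have hcont : ContinuousOn (fun z => pd 0 (ψ a) z * pd 1 (fun z => yy F G z a) z -
        pd 1 (ψ a) z * pd 0 (fun z => yy F G z a) z) (tsupport φ) := by
      have c1 : ∀ i, ContinuousOn (pd i (ψ a)) (tsupport φ) := fun i =>
        ((pd_contDiffOn isOpen_univ ((hψ1 a).contDiffOn (s := univ)) (m := 0) (by norm_num)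
          i).continuousOn).mono (subset_univ _)
      have c2 : ∀ i, ContinuousOn (pd i (fun z => yy F G z a)) (tsupport φ) := fun i =>
        ((pd_contDiffOn hP.op (hya a) (m := 0) (by norm_num) i).continuousOn).mono hs
      exact ((c1 0).mul (c2 1)).sub ((c1 1).mul (c2 0))
    refine (integrableOn_iff_integrable_of_support_subset ?_).1
      (hcont.integrableOn_compact hc)
    intro z hz
    by_contra hzn
    apply hz
    simp only [hout a 0 z hzn, hout a 1 z hzn, zero_mul, sub_zero]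
  have hsum : ∀ z, φ z • (pd 0 (nn F G) z ⬝ᵥ pd 1 (yy F G) z -
      pd 1 (nn F G) z ⬝ᵥ pd 0 (yy F G) z) =
      ∑ a, (pd 0 (ψ a) z * pd 1 (fun z => yy F G z a) z -
        pd 1 (ψ a) z * pd 0 (fun z => yy F G z a) z) := by
    intro z
    by_cases hz : z ∈ tsupport φ
    · have hzU := hs hz
      have hφd : DifferentiableAt ℝ φ z := hφ1.differentiable (by norm_num) z
      have hnd : DifferentiableAt ℝ (nn F G) z := diff_at hP.op hn le_rfl hzU
      have hyd : DifferentiableAt ℝ (yy F G) z := diff_at hP.op hy le_rfl hzU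
      have hnad : ∀ a, DifferentiableAt ℝ (fun z => nn F G z a) z :=
        fun a => differentiableAt_pi.1 hnd a
      have e1 : ∀ a i, pd i (ψ a) z = pd i φ z * nn F G z a + φ z * pd i (nn F G) z a := by
        intro a i
        rw [hψ]
        rw [pd_mul i hφd (hnad a), pd_apply i hnd]
      have e2 : ∀ a i, pd i (fun z => yy F G z a) z = pd i (yy F G) z a := fun a i =>
        pd_apply i hyd a
      simp only [e1, e2]
      have o0 := MIX_orth hDIF hP hzU 0
      have o1 := MIX_orth hDIF hP hzU 1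
      simp only [Matrix.vec3_dotProduct, Fin.sum_univ_three, smul_eq_mul] at o0 o1 ⊢
      linear_combination (pd 1 φ z) * o0 - (pd 0 φ z) * o1
    · have h1 : φ z = 0 := image_eq_zero_of_notMem_tsupport hz
      rw [h1, zero_smul]
      symm
      apply Finset.sum_eq_zero
      intro a _
      rw [hout a 0 z hz, hout a 1 z hz, zero_mul, zero_mul, sub_zero]
  simp only [hsum]
  rw [integral_finset_sum _ (fun a _ => hint a)]
  exact Finset.sum_eq_zero fun a _ => hW a

theorem blk_MIX (hW0 : Stmt_W0) (hYC1 : Stmt_YC1) (hDIF : Stmt_DIF) : Stmt_MIX := by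
  intro U F G hP x hx
  obtain ⟨hy, -, hv⟩ := hYC1 U F G hP
  have hm := YC1_mm hP
  have hm1 : ∀ i, ContDiffOn ℝ 1 (pd i (mm F G)) U := fun i =>
    pd_contDiffOn hP.op hm (by norm_num) i
  have hn : ContDiffOn ℝ 1 (nn F G) U := contDiffOn_cross (hm1 0) (hm1 1)
  have hs10 : ss F G 1 0 x = ss F G 0 1 x := by
    unfold ss
    rw [pd_comm hP.op hm le_rfl 1 0 hx]
  refine ⟨hs10, ?_⟩
  set g : E2 → ℝ := fun z => pd 0 (nn F G) z ⬝ᵥ pd 1 (yy F G) z -
    pd 1 (nn F G) z ⬝ᵥ pd 0 (yy F G) z with hg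
  have hgc : ContinuousOn g U := by
    have c1 : ∀ i, ContDiffOn ℝ 0 (pd i (nn F G)) U := fun i =>
      pd_contDiffOn hP.op hn (by norm_num) i
    have c2 : ∀ i, ContDiffOn ℝ 0 (pd i (yy F G)) U := fun i =>
      pd_contDiffOn hP.op hy (by norm_num) i
    exact (contDiffOn_dot (c1 0) (c2 1)).continuousOn.sub
      (contDiffOn_dot (c1 1) (c2 0)).continuousOn
  have hae : ∀ᵐ z ∂(volume : Measure E2), z ∈ U → g z = 0 :=
    hP.op.ae_eq_zero_of_integral_contDiff_smul_eq_zero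
      (hgc.locallyIntegrableOn hP.op.measurableSet)
      (fun φ hφ hc hs => MIX_int hW0 hDIF hP hn hy φ hφ hc hs)
  have hgx : g x = 0 := by
    have h1 : g =ᵐ[(volume : Measure E2).restrict U] fun _ => (0 : ℝ) :=
      (ae_restrict_iff' hP.op.measurableSet).2 hae
    exact MeasureTheory.Measure.eqOn_open_of_ae_eq h1 hP.op hgc continuousOn_const hx
  obtain ⟨h0, h1, -, -⟩ := hDIF U F G hP x hx
  have hnd : DifferentiableAt ℝ (nn F G) x := diff_at hP.op hn le_rfl hx
  have hm1d : ∀ i, DifferentiableAt ℝ (pd i (mm F G)) x := fun i =>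
    diff_at hP.op (hm1 i) le_rfl hx
  have hnm : ∀ i j, pd i (nn F G) x ⬝ᵥ pd j (mm F G) x = - ss F G i j x := by
    intro i j
    have hz : ∀ z ∈ U, nn F G z ⬝ᵥ pd j (mm F G) z = 0 := by
      intro z _
      fin_cases j
      · exact MIX_dn0 _ _
      · exact MIX_dn1 _ _
    have e1 : pd i (fun z => nn F G z ⬝ᵥ pd j (mm F G) z) x = 0 := by
      rw [pd_congr hP.op hz i hx, pd_const]
    rw [pd_dot i hnd (hm1d j)] at e1
    unfold ss
    rw [dotProduct_comm (pd i (pd j (mm F G)) x)]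
    linarith
  have e : g x = pd 0 (nn F G) x ⬝ᵥ pd 1 (yy F G) x -
    pd 1 (nn F G) x ⬝ᵥ pd 0 (yy F G) x := rfl
  rw [h0, h1, dotProduct_sub, dotProduct_sub, dotProduct_smul, dotProduct_smul, dotProduct_smul,
    dotProduct_smul, hnm, hnm, hnm, hnm, hgx, hs10] at e
  simp only [smul_eq_mul] at e
  linarith

end Pool.SXB
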