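import Pool.Agent.Work.MP_02e829_sb.Interface

/-!
# Block SGN: the side of the tangent plane does not change
-/

open Set Filter Manifold Matrix MeasureTheory Metric
open scoped Topology ContDiff Manifold

set_option autoImplicit false

universe w

namespace Pool.SXB

open Pool.FR (pd ee)

section SGN

variable {S : Type w} [TopologicalSpace S] [ChartedSpace E2 S] [IsManifold (𝓡 2) 2 S]

/-- the surface in the chart, before the change of coordinates in the space -/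
noncomputable def SGN_F (f : S → E3) (p : S) : E2 → E3 :=
  fun x => f ((extChartAt (𝓡 2) p).symm x)

lemma SGN_smooth {f : S → E3} (hf : ContMDiff (𝓡 2) (𝓡 3) 2 f) (p : S) :
    ContDiffOn ℝ 2 (SGN_F f p) (extChartAt (𝓡 2) p).target :=
  contMDiffOn_iff_contDiffOn.1 (hf.comp_contMDiffOn
    (contMDiffOn_extChartAt_symm (I := 𝓡 2) (n := 2) p))

lemma SGN_pd {f : S → E3} (hf : ContMDiff (𝓡 2) (𝓡 3) 2 f) (p : S) (j : Fin 2) {x : E2}
    (hx : x ∈ (extChartAt (𝓡 2) p).target) :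
    pd j (loc f p) x = L3 (fderiv ℝ (SGN_F f p) x (ee j)) :=
  Pool.FR.pd_clm j L3 (Pool.FR.diff_at (isOpen_extChartAt_target (I := 𝓡 2) p)
    (SGN_smooth hf p) (by norm_num) hx)

lemma SGN_pdpd {f : S → E3} (hf : ContMDiff (𝓡 2) (𝓡 3) 2 f) (p : S) (i j : Fin 2) {x : E2}
    (hx : x ∈ (extChartAt (𝓡 2) p).target) :
    pd i (pd j (loc f p)) x = L3 (fderiv ℝ (fderiv ℝ (SGN_F f p)) x (ee i) (ee j)) := by
  have hU := isOpen_extChartAt_target (I := 𝓡 2) p
  rw [Pool.FR.pd_congr hU (g := fun y => L3 (pd j (SGN_F f p) y))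
    (fun y hy => SGN_pd hf p j hy) i hx]
  have h1 : ContDiffOn ℝ 1 (fderiv ℝ (SGN_F f p)) (extChartAt (𝓡 2) p).target :=
    (SGN_smooth hf p).fderiv_of_isOpen hU (by norm_num)
  have hd := Pool.FR.diff_at hU h1 le_rfl hx
  have h2 : DifferentiableAt ℝ (pd j (SGN_F f p)) x := hd.clm_apply (differentiableAt_const _)
  rw [Pool.FR.pd_clm i L3 h2]
  congr 1
  have h3 : pd j (SGN_F f p) = fun y => fderiv ℝ (SGN_F f p) y (ee j) := rfl
  rw [pd, h3, fderiv_clm_apply hd (differentiableAt_const _)]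
  simp

/-- the coefficient of the second form is continuous in time -/
lemma SGN_cont {f : ℝ → S → E3} (hf : Fam2 f) (q : S) (i j : Fin 2) {x : E2}
    (hx : x ∈ (extChartAt (𝓡 2) q).target) :
    ContinuousOn (fun t => hh (loc (f t) q) i j x) (Icc (0 : ℝ) 1) := by
  have hp : ContinuousOn (fun t : ℝ => (t, x)) (Icc (0 : ℝ) 1) :=
    (continuous_id.prodMk continuous_const).continuousOn
  have hm : MapsTo (fun t : ℝ => (t, x)) (Icc (0 : ℝ) 1)
      (Icc (0 : ℝ) 1 ×ˢ (extChartAt (𝓡 2) q).target) := fun t ht => ⟨ht, hx⟩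
  have h1 : ContinuousOn (fun t => fderiv ℝ (SGN_F (f t) q) x) (Icc (0 : ℝ) 1) :=
    (hf.cont1 q).comp hp hm
  have h2 : ContinuousOn (fun t => fderiv ℝ (fderiv ℝ (SGN_F (f t) q)) x) (Icc (0 : ℝ) 1) :=
    (hf.cont2 q).comp hp hm
  have h3 : ∀ k : Fin 2, ContinuousOn (fun t => L3 (fderiv ℝ (SGN_F (f t) q) x (ee k)))
      (Icc (0 : ℝ) 1) := fun k =>
    L3.continuous.comp_continuousOn (h1.clm_apply continuousOn_const)
  have h4 : ContinuousOn (fun t => L3 (fderiv ℝ (fderiv ℝ (SGN_F (f t) q)) x (ee i) (ee j)))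
      (Icc (0 : ℝ) 1) :=
    L3.continuous.comp_continuousOn ((h2.clm_apply continuousOn_const).clm_apply
      continuousOn_const)
  have h3' : ∀ (k : Fin 2) (a : Fin 3),
      ContinuousOn (fun t => L3 (fderiv ℝ (SGN_F (f t) q) x (ee k)) a) (Icc (0 : ℝ) 1) :=
    fun k a => (continuous_apply a).comp_continuousOn (h3 k)
  have h4' : ∀ a : Fin 3, ContinuousOn (fun t =>
      L3 (fderiv ℝ (fderiv ℝ (SGN_F (f t) q)) x (ee i) (ee j)) a) (Icc (0 : ℝ) 1) :=
    fun a => (continuous_apply a).comp_continuousOn h4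
  have h5 : ContinuousOn (fun t =>
      L3 (fderiv ℝ (fderiv ℝ (SGN_F (f t) q)) x (ee i) (ee j)) ⬝ᵥ
        (L3 (fderiv ℝ (SGN_F (f t) q) x (ee 0)) ⨯₃ L3 (fderiv ℝ (SGN_F (f t) q) x (ee 1))))
      (Icc (0 : ℝ) 1) := by
    simp only [cross_apply, dotProduct, Fin.sum_univ_three, Matrix.cons_val_zero,
      Matrix.cons_val_one, Matrix.cons_val]
    refine ((h4' 0).mul ?_).add ((h4' 1).mul ?_) |>.add ((h4' 2).mul ?_)
    · exact ((h3' 0 1).mul (h3' 1 2)).sub ((h3' 0 2).mul (h3' 1 1))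
    · exact ((h3' 0 2).mul (h3' 1 0)).sub ((h3' 0 0).mul (h3' 1 2))
    · exact ((h3' 0 0).mul (h3' 1 1)).sub ((h3' 0 1).mul (h3' 1 0))
  refine h5.congr fun t ht => ?_
  simp only [hh]
  rw [SGN_pdpd (hf.smooth t ht) q i j hx, SGN_pd (hf.smooth t ht) q 0 hx,
    SGN_pd (hf.smooth t ht) q 1 hx]

end SGN

theorem blk_SGN (hLOC : Stmt_LOC.{w}) (hSIG : Stmt_SIG) (hCLO : Stmt_CLO.{w}) :
    Stmt_SGN.{w} := by
  intro S _ _ _ _ f hf q hq
  have hx : extChartAt (𝓡 2) q q ∈ (extChartAt (𝓡 2) q).target := mem_extChartAt_target q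
  -- the determinant does not depend on the time
  have h1 : IsLocallyConstant (fun t : Icc (0 : ℝ) 1 => dd (f t) q) := by
    rw [IsLocallyConstant.iff_eventually_eq]
    intro s
    have h1 : Tendsto (Subtype.val : Icc (0 : ℝ) 1 → ℝ) (𝓝 s) (𝓝[Icc (0 : ℝ) 1] (s : ℝ)) :=
      tendsto_nhdsWithin_iff.2 ⟨continuous_subtype_val.tendsto s,
        Eventually.of_forall fun x => x.2⟩
    filter_upwards [h1.eventually (hCLO S f hf s s.2)] with r hr
    exact (hSIG _ _ _ (hLOC S _ _ hr.1 q) _ hx).1.symm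
  have : PreconnectedSpace (Icc (0 : ℝ) 1) :=
    Subtype.preconnectedSpace isPreconnected_Icc
  have h2 : ∀ t ∈ Icc (0 : ℝ) 1, 0 < dd (f t) q := by
    intro t ht
    have h3 := h1.apply_eq_of_preconnectedSpace ⟨t, ht⟩ ⟨0, ⟨le_rfl, zero_le_one⟩⟩
    simp only at h3
    rw [h3]
    exact hq
  have h4 : ∀ t ∈ Icc (0 : ℝ) 1, hh (loc (f t) q) 0 0 (extChartAt (𝓡 2) q q) ≠ 0 := by
    intro t ht h0
    have h3 := h2 t ht
    rw [dd, h0] at h3
    nlinarith [sq_nonneg (hh (loc (f t) q) 0 1 (extChartAt (𝓡 2) q q))]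
  have hc := SGN_cont hf q 0 0 hx
  intro s hs t ht
  refine ⟨h2 s hs, ?_⟩
  by_contra hn
  rw [not_lt] at hn
  rcases lt_or_gt_of_ne (h4 s hs) with ha | ha
  · rcases lt_or_gt_of_ne (h4 t ht) with hb | hb
    · exact absurd (mul_pos_of_neg_of_neg ha hb) (not_lt.2 hn)
    · obtain ⟨r, hr, hr0⟩ := isPreconnected_Icc.intermediate_value hs ht hc ⟨ha.le, hb.le⟩
      exact h4 r hr hr0
  · rcases lt_or_gt_of_ne (h4 t ht) with hb | hb
    · obtain ⟨r, hr, hr0⟩ := isPreconnected_Icc.intermediate_value ht hs hc ⟨hb.le, ha.le⟩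
      exact h4 r hr hr0
    · exact absurd (mul_pos ha hb) (not_lt.2 hn)

end Pool.SXB
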