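import Pool.Agent.Work.MP_02e829_sb.Interface

/-! # Six rigid pieces, block SIG: signs of the second forms -/

open Set Filter Manifold Matrix MeasureTheory Metric
open scoped Topology ContDiff Manifold

set_option autoImplicit false

universe w

namespace Pool.SXB

/-- the determinant of the sum of two definite forms of the same sign -/
theorem SIG_det (p r s p' r' s' : ℝ) (h1 : 0 < p * r - s ^ 2) (h2 : 0 < p' * r' - s' ^ 2)
    (h3 : 0 < p * p') : 0 < (p + p') * (r + r') - (s + s') ^ 2 := by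
  have hp : p ≠ 0 := fun h => by rw [h, zero_mul] at h3; exact lt_irrefl _ h3
  have hp' : p' ≠ 0 := fun h => by rw [h, mul_zero] at h3; exact lt_irrefl _ h3
  have e1 : (p * p') * (p * r' + p' * r - 2 * s * s') =
      p ^ 2 * (p' * r' - s' ^ 2) + p' ^ 2 * (p * r - s ^ 2) + (p * s' - p' * s) ^ 2 := by ring
  have e2 : 0 < (p * p') * (p * r' + p' * r - 2 * s * s') := by
    rw [e1]
    positivity
  have e3 : 0 < p * r' + p' * r - 2 * s * s' := (mul_pos_iff_of_pos_left h3).1 e2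
  nlinarith [h1, h2, e3]

theorem blk_SIG (hEGR : Stmt_EGR) (hMIX : Stmt_MIX) : Stmt_SIG := by
  intro U F G hP x hx
  obtain ⟨f00, g00⟩ := hEGR U F G hP x hx 0 0
  obtain ⟨f01, g01⟩ := hEGR U F G hP x hx 0 1
  obtain ⟨f11, g11⟩ := hEGR U F G hP x hx 1 1
  obtain ⟨-, hm⟩ := hMIX U F G hP x hx
  have hα : 0 < 1 + yy F G x ⬝ᵥ yy F G x := by
    have : 0 ≤ yy F G x ⬝ᵥ yy F G x := by
      rw [Matrix.vec3_dotProduct]
      nlinarith [sq_nonneg (yy F G x 0), sq_nonneg (yy F G x 1), sq_nonneg (yy F G x 2)]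
    linarith
  have hdet : hh F 0 0 x * hh F 1 1 x - hh F 0 1 x ^ 2 =
      hh G 0 0 x * hh G 1 1 x - hh G 0 1 x ^ 2 := by
    rw [f00, f01, f11, g00, g01, g11]
    linear_combination (-2 * (1 + yy F G x ⬝ᵥ yy F G x) *
      (nn F G x ⬝ᵥ nn F G x + (yy F G x ⬝ᵥ nn F G x) ^ 2)) * hm
  refine ⟨hdet, ?_⟩
  intro h1 h2
  have h3 := SIG_det (hh F 0 0 x) (hh F 1 1 x) (hh F 0 1 x) (hh G 0 0 x) (hh G 1 1 x)
    (hh G 0 1 x) h1 (by rw [← hdet]; exact h1) h2
  have e : (hh F 0 0 x + hh G 0 0 x) * (hh F 1 1 x + hh G 1 1 x) - (hh F 0 1 x + hh G 0 1 x) ^ 2 =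
      (4 * (1 + yy F G x ⬝ᵥ yy F G x) ^ 2) *
        (ss F G 0 0 x * ss F G 1 1 x - ss F G 0 1 x ^ 2) := by
    rw [f00, f01, f11, g00, g01, g11]
    ring
  rw [e] at h3
  exact (mul_pos_iff_of_pos_left (by positivity)).1 h3

end Pool.SXB
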