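import Pool.Agent.Work.MP_02e829_sb.Interface

/-! # Block SMP: the strong maximum principle (helper9) -/

open Set Filter Manifold Matrix MeasureTheory Metric
open scoped Topology ContDiff Manifold

set_option autoImplicit false

universe w

namespace Pool.SXB

open Pool.FR (pd ee)

/-- a function continuous on `O` which vanishes off a compact subset of `O` is integrable -/
theorem SMP_int {O K : Set E2} (hO : IsOpen O) (hK : IsCompact K) (hKO : K ⊆ O) {F : E2 → ℝ}
    (hc : ContinuousOn F O) (h0 : ∀ x, x ∉ K → F x = 0) : Integrable F := by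
  have hcont : Continuous F := by
    rw [continuous_iff_continuousAt]
    intro x
    by_cases hx : x ∈ O
    · exact hc.continuousAt (hO.mem_nhds hx)
    · have h1 : x ∈ Kᶜ := fun h => hx (hKO h)
      have h2 : F =ᶠ[𝓝 x] fun _ => 0 :=
        Filter.eventuallyEq_of_mem (hK.isClosed.isOpen_compl.mem_nhds h1) fun y hy => h0 y hy
      exact (continuousAt_congr h2).2 continuousAt_const
  exact hcont.integrable_of_hasCompactSupport (HasCompactSupport.intro hK h0)

theorem blk_SMP (h1 : Stmt_WMP) (h2 : Stmt_ENE) (h3 : Stmt_CIR) : Stmt_SMP := by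
  intro O u W κ q hQ
  -- the radii
  obtain ⟨R1, hR1, hR1O⟩ : ∃ R1 : ℝ, 0 < R1 ∧ closedBall q R1 ⊆ O :=
    nhds_basis_closedBall.mem_iff.1 (hQ.op.mem_nhds hQ.mem)
  obtain ⟨R, hR⟩ : ∃ R : ℝ, R = R1 / 2 := ⟨_, rfl⟩
  have hR0 : 0 < R := by rw [hR]; linarith
  have hRR1 : R < R1 := by rw [hR]; linarith
  have hRO : closedBall q R ⊆ O := Subset.trans (closedBall_subset_closedBall hRR1.le) hR1O
  by_contra hcon
  have hfreq : ∃ᶠ x in 𝓝 q, ¬ (u x = u q) := Filter.not_eventually.1 hcon
  have hball : ∀ᶠ x in 𝓝 q, x ∈ ball q R := ball_mem_nhds q hR0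
  obtain ⟨q', hq'ne, hq'R⟩ := (hfreq.and_eventually hball).exists
  have hq'O : q' ∈ O := hRO (ball_subset_closedBall hq'R)
  have hq'lt : u q' < u q := lt_of_le_of_ne (hQ.max q' hq'O) hq'ne
  obtain ⟨δ, hδ⟩ : ∃ δ : ℝ, δ = (u q - u q') / 2 := ⟨_, rfl⟩
  have hδ0 : 0 < δ := by rw [hδ]; linarith
  -- a ball about `q'`
  have hcu : ContinuousAt u q' := hQ.cu.continuousOn.continuousAt (hQ.op.mem_nhds hq'O)
  have hev : ∀ᶠ x in 𝓝 q', u x < u q' + δ := hcu.eventually_lt continuousAt_const (by linarith)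
  obtain ⟨η, hη0, hη⟩ := Metric.eventually_nhds_iff.1 hev
  obtain ⟨s, hs⟩ : ∃ s : ℝ, s = dist q' q := ⟨_, rfl⟩
  have hs0 : 0 < s := by
    rw [hs]
    apply dist_pos.2
    rintro rfl
    exact hq'ne rfl
  have hsR : s < R := by rw [hs]; exact hq'R
  have hn : ‖q' - q‖ = s := by rw [hs, dist_eq_norm]
  obtain ⟨η', hη'⟩ : ∃ η' : ℝ, η' = min η (s / 2) := ⟨_, rfl⟩
  have hη'0 : 0 < η' := by rw [hη']; exact lt_min hη0 (by linarith)
  have hη'η : η' ≤ η := by rw [hη']; exact min_le_left _ _
  have hη's : η' ≤ s / 2 := by rw [hη']; exact min_le_right _ _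
  obtain ⟨c, hc, hCIR⟩ := h3 q (s - η') s R (by linarith) (by linarith) hsR.le
  -- the cutoff
  obtain ⟨ψ, hψ1, hψ2, hψ3, hψ4⟩ : ∃ ψ : E2 → ℝ, ContDiff ℝ 1 ψ ∧ HasCompactSupport ψ ∧
      tsupport ψ ⊆ O ∧ ∀ x ∈ closedBall q R, ψ x = 1 := by
    obtain ⟨B, hB1, hB2⟩ : ∃ B : ContDiffBump q, B.rIn = R ∧ B.rOut = R1 :=
      ⟨⟨R, R1, hR0, hRR1⟩, rfl, rfl⟩
    refine ⟨B, B.contDiff, B.hasCompactSupport, ?_, ?_⟩
    · rw [B.tsupport_eq, hB2]
      exact hR1O
    · intro x hx
      apply B.one_of_mem_closedBall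
      rw [hB1]
      exact hx
  obtain ⟨Cst, hCst⟩ : ∃ Cst : ℝ, Cst = κ ^ 2 * ∫ x, (pd 0 ψ x ^ 2 + pd 1 ψ x ^ 2) := ⟨_, rfl⟩
  -- the estimate
  have hmain : ∀ T : ℝ, 0 ≤ T → c * T ^ 2 ≤ Cst := by
    intro T hT
    obtain ⟨ε, hε⟩ : ∃ ε : ℝ, ε = δ / Real.exp T := ⟨_, rfl⟩
    have hε0 : 0 < ε := by rw [hε]; positivity
    have hpos : ∀ x ∈ O, 0 < u q - u x + ε := fun x hx => by
      have := hQ.max x hx
      linarith
    obtain ⟨v, hv⟩ : ∃ v : E2 → ℝ, v = fun x => - Real.log (u q - u x + ε) := ⟨_, rfl⟩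
    have hin : ContDiffOn ℝ 1 (fun x => u q - u x + ε) O :=
      (contDiffOn_const.sub hQ.cu).add contDiffOn_const
    have hvC : ContDiffOn ℝ 1 v O := by
      rw [hv]
      exact (hin.log fun x hx => (hpos x hx).ne').neg
    have hvpd : ∀ x ∈ O, ∀ i, pd i v x = (u q - u x + ε)⁻¹ * pd i u x := by
      intro x hx i
      have hu : DifferentiableAt ℝ u x := Pool.FR.diff_at hQ.op hQ.cu le_rfl hx
      have e1 : HasFDerivAt (fun y => u q - u y + ε) (-(fderiv ℝ u x)) x :=
        (hu.hasFDerivAt.const_sub (u q)).add_const ε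
      have e2 := (e1.log (hpos x hx).ne').neg
      have e3 : fderiv ℝ v x = -((u q - u x + ε)⁻¹ • -(fderiv ℝ u x)) := by
        rw [hv]
        exact e2.fderiv
      rw [pd, e3, pd]
      simp
    have hosc : ∀ ρ ∈ Ioo (s - η') s, ∃ x ∈ sphere q ρ, ∃ y ∈ sphere q ρ, T ≤ v x - v y := by
      intro ρ hρ
      have hρ0 : 0 < ρ := by linarith [hρ.1]
      have hρR : ρ ≤ R := by linarith [hρ.2]
      obtain ⟨x, hx, hux⟩ := h1 O u W κ q hQ ρ hρ0
        (Subset.trans (closedBall_subset_closedBall hρR) hRO)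
      refine ⟨x, hx, q + (ρ / s) • (q' - q), ?_, ?_⟩
      · rw [mem_sphere, dist_eq_norm, add_sub_cancel_left, norm_smul, hn,
          Real.norm_eq_abs, abs_of_pos (by positivity)]
        field_simp
      · have hy1 : dist (q + (ρ / s) • (q' - q)) q' < η := by
          have e1 : q + (ρ / s) • (q' - q) - q' = -((1 - ρ / s) • (q' - q)) := by
            rw [sub_smul, one_smul]
            abel
          rw [dist_eq_norm, e1, norm_neg, norm_smul, hn, Real.norm_eq_abs,
            abs_of_pos (by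
              rw [sub_pos, div_lt_one hs0]
              exact hρ.2)]
          have e2 : (1 - ρ / s) * s = s - ρ := by field_simp
          rw [e2]
          linarith [hρ.1]
        have hy2 := hη hy1
        have hyO : q + (ρ / s) • (q' - q) ∈ O := by
          apply hRO
          rw [mem_closedBall, dist_eq_norm, add_sub_cancel_left, norm_smul, hn,
            Real.norm_eq_abs, abs_of_pos (by positivity)]
          have e2 : ρ / s * s = ρ := by field_simp
          rw [e2]
          exact hρR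
        have e3 : v x = - Real.log ε := by
          rw [hv]
          simp only [hux, sub_self, zero_add]
        have e4 : v (q + (ρ / s) • (q' - q)) ≤ - Real.log δ := by
          rw [hv]
          simp only
          apply neg_le_neg
          apply Real.log_le_log hδ0
          linarith
        have e5 : Real.log ε = Real.log δ - T := by
          rw [hε, Real.log_div hδ0.ne' (Real.exp_pos T).ne', Real.log_exp]
        linarith
    have hfin := hCIR O v T hQ.op hRO hvC hT hosc
    have hene := h2 O u W κ q hQ ψ hψ1 hψ2 hψ3 ε hε0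
    rw [← hCst] at hene
    refine le_trans hfin (le_trans ?_ hene)
    have e6 : ∫ x in closedBall q R, (pd 0 v x ^ 2 + pd 1 v x ^ 2) =
        ∫ x in closedBall q R, ψ x ^ 2 * (pd 0 u x ^ 2 + pd 1 u x ^ 2) / (u q - u x + ε) ^ 2 := by
      refine setIntegral_congr_fun isClosed_closedBall.measurableSet (fun x hx => ?_)
      have hxO := hRO hx
      simp only [hvpd x hxO, hψ4 x hx]
      have := (hpos x hxO).ne'
      field_simp
    rw [e6]
    apply setIntegral_le_integral
    · have cu : ∀ i, ContinuousOn (pd i u) O := fun i =>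
        (Pool.FR.pd_contDiffOn hQ.op hQ.cu (m := 0) (by norm_num) i).continuousOn
      apply SMP_int hQ.op hψ2 hψ3
      · apply ContinuousOn.div
        · exact (hψ1.continuous.continuousOn.pow 2).mul (((cu 0).pow 2).add ((cu 1).pow 2))
        · exact hin.continuousOn.pow 2
        · intro x hx
          exact pow_ne_zero 2 (hpos x hx).ne'
      · intro x hx
        rw [image_eq_zero_of_notMem_tsupport hx]
        simp
    · exact Filter.Eventually.of_forall fun x => by positivity
  have hCst0 : 0 ≤ Cst := by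
    have := hmain 0 le_rfl
    simpa using this
  have hfinal := hmain (Real.sqrt (Cst / c) + 1) (by positivity)
  have e7 : Real.sqrt (Cst / c) ^ 2 = Cst / c := Real.sq_sqrt (by positivity)
  have e8 : c * (Cst / c) = Cst := by field_simp
  have e9 : 0 ≤ Real.sqrt (Cst / c) := Real.sqrt_nonneg _
  have e10 : c * (Real.sqrt (Cst / c) + 1) ^ 2 = Cst + 2 * (c * Real.sqrt (Cst / c)) + c := by
    have : c * (Real.sqrt (Cst / c) + 1) ^ 2 =
        c * Real.sqrt (Cst / c) ^ 2 + 2 * (c * Real.sqrt (Cst / c)) + c := by ring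
    rw [this, e7, e8]
  rw [e10] at hfinal
  have e11 : 0 ≤ c * Real.sqrt (Cst / c) := by positivity
  linarith

end Pool.SXB
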