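import Pool.Agent.Work.MP_02e829_sb.Interface

/-! Block TOP of MP_02e829_gt (SixBodies), helper56. -/

open Set Filter Manifold Matrix MeasureTheory Metric
open scoped Topology ContDiff Manifold

set_option autoImplicit false

namespace Pool.SXB

open Pool.FR (pd ee)

theorem TOP_rank : 1 < Module.rank ℝ E2 := by
  rw [← Module.finrank_eq_rank, finrank_euclideanSpace_fin]
  norm_num

theorem TOP_conn (x0 x : E2) (r : ℝ) (hx : x ∈ ball x0 r) :
    IsPreconnected (ball x0 r \ {x}) := by
  have hr : 0 < r := pos_of_mem_ball hx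
  let Φ := OpenPartialHomeomorph.univBall x0 r
  have hs : Φ.source = univ := OpenPartialHomeomorph.univBall_source x0 r
  have ht : Φ.target = ball x0 r := OpenPartialHomeomorph.univBall_target x0 hr
  have h1 : ball x0 r \ {x} = Φ '' {Φ.symm x}ᶜ := by
    ext z
    constructor
    · rintro ⟨hz, hzx⟩
      refine ⟨Φ.symm z, ?_, ?_⟩
      · intro h
        apply hzx
        have h2 : Φ.symm z = Φ.symm x := h
        have h3 := congrArg Φ h2
        rw [Φ.right_inv (by rw [ht]; exact hz), Φ.right_inv (by rw [ht]; exact hx)] at h3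
        exact h3
      · exact Φ.right_inv (by rw [ht]; exact hz)
    · rintro ⟨w, hw, rfl⟩
      refine ⟨?_, ?_⟩
      · rw [← ht]
        exact Φ.map_source (by rw [hs]; exact mem_univ w)
      · intro h
        apply hw
        have h2 : Φ w = x := h
        rw [← h2]
        exact (Φ.left_inv (by rw [hs]; exact mem_univ w)).symm
  rw [h1]
  refine IsPreconnected.image ?_ _ ?_
  · exact (isConnected_compl_singleton_of_one_lt_rank TOP_rank _).isPreconnected
  · exact (OpenPartialHomeomorph.continuous_univBall x0 r).continuousOn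

theorem TOP_near (x0 x : E2) (r : ℝ) (hx : x ∈ ball x0 r) :
    x ∈ closure (ball x0 r \ {x}) := by
  rw [mem_closure_iff_nhds]
  intro t ht
  have h1 : t ∩ ball x0 r ∈ 𝓝 x := inter_mem ht (isOpen_ball.mem_nhds hx)
  have h2 : (𝓝[≠] x).NeBot := by
    have : Nontrivial E2 := by
      rw [← rank_pos_iff_nontrivial (R := ℝ)]
      exact lt_trans zero_lt_one TOP_rank
    exact Module.punctured_nhds_neBot ℝ E2 x
  have h3 : (t ∩ ball x0 r) ∩ {x}ᶜ ∈ 𝓝[≠] x :=
    inter_mem (mem_nhdsWithin_of_mem_nhds h1) self_mem_nhdsWithin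
  obtain ⟨y, ⟨hy1, hy2⟩, hy3⟩ := h2.nonempty_of_mem h3
  exact ⟨y, hy1, hy2, hy3⟩

theorem blk_TOP : Stmt_TOP := by
  intro x0 x r Z hx hZ hne hcl hop
  by_cases hZx : Z ⊆ {x}
  · left
    exact Subset.antisymm hZx (by
      obtain ⟨z, hz⟩ := hne
      have h1 : z = x := hZx hz
      rw [singleton_subset_iff, ← h1]
      exact hz)
  · right
    obtain ⟨z, hz, hzx⟩ := not_subset.mp hZx
    have hopen : IsOpen (Z \ {x}) := by
      rw [isOpen_iff_mem_nhds]
      rintro w ⟨hw, hwx⟩
      exact inter_mem (hop w hw hwx) (isOpen_compl_singleton.mem_nhds hwx)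
    have h1 : ball x0 r \ {x} ⊆ Z \ {x} := by
      refine (TOP_conn x0 x r hx).subset_of_closure_inter_subset hopen ⟨z, ⟨hZ hz, hzx⟩, hz, hzx⟩ ?_
      rintro w ⟨hw, hwb, hwx⟩
      exact ⟨hcl w hwb (closure_mono sdiff_subset hw), hwx⟩
    refine Subset.antisymm hZ ?_
    intro w hw
    by_cases h2 : w = x
    · rw [h2]
      refine hcl x hx ?_
      exact closure_mono (h1.trans sdiff_subset) (TOP_near x0 x r hx)
    · exact (h1 ⟨hw, h2⟩).1

end Pool.SXB
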