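import Pool.Agent.Work.MP_02e829_sb.Interface

/-!
# Block W0 (MP_02e829_gt, hand-in SixBodies): `∫ dψ ∧ dW = 0`
-/

open Set Filter Manifold Matrix MeasureTheory Metric
open scoped Topology ContDiff Manifold

set_option autoImplicit false

namespace Pool.SXB

open Pool.FR (pd ee)

/-- derivatives of `C^1` functions with compact support are integrable against continuous ones -/
theorem W0_int {f g : E2 → ℝ} (hf : Continuous f) (hg : Continuous g)
    (hc : HasCompactSupport g) : Integrable (fun x => f x * g x) :=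
  (hf.mul hg).integrable_of_hasCompactSupport hc.mul_left

theorem W0_cont {f : E2 → ℝ} (hf : ContDiff ℝ 1 f) (v : E2) :
    Continuous (fun x => fderiv ℝ f x v) :=
  (hf.continuous_fderiv one_ne_zero).clm_apply continuous_const

theorem W0_supp {f : E2 → ℝ} (hc : HasCompactSupport f) (v : E2) :
    HasCompactSupport (fun x => fderiv ℝ f x v) :=
  (hc.fderiv ℝ).comp_left (g := fun L : E2 →L[ℝ] ℝ => L v) rfl

/-- the symmetric form for two functions with compact support -/
theorem W0_sym {f g : E2 → ℝ} (hf : ContDiff ℝ 1 f) (hg : ContDiff ℝ 1 g)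
    (hcf : HasCompactSupport f) (hcg : HasCompactSupport g) (a b : E2) :
    ∫ x, fderiv ℝ f x b * fderiv ℝ g x a = ∫ x, fderiv ℝ g x b * fderiv ℝ f x a := by
  obtain ⟨C, hC⟩ : ∃ C, LipschitzWith C f :=
    ContDiff.lipschitzWith_of_hasCompactSupport hcf hf one_ne_zero
  obtain ⟨D, hD⟩ : ∃ D, LipschitzWith D g :=
    ContDiff.lipschitzWith_of_hasCompactSupport hcg hg one_ne_zero
  have hdf : Differentiable ℝ f := hf.differentiable one_ne_zero
  have hdg : Differentiable ℝ g := hg.differentiable one_ne_zero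
  have A := hC.integral_inv_smul_sub_mul_tendsto_integral_lineDeriv_mul
    (μ := (volume : Measure E2)) (g := fun x => fderiv ℝ g x a)
    ((W0_cont hg a).integrable_of_hasCompactSupport (W0_supp hcg a)) b
  have B := hD.integral_inv_smul_sub_mul_tendsto_integral_lineDeriv_mul
    (μ := (volume : Measure E2)) (g := fun x => fderiv ℝ f x a)
    ((W0_cont hf a).integrable_of_hasCompactSupport (W0_supp hcf a)) (-b)
  have key : ∀ t : ℝ, ∫ x, (t⁻¹ • (f (x + t • b) - f x)) * fderiv ℝ g x a =
      -∫ x, (t⁻¹ • (g (x + t • (-b)) - g x)) * fderiv ℝ f x a := by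
    intro t
    have hfs : ContDiff ℝ 1 (fun x => f (x + t • b)) := hf.comp (contDiff_id.add contDiff_const)
    have hgs : ContDiff ℝ 1 (fun x => g (x + t • (-b))) :=
      hg.comp (contDiff_id.add contDiff_const)
    have hF : ContDiff ℝ 1 (fun x => t⁻¹ • (f (x + t • b) - f x)) :=
      (hfs.sub hf).const_smul _
    have hFd : ∀ x, fderiv ℝ (fun x => t⁻¹ • (f (x + t • b) - f x)) x a =
        t⁻¹ * (fderiv ℝ f (x + t • b) a - fderiv ℝ f x a) := by
      intro x
      have h1 : HasFDerivAt (fun x => f (x + t • b)) (fderiv ℝ f (x + t • b)) x := by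
        exact (hasFDerivAt_comp_add_right (t • b)).2 (hdf (x + t • b)).hasFDerivAt
      have h3 : HasFDerivAt (fun x => t⁻¹ • (f (x + t • b) - f x))
          (t⁻¹ • (fderiv ℝ f (x + t • b) - fderiv ℝ f x)) x :=
        (h1.sub (hdf x).hasFDerivAt).const_smul t⁻¹
      rw [h3.fderiv]
      rfl
    have hparts := integral_mul_fderiv_eq_neg_fderiv_mul_of_integrable
      (μ := (volume : Measure E2)) (f := fun x => t⁻¹ • (f (x + t • b) - f x)) (g := g) (v := a)
      (W0_int (W0_cont hF a) hg.continuous hcg)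
      (W0_int hF.continuous (W0_cont hg a) (W0_supp hcg a))
      (W0_int hF.continuous hg.continuous hcg)
      (fun x _ => hF.differentiable one_ne_zero x) (fun x _ => hdg x)
    rw [hparts]
    congr 1
    have hsh : ∫ x, fderiv ℝ f (x + t • b) a * g x =
        ∫ x, fderiv ℝ f x a * g (x + t • (-b)) := by
      rw [← integral_add_right_eq_self _ (t • (-b))]
      refine integral_congr_ae (Eventually.of_forall fun x => ?_)
      show fderiv ℝ f (x + t • (-b) + t • b) a * g (x + t • (-b)) = _
      rw [smul_neg, neg_add_cancel_right]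
    have hI1 : Integrable (fun x => fderiv ℝ f (x + t • b) a * g x) :=
      W0_int ((W0_cont hf a).comp (continuous_id.add continuous_const)) hg.continuous hcg
    have hI2 : Integrable (fun x => fderiv ℝ f x a * g x) :=
      W0_int (W0_cont hf a) hg.continuous hcg
    have hI3 : Integrable (fun x => fderiv ℝ f x a * g (x + t • (-b))) := by
      have h := W0_int hgs.continuous (W0_cont hf a) (W0_supp hcf a)
      refine h.congr (Eventually.of_forall fun x => ?_)
      exact mul_comm _ _
    have e1 : ∫ x, fderiv ℝ (fun x => t⁻¹ • (f (x + t • b) - f x)) x a * g x =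
        t⁻¹ * ((∫ x, fderiv ℝ f (x + t • b) a * g x) - (∫ x, fderiv ℝ f x a * g x)) := by
      rw [← integral_sub hI1 hI2, ← integral_const_mul]
      refine integral_congr_ae (Eventually.of_forall fun x => ?_)
      show _ * g x = _
      rw [hFd]
      ring
    have e2 : ∫ x, (t⁻¹ • (g (x + t • (-b)) - g x)) * fderiv ℝ f x a =
        t⁻¹ * ((∫ x, fderiv ℝ f x a * g (x + t • (-b))) - (∫ x, fderiv ℝ f x a * g x)) := by
      rw [← integral_sub hI3 hI2, ← integral_const_mul]
      refine integral_congr_ae (Eventually.of_forall fun x => ?_)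
      show (t⁻¹ • (g (x + t • (-b)) - g x)) * fderiv ℝ f x a = _
      rw [smul_eq_mul]
      ring
    rw [e1, e2, hsh]
  have hlim := tendsto_nhds_unique A (by
    have h1 := B.neg
    refine h1.congr fun t => ?_
    exact (key t).symm)
  have hL1 : ∫ x, lineDeriv ℝ f x b * fderiv ℝ g x a = ∫ x, fderiv ℝ f x b * fderiv ℝ g x a := by
    refine integral_congr_ae (Eventually.of_forall fun x => ?_)
    show lineDeriv ℝ f x b * _ = _
    rw [(hdf x).lineDeriv_eq_fderiv]
  have hL2 : ∫ x, lineDeriv ℝ g x (-b) * fderiv ℝ f x a =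
      -∫ x, fderiv ℝ g x b * fderiv ℝ f x a := by
    rw [← integral_neg]
    refine integral_congr_ae (Eventually.of_forall fun x => ?_)
    show lineDeriv ℝ g x (-b) * _ = _
    rw [(hdg x).lineDeriv_eq_fderiv, map_neg, neg_mul]
  rw [hL1, hL2, neg_neg] at hlim
  exact hlim

/-- a global function with compact support which is `W` near a compact set -/
theorem W0_ext {O K : Set E2} {W : E2 → ℝ} (hO : IsOpen O) (hK : IsCompact K) (hKO : K ⊆ O)
    (hW : ContDiffOn ℝ 1 W O) : ∃ V : E2 → ℝ, ContDiff ℝ 1 V ∧ HasCompactSupport V ∧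
      ∀ x ∈ K, V =ᶠ[𝓝 x] W := by
  obtain ⟨δ, hδ, hδO⟩ := hK.exists_cthickening_subset_open hO hKO
  have hsub : K ⊆ interior (cthickening δ K) :=
    (self_subset_thickening hδ K).trans (interior_maximal (thickening_subset_cthickening δ K)
      isOpen_thickening)
  obtain ⟨χ, h1, h0, -⟩ := exists_contMDiffMap_one_nhds_of_subset_interior (n := 1) 𝓘(ℝ, E2)
    hK.isClosed hsub
  have hχ : ContDiff ℝ 1 (χ : E2 → ℝ) := contMDiff_iff_contDiff.1 χ.contMDiff
  have hts : tsupport (χ : E2 → ℝ) ⊆ cthickening δ K := by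
    refine closure_minimal ?_ isClosed_cthickening
    intro x hx
    by_contra hx'
    exact hx (h0 x hx')
  have hcχ : HasCompactSupport (χ : E2 → ℝ) :=
    (hK.cthickening).of_isClosed_subset (isClosed_tsupport _) hts
  refine ⟨fun x => χ x * W x, ?_, hcχ.mul_right, ?_⟩
  · rw [contDiff_iff_contDiffAt]
    intro x
    by_cases hx : x ∈ tsupport (χ : E2 → ℝ)
    · exact hχ.contDiffAt.mul (hW.contDiffAt (hO.mem_nhds (hδO (hts hx))))
    · have h2 : (fun x => χ x * W x) =ᶠ[𝓝 x] fun _ => (0 : ℝ) := by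
        filter_upwards [(isClosed_tsupport _).isOpen_compl.mem_nhds hx] with y hy
        rw [image_eq_zero_of_notMem_tsupport hy, zero_mul]
      exact contDiffAt_const.congr_of_eventuallyEq h2
  · intro x hx
    have h2 : ∀ᶠ y in 𝓝 x, χ y = 1 := Filter.Eventually.filter_mono (nhds_le_nhdsSet hx) h1
    filter_upwards [h2] with y hy
    rw [hy, one_mul]

theorem blk_W0 : Stmt_W0 := by
  intro O ψ W hO hψ hc hts hW
  obtain ⟨V, hV, hcV, hVW⟩ := W0_ext hO hc hts hW
  have h1 : ∀ x, pd 0 ψ x * pd 1 W x - pd 1 ψ x * pd 0 W x =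
      fderiv ℝ V x (ee 1) * fderiv ℝ ψ x (ee 0) - fderiv ℝ ψ x (ee 1) * fderiv ℝ V x (ee 0) := by
    intro x
    by_cases hx : x ∈ tsupport ψ
    · have h2 := (hVW x hx).fderiv_eq (𝕜 := ℝ)
      show fderiv ℝ ψ x (ee 0) * fderiv ℝ W x (ee 1) - fderiv ℝ ψ x (ee 1) * fderiv ℝ W x (ee 0) = _
      rw [← h2]
      ring
    · have h2 : ψ =ᶠ[𝓝 x] fun _ => (0 : ℝ) := by
        filter_upwards [(isClosed_tsupport _).isOpen_compl.mem_nhds hx] with y hy
        exact image_eq_zero_of_notMem_tsupport hy
      have h3 : fderiv ℝ ψ x = 0 := by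
        rw [h2.fderiv_eq]
        simp
      show fderiv ℝ ψ x (ee 0) * fderiv ℝ W x (ee 1) - fderiv ℝ ψ x (ee 1) * fderiv ℝ W x (ee 0) = _
      rw [h3]
      simp
  simp only [h1]
  rw [integral_sub, W0_sym hV hψ hcV hc, sub_self]
  · exact W0_int (W0_cont hV _) (W0_cont hψ _) (W0_supp hc _)
  · exact W0_int (W0_cont hψ _) (W0_cont hV _) (W0_supp hcV _)

end Pool.SXB
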