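import Pool.Agent.Work.MP_02e829_sb.Interface

/-!
# Block WMP (MP_02e829_gt, hand-in SixBodies): the weak maximum principle
-/

open Set Filter Manifold Matrix MeasureTheory Metric
open scoped Topology ContDiff Manifold

set_option autoImplicit false

namespace Pool.SXB

open Pool.FR (pd ee)

theorem WMP_deriv (s : ℝ) : HasDerivAt (fun s : ℝ => (max s 0) ^ 2) (2 * max s 0) s := by
  rcases lt_trichotomy s 0 with h | h | h
  · have h1 : (fun s : ℝ => (max s 0) ^ 2) =ᶠ[𝓝 s] fun _ => 0 := by
      filter_upwards [Iio_mem_nhds h] with y hy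
      rw [max_eq_right (le_of_lt hy)]
      norm_num
    have h2 : (2 * max s 0 : ℝ) = 0 := by rw [max_eq_right h.le, mul_zero]
    rw [h2]
    exact (hasDerivAt_const s (0 : ℝ)).congr_of_eventuallyEq h1
  · subst h
    rw [max_self, mul_zero, hasDerivAt_iff_isLittleO_nhds_zero]
    have h1 : (fun h : ℝ => h ^ 2) =o[𝓝 0] fun h => h := by
      have h2 := Asymptotics.isLittleO_pow_pow (𝕜 := ℝ) (m := 1) (n := 2) one_lt_two
      simpa using h2
    refine Asymptotics.IsBigO.trans_isLittleO ?_ h1
    refine Asymptotics.IsBigO.of_bound 1 (Eventually.of_forall fun h => ?_)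
    rw [zero_add, max_self, one_mul, smul_zero, sub_zero, zero_pow two_ne_zero, sub_zero,
      Real.norm_eq_abs, Real.norm_eq_abs, abs_of_nonneg (sq_nonneg _), abs_of_nonneg (sq_nonneg _)]
    rcases le_total h 0 with h0 | h0
    · rw [max_eq_right h0, zero_pow two_ne_zero]
      exact sq_nonneg h
    · rw [max_eq_left h0]
  · have h1 : (fun s : ℝ => (max s 0) ^ 2) =ᶠ[𝓝 s] fun s => s ^ 2 := by
      filter_upwards [Ioi_mem_nhds h] with y hy
      rw [max_eq_left (le_of_lt hy)]
    have h2 : (2 * max s 0 : ℝ) = 2 * s := by rw [max_eq_left h.le]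
    rw [h2]
    have h3 := hasDerivAt_pow 2 s
    have h4 : HasDerivAt (fun s : ℝ => s ^ 2) (2 * s) s := by simpa using h3
    exact h4.congr_of_eventuallyEq h1

theorem WMP_contDiff : ContDiff ℝ 1 (fun s : ℝ => (max s 0) ^ 2) := by
  rw [contDiff_one_iff_deriv]
  refine ⟨fun s => (WMP_deriv s).differentiableAt, ?_⟩
  have h1 : deriv (fun s : ℝ => (max s 0) ^ 2) = fun s => 2 * max s 0 := by
    funext s
    exact (WMP_deriv s).deriv
  rw [h1]
  exact continuous_const.mul (continuous_id.max continuous_const)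

theorem blk_WMP (hW0 : Stmt_W0) : Stmt_WMP := by
  intro O u W κ q Q R hR hRO
  by_contra hcon
  push Not at hcon
  have hsO : sphere q R ⊆ O := sphere_subset_closedBall.trans hRO
  have huc : ContinuousOn u O := Q.cu.continuousOn
  have hx₀ : q + R • ee 0 ∈ sphere q R := by
    rw [mem_sphere, dist_eq_norm, add_sub_cancel_left, norm_smul, Real.norm_eq_abs, abs_of_pos hR]
    have h1 : ‖(ee 0 : E2)‖ = 1 := by
      simp [ee]
    rw [h1, mul_one]
  obtain ⟨x₁, hx₁, hmin⟩ := (isCompact_sphere q R).exists_isMinOn ⟨_, hx₀⟩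
    (f := fun x => u q - u x) (continuousOn_const.sub (huc.mono hsO))
  obtain ⟨c, hc⟩ : ∃ c, c = (u q - u x₁) / 2 := ⟨_, rfl⟩
  have hcpos : 0 < c := by
    have h1 := lt_of_le_of_ne (Q.max x₁ (hsO hx₁)) (hcon x₁ hx₁)
    rw [hc]
    linarith
  have hsph : ∀ x ∈ sphere q R, 2 * c ≤ u q - u x := by
    intro x hx
    have h1 : u q - u x₁ ≤ u q - u x := hmin hx
    rw [hc]
    linarith
  -- the test function
  obtain ⟨ψ, hψ⟩ : ∃ ψ : E2 → ℝ, ∀ x, ψ x =
      (ball q R).indicator (fun x => (max (c - (u q - u x)) 0) ^ 2) x := ⟨_, fun _ => rfl⟩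
  have hin : ∀ x ∈ ball q R, ψ =ᶠ[𝓝 x] fun x => (max (c - (u q - u x)) 0) ^ 2 := by
    intro x hx
    filter_upwards [isOpen_ball.mem_nhds hx] with y hy
    rw [hψ, indicator_of_mem hy]
  have hout : ∀ x, x ∉ ball q R → ψ =ᶠ[𝓝 x] fun _ => (0 : ℝ) := by
    intro x hx
    by_cases hxs : x ∈ sphere q R
    · have h1 : ∀ᶠ y in 𝓝 x, c < u q - u y := by
        have h2 : ContinuousAt (fun y => u q - u y) x :=
          continuousAt_const.sub (huc.continuousAt (Q.op.mem_nhds (hsO hxs)))
        have h3 := hsph x hxs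
        exact h2.eventually_const_lt (by linarith)
      filter_upwards [h1] with y hy
      rw [hψ]
      by_cases hyb : y ∈ ball q R
      · rw [indicator_of_mem hyb, max_eq_right (by linarith), zero_pow two_ne_zero]
      · rw [indicator_of_notMem hyb]
    · have h1 : x ∉ closedBall q R := by
        intro h
        rcases (mem_closedBall.1 h).lt_or_eq with h2 | h2
        · exact hx (mem_ball.2 h2)
        · exact hxs (mem_sphere.2 h2)
      filter_upwards [isClosed_closedBall.isOpen_compl.mem_nhds h1] with y hy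
      rw [hψ, indicator_of_notMem (fun h => hy (ball_subset_closedBall h))]
  have hcg : ∀ x ∈ ball q R, ContDiffAt ℝ 1 (fun x => c - (u q - u x)) x := by
    intro x hx
    exact contDiffAt_const.sub (contDiffAt_const.sub (Q.cu.contDiffAt
      (Q.op.mem_nhds (hRO (ball_subset_closedBall hx)))))
  have hψ1 : ContDiff ℝ 1 ψ := by
    rw [contDiff_iff_contDiffAt]
    intro x
    by_cases hx : x ∈ ball q R
    · exact (WMP_contDiff.contDiffAt.comp x (hcg x hx)).congr_of_eventuallyEq (hin x hx)
    · exact contDiffAt_const.congr_of_eventuallyEq (hout x hx)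
  have hψ0 : ∀ x, x ∉ closedBall q R → ψ x = 0 := by
    intro x hx
    exact (hout x (fun h => hx (ball_subset_closedBall h))).eq_of_nhds
  have hψc : HasCompactSupport ψ := HasCompactSupport.intro (isCompact_closedBall q R) hψ0
  have hψO : tsupport ψ ⊆ O := by
    refine (closure_minimal ?_ isClosed_closedBall).trans hRO
    intro x hx
    by_contra h
    exact hx (hψ0 x h)
  have hpd : ∀ x ∈ ball q R, ∀ i, pd i ψ x = 2 * max (c - (u q - u x)) 0 * pd i u x := by
    intro x hx i
    have hd : DifferentiableAt ℝ u x :=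
      Pool.FR.diff_at Q.op Q.cu le_rfl (hRO (ball_subset_closedBall hx))
    have h1 : HasFDerivAt (fun x => c - (u q - u x)) (fderiv ℝ u x) x := by
      have h2 := (hd.hasFDerivAt.const_sub (u q)).const_sub c
      rw [neg_neg] at h2
      exact h2
    have h3 := ((WMP_deriv (c - (u q - u x))).comp_hasFDerivAt x h1).congr_of_eventuallyEq
      (hin x hx)
    show fderiv ℝ ψ x (ee i) = _
    rw [h3.fderiv]
    rfl
  have hpd0 : ∀ x, x ∉ ball q R → ∀ i, pd i ψ x = 0 := by
    intro x hx i
    show fderiv ℝ ψ x (ee i) = 0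
    rw [(hout x hx).fderiv_eq]
    simp
  have hJ : ∀ x ∈ O, 0 ≤ pd 0 u x * pd 1 W x - pd 1 u x * pd 0 W x := by
    intro x hx
    have h1 := Q.dist x hx
    have h2 : 0 ≤ κ * (pd 0 u x * pd 1 W x - pd 1 u x * pd 0 W x) := by
      refine le_trans ?_ h1
      positivity
    exact nonneg_of_mul_nonneg_right h2 Q.pos
  obtain ⟨F, hF⟩ : ∃ F : E2 → ℝ, ∀ x, F x = pd 0 ψ x * pd 1 W x - pd 1 ψ x * pd 0 W x :=
    ⟨_, fun _ => rfl⟩
  have hFin : ∀ x ∈ ball q R, F x = 2 * max (c - (u q - u x)) 0 *
      (pd 0 u x * pd 1 W x - pd 1 u x * pd 0 W x) := by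
    intro x hx
    rw [hF, hpd x hx, hpd x hx]
    ring
  have hFout : ∀ x, x ∉ ball q R → F x = 0 := by
    intro x hx
    rw [hF, hpd0 x hx, hpd0 x hx]
    ring
  have hF0 : 0 ≤ F := by
    intro x
    by_cases hx : x ∈ ball q R
    · rw [hFin x hx]
      have h1 := hJ x (hRO (ball_subset_closedBall hx))
      have h2 : 0 ≤ max (c - (u q - u x)) 0 := le_max_right _ _
      exact mul_nonneg (mul_nonneg zero_le_two h2) h1
    · rw [hFout x hx]
      exact le_rfl
  have hpψc : ∀ i, Continuous (pd i ψ) := fun i =>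
    (hψ1.continuous_fderiv one_ne_zero).clm_apply continuous_const
  have hpWc : ∀ i, ContinuousOn (pd i W) O := fun i =>
    (Q.cW.continuousOn_fderiv_of_isOpen Q.op le_rfl).clm_apply continuousOn_const
  have hFc : Continuous F := by
    rw [continuous_iff_continuousAt]
    intro x
    by_cases hx : x ∈ O
    · have h1 : F = fun x => pd 0 ψ x * pd 1 W x - pd 1 ψ x * pd 0 W x := funext hF
      rw [h1]
      exact ((hpψc 0).continuousAt.mul ((hpWc 1).continuousAt (Q.op.mem_nhds hx))).sub
        ((hpψc 1).continuousAt.mul ((hpWc 0).continuousAt (Q.op.mem_nhds hx)))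
    · have h1 : F =ᶠ[𝓝 x] fun _ => 0 := by
        filter_upwards [isClosed_closedBall.isOpen_compl.mem_nhds (fun h => hx (hRO h))] with y hy
        exact hFout y (fun h => hy (ball_subset_closedBall h))
      exact continuousAt_const.congr h1.symm
  have hFs : HasCompactSupport F := HasCompactSupport.intro (isCompact_closedBall q R)
    (fun x hx => hFout x (fun h => hx (ball_subset_closedBall h)))
  have hFint : ∫ x, F x = 0 := by
    have h1 := hW0 O ψ W Q.op hψ1 hψc hψO Q.cW
    rw [← h1]
    exact integral_congr_ae (Eventually.of_forall fun x => hF x)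
  have hFz : ∀ x, F x = 0 := by
    intro x
    by_contra h
    have h1 := hFc.integral_pos_of_hasCompactSupport_nonneg_nonzero hFs hF0 h (μ := volume)
    rw [hFint] at h1
    exact lt_irrefl _ h1
  have hgrad : ∀ x ∈ ball q R, u q - u x < c → ∀ i, pd i u x = 0 := by
    intro x hx hU
    have hxO := hRO (ball_subset_closedBall hx)
    have h1 := hFz x
    rw [hFin x hx, max_eq_left (by linarith : (0 : ℝ) ≤ c - (u q - u x))] at h1
    have h2 : pd 0 u x * pd 1 W x - pd 1 u x * pd 0 W x = 0 := by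
      rcases mul_eq_zero.1 h1 with h3 | h3
      · exfalso
        linarith
      · exact h3
    have h3 := Q.dist x hxO
    rw [h2, mul_zero] at h3
    have s0 := sq_nonneg (pd 0 u x)
    have s1 := sq_nonneg (pd 1 u x)
    have s2 := sq_nonneg (pd 0 W x)
    have s3 := sq_nonneg (pd 1 W x)
    have e0 : pd 0 u x = 0 := (pow_eq_zero_iff two_ne_zero).1 (le_antisymm (by linarith) s0)
    have e1 : pd 1 u x = 0 := (pow_eq_zero_iff two_ne_zero).1 (le_antisymm (by linarith) s1)
    intro i
    fin_cases i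
    · exact e0
    · exact e1
  -- the set where `u` is maximal
  obtain ⟨Z, hZ⟩ : ∃ Z : Set E2, Z = {x | x ∈ closedBall q R ∧ u x = u q} := ⟨_, rfl⟩
  have hZb : ∀ x ∈ Z, x ∈ ball q R := by
    intro x hx
    rw [hZ] at hx
    obtain ⟨h1, h2⟩ := hx
    rcases (mem_closedBall.1 h1).lt_or_eq with h3 | h3
    · exact mem_ball.2 h3
    · exact absurd h2 (hcon x (mem_sphere.2 h3))
  have hZu : ∀ x ∈ Z, u x = u q := by
    intro x hx
    rw [hZ] at hx
    exact hx.2
  have hZc : IsClosed Z := by
    have h1 : Z = closedBall q R ∩ u ⁻¹' {u q} := by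
      rw [hZ]
      rfl
    rw [h1]
    exact (huc.mono hRO).preimage_isClosed_of_isClosed isClosed_closedBall isClosed_singleton
  have hZo : IsOpen Z := by
    rw [isOpen_iff_mem_nhds]
    intro x hx
    have hxb := hZb x hx
    have hxO := hRO (ball_subset_closedBall hxb)
    have h1 : ∀ᶠ y in 𝓝 x, y ∈ ball q R ∧ u q - u y < c := by
      have hA : ∀ᶠ y in 𝓝 x, y ∈ ball q R := isOpen_ball.mem_nhds hxb
      refine hA.and ?_
      have h2 : ContinuousAt (fun y => u q - u y) x :=
        continuousAt_const.sub (huc.continuousAt (Q.op.mem_nhds hxO))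
      refine h2.eventually_lt_const ?_
      show u q - u x < c
      rw [hZu x hx, sub_self]
      exact hcpos
    obtain ⟨r, hr, hball⟩ := Metric.eventually_nhds_iff_ball.1 h1
    obtain ⟨a, ha⟩ := Pool.FR.eq_const_of_pd (U := ball x r) isOpen_ball
      (convex_ball x r).isPreconnected (f := u)
      (fun y hy => Pool.FR.diff_at Q.op Q.cu le_rfl (hRO (ball_subset_closedBall (hball y hy).1)))
      (fun y hy i => hgrad y (hball y hy).1 (hball y hy).2 i)
    filter_upwards [ball_mem_nhds x hr] with y hy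
    rw [hZ]
    refine ⟨ball_subset_closedBall (hball y hy).1, ?_⟩
    rw [ha y hy, ← ha x (mem_ball_self hr)]
    exact hZu x hx
  have hZn : Z.Nonempty := ⟨q, by
    rw [hZ]
    exact ⟨mem_closedBall_self hR.le, rfl⟩⟩
  have huniv := IsClopen.eq_univ ⟨hZc, hZo⟩ hZn
  have h1 := hZb (q + R • ee 0) (by rw [huniv]; trivial)
  rw [mem_ball, mem_sphere.1 hx₀] at h1
  exact lt_irrefl _ h1

end Pool.SXB
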