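import Pool.Agent.Work.MP_02e829_sb.Interface

open Set Filter Manifold Matrix MeasureTheory Metric
open scoped Topology ContDiff Manifold

set_option autoImplicit false

namespace Pool.SXB

open Pool.FR (pd ee)

/-- polar coordinates at `q` -/
noncomputable def CIR_P (q : E2) (ρ θ : ℝ) : E2 :=
  q + ((ρ * Real.cos θ) • ee 0 + (ρ * Real.sin θ) • ee 1)

theorem CIR_P_cont (q : E2) : Continuous (fun p : ℝ × ℝ => CIR_P q p.1 p.2) := by
  unfold CIR_P
  fun_prop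

theorem CIR_P_deriv (q : E2) (ρ θ : ℝ) : HasDerivAt (fun t => CIR_P q ρ t)
    ((-(ρ * Real.sin θ)) • ee 0 + (ρ * Real.cos θ) • ee 1) θ := by
  unfold CIR_P
  have h1 : HasDerivAt (fun t => ρ * Real.cos t) (-(ρ * Real.sin θ)) θ := by
    have := (Real.hasDerivAt_cos θ).const_mul ρ
    simpa using this
  have h2 : HasDerivAt (fun t => ρ * Real.sin t) (ρ * Real.cos θ) θ :=
    (Real.hasDerivAt_sin θ).const_mul ρ
  exact ((h1.smul_const (ee 0)).add (h2.smul_const (ee 1))).const_add q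

theorem CIR_P_eq (q : E2) (ρ θ : ℝ) :
    CIR_P q ρ θ = q + Complex.orthonormalBasisOneI.repr
      ((ρ : ℂ) * (Real.cos θ + Real.sin θ * Complex.I)) := by
  unfold CIR_P
  congr 1
  ext i
  rw [Complex.orthonormalBasisOneI_repr_apply]
  fin_cases i <;> simp [ee, Complex.cos_ofReal_re, Complex.sin_ofReal_re]

theorem CIR_P_dist (q : E2) (ρ θ : ℝ) (hρ : 0 ≤ ρ) : dist (CIR_P q ρ θ) q = ρ := by
  rw [CIR_P_eq, dist_eq_norm, add_sub_cancel_left, LinearIsometryEquiv.norm_map,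
    ← Complex.polarCoord_symm_apply (ρ, θ), Complex.norm_polarCoord_symm, abs_of_nonneg hρ]

theorem CIR_P_surj (q : E2) (ρ : ℝ) (x : E2) (hx : x ∈ sphere q ρ) :
    ∃ θ ∈ Icc (-Real.pi) Real.pi, x = CIR_P q ρ θ := by
  obtain ⟨z, hz⟩ : ∃ z : ℂ, Complex.orthonormalBasisOneI.repr z = x - q :=
    ⟨Complex.orthonormalBasisOneI.repr.symm (x - q), LinearIsometryEquiv.apply_symm_apply _ _⟩
  have hn : ‖z‖ = ρ := by
    rw [← LinearIsometryEquiv.norm_map Complex.orthonormalBasisOneI.repr z, hz, ← dist_eq_norm]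
    exact mem_sphere.1 hx
  refine ⟨Complex.arg z, ⟨(Complex.neg_pi_lt_arg z).le, Complex.arg_le_pi z⟩, ?_⟩
  rw [CIR_P_eq, ← hn, Complex.ofReal_cos, Complex.ofReal_sin,
    Complex.norm_mul_cos_add_sin_mul_I, hz, add_sub_cancel]

theorem CIR_circle (q : E2) (ρ : ℝ) (hρ : 0 < ρ) (O : Set E2) (hO : IsOpen O)
    (hs : sphere q ρ ⊆ O) (v : E2 → ℝ) (hv : ContDiffOn ℝ 1 v O) (L : ℝ) (hL : 0 ≤ L) (x y : E2)
    (hx : x ∈ sphere q ρ) (hy : y ∈ sphere q ρ) (hxy : L ≤ v x - v y) :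
    L ^ 2 / (2 * Real.pi) ≤ ρ ^ 2 * ∫ θ in Ioo (-Real.pi) Real.pi,
      (pd 0 v (CIR_P q ρ θ) ^ 2 + pd 1 v (CIR_P q ρ θ) ^ 2) := by
  obtain ⟨θ1, h1, rfl⟩ := CIR_P_surj q ρ x hx
  obtain ⟨θ2, h2, rfl⟩ := CIR_P_surj q ρ y hy
  have hmem : ∀ θ, CIR_P q ρ θ ∈ O := fun θ => hs (mem_sphere.2 (CIR_P_dist q ρ θ hρ.le))
  have hPc : Continuous (fun θ => CIR_P q ρ θ) :=
    (CIR_P_cont q).comp (continuous_const.prodMk continuous_id)
  have hpc : ∀ i, Continuous (fun θ => pd i v (CIR_P q ρ θ)) := by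
    intro i
    have h3 : ContinuousOn (pd i v) O :=
      (Pool.FR.pd_contDiffOn hO hv (m := 0) (by norm_num) i).continuousOn
    exact h3.comp_continuous hPc hmem
  obtain ⟨ψ, hψ⟩ : ∃ ψ : ℝ → ℝ, ∀ θ, ψ θ = -(ρ * Real.sin θ) * pd 0 v (CIR_P q ρ θ) +
      ρ * Real.cos θ * pd 1 v (CIR_P q ρ θ) := ⟨_, fun _ => rfl⟩
  have hψe : ψ = fun θ => -(ρ * Real.sin θ) * pd 0 v (CIR_P q ρ θ) +
      ρ * Real.cos θ * pd 1 v (CIR_P q ρ θ) := funext hψ
  have hψc : Continuous ψ := by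
    have := hpc 0
    have := hpc 1
    rw [hψe]
    fun_prop
  have hd : ∀ θ, HasDerivAt (fun t => v (CIR_P q ρ t)) (ψ θ) θ := by
    intro θ
    have h3 : HasFDerivAt v (fderiv ℝ v (CIR_P q ρ θ)) (CIR_P q ρ θ) :=
      (Pool.FR.diff_at hO hv le_rfl (hmem θ)).hasFDerivAt
    have h4 := h3.comp_hasDerivAt θ (CIR_P_deriv q ρ θ)
    rw [map_add, map_smul, map_smul, smul_eq_mul, smul_eq_mul] at h4
    rw [hψ]
    exact h4
  have hint : ∫ θ in θ2..θ1, ψ θ = v (CIR_P q ρ θ1) - v (CIR_P q ρ θ2) :=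
    intervalIntegral.integral_eq_sub_of_hasDerivAt (fun θ _ => hd θ)
      (hψc.intervalIntegrable _ _)
  have hpi : -Real.pi ≤ Real.pi := by linarith [Real.pi_pos]
  have hI : L ≤ ∫ θ in (-Real.pi)..Real.pi, |ψ θ| := by
    have h3 : L ≤ abs (∫ θ in θ2..θ1, |ψ θ|) := by
      have h4 := intervalIntegral.norm_integral_le_abs_integral_norm (f := ψ) (a := θ2) (b := θ1)
        (μ := volume)
      simp only [Real.norm_eq_abs] at h4
      rw [hint] at h4
      exact (hxy.trans (le_abs_self _)).trans h4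
    have hsub : uIoc θ2 θ1 ⊆ uIoc (-Real.pi) Real.pi := by
      rw [uIoc_of_le hpi, uIoc]
      exact Ioc_subset_Ioc (le_min h2.1 h1.1) (max_le h2.2 h1.2)
    have h5 : abs (∫ θ in θ2..θ1, |ψ θ|) ≤ abs (∫ θ in (-Real.pi)..Real.pi, |ψ θ|) :=
      intervalIntegral.abs_integral_mono_interval hsub
        (ae_of_all _ fun θ => abs_nonneg _) (hψc.abs.intervalIntegrable _ _)
    rw [abs_of_nonneg (intervalIntegral.integral_nonneg hpi fun θ _ => abs_nonneg _)] at h5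
    exact h3.trans h5
  have hpp : 0 < 2 * Real.pi := by positivity
  have hlam : ∫ θ in (-Real.pi)..Real.pi, (2 * (L / (2 * Real.pi)) * |ψ θ| -
      (L / (2 * Real.pi)) ^ 2) ≤ ∫ θ in (-Real.pi)..Real.pi, ρ ^ 2 *
        (pd 0 v (CIR_P q ρ θ) ^ 2 + pd 1 v (CIR_P q ρ θ) ^ 2) := by
    have := hpc 0
    have := hpc 1
    refine intervalIntegral.integral_mono_on hpi
      (Continuous.intervalIntegrable (by fun_prop) _ _)
      (Continuous.intervalIntegrable (by fun_prop) _ _) fun θ _ => ?_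
    have h6 : ψ θ ^ 2 ≤ ρ ^ 2 *
        (pd 0 v (CIR_P q ρ θ) ^ 2 + pd 1 v (CIR_P q ρ θ) ^ 2) := by
      rw [hψ]
      have h7 := Real.sin_sq_add_cos_sq θ
      have h8 : ρ ^ 2 * (pd 0 v (CIR_P q ρ θ) ^ 2 + pd 1 v (CIR_P q ρ θ) ^ 2) -
          (-(ρ * Real.sin θ) * pd 0 v (CIR_P q ρ θ) + ρ * Real.cos θ * pd 1 v (CIR_P q ρ θ)) ^ 2 =
          ρ ^ 2 * (Real.cos θ * pd 0 v (CIR_P q ρ θ) + Real.sin θ * pd 1 v (CIR_P q ρ θ)) ^ 2 := by
        have h9 : ρ ^ 2 * (pd 0 v (CIR_P q ρ θ) ^ 2 + pd 1 v (CIR_P q ρ θ) ^ 2) =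
            ρ ^ 2 * (pd 0 v (CIR_P q ρ θ) ^ 2 + pd 1 v (CIR_P q ρ θ) ^ 2) *
              (Real.sin θ ^ 2 + Real.cos θ ^ 2) := by rw [h7, mul_one]
        rw [h9]
        ring
      have h10 : 0 ≤ ρ ^ 2 * (Real.cos θ * pd 0 v (CIR_P q ρ θ) +
          Real.sin θ * pd 1 v (CIR_P q ρ θ)) ^ 2 := by positivity
      linarith
    have h11 : 0 ≤ (|ψ θ| - L / (2 * Real.pi)) ^ 2 := sq_nonneg _
    have h12 : |ψ θ| ^ 2 = ψ θ ^ 2 := sq_abs _
    nlinarith
  rw [intervalIntegral.integral_sub (Continuous.intervalIntegrable (by fun_prop) _ _)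
    (Continuous.intervalIntegrable (by fun_prop) _ _), intervalIntegral.integral_const_mul,
    intervalIntegral.integral_const, intervalIntegral.integral_const_mul,
    intervalIntegral.integral_of_le hpi, intervalIntegral.integral_of_le hpi,
    integral_Ioc_eq_integral_Ioo, integral_Ioc_eq_integral_Ioo] at hlam
  rw [intervalIntegral.integral_of_le hpi, integral_Ioc_eq_integral_Ioo] at hI
  refine le_trans ?_ hlam
  have h13 : 2 * (L / (2 * Real.pi)) * L ≤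
      2 * (L / (2 * Real.pi)) * ∫ θ in Ioo (-Real.pi) Real.pi, |ψ θ| :=
    mul_le_mul_of_nonneg_left hI (by positivity)
  have h14 : (Real.pi - -Real.pi) • (L / (2 * Real.pi)) ^ 2 = L ^ 2 / (2 * Real.pi) := by
    rw [smul_eq_mul]
    field_simp
    ring
  have h15 : 2 * (L / (2 * Real.pi)) * L = 2 * (L ^ 2 / (2 * Real.pi)) := by ring
  rw [h14]
  linarith

theorem CIR_polar (q : E2) (ρ1 ρ2 R : ℝ) (h1 : 0 < ρ1) (h12 : ρ1 < ρ2) (h2R : ρ2 ≤ R)
    (g : E2 → ℝ) (hg : ContinuousOn g (closedBall q R)) (hg0 : ∀ x, 0 ≤ g x) (m : ℝ)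
    (hm : ∀ ρ ∈ Ioo ρ1 ρ2, m ≤ ρ * ∫ θ in Ioo (-Real.pi) Real.pi, g (CIR_P q ρ θ)) :
    (ρ2 - ρ1) * m ≤ ∫ x in closedBall q R, g x := by
  obtain ⟨A, hA⟩ : ∃ A : Set E2, ∀ x, x ∈ A ↔ dist x q ∈ Ioo ρ1 ρ2 :=
    ⟨{x | dist x q ∈ Ioo ρ1 ρ2}, fun _ => Iff.rfl⟩
  have hAm : MeasurableSet A := by
    have h3 : A = (fun x => dist x q) ⁻¹' Ioo ρ1 ρ2 := by
      ext x
      exact hA x
    rw [h3]
    exact (isOpen_Ioo.preimage (continuous_id.dist continuous_const)).measurableSet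
  have hAB : A ⊆ closedBall q R := fun x hx => mem_closedBall.2 (((hA x).1 hx).2.le.trans h2R)
  have hgi : IntegrableOn g (closedBall q R) :=
    hg.integrableOn_compact (isCompact_closedBall q R)
  have hstep1 : ∫ x in A, g x ≤ ∫ x in closedBall q R, g x :=
    setIntegral_mono_set hgi (ae_of_all _ hg0) hAB.eventuallyLE
  refine le_trans ?_ hstep1
  -- polar coordinates
  have hpol : ∫ x in A, g x = ∫ p in polarCoord.target, p.1 • A.indicator g (CIR_P q p.1 p.2) := by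
    rw [← integral_indicator hAm]
    have h4 : ∫ x, A.indicator g x = ∫ x, A.indicator g (q + x) :=
      (integral_add_left_eq_self (fun x => A.indicator g x) q).symm
    rw [h4]
    have h5 : MeasurePreserving Complex.orthonormalBasisOneI.repr volume volume :=
      Complex.orthonormalBasisOneI.repr.measurePreserving
    have h6 := h5.integral_comp
      Complex.orthonormalBasisOneI.repr.toHomeomorph.measurableEmbedding
      (fun x => A.indicator g (q + x))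
    rw [← h6, ← Complex.integral_comp_polarCoord_symm]
    refine integral_congr_ae (ae_of_all _ fun p => ?_)
    dsimp only
    rw [CIR_P_eq, Complex.polarCoord_symm_apply]
  have hS : MeasurableSet (Ioo ρ1 ρ2 ×ˢ Ioo (-Real.pi) Real.pi) :=
    measurableSet_Ioo.prod measurableSet_Ioo
  have hpol2 : ∫ p in polarCoord.target, p.1 • A.indicator g (CIR_P q p.1 p.2) =
      ∫ p in Ioo ρ1 ρ2 ×ˢ Ioo (-Real.pi) Real.pi, p.1 * g (CIR_P q p.1 p.2) := by
    have h7 : ∀ p ∈ polarCoord.target, p.1 • A.indicator g (CIR_P q p.1 p.2) =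
        (Ioo ρ1 ρ2 ×ˢ Ioo (-Real.pi) Real.pi).indicator
          (fun p : ℝ × ℝ => p.1 * g (CIR_P q p.1 p.2)) p := by
      intro p hp
      rw [polarCoord_target] at hp
      have hp1 : 0 < p.1 := hp.1
      by_cases hpA : CIR_P q p.1 p.2 ∈ A
      · have h8 := (hA _).1 hpA
        rw [CIR_P_dist q _ _ hp1.le] at h8
        rw [indicator_of_mem hpA, indicator_of_mem (show p ∈ Ioo ρ1 ρ2 ×ˢ Ioo (-Real.pi) Real.pi
          from ⟨h8, hp.2⟩), smul_eq_mul]
      · rw [indicator_of_notMem hpA, indicator_of_notMem, smul_zero]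
        intro h9
        apply hpA
        rw [hA, CIR_P_dist q _ _ hp1.le]
        exact h9.1
    rw [setIntegral_congr_fun polarCoord.open_target.measurableSet h7, setIntegral_indicator hS]
    congr 2
    apply inter_eq_right.2
    intro p hp
    rw [polarCoord_target]
    exact ⟨h1.trans hp.1.1, hp.2⟩
  have hcont : ContinuousOn (fun p : ℝ × ℝ => p.1 * g (CIR_P q p.1 p.2))
      (Icc ρ1 ρ2 ×ˢ Icc (-Real.pi) Real.pi) := by
    refine continuousOn_fst.mul (hg.comp (CIR_P_cont q).continuousOn fun p hp => ?_)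
    rw [mem_closedBall, CIR_P_dist q _ _ (h1.le.trans hp.1.1)]
    exact hp.1.2.trans h2R
  have hint : IntegrableOn (fun p : ℝ × ℝ => p.1 * g (CIR_P q p.1 p.2))
      (Ioo ρ1 ρ2 ×ˢ Ioo (-Real.pi) Real.pi) (volume.prod volume) := by
    have h10 := hcont.integrableOn_compact (μ := volume) (isCompact_Icc.prod isCompact_Icc)
    exact h10.mono_set (prod_mono Ioo_subset_Icc_self Ioo_subset_Icc_self)
  have hfub : ∫ p in Ioo ρ1 ρ2 ×ˢ Ioo (-Real.pi) Real.pi, p.1 * g (CIR_P q p.1 p.2) =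
      ∫ ρ in Ioo ρ1 ρ2, ∫ θ in Ioo (-Real.pi) Real.pi, ρ * g (CIR_P q ρ θ) :=
    setIntegral_prod _ hint
  rw [hpol, hpol2, hfub]
  have hint2 : IntegrableOn (fun ρ => ∫ θ in Ioo (-Real.pi) Real.pi, ρ * g (CIR_P q ρ θ))
      (Ioo ρ1 ρ2) := by
    have h11 := hint
    rw [IntegrableOn, ← Measure.prod_restrict] at h11
    exact h11.integral_prod_left
  have hfin : ∫ _ in Ioo ρ1 ρ2, m ≤
      ∫ ρ in Ioo ρ1 ρ2, ∫ θ in Ioo (-Real.pi) Real.pi, ρ * g (CIR_P q ρ θ) := by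
    refine setIntegral_mono_on (integrableOn_const (by simp)) hint2 measurableSet_Ioo
      fun ρ hρ => ?_
    rw [integral_const_mul]
    exact hm ρ hρ
  rw [setIntegral_const, smul_eq_mul] at hfin
  rw [measureReal_def, Real.volume_Ioo, ENNReal.toReal_ofReal (by linarith)] at hfin
  exact hfin

theorem blk_CIR : Stmt_CIR := by
  intro q ρ1 ρ2 R h1 h12 h2R
  have hR : 0 < R := by linarith
  refine ⟨(ρ2 - ρ1) * (1 / (2 * Real.pi * R)), ?_, ?_⟩
  · have := sub_pos.2 h12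
    have := Real.pi_pos
    positivity
  intro O v L hO hball hv hL hosc
  have hpc : ∀ i, ContinuousOn (pd i v) O := fun i =>
    (Pool.FR.pd_contDiffOn hO hv (m := 0) (by norm_num) i).continuousOn
  have hg : ContinuousOn (fun x => pd 0 v x ^ 2 + pd 1 v x ^ 2) (closedBall q R) :=
    (((hpc 0).mono hball).pow 2).add (((hpc 1).mono hball).pow 2)
  have hkey := CIR_polar q ρ1 ρ2 R h1 h12 h2R (fun x => pd 0 v x ^ 2 + pd 1 v x ^ 2) hg
    (fun x => by positivity) (L ^ 2 / (2 * Real.pi * R)) ?_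
  · have h3 : (ρ2 - ρ1) * (1 / (2 * Real.pi * R)) * L ^ 2 =
        (ρ2 - ρ1) * (L ^ 2 / (2 * Real.pi * R)) := by ring
    rw [h3]
    exact hkey
  · intro ρ hρ
    obtain ⟨x, hx, y, hy, hxy⟩ := hosc ρ hρ
    have hρ0 : 0 < ρ := h1.trans hρ.1
    have hρR : ρ ≤ R := hρ.2.le.trans h2R
    have h4 := CIR_circle q ρ hρ0 O hO
      (fun z hz => hball (mem_closedBall.2 ((mem_sphere.1 hz).le.trans hρR))) v hv L hL x y
      hx hy hxy
    set I := ∫ θ in Ioo (-Real.pi) Real.pi,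
      (pd 0 v (CIR_P q ρ θ) ^ 2 + pd 1 v (CIR_P q ρ θ) ^ 2) with hI
    have hI0 : 0 ≤ I := by
      rw [hI]
      exact integral_nonneg fun θ => by positivity
    have h5 : L ^ 2 / (2 * Real.pi * R) ≤ L ^ 2 / (2 * Real.pi * ρ) := by
      have := Real.pi_pos
      gcongr
    refine h5.trans ?_
    have h6 : L ^ 2 / (2 * Real.pi * ρ) = (L ^ 2 / (2 * Real.pi)) / ρ := by
      rw [div_div]
    rw [h6, div_le_iff₀ hρ0]
    calc L ^ 2 / (2 * Real.pi) ≤ ρ ^ 2 * I := h4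
      _ = ρ * I * ρ := by ring

end Pool.SXB
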