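import Pool.Agent.Work.MP_02e829_sb.B_STA

/-!
# Block STB: the static theorem, at most three rotations
-/

open Set Filter Manifold Matrix MeasureTheory Metric
open scoped Topology ContDiff Manifold

set_option autoImplicit false

universe w

namespace Pool.SXB

open Pool.FR (pd ee)

/-- three points of the space are in a plane -/
lemma STB_plane (Φ : Fin 3 → V3) : ∃ (a : V3) (c : ℝ), a ≠ 0 ∧ ∀ i, a ⬝ᵥ Φ i = c := by
  -- four unknowns, three equations
  obtain ⟨T, hT⟩ : ∃ T : (V3 × ℝ) →ₗ[ℝ] (Fin 3 → ℝ), ∀ z i, T z i = z.1 ⬝ᵥ Φ i - z.2 := by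
    refine ⟨{ toFun := fun z i => z.1 ⬝ᵥ Φ i - z.2
              map_add' := fun x y => ?_
              map_smul' := fun r x => ?_ }, fun z i => rfl⟩
    · funext i
      simp only [Prod.fst_add, Prod.snd_add, add_dotProduct, Pi.add_apply]
      ring
    · funext i
      simp only [Prod.smul_fst, Prod.smul_snd, smul_dotProduct, Pi.smul_apply, smul_eq_mul,
        RingHom.id_apply]
      ring
  have h1 : ∃ z : V3 × ℝ, z ≠ 0 ∧ T z = 0 := by
    by_contra hno
    push Not at hno
    have hinj : Function.Injective T := by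
      rw [← LinearMap.ker_eq_bot, LinearMap.ker_eq_bot']
      intro z hz
      by_contra hne
      exact hno z hne hz
    have h2 := LinearMap.finrank_le_finrank_of_injective hinj
    simp at h2
  obtain ⟨z, hz0, hz⟩ := h1
  have h3 : ∀ i, z.1 ⬝ᵥ Φ i = z.2 := by
    intro i
    have := congrFun hz i
    rw [hT] at this
    exact sub_eq_zero.1 this
  refine ⟨z.1, z.2, fun h0 => hz0 ?_, h3⟩
  have h4 := h3 0
  rw [h0, zero_dotProduct] at h4
  exact Prod.ext h0 h4.symm

section STB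

variable {S : Type w} [TopologicalSpace S] [ChartedSpace E2 S] [IsManifold (𝓡 2) 2 S]

/-- a functional of the rotation which is somewhere larger than on the pieces -/
lemma STB_max (hSIG : Stmt_SIG) (hLPR : Stmt_LPR) (hLOC : Stmt_LOC.{w}) (hGLB : Stmt_GLB.{w})
    (hCTY : Stmt_CTY.{w}) (hLCN : Stmt_LCN.{w}) [CompactSpace S] [ConnectedSpace S]
    {f g : S → E3} (h : MPair f g) {Sg : Set S} (hE : ∀ q, q ∉ Sg → Ell f g q)
    {a : V3} {c : ℝ} (ha : a ≠ 0) (hc : ∀ q ∈ Sg, a ⬝ᵥ Yg f g q = c) {q0 : S}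
    (hlt : c < a ⬝ᵥ Yg f g q0) :
    ∀ q, ∀ᶠ q' in 𝓝 q, Yg f g q' = Yg f g q ∧ Wg f g q' = Wg f g q := by
  have hY := (hCTY S f g h).1
  have hW := (hCTY S f g h).2
  -- the translation part is bounded
  have hcW : Continuous fun q => a ⬝ᵥ Wg f g q := by
    have h1 : (fun q => a ⬝ᵥ Wg f g q) = fun q => ∑ i, a i * Wg f g q i := rfl
    rw [h1]
    fun_prop
  obtain ⟨M, hM⟩ : ∃ M : ℝ, ∀ q, |a ⬝ᵥ Wg f g q| ≤ M := by
    obtain ⟨q2, -, hq2⟩ := isCompact_univ.exists_isMaxOn (univ_nonempty (α := S))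
      (hcW.abs).continuousOn
    exact ⟨_, fun q => hq2 (mem_univ q)⟩
  have hM0 : 0 ≤ M := (abs_nonneg _).trans (hM q0)
  obtain ⟨ε, hε, hε2⟩ : ∃ ε : ℝ, 0 < ε ∧ 2 * ε * M < a ⬝ᵥ Yg f g q0 - c := by
    refine ⟨(a ⬝ᵥ Yg f g q0 - c) / (2 * M + 1) / 2, ?_, ?_⟩
    · have : 0 < a ⬝ᵥ Yg f g q0 - c := by linarith
      positivity
    · have h1 : 0 < a ⬝ᵥ Yg f g q0 - c := by linarith
      have h2 : 2 * ((a ⬝ᵥ Yg f g q0 - c) / (2 * M + 1) / 2) * M =
          (a ⬝ᵥ Yg f g q0 - c) * (M / (2 * M + 1)) := by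
        field_simp
      rw [h2]
      have h3 : M / (2 * M + 1) < 1 := by
        rw [div_lt_one (by linarith)]
        linarith
      nlinarith
  have hc' : Continuous (STA_L f g a (ε • a)) := by
    have h1 : STA_L f g a (ε • a) = fun q => (∑ i, a i * Yg f g q i) +
      ∑ i, (ε • a) i * Wg f g q i := rfl
    rw [h1]
    fun_prop
  have hLe : ∀ q, STA_L f g a (ε • a) q = a ⬝ᵥ Yg f g q + ε * (a ⬝ᵥ Wg f g q) := by
    intro q
    rw [STA_L, smul_dotProduct, smul_eq_mul]
  obtain ⟨q1, -, hq1⟩ := isCompact_univ.exists_isMaxOn (univ_nonempty (α := S)) hc'.continuousOn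
  have hmax : ∀ q, STA_L f g a (ε • a) q ≤ STA_L f g a (ε • a) q1 := fun q => hq1 (mem_univ q)
  have hnot : ∀ q, STA_L f g a (ε • a) q = STA_L f g a (ε • a) q1 → q ∉ Sg := by
    intro q hq hS
    have h2 := hmax q0
    rw [← hq, hLe, hLe, hc q hS] at h2
    have h3 := abs_le.1 (hM q)
    have h4 := abs_le.1 (hM q0)
    nlinarith
  have hab : a ⬝ᵥ (ε • a) ≠ 0 := by
    rw [dotProduct_smul, smul_eq_mul]
    exact mul_ne_zero hε.ne' (fun h => ha (dotProduct_self_eq_zero.1 h))
  have hop : ∀ q, STA_L f g a (ε • a) q = STA_L f g a (ε • a) q1 →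
      ∀ᶠ q' in 𝓝 q, Yg f g q' = Yg f g q ∧ Wg f g q' = Wg f g q := by
    intro q hq
    refine STA_open hSIG hLPR hLOC hGLB hLCN h (hE q (hnot q hq)) hab ?_
    intro q'
    rw [hq]
    exact hmax q'
  have hcl : IsClopen {q | STA_L f g a (ε • a) q = STA_L f g a (ε • a) q1} := by
    refine ⟨isClosed_eq hc' continuous_const, ?_⟩
    rw [isOpen_iff_mem_nhds]
    intro q hq
    filter_upwards [hop q hq] with q' hq'
    have h3 : STA_L f g a (ε • a) q' = STA_L f g a (ε • a) q := by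
      rw [STA_L, STA_L, hq'.1, hq'.2]
    exact h3.trans hq
  have huniv := hcl.eq_univ ⟨q1, rfl⟩
  intro q
  refine hop q ?_
  have : q ∈ {q | STA_L f g a (ε • a) q = STA_L f g a (ε • a) q1} := huniv ▸ mem_univ q
  exact this

end STB

/-- **The static theorem for at most three rotations.** -/
theorem STB_main (hSIG : Stmt_SIG) (hLPR : Stmt_LPR) (hKIL : Stmt_KIL)
    (hLOC : Stmt_LOC.{w}) (hGLB : Stmt_GLB.{w}) (hCTY : Stmt_CTY.{w}) (hLCN : Stmt_LCN.{w})
    (S : Type w) [TopologicalSpace S] [ChartedSpace E2 S] [IsManifold (𝓡 2) 2 S]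
    [CompactSpace S] [ConnectedSpace S] (f g : S → E3) (h : MPair f g) (Sg : Set S)
    (hE : ∀ q, q ∉ Sg → Ell f g q) (Φ : Fin 3 → V3) (hΦ : ∀ q ∈ Sg, ∃ i, Yg f g q = Φ i) :
    ∃ y0 w0 : V3, ∀ q, Yg f g q = y0 ∧ Wg f g q = w0 := by
  have hY := (hCTY S f g h).1
  have hW := (hCTY S f g h).2
  have hloc : (∀ q, ∀ᶠ q' in 𝓝 q, Yg f g q' = Yg f g q ∧ Wg f g q' = Wg f g q) →
      ∃ y0 w0 : V3, ∀ q, Yg f g q = y0 ∧ Wg f g q = w0 := by
    intro h1
    obtain ⟨c, hc⟩ := STA_const (P := fun q => (Yg f g q, Wg f g q)) fun q => by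
      filter_upwards [h1 q] with q' hq'
      exact Prod.ext hq'.1 hq'.2
    exact ⟨c.1, c.2, fun q => ⟨congrArg Prod.fst (hc q), congrArg Prod.snd (hc q)⟩⟩
  obtain ⟨a, c, ha, hc⟩ := STB_plane Φ
  have hcS : ∀ q ∈ Sg, a ⬝ᵥ Yg f g q = c := by
    intro q hq
    obtain ⟨i, hi⟩ := hΦ q hq
    rw [hi, hc i]
  by_cases hall : ∀ q, a ⬝ᵥ Yg f g q = c
  · have hall' : ∀ q, STA_L f g a 0 q = c := by
      intro q
      rw [STA_L, zero_dotProduct, add_zero, hall q]
    have hL : ∀ q, q ∉ Sg → ∀ᶠ q' in 𝓝 q, Yg f g q' = Yg f g q ∧ Wg f g q' = Wg f g q :=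
      fun q hq => STA_kil hSIG hKIL hLOC hGLB hLCN h (hE q hq) (fun h0 => ha h0.1) hall'
    -- the rotation is constant
    have hYc : ∃ y0, ∀ q, Yg f g q = y0 := by
      rcases Sg.eq_empty_or_nonempty with hemp | ⟨p0, hp0⟩
      · obtain ⟨y0, w0, h1⟩ := hloc fun q => hL q (by rw [hemp]; exact notMem_empty q)
        exact ⟨y0, fun q => (h1 q).1⟩
      · have hval : ∀ q, ∃ i, Yg f g q = Φ i := by
          intro q
          by_contra hno
          push Not at hno
          have hcl : IsClopen {q' | Yg f g q' = Yg f g q} := by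
            refine ⟨isClosed_eq hY continuous_const, ?_⟩
            rw [isOpen_iff_mem_nhds]
            intro q' hq'
            have hq'S : q' ∉ Sg := by
              intro hS
              obtain ⟨i, hi⟩ := hΦ q' hS
              refine hno i ?_
              rw [← show Yg f g q' = Yg f g q from hq']
              exact hi
            filter_upwards [hL q' hq'S] with q'' h2
            exact h2.1.trans hq'
          have huniv := hcl.eq_univ ⟨q, rfl⟩
          have h4 : p0 ∈ {q' | Yg f g q' = Yg f g q} := huniv ▸ mem_univ p0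
          obtain ⟨i, hi⟩ := hΦ p0 hp0
          refine hno i ?_
          rw [← show Yg f g p0 = Yg f g q from h4]
          exact hi
        refine ⟨Yg f g p0, fun q => ?_⟩
        have hcl : IsClopen {q' | Yg f g q' = Yg f g p0} := by
          refine ⟨isClosed_eq hY continuous_const, ?_⟩
          have h5 : {q' | Yg f g q' = Yg f g p0}ᶜ =
              ⋃ i ∈ {i : Fin 3 | Φ i ≠ Yg f g p0}, {q' | Yg f g q' = Φ i} := by
            ext q'
            simp only [mem_compl_iff, mem_ofPred_eq, mem_iUnion, exists_prop]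
            constructor
            · intro h6
              obtain ⟨i, hi⟩ := hval q'
              exact ⟨i, fun h7 => h6 (hi.trans h7), hi⟩
            · rintro ⟨i, hi1, hi2⟩ h6
              exact hi1 (hi2.symm.trans h6)
          rw [← isClosed_compl_iff, h5]
          exact (Set.toFinite _).isClosed_biUnion fun i _ => isClosed_eq hY continuous_const
        have huniv := hcl.eq_univ ⟨p0, rfl⟩
        have h4 : q ∈ {q' | Yg f g q' = Yg f g p0} := huniv ▸ mem_univ q
        exact h4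
    obtain ⟨y0, hy0⟩ := hYc
    -- the translation part is locally constant
    refine hloc fun q => hLCN S f g h q ?_
    have hP := hLOC S f g h q
    have h6 : ∀ x ∈ (extChartAt (𝓡 2) q).target, yy (loc f q) (loc g q) x = y0 := by
      intro x hx
      rw [← ((hGLB S f g h).1 q x hx).1, hy0]
    filter_upwards [hP.op.mem_nhds (mem_extChartAt_target (I := 𝓡 2) q)] with x hx
    intro i
    rw [Pool.FR.pd_congr hP.op (g := fun _ => y0) h6 i hx, Pool.FR.pd_const]
  · push Not at hall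
    obtain ⟨q0, hq0⟩ := hall
    refine hloc ?_
    rcases lt_or_gt_of_ne hq0 with hlt | hgt
    · refine STB_max hSIG hLPR hLOC hGLB hCTY hLCN h hE (a := -a) (c := -c) (q0 := q0)
        (neg_ne_zero.2 ha) ?_ ?_
      · intro q hq
        rw [neg_dotProduct, hcS q hq]
      · rw [neg_dotProduct]
        exact neg_lt_neg hlt
    · exact STB_max hSIG hLPR hLOC hGLB hCTY hLCN h hE (a := a) (c := c) (q0 := q0) ha hcS hgt

end Pool.SXB
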