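import Pool.Agent.Work.MP_02e829_sb.Interface7

/-!
# Block BAD7: local maxima where the field is normal
-/

open Set Filter Manifold Matrix MeasureTheory Metric
open scoped Topology ContDiff Manifold

set_option autoImplicit false

universe w

namespace Pool.SXB

open Pool.FR (pd ee pd_sub pd_cross diff_at pd_contDiffOn contDiffOn_dot contDiffOn_cross
  eq_const_of_pd)

section BAD7

variable {U : Set E2} {F G : E2 → V3}

lemma BAD7_mm (hP : Pair U F G) : ContDiffOn ℝ 2 (mm F G) U :=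
  (hP.smF.add hP.smG).const_smul (1 / 2 : ℝ)

lemma BAD7_vv (hP : Pair U F G) : ContDiffOn ℝ 2 (vv F G) U :=
  (hP.smG.sub hP.smF).const_smul (1 / 2 : ℝ)

lemma BAD7_nn (hP : Pair U F G) : ContDiffOn ℝ 1 (nn F G) U :=
  contDiffOn_cross (pd_contDiffOn hP.op (BAD7_mm hP) (by norm_num) 0)
    (pd_contDiffOn hP.op (BAD7_mm hP) (by norm_num) 1)

lemma BAD7_ss (hP : Pair U F G) (i j : Fin 2) : ContinuousOn (ss F G i j) U := by
  have h1 : ContDiffOn ℝ 1 (pd j (mm F G)) U :=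
    pd_contDiffOn hP.op (BAD7_mm hP) (by norm_num) j
  have h2 : ContDiffOn ℝ 0 (pd i (pd j (mm F G))) U :=
    pd_contDiffOn hP.op h1 (by norm_num) i
  have h3 : ContDiffOn ℝ 0 (nn F G) U := (BAD7_nn hP).of_le (by norm_num)
  exact (contDiffOn_dot h2 h3).continuousOn

lemma BAD7_pos (hP : Pair U F G) {x0 : E2} (hx : x0 ∈ U) (h : PosAt F G x0) :
    ∀ᶠ x in 𝓝 x0, PosAt F G x := by
  have hc : ContinuousOn (fun x => ss F G 0 0 x * ss F G 1 1 x - ss F G 0 1 x ^ 2) U :=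
    ((BAD7_ss hP 0 0).mul (BAD7_ss hP 1 1)).sub ((BAD7_ss hP 0 1).pow 2)
  have hca : ContinuousAt (fun x => ss F G 0 0 x * ss F G 1 1 x - ss F G 0 1 x ^ 2) x0 :=
    hc.continuousAt (hP.op.mem_nhds hx)
  exact hca.eventually (lt_mem_nhds h)

/-- where the Rodrigues vector is locally constant the motion is -/
lemma BAD7_rc (hYC : Stmt_YC1) (hP : Pair U F G) {z : E2} (hz : z ∈ U) (h : Rig F G z) :
    ∀ᶠ x in 𝓝 z, yy F G x = yy F G z ∧ ww F G x = ww F G z := by
  obtain ⟨hy, hw, hv⟩ := hYC U F G hP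
  have h1 : ∀ᶠ x in 𝓝 z, (∀ i, pd i (yy F G) x = 0) ∧ x ∈ U := h.and (hP.op.mem_nhds hz)
  obtain ⟨ε, hε, hb⟩ := Metric.eventually_nhds_iff_ball.1 h1
  have hpre : IsPreconnected (ball z ε) := (convex_ball z ε).isPreconnected
  have hdy : ∀ x ∈ ball z ε, DifferentiableAt ℝ (yy F G) x := fun x hx =>
    diff_at hP.op hy le_rfl (hb x hx).2
  have hdw : ∀ x ∈ ball z ε, DifferentiableAt ℝ (ww F G) x := fun x hx =>
    diff_at hP.op hw le_rfl (hb x hx).2
  have hdm : ∀ x ∈ ball z ε, DifferentiableAt ℝ (mm F G) x := fun x hx =>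
    diff_at hP.op (BAD7_mm hP) (by norm_num) (hb x hx).2
  have hdv : ∀ x ∈ ball z ε, DifferentiableAt ℝ (vv F G) x := fun x hx =>
    diff_at hP.op (BAD7_vv hP) (by norm_num) (hb x hx).2
  obtain ⟨c, hc⟩ := eq_const_of_pd isOpen_ball hpre hdy (fun x hx => (hb x hx).1)
  have hpw : ∀ x ∈ ball z ε, ∀ i, pd i (ww F G) x = 0 := by
    intro x hx i
    have e1 : ww F G = fun x => vv F G x - yy F G x ⨯₃ mm F G x := rfl
    have e2 : DifferentiableAt ℝ (fun x => yy F G x ⨯₃ mm F G x) x :=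
      diff_at hP.op (contDiffOn_cross hy ((BAD7_mm hP).of_le (by norm_num))) le_rfl (hb x hx).2
    rw [e1, pd_sub i (hdv x hx) e2, pd_cross i (hdy x hx) (hdm x hx), (hb x hx).1 i,
      hv x (hb x hx).2 i]
    simp
  obtain ⟨c', hc'⟩ := eq_const_of_pd isOpen_ball hpre hdw hpw
  have hzb : z ∈ ball z ε := mem_ball_self hε
  filter_upwards [ball_mem_nhds z hε] with x hx
  exact ⟨(hc x hx).trans (hc z hzb).symm, (hc' x hx).trans (hc' z hzb).symm⟩

lemma BAD7_ll (hYC : Stmt_YC1) (hP : Pair U F G) (a b : V3) (c : ℝ) : ContinuousOn (lc F G a b c) U := by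
  obtain ⟨hy, hw, -⟩ := hYC U F G hP
  have h1 : ContDiffOn ℝ 1 (fun x => a ⬝ᵥ yy F G x) U := contDiffOn_dot contDiffOn_const hy
  have h2 : ContDiffOn ℝ 1 (fun x => b ⬝ᵥ ww F G x) U := contDiffOn_dot contDiffOn_const hw
  have h3 : ContDiffOn ℝ 1 (fun x => c * (yy F G x ⬝ᵥ ww F G x)) U :=
    contDiffOn_const.mul (contDiffOn_dot hy hw)
  exact ((h1.add h2).add h3).continuousOn

lemma BAD7_cl {f : E2 → ℝ} {Z : Set E2} {z : E2} {M : ℝ} (hf : ContinuousAt f z)
    (hz : z ∈ closure Z) (h : ∀ x ∈ Z, f x = M) : f z = M := by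
  have h1 : f z ∈ closure (f '' Z) := mem_closure_image hf hz
  have h2 : f '' Z ⊆ {M} := by
    rintro _ ⟨x, hx, rfl⟩
    exact h x hx
  have h3 := closure_minimal h2 isClosed_singleton h1
  exact h3

/-- the set of the maximal points -/
lemma BAD7_stage (hYC : Stmt_YC1) (hGOD : Stmt_GOD7) (hTOP : Stmt_TOP) (hP : Pair U F G) (a b : V3) (c : ℝ)
    {x0 x : E2} {r : ℝ} (hU : ball x0 r ⊆ U) (hpos : ∀ z ∈ ball x0 r, PosAt F G z)
    (hx : x ∈ ball x0 r) (M : ℝ) (hne : ∃ z ∈ ball x0 r, lc F G a b c z = M)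
    (hle : ∀ z ∈ ball x0 r, lc F G a b c z ≤ M)
    (hinj : ∀ z ∈ ball x0 r, AC F G a b c z ⨯₃ nn F G z = 0 → z = x) :
    ({z | z ∈ ball x0 r ∧ lc F G a b c z = M} = {x} ∨
      {z | z ∈ ball x0 r ∧ lc F G a b c z = M} = ball x0 r) ∧
    ∀ z ∈ ball x0 r, lc F G a b c z = M → z ≠ x → Rig F G z := by
  have hrig : ∀ z ∈ ball x0 r, lc F G a b c z = M → z ≠ x → Rig F G z := by
    intro z hz hzM hzx
    refine hGOD U F G hP a b c z (hU hz) (hpos z hz) (fun h => hzx (hinj z hz h)) ?_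
    filter_upwards [isOpen_ball.mem_nhds hz] with y hy
    rw [hzM]
    exact hle y hy
  refine ⟨hTOP x0 x r _ hx (fun z hz => hz.1) ?_ ?_ ?_, hrig⟩
  · obtain ⟨z, hz1, hz2⟩ := hne
    exact ⟨z, hz1, hz2⟩
  · intro z hz hcl
    refine ⟨hz, ?_⟩
    exact BAD7_cl ((BAD7_ll hYC hP a b c).continuousAt (hP.op.mem_nhds (hU hz))) hcl
      (fun y hy => hy.2)
  · rintro z ⟨hz, hzM⟩ hzx
    filter_upwards [isOpen_ball.mem_nhds hz, BAD7_rc hYC hP (hU hz) (hrig z hz hzM hzx)] with y hy h1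
    refine ⟨hy, ?_⟩
    unfold lc at hzM ⊢
    rw [h1.1, h1.2]
    exact hzM

lemma BAD7_dot (u v : V3) : |u ⬝ᵥ v| ≤ 3 * (‖u‖ * ‖v‖) := by
  have h1 : ∀ i, |u i * v i| ≤ ‖u‖ * ‖v‖ := by
    intro i
    rw [abs_mul]
    exact mul_le_mul (norm_le_pi_norm u i) (norm_le_pi_norm v i) (abs_nonneg _) (norm_nonneg _)
  have h2 : u ⬝ᵥ v = u 0 * v 0 + u 1 * v 1 + u 2 * v 2 := by
    rw [dotProduct, Fin.sum_univ_three]
  rw [h2]
  have h3 := abs_add_le (u 0 * v 0 + u 1 * v 1) (u 2 * v 2)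
  have h4 := abs_add_le (u 0 * v 0) (u 1 * v 1)
  have := h1 0
  have := h1 1
  have := h1 2
  linarith

end BAD7

theorem blk_BAD7 (hYC : Stmt_YC1) (hGOD : Stmt_GOD7) (hSAD : Stmt_SAD7) (hINJ : Stmt_INJ7)
    (hTOP : Stmt_TOP) : Stmt_BAD7 := by
  intro U F G hP a b c x0 hx0 hpos0 L hL hAL hmax
  have hll := BAD7_ll hYC hP a b c
  have hAn : ∀ (t : ℝ) (v : V3), (t • v) ⨯₃ v = 0 := by
    intro t v
    rw [map_smul, LinearMap.smul_apply, cross_self, smul_zero]
  obtain ⟨r1, ρ, hr1, hρ, hr1U, hinj⟩ := hINJ U F G hP a b c x0 hx0 hpos0 L hL hAL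
  obtain ⟨r2, hr2, hb2⟩ := Metric.eventually_nhds_iff_ball.1 (hmax.and (BAD7_pos hP hx0 hpos0))
  set r := min r1 r2 with hr
  have hr0 : 0 < r := lt_min hr1 hr2
  have hU : ball x0 r ⊆ U := (ball_subset_ball (min_le_left _ _)).trans hr1U
  have hb1 : ball x0 r ⊆ ball x0 r1 := ball_subset_ball (min_le_left _ _)
  have hb2' : ∀ z ∈ ball x0 r, lc F G a b c z ≤ lc F G a b c x0 ∧ PosAt F G z := fun z hz =>
    hb2 z (ball_subset_ball (min_le_right _ _) hz)
  have hx0r : x0 ∈ ball x0 r := mem_ball_self hr0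
  have hA0 : AC F G a b c x0 ⨯₃ nn F G x0 = 0 := by
    rw [hAL]
    exact hAn _ _
  have hS0 := hSAD U F G hP a b c x0 hx0 hpos0 L hL hAL hmax
  obtain ⟨hZ, hZr⟩ := BAD7_stage hYC hGOD hTOP hP a b c hU (fun z hz => (hb2' z hz).2) hx0r
    (lc F G a b c x0) ⟨x0, hx0r, rfl⟩ (fun z hz => (hb2' z hz).1)
    (fun z hz hz0 => hinj a (by simpa using hρ) z (hb1 hz) x0 (hb1 hx0r) hz0 hA0)
  rcases hZ with hZ | hZ
  swap
  · -- the functional is constant
    show ∀ᶠ z in 𝓝 x0, ∀ i, pd i (yy F G) z = 0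
    filter_upwards [ball_mem_nhds x0 hr0] with z hz i
    by_cases hzx : z = x0
    · rw [hzx]
      exact hS0 i
    · have h1 : z ∈ {z | z ∈ ball x0 r ∧ lc F G a b c z = lc F G a b c x0} := by
        rw [hZ]
        exact hz
      have h2 : ∀ᶠ y in 𝓝 z, ∀ i, pd i (yy F G) y = 0 := hZr z hz h1.2 hzx
      exact h2.self_of_nhds i
  -- strict maximum
  have hstrict : ∀ z ∈ ball x0 r, z ≠ x0 → lc F G a b c z < lc F G a b c x0 := by
    intro z hz hzx
    refine lt_of_le_of_ne (hb2' z hz).1 fun h => hzx ?_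
    have h1 : z ∈ {z | z ∈ ball x0 r ∧ lc F G a b c z = lc F G a b c x0} := ⟨hz, h⟩
    rw [hZ] at h1
    exact h1
  set r' := r / 2 with hr'
  have hr'0 : 0 < r' := by positivity
  have hcb : closedBall x0 r' ⊆ ball x0 r := closedBall_subset_ball (by linarith)
  have hb' : ball x0 r' ⊆ ball x0 r := ball_subset_closedBall.trans hcb
  have hsne : (sphere x0 r').Nonempty := NormedSpace.sphere_nonempty.2 hr'0.le
  have hsc : sphere x0 r' ⊆ closedBall x0 r' := sphere_subset_closedBall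
  obtain ⟨s, hs, hsmax⟩ := (isCompact_sphere x0 r').exists_isMaxOn hsne
    (hll.mono (hsc.trans (hcb.trans hU)))
  have hsx0 : s ≠ x0 := by
    rintro rfl
    rw [mem_sphere, dist_self] at hs
    linarith
  have hμ : lc F G a b c s < lc F G a b c x0 := hstrict s (hcb (hsc hs)) hsx0
  -- the Rodrigues vector is bounded
  obtain ⟨hy, -, -⟩ := hYC U F G hP
  obtain ⟨C, hC⟩ := (isCompact_closedBall x0 r').exists_bound_of_continuousOn
    (hy.continuousOn.mono (hcb.trans hU))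
  have hC0 : 0 ≤ C := (norm_nonneg _).trans (hC x0 (mem_closedBall_self hr'0.le))
  -- the correction
  have hnn : ContinuousOn (nn F G) U := (BAD7_nn hP).continuousOn
  have hAc : ContinuousOn (AC F G a b c) U := by
    have h1 : ContDiffOn ℝ 1 (fun x => b ⨯₃ mm F G x) U :=
      contDiffOn_cross contDiffOn_const ((BAD7_mm hP).of_le (by norm_num))
    exact (continuousOn_const.add h1.continuousOn).add ((BAD7_vv hP).continuousOn.const_smul c)
  have hdc : ∀ {f g : E2 → V3}, ContinuousOn f U → ContinuousOn g U →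
      ContinuousOn (fun x => f x ⬝ᵥ g x) U := by
    intro f g hf hg
    have h1 : (fun x => f x ⬝ᵥ g x) = fun x => ∑ i, f x i * g x i := rfl
    rw [h1]
    exact continuousOn_finsetSum _ fun i _ =>
      (continuousOn_pi.1 hf i).mul (continuousOn_pi.1 hg i)
  have hnz : ∀ x ∈ U, nn F G x ⬝ᵥ nn F G x ≠ 0 := fun x hx h =>
    hP.imm x hx (dotProduct_self_eq_zero.1 h)
  set al : E2 → ℝ := fun x => (AC F G a b c x ⬝ᵥ nn F G x) / (nn F G x ⬝ᵥ nn F G x) with hal
  have halc : ContinuousOn al U := (hdc hAc hnn).div (hdc hnn hnn) hnz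
  set T : E2 → V3 := fun x => AC F G a b c x - al x • nn F G x with hT
  have hTc : ContinuousOn T U := hAc.sub (halc.smul hnn)
  have hal0 : al x0 = L := by
    rw [hal]
    simp only
    rw [hAL, smul_dotProduct, smul_eq_mul, mul_div_assoc, div_self (hnz x0 hx0), mul_one]
  have hT0 : T x0 = 0 := by
    rw [hT]
    simp only
    rw [hal0, hAL, sub_self]
  have hη : 0 < (lc F G a b c x0 - lc F G a b c s) / 4 := by linarith
  set η := (lc F G a b c x0 - lc F G a b c s) / 4 with hηdef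
  have hδ : 0 < min ρ (η / (3 * (C + 1))) := lt_min hρ (by positivity)
  have hTev : ∀ᶠ x in 𝓝 x0, ‖T x‖ < min ρ (η / (3 * (C + 1))) := by
    have h1 : ContinuousAt T x0 := hTc.continuousAt (hP.op.mem_nhds hx0)
    have h2 : ContinuousAt (fun x => ‖T x‖) x0 := h1.norm
    have h3 : ‖T x0‖ < min ρ (η / (3 * (C + 1))) := by
      rw [hT0, norm_zero]
      exact hδ
    exact h2.eventually (gt_mem_nhds h3)
  have halev : ∀ᶠ x in 𝓝 x0, al x ≠ 0 := by
    have h1 : ContinuousAt al x0 := halc.continuousAt (hP.op.mem_nhds hx0)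
    exact h1.eventually_ne (by rw [hal0]; exact hL)
  show ∀ᶠ z in 𝓝 x0, ∀ i, pd i (yy F G) z = 0
  filter_upwards [hTev, halev, ball_mem_nhds x0 hr'0] with x hx1 hx2 hx3
  have hxr : x ∈ ball x0 r := hb' hx3
  have hTρ : ‖T x‖ < ρ := lt_of_lt_of_le hx1 (min_le_left _ _)
  have hTη : ‖T x‖ < η / (3 * (C + 1)) := lt_of_lt_of_le hx1 (min_le_right _ _)
  have hAx : AC F G (a - T x) b c x = al x • nn F G x := by
    have h1 : AC F G (a - T x) b c x = AC F G a b c x - T x := by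
      unfold AC
      abel
    rw [h1, hT]
    simp
  have hAx0 : AC F G (a - T x) b c x ⨯₃ nn F G x = 0 := by
    rw [hAx]
    exact hAn _ _
  have hllx : ∀ z, lc F G (a - T x) b c z = lc F G a b c z - T x ⬝ᵥ yy F G z := by
    intro z
    unfold lc
    rw [sub_dotProduct]
    ring
  have hdiff : ∀ z ∈ closedBall x0 r', |T x ⬝ᵥ yy F G z| < η := by
    intro z hz
    have h1 := BAD7_dot (T x) (yy F G z)
    have h2 : ‖T x‖ * ‖yy F G z‖ ≤ ‖T x‖ * C := mul_le_mul_of_nonneg_left (hC z hz) (norm_nonneg _)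
    have h3 : ‖T x‖ * (3 * (C + 1)) < η := by
      rwa [lt_div_iff₀ (by positivity)] at hTη
    have h4 := norm_nonneg (T x)
    nlinarith
  have hll' := BAD7_ll hYC hP (a - T x) b c
  obtain ⟨z1, hz1, hz1max⟩ := (isCompact_closedBall x0 r').exists_isMaxOn
    ⟨x0, mem_closedBall_self hr'0.le⟩ (hll'.mono (hcb.trans hU))
  have hM1 : lc F G a b c x0 - η < lc F G (a - T x) b c z1 := by
    have h1 : lc F G (a - T x) b c x0 ≤ lc F G (a - T x) b c z1 :=
      hz1max (mem_closedBall_self hr'0.le)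
    have h2 := abs_lt.1 (hdiff x0 (mem_closedBall_self hr'0.le))
    rw [hllx x0] at h1
    linarith [h2.2]
  have hsph : ∀ z ∈ sphere x0 r', lc F G (a - T x) b c z < lc F G (a - T x) b c z1 := by
    intro z hz
    have h1 : lc F G a b c z ≤ lc F G a b c s := hsmax hz
    have h2 := abs_lt.1 (hdiff z (hsc hz))
    rw [hllx z]
    have h3 : lc F G a b c x0 - lc F G a b c s = 4 * η := by
      rw [hηdef]
      ring
    linarith [h2.1]
  have hz1b : z1 ∈ ball x0 r' := by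
    rcases lt_or_eq_of_le (mem_closedBall.1 hz1) with h | h
    · exact h
    · exact absurd (hsph z1 h) (lt_irrefl _)
  obtain ⟨hZ', -⟩ := BAD7_stage hYC hGOD hTOP hP (a - T x) b c (hb'.trans hU)
    (fun z hz => (hb2' z (hb' hz)).2) hx3 (lc F G (a - T x) b c z1) ⟨z1, hz1b, rfl⟩
    (fun z hz => hz1max (ball_subset_closedBall hz))
    (fun z hz hz0 => (hinj (a - T x) (by
      rw [sub_sub_cancel_left, norm_neg]
      exact hTρ) x (hb1 hxr) z (hb1 (hb' hz)) hAx0 hz0).symm)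
  rcases hZ' with hZ' | hZ'
  · have h1 : x ∈ {z | z ∈ ball x0 r' ∧ lc F G (a - T x) b c z = lc F G (a - T x) b c z1} := by
      rw [hZ']
      rfl
    refine hSAD U F G hP (a - T x) b c x (hU hxr) (hb2' x hxr).2 (al x) hx2 hAx ?_
    filter_upwards [isOpen_ball.mem_nhds hx3] with z hz
    rw [h1.2]
    exact hz1max (ball_subset_closedBall hz)
  · exfalso
    have h2 : s ∈ closure (ball x0 r') := by
      rw [closure_ball x0 hr'0.ne']
      exact hsc hs
    have h3 := BAD7_cl (f := lc F G (a - T x) b c) (M := lc F G (a - T x) b c z1)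
      (hll'.continuousAt (hP.op.mem_nhds (hU (hcb (hsc hs))))) h2 (fun z hz => by
        rw [← hZ'] at hz
        exact hz.2)
    exact absurd h3 (hsph s hs).ne

end Pool.SXB
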