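import Pool.Agent.Work.MP_02e829_sb.B_FIN
import Pool.Agent.Work.MP_02e829_sb.B_STB
import Pool.Agent.Work.MP_02e829_sb.B_VAL

/-!
# The theorem: at most six rigid motions, or at most three rotations
-/

open Set Filter Manifold Matrix MeasureTheory Metric
open scoped Topology ContDiff Manifold

set_option autoImplicit false

universe w

namespace Pool.SXB

open Pool.FR (pd ee)

/-- the linear isometry preserves the orientation -/
def ProperL (R : E3 ≃ₗᵢ[ℝ] E3) : Prop :=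
  0 < LinearMap.det (R.toLinearEquiv : E3 →ₗ[ℝ] E3)

section FIN2

variable {S : Type w} [TopologicalSpace S] [ChartedSpace E2 S] [IsManifold (𝓡 2) 2 S]

/-- the rotation of a rigidly turning point depends on the rotation only -/
lemma FIN2_val (hGLB : Stmt_GLB.{w}) (hSOL : Stmt_SOL) {f g : S → E3} (h : MPair f g)
    {R : E3 ≃ₗᵢ[ℝ] E3} (hR : ProperL R) {q q' : S}
    (hd : ∀ v, FRD.dvec g q v = R (FRD.dvec f q v))
    (hd' : ∀ v, FRD.dvec g q' v = R (FRD.dvec f q' v)) : Yg f g q = Yg f g q' := by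
  have h1 := (hGLB S f g h).2.1 q
  have h2 : ∀ v, L3 (FRD.dvec g q v) - L3 (FRD.dvec f q v) =
      Yg f g q' ⨯₃ (L3 (FRD.dvec g q v) + L3 (FRD.dvec f q v)) := by
    intro v
    rw [hd v]
    exact VAL_all hGLB h hR hd' _
  have hx := mem_extChartAt_target (I := 𝓡 2) q
  refine GLB_unq hSOL blk_LOC h q hx (y := Yg f g q) (y' := Yg f g q') ?_ ?_
  · intro v
    rw [extChartAt_to_inv]
    exact h1 v
  · intro v
    rw [extChartAt_to_inv]
    exact h2 v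

lemma FIN2_step (hSIG : Stmt_SIG) (hLPR : Stmt_LPR) (hKIL : Stmt_KIL) (hSOL : Stmt_SOL)
    (hCTY : Stmt_CTY.{w}) (hLCN : Stmt_LCN.{w}) (hROT : Stmt_ROT)
    (hGLB : Stmt_GLB.{w}) (hELP : Stmt_ELP.{w}) (hSGN : Stmt_SGN.{w}) [CompactSpace S]
    [ConnectedSpace S] {f : ℝ → S → E3} (hf : Fam2 f) {s t : ℝ}
    (hb : ∃ ρ : Fin 3 → (E3 ≃ₗᵢ[ℝ] E3), (∀ i, ProperL (ρ i)) ∧
      ∀ p, ¬ PosCurv (f 0) p → ∃ i, ∀ v, FRD.dvec (f t) p v = ρ i (FRD.dvec (f 0) p v))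
    (hs : s ∈ Icc (0 : ℝ) 1) (ht : t ∈ Icc (0 : ℝ) 1) (hM : MPair (f s) (f t))
    (hT : FIN_T f s) : FIN_T f t := by
  obtain ⟨A, hA, hAf⟩ := hT
  obtain ⟨ρ, hρ, hρb⟩ := hb
  have h0 : (0 : ℝ) ∈ Icc (0 : ℝ) 1 := ⟨le_rfl, zero_le_one⟩
  -- the rotations from time s to time t
  obtain ⟨B, hB⟩ : ∃ B : Fin 3 → (E3 ≃ₗᵢ[ℝ] E3),
      B = fun i => A.linearIsometryEquiv.symm.trans (ρ i) := ⟨_, rfl⟩
  have hBp : ∀ i, ProperL (B i) := by
    intro i
    have h1 : Proper A.symm := FIN_symm hA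
    have h2 : ((B i).toLinearEquiv : E3 →ₗ[ℝ] E3) = ((ρ i).toLinearEquiv : E3 →ₗ[ℝ] E3) ∘ₗ
        (A.symm.linearIsometryEquiv.toLinearEquiv : E3 →ₗ[ℝ] E3) := by
      rw [hB]
      rfl
    rw [ProperL, h2, LinearMap.det_comp]
    exact mul_pos (hρ i) h1
  have hBd : ∀ p, ¬ PosCurv (f 0) p → ∃ i, ∀ v,
      FRD.dvec (f t) p v = B i (FRD.dvec (f s) p v) := by
    intro p hp
    obtain ⟨i, h2⟩ := hρb p hp
    refine ⟨i, fun v => ?_⟩
    rw [h2 v, FIN_dvec (hf.smooth 0 h0) A hAf p v, hB]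
    change _ = (ρ i)
      (A.linearIsometryEquiv.symm (A.linearIsometryEquiv (FRD.dvec (f 0) p v)))
    rw [LinearIsometryEquiv.symm_apply_apply]
  obtain ⟨Φ, hΦ⟩ : ∃ Φ : Fin 3 → V3, ∀ i q,
      (∀ v, FRD.dvec (f t) q v = B i (FRD.dvec (f s) q v)) → Yg (f s) (f t) q = Φ i := by
    classical
    refine ⟨fun i => if hx : ∃ q, ∀ v, FRD.dvec (f t) q v = B i (FRD.dvec (f s) q v) then
      Yg (f s) (f t) hx.choose else 0, fun i q hq => ?_⟩
    have hx : ∃ q, ∀ v, FRD.dvec (f t) q v = B i (FRD.dvec (f s) q v) := ⟨q, hq⟩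
    beta_reduce
    rw [dif_pos hx]
    exact FIN2_val hGLB hSOL hM (hBp i) hq hx.choose_spec
  obtain ⟨y0, w0, hyw⟩ := STB_main hSIG hLPR hKIL blk_LOC hGLB hCTY hLCN S (f s) (f t) hM
    {p | ¬ PosCurv (f 0) p} (by
      intro q hq
      have hq' : PosCurv (f 0) q := by
        by_contra hn
        exact hq hn
      exact hSGN S f hf q (hELP S (f 0) (hf.smooth 0 h0) (hf.imm 0 h0) q hq') s hs t ht) Φ (by
      intro q hq
      obtain ⟨i, hi⟩ := hBd q hq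
      exact ⟨i, hΦ i q hi⟩)
  obtain ⟨A', hA', hA'z⟩ := hROT y0 w0
  refine ⟨A.trans A', FIN_trans hA hA', fun p => ?_⟩
  have h3 := (hGLB S (f s) (f t) hM).2.2 p
  rw [(hyw p).1, (hyw p).2] at h3
  have h4 := hA'z (f s p) (f t p) h3
  rw [h4, hAf p]
  rfl

end FIN2

/-- **The theorem.** -/
theorem FIN2_main (hHYP : Stmt_HYP) (hSIG : Stmt_SIG) (hLPR : Stmt_LPR) (hKIL : Stmt_KIL)
    (hSOL : Stmt_SOL) (hCTY : Stmt_CTY.{w}) (hLCN : Stmt_LCN.{w}) (hROT : Stmt_ROT)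
    (hGLB : Stmt_GLB.{w}) (hCLO : Stmt_CLO.{w}) (hELP : Stmt_ELP.{w}) (hSGN : Stmt_SGN.{w})
    (S : Type w) [TopologicalSpace S] [ChartedSpace E2 S] [IsManifold (𝓡 2) 2 S]
    [CompactSpace S] [ConnectedSpace S] (f : ℝ → S → E3) (hf : Fam2 f)
    (hb : ∀ t ∈ Icc (0 : ℝ) 1, (∃ g : Fin 6 → (E3 ≃ᵃⁱ[ℝ] E3), (∀ i, Proper (g i)) ∧
      ∀ p, ¬ PosCurv (f 0) p → ∃ i, f t p = g i (f 0 p) ∧
        ∀ v, FRD.dvec (f t) p v = (g i).linearIsometryEquiv (FRD.dvec (f 0) p v)) ∨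
      ∃ ρ : Fin 3 → (E3 ≃ₗᵢ[ℝ] E3), (∀ i, ProperL (ρ i)) ∧
        ∀ p, ¬ PosCurv (f 0) p → ∃ i, ∀ v, FRD.dvec (f t) p v = ρ i (FRD.dvec (f 0) p v)) :
    ∀ t ∈ Icc (0 : ℝ) 1, ∃ A : E3 ≃ᵃⁱ[ℝ] E3, Proper A ∧ ∀ p, f t p = A (f 0 p) := by
  intro t ht
  have hSTA : Stmt_STA.{w} := blk_STA hHYP hSIG hLPR hKIL blk_LOC hGLB hCTY hLCN
  have hVAL : Stmt_VAL.{w} := blk_VAL hGLB hSOL
  -- a step between close times
  have hstep : ∀ s ∈ Icc (0 : ℝ) 1, ∀ r ∈ Icc (0 : ℝ) 1, MPair (f s) (f r) → FIN_T f s →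
      FIN_T f r := by
    intro s hs r hr hM hT
    rcases hb r hr with h1 | h1
    · -- six motions at time r
      obtain ⟨A, hA, hAf⟩ := hT
      obtain ⟨g, hg, hgb⟩ := h1
      have h0 : (0 : ℝ) ∈ Icc (0 : ℝ) 1 := ⟨le_rfl, zero_le_one⟩
      obtain ⟨B, hB⟩ : ∃ B : Fin 6 → (E3 ≃ᵃⁱ[ℝ] E3), B = fun i => A.symm.trans (g i) :=
        ⟨_, rfl⟩
      have hBp : ∀ i, Proper (B i) := fun i => by
        rw [hB]
        exact FIN_trans (FIN_symm hA) (hg i)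
      have hBd : ∀ p, ¬ PosCurv (f 0) p → ∃ i, f r p = B i (f s p) ∧
          ∀ v, FRD.dvec (f r) p v = (B i).linearIsometryEquiv (FRD.dvec (f s) p v) := by
        intro p hp
        obtain ⟨i, h1, h2⟩ := hgb p hp
        refine ⟨i, ?_, fun v => ?_⟩
        · rw [h1, hAf p, hB]
          change _ = g i (A.symm (A (f 0 p)))
          rw [AffineIsometryEquiv.symm_apply_apply]
        · rw [h2 v, FIN_dvec (hf.smooth 0 h0) A hAf p v, hB]
          change _ = (g i).linearIsometryEquiv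
            (A.linearIsometryEquiv.symm (A.linearIsometryEquiv (FRD.dvec (f 0) p v)))
          rw [LinearIsometryEquiv.symm_apply_apply]
      obtain ⟨Φ, hΦ⟩ : ∃ Φ : Fin 6 → V3 × V3, ∀ i q, (f r q = B i (f s q) ∧
          ∀ v, FRD.dvec (f r) q v = (B i).linearIsometryEquiv (FRD.dvec (f s) q v)) →
          Yg (f s) (f r) q = (Φ i).1 ∧ Wg (f s) (f r) q = (Φ i).2 := by
        classical
        refine ⟨fun i => if hx : ∃ q, (f r q = B i (f s q) ∧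
          ∀ v, FRD.dvec (f r) q v = (B i).linearIsometryEquiv (FRD.dvec (f s) q v)) then
          (Yg (f s) (f r) hx.choose, Wg (f s) (f r) hx.choose) else (0, 0), fun i q hq => ?_⟩
        have hx : ∃ q, (f r q = B i (f s q) ∧
          ∀ v, FRD.dvec (f r) q v = (B i).linearIsometryEquiv (FRD.dvec (f s) q v)) := ⟨q, hq⟩
        beta_reduce
        rw [dif_pos hx]
        exact hVAL S (f s) (f r) hM (B i) (hBp i) q hx.choose hq.1 hq.2 hx.choose_spec.1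
          hx.choose_spec.2
      obtain ⟨y0, w0, hyw⟩ := hSTA S (f s) (f r) hM {p | ¬ PosCurv (f 0) p} (by
        intro q hq
        have hq' : PosCurv (f 0) q := by
          by_contra hn
          exact hq hn
        exact hSGN S f hf q (hELP S (f 0) (hf.smooth 0 h0) (hf.imm 0 h0) q hq') s hs r hr) Φ (by
        intro q hq
        obtain ⟨i, hi⟩ := hBd q hq
        exact ⟨i, hΦ i q hi⟩)
      obtain ⟨A', hA', hA'z⟩ := hROT y0 w0
      refine ⟨A.trans A', FIN_trans hA hA', fun p => ?_⟩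
      have h3 := (hGLB S (f s) (f r) hM).2.2 p
      rw [(hyw p).1, (hyw p).2] at h3
      have h4 := hA'z (f s p) (f r p) h3
      rw [h4, hAf p]
      rfl
    · exact FIN2_step hSIG hLPR hKIL hSOL hCTY hLCN hROT hGLB hELP hSGN hf h1 hs hr hM hT
  obtain ⟨T, hT⟩ : ∃ T : Set (Icc (0 : ℝ) 1), T = {s : Icc (0 : ℝ) 1 | FIN_T f s} := ⟨_, rfl⟩
  have hev : ∀ s : Icc (0 : ℝ) 1, ∀ᶠ r : Icc (0 : ℝ) 1 in 𝓝 s, (FIN_T f r ↔ FIN_T f s) := by
    intro s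
    have h1 : Tendsto (Subtype.val : Icc (0 : ℝ) 1 → ℝ) (𝓝 s) (𝓝[Icc (0 : ℝ) 1] (s : ℝ)) :=
      tendsto_nhdsWithin_iff.2 ⟨continuous_subtype_val.tendsto s,
        Eventually.of_forall fun x => x.2⟩
    filter_upwards [h1.eventually (hCLO S f hf s s.2)] with r hr
    exact ⟨fun h => hstep r r.2 s s.2 hr.2 h, fun h => hstep s s.2 r r.2 hr.1 h⟩
  have hcl : IsClopen T := by
    rw [hT]
    constructor
    · rw [← isOpen_compl_iff, isOpen_iff_mem_nhds]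
      intro s hs
      filter_upwards [hev s] with r hr h
      exact hs (hr.1 h)
    · rw [isOpen_iff_mem_nhds]
      intro s hs
      filter_upwards [hev s] with r hr
      exact hr.2 hs
  have : ConnectedSpace (Icc (0 : ℝ) 1) :=
    Subtype.connectedSpace (isConnected_Icc (zero_le_one' ℝ))
  have hu := hcl.eq_univ ⟨⟨0, ⟨le_rfl, zero_le_one⟩⟩, by
    rw [hT]
    exact ⟨AffineIsometryEquiv.refl ℝ E3, FIN_refl, fun p => rfl⟩⟩
  have h5 : (⟨t, ht⟩ : Icc (0 : ℝ) 1) ∈ T := hu ▸ mem_univ _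
  rw [hT] at h5
  exact h5

end Pool.SXB
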