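import Pool.Agent.Work.MP_02e829_sb.Interface

/-!
# Block GOD (helper79): a local maximum where the Killing field is not normal
-/

open Set Filter Manifold Matrix MeasureTheory Metric
open scoped Topology ContDiff Manifold

set_option autoImplicit false

namespace Pool.SXB

open Pool.FR (pd ee)

theorem GOD_alg1 (a b m y : V3) : a ⬝ᵥ y + b ⬝ᵥ (m ⨯₃ y) = (a + b ⨯₃ m) ⬝ᵥ y := by
  simp only [cross_apply, dotProduct, Fin.sum_univ_three, Pi.add_apply, Matrix.cons_val_zero,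
    Matrix.cons_val_one, Matrix.cons_val]
  ring

theorem GOD_alg2 (A c m0 m1 : V3) (k00 k01 k11 : ℝ) :
    (A ⬝ᵥ (k01 • m0 - k00 • m1)) * (c ⬝ᵥ (k11 • m0 - k01 • m1)) -
      (A ⬝ᵥ (k11 • m0 - k01 • m1)) * (c ⬝ᵥ (k01 • m0 - k00 • m1)) =
      (k00 * k11 - k01 ^ 2) * ((A ⨯₃ c) ⬝ᵥ (m0 ⨯₃ m1)) := by
  simp only [cross_apply, dotProduct, Fin.sum_univ_three, Pi.sub_apply, Pi.smul_apply, smul_eq_mul,
    Matrix.cons_val_zero, Matrix.cons_val_one, Matrix.cons_val]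
  ring

theorem GOD_alg3 (A n : V3) : (A ⨯₃ (n ⨯₃ A)) ⬝ᵥ n = (A ⨯₃ n) ⬝ᵥ (A ⨯₃ n) := by
  simp only [cross_apply, dotProduct, Fin.sum_univ_three,
    Matrix.cons_val_zero, Matrix.cons_val_one, Matrix.cons_val]
  ring

theorem GOD_alg4 (A m0 m1 : V3) (p q : ℝ) :
    A ⬝ᵥ (p • m0 - q • m1) = p * (A ⬝ᵥ m0) - q * (A ⬝ᵥ m1) := by
  rw [dotProduct_sub, dotProduct_smul, dotProduct_smul, smul_eq_mul, smul_eq_mul]

theorem GOD_sc (k00 k01 k11 α0 α1 γ0 γ1 : ℝ) :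
    (k01 * α0 - k00 * α1) ^ 2 + (k11 * α0 - k01 * α1) ^ 2 + (k01 * γ0 - k00 * γ1) ^ 2 +
      (k11 * γ0 - k01 * γ1) ^ 2 ≤
      2 * (k00 ^ 2 + k01 ^ 2 + k11 ^ 2) * (α0 ^ 2 + α1 ^ 2 + γ0 ^ 2 + γ1 ^ 2) := by
  have h1 : 0 ≤ (k00 ^ 2 + k11 ^ 2) * (α0 ^ 2 + α1 ^ 2 + γ0 ^ 2 + γ1 ^ 2) := by positivity
  nlinarith [sq_nonneg (k01 * α1 + k00 * α0), sq_nonneg (k11 * α1 + k01 * α0),
    sq_nonneg (k01 * γ1 + k00 * γ0), sq_nonneg (k11 * γ1 + k01 * γ0), h1]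

theorem GOD_pd_dot_const (i : Fin 2) (c : V3) {f : E2 → V3} {x : E2}
    (hf : DifferentiableAt ℝ f x) : pd i (fun z => c ⬝ᵥ f z) x = c ⬝ᵥ pd i f x := by
  rw [Pool.FR.pd_dot i (differentiableAt_const c) hf, Pool.FR.pd_const, zero_dotProduct, zero_add]

theorem blk_GOD (hYC1 : Stmt_YC1) (hDIF : Stmt_DIF) (hMIX : Stmt_MIX) (hBND : Stmt_BND)
    (hSMP : Stmt_SMP) : Stmt_GOD := by
  intro U F G hP a b x0 hx0 hpos hAn hmax
  obtain ⟨hy1, hw1, -⟩ := hYC1 U F G hP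
  have hU := hP.op
  -- smoothness
  have hmm : ContDiffOn ℝ 2 (mm F G) U := (hP.smF.add hP.smG).const_smul (1 / 2 : ℝ)
  have h11 : (1 : WithTop ℕ∞) + 1 ≤ 2 := le_of_eq one_add_one_eq_two
  have h01 : (0 : WithTop ℕ∞) + 1 ≤ 1 := le_of_eq (zero_add 1)
  have hm : ∀ i, ContDiffOn ℝ 1 (pd i (mm F G)) U := fun i => Pool.FR.pd_contDiffOn hU hmm h11 i
  have hm2 : ∀ i j, ContDiffOn ℝ 0 (pd i (pd j (mm F G))) U :=
    fun i j => Pool.FR.pd_contDiffOn hU (hm j) h01 i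
  have hm0 : ∀ i, ContDiffOn ℝ 0 (pd i (mm F G)) U := fun i => (hm i).of_le zero_le_one
  have hn0 : ContDiffOn ℝ 0 (nn F G) U := Pool.FR.contDiffOn_cross (hm0 0) (hm0 1)
  have hA0 : ContDiffOn ℝ 0 (AA F G a b) U :=
    contDiffOn_const.add (Pool.FR.contDiffOn_cross contDiffOn_const (hmm.of_le (by norm_num)))
  have hs0 : ∀ i j, ContinuousOn (ss F G i j) U :=
    fun i j => (Pool.FR.contDiffOn_dot (hm2 i j) hn0).continuousOn
  set c : V3 := nn F G x0 ⨯₃ AA F G a b x0 with hc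
  have hα : ∀ i, ContinuousOn (fun x => AA F G a b x ⬝ᵥ pd i (mm F G) x) U :=
    fun i => (Pool.FR.contDiffOn_dot hA0 (hm0 i)).continuousOn
  have hγ : ∀ i, ContinuousOn (fun x => c ⬝ᵥ pd i (mm F G) x) U :=
    fun i => (Pool.FR.contDiffOn_dot contDiffOn_const (hm0 i)).continuousOn
  have hτ : ContinuousOn (fun x => (AA F G a b x ⨯₃ c) ⬝ᵥ nn F G x) U :=
    (Pool.FR.contDiffOn_dot (Pool.FR.contDiffOn_cross hA0 contDiffOn_const) hn0).continuousOn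
  -- the functions
  obtain ⟨τ, hτdef⟩ : ∃ τ : E2 → ℝ, τ = fun x => (AA F G a b x ⨯₃ c) ⬝ᵥ nn F G x := ⟨_, rfl⟩
  obtain ⟨σ, hσdef⟩ : ∃ σ : E2 → ℝ, σ = fun x => ss F G 0 0 x * ss F G 1 1 x - ss F G 0 1 x ^ 2 :=
    ⟨_, rfl⟩
  obtain ⟨B, hBdef⟩ : ∃ B : E2 → ℝ, B = fun x => 2 * ((AA F G a b x ⬝ᵥ pd 0 (mm F G) x) ^ 2 +
    (AA F G a b x ⬝ᵥ pd 1 (mm F G) x) ^ 2 + (c ⬝ᵥ pd 0 (mm F G) x) ^ 2 +
    (c ⬝ᵥ pd 1 (mm F G) x) ^ 2) := ⟨_, rfl⟩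
  obtain ⟨Q, hQdef⟩ : ∃ Q : E2 → ℝ, Q = fun x => 2 * ss F G 0 0 x ^ 2 + 2 * ss F G 1 1 x ^ 2 +
    ss F G 0 0 x * ss F G 1 1 x := ⟨_, rfl⟩
  have cτ : ContinuousOn τ U := by rw [hτdef]; exact hτ
  have cσ : ContinuousOn σ U := by
    rw [hσdef]
    exact ((hs0 0 0).mul (hs0 1 1)).sub ((hs0 0 1).pow 2)
  have cB : ContinuousOn B U := by
    rw [hBdef]
    exact continuousOn_const.mul (((((hα 0).pow 2).add ((hα 1).pow 2)).add ((hγ 0).pow 2)).add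
      ((hγ 1).pow 2))
  have cQ : ContinuousOn Q U := by
    rw [hQdef]
    exact ((continuousOn_const.mul ((hs0 0 0).pow 2)).add
      (continuousOn_const.mul ((hs0 1 1).pow 2))).add ((hs0 0 0).mul (hs0 1 1))
  have hτ0 : 0 < τ x0 := by
    rw [hτdef]
    show 0 < (AA F G a b x0 ⨯₃ c) ⬝ᵥ nn F G x0
    rw [hc, GOD_alg3]
    have h1 : (AA F G a b x0 ⨯₃ nn F G x0) ⬝ᵥ (AA F G a b x0 ⨯₃ nn F G x0) ≠ 0 := by
      intro h
      exact hAn (dotProduct_self_eq_zero.1 h)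
    refine lt_of_le_of_ne ?_ h1.symm
    rw [dotProduct]
    exact Finset.sum_nonneg fun i _ => mul_self_nonneg _
  have hσ0 : 0 < σ x0 := by
    rw [hσdef]
    exact hpos
  obtain ⟨κ, hκ⟩ : ∃ κ : ℝ, B x0 * Q x0 < κ * (σ x0 * τ x0) ∧ 0 < κ := by
    have h1 : 0 < σ x0 * τ x0 := mul_pos hσ0 hτ0
    refine ⟨(|B x0 * Q x0| + 1) / (σ x0 * τ x0), ?_, by positivity⟩
    rw [div_mul_cancel₀ _ h1.ne']
    linarith [le_abs_self (B x0 * Q x0)]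
  have hUx : U ∈ 𝓝 x0 := hU.mem_nhds hx0
  have e1 : ∀ᶠ x in 𝓝 x0, 0 < τ x := (cτ.continuousAt hUx).eventually (lt_mem_nhds hτ0)
  have e2 : ∀ᶠ x in 𝓝 x0, 0 < σ x := (cσ.continuousAt hUx).eventually (lt_mem_nhds hσ0)
  have e3 : ∀ᶠ x in 𝓝 x0, 0 < κ * (σ x * τ x) - B x * Q x := by
    have hcont : ContinuousAt (fun x => κ * (σ x * τ x) - B x * Q x) x0 :=
      (continuousAt_const.mul ((cσ.continuousAt hUx).mul (cτ.continuousAt hUx))).sub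
        ((cB.continuousAt hUx).mul (cQ.continuousAt hUx))
    exact hcont.eventually (lt_mem_nhds (by linarith [hκ.1]))
  have e4 : ∀ᶠ x in 𝓝 x0, x ∈ U := hUx
  obtain ⟨O, hOsub, hOop, hxO⟩ := _root_.mem_nhds_iff.1 (e1.and (e2.and (e3.and (e4.and hmax))))
  -- the derivatives
  have hpu : ∀ x ∈ U, ∀ i, pd i (ll F G a b) x = AA F G a b x ⬝ᵥ pd i (yy F G) x := by
    intro x hx i
    have dy : DifferentiableAt ℝ (yy F G) x := Pool.FR.diff_at hU hy1 le_rfl hx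
    have dw : DifferentiableAt ℝ (ww F G) x := Pool.FR.diff_at hU hw1 le_rfl hx
    have h1 : pd i (ll F G a b) x = pd i (fun z => a ⬝ᵥ yy F G z) x +
        pd i (fun z => b ⬝ᵥ ww F G z) x := by
      refine Pool.FR.pd_add i ?_ ?_
      · exact Pool.FR.diff_at hU (Pool.FR.contDiffOn_dot contDiffOn_const hy1) le_rfl hx
      · exact Pool.FR.diff_at hU (Pool.FR.contDiffOn_dot contDiffOn_const hw1) le_rfl hx
    rw [h1, GOD_pd_dot_const i a dy, GOD_pd_dot_const i b dw, (hDIF U F G hP x hx).2.2.2 i,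
      GOD_alg1]
    rfl
  have hpW : ∀ x ∈ U, ∀ i, pd i (fun z => -(c ⬝ᵥ yy F G z)) x = -(c ⬝ᵥ pd i (yy F G) x) := by
    intro x hx i
    have dy : DifferentiableAt ℝ (yy F G) x := Pool.FR.diff_at hU hy1 le_rfl hx
    rw [Pool.FR.pd_neg, GOD_pd_dot_const i c dy]
  have key : ∀ x ∈ U, 0 < σ x →
      ((kk F G 0 0 x) ^ 2 + (kk F G 0 1 x) ^ 2 + (kk F G 1 1 x) ^ 2) * σ x ≤
        Q x * ((kk F G 0 1 x) ^ 2 - kk F G 0 0 x * kk F G 1 1 x) ∧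
      pd 0 (ll F G a b) x * pd 1 (fun z => -(c ⬝ᵥ yy F G z)) x -
        pd 1 (ll F G a b) x * pd 0 (fun z => -(c ⬝ᵥ yy F G z)) x =
        ((kk F G 0 1 x) ^ 2 - kk F G 0 0 x * kk F G 1 1 x) * τ x ∧
      pd 0 (ll F G a b) x ^ 2 + pd 1 (ll F G a b) x ^ 2 +
        pd 0 (fun z => -(c ⬝ᵥ yy F G z)) x ^ 2 + pd 1 (fun z => -(c ⬝ᵥ yy F G z)) x ^ 2 ≤
        ((kk F G 0 0 x) ^ 2 + (kk F G 0 1 x) ^ 2 + (kk F G 1 1 x) ^ 2) * B x := by
    intro x hx hσx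
    obtain ⟨d0, d1, -, -⟩ := hDIF U F G hP x hx
    obtain ⟨-, hmix⟩ := hMIX U F G hP x hx
    refine ⟨?_, ?_, ?_⟩
    · have hσx' : 0 < ss F G 0 0 x * ss F G 1 1 x - ss F G 0 1 x ^ 2 := by
        rw [hσdef] at hσx
        exact hσx
      have h1 := hBND (ss F G 0 0 x) (ss F G 0 1 x) (ss F G 1 1 x) (kk F G 0 0 x) (kk F G 0 1 x)
        (kk F G 1 1 x) hσx' hmix
      rw [hσdef, hQdef]
      exact h1
    · rw [hpu x hx 0, hpu x hx 1, hpW x hx 0, hpW x hx 1, d0, d1, hτdef]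
      have h1 := GOD_alg2 (AA F G a b x) c (pd 0 (mm F G) x) (pd 1 (mm F G) x) (kk F G 0 0 x)
        (kk F G 0 1 x) (kk F G 1 1 x)
      have h2 : nn F G x = pd 0 (mm F G) x ⨯₃ pd 1 (mm F G) x := rfl
      show _ = _ * ((AA F G a b x ⨯₃ c) ⬝ᵥ nn F G x)
      rw [h2]
      linear_combination (-1) * h1
    · rw [hpu x hx 0, hpu x hx 1, hpW x hx 0, hpW x hx 1, d0, d1, hBdef]
      have h1 := GOD_sc (kk F G 0 0 x) (kk F G 0 1 x) (kk F G 1 1 x)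
        (AA F G a b x ⬝ᵥ pd 0 (mm F G) x) (AA F G a b x ⬝ᵥ pd 1 (mm F G) x)
        (c ⬝ᵥ pd 0 (mm F G) x) (c ⬝ᵥ pd 1 (mm F G) x)
      rw [GOD_alg4, GOD_alg4, GOD_alg4, GOD_alg4, neg_sq, neg_sq]
      refine h1.trans (le_of_eq ?_)
      ring
  have hQpos : ∀ x, 0 < σ x → 0 < Q x := by
    intro x hx
    rw [hσdef] at hx
    rw [hQdef]
    have h1 : 0 < ss F G 0 0 x * ss F G 1 1 x - ss F G 0 1 x ^ 2 := hx
    show 0 < 2 * ss F G 0 0 x ^ 2 + 2 * ss F G 1 1 x ^ 2 + ss F G 0 0 x * ss F G 1 1 x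
    nlinarith [sq_nonneg (ss F G 0 0 x), sq_nonneg (ss F G 1 1 x), sq_nonneg (ss F G 0 1 x)]
  have hD : ∀ x ∈ U, 0 < σ x → 0 ≤ (kk F G 0 1 x) ^ 2 - kk F G 0 0 x * kk F G 1 1 x := by
    intro x hx hσx
    have h1 := (key x hx hσx).1
    have h2 : 0 ≤ Q x * ((kk F G 0 1 x) ^ 2 - kk F G 0 0 x * kk F G 1 1 x) :=
      le_trans (mul_nonneg (by positivity) hσx.le) h1
    exact nonneg_of_mul_nonneg_right h2 (hQpos x hσx)
  have hB0 : ∀ x, 0 ≤ B x := by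
    intro x
    rw [hBdef]
    positivity
  have hQR : QR O (ll F G a b) (fun z => -(c ⬝ᵥ yy F G z)) κ x0 := by
    have hOU : O ⊆ U := fun x hx => (hOsub hx).2.2.2.1
    refine ⟨hOop, ?_, ?_, hκ.2, hxO, ?_, fun x hx => (hOsub hx).2.2.2.2⟩
    · exact ((Pool.FR.contDiffOn_dot contDiffOn_const hy1).add
        (Pool.FR.contDiffOn_dot contDiffOn_const hw1)).mono hOU
    · exact (Pool.FR.contDiffOn_dot contDiffOn_const hy1).neg.mono hOU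
    · intro x hx
      obtain ⟨f1, f2, f3, f4, -⟩ := hOsub hx
      obtain ⟨g1, g2, g3⟩ := key x f4 f2
      have g4 := hD x f4 f2
      rw [g2]
      refine g3.trans ?_
      set K : ℝ := (kk F G 0 0 x) ^ 2 + (kk F G 0 1 x) ^ 2 + (kk F G 1 1 x) ^ 2 with hK
      set D : ℝ := (kk F G 0 1 x) ^ 2 - kk F G 0 0 x * kk F G 1 1 x with hDdef
      have g5 : (K * σ x) * B x ≤ (Q x * D) * B x := mul_le_mul_of_nonneg_right g1 (hB0 x)
      have g6 : (B x * Q x) * D ≤ (κ * (σ x * τ x)) * D :=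
        mul_le_mul_of_nonneg_right (by linarith) g4
      have g7 : K * B x * σ x ≤ κ * (D * τ x) * σ x := by nlinarith
      exact le_of_mul_le_mul_right g7 f2
  have hconst := hSMP O (ll F G a b) (fun z => -(c ⬝ᵥ yy F G z)) κ x0 hQR
  have h5 : ∀ᶠ x in 𝓝 x0, ∀ᶠ z in 𝓝 x, ll F G a b z = ll F G a b x0 :=
    eventually_eventually_nhds.2 hconst
  show ∀ᶠ z in 𝓝 x0, ∀ i, pd i (yy F G) z = 0
  filter_upwards [h5, e1, e2, e4] with x k1 k2 k3 k4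
  have hpd0 : ∀ i, pd i (ll F G a b) x = 0 := by
    intro i
    have h6 : ll F G a b =ᶠ[𝓝 x] fun _ => ll F G a b x0 := k1
    rw [pd, h6.fderiv_eq]
    simp
  obtain ⟨g1, g2, -⟩ := key x k4 k3
  rw [hpd0 0, hpd0 1, zero_mul, zero_mul, sub_zero] at g2
  have g3 : (kk F G 0 1 x) ^ 2 - kk F G 0 0 x * kk F G 1 1 x = 0 := by
    rcases mul_eq_zero.1 g2.symm with h | h
    · exact h
    · exact absurd h k2.ne'
  rw [g3, mul_zero] at g1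
  have g4 : (kk F G 0 0 x) ^ 2 + (kk F G 0 1 x) ^ 2 + (kk F G 1 1 x) ^ 2 ≤ 0 := by
    by_contra hcon
    push Not at hcon
    have := mul_pos hcon k3
    linarith
  have g00 : kk F G 0 0 x = 0 := by
    have : (kk F G 0 0 x) ^ 2 ≤ 0 := by
      linarith [sq_nonneg (kk F G 0 1 x), sq_nonneg (kk F G 1 1 x)]
    exact pow_eq_zero_iff (two_ne_zero) |>.1 (le_antisymm this (sq_nonneg _))
  have g01 : kk F G 0 1 x = 0 := by
    have : (kk F G 0 1 x) ^ 2 ≤ 0 := by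
      linarith [sq_nonneg (kk F G 0 0 x), sq_nonneg (kk F G 1 1 x)]
    exact pow_eq_zero_iff (two_ne_zero) |>.1 (le_antisymm this (sq_nonneg _))
  have g11 : kk F G 1 1 x = 0 := by
    have : (kk F G 1 1 x) ^ 2 ≤ 0 := by
      linarith [sq_nonneg (kk F G 0 1 x), sq_nonneg (kk F G 0 0 x)]
    exact pow_eq_zero_iff (two_ne_zero) |>.1 (le_antisymm this (sq_nonneg _))
  obtain ⟨d0, d1, -, -⟩ := hDIF U F G hP x k4
  intro i
  fin_cases i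
  · show pd 0 (yy F G) x = 0
    rw [d0, g00, g01, zero_smul, zero_smul, sub_zero]
  · show pd 1 (yy F G) x = 0
    rw [d1, g11, g01, zero_smul, zero_smul, sub_zero]

end Pool.SXB
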