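import Pool.Agent.Work.MP_02e829_sb.Interface

/-! # Six rigid pieces, block LPR: local maxima of generic functionals -/

open Set Filter Manifold Matrix MeasureTheory Metric
open scoped Topology ContDiff Manifold

set_option autoImplicit false

universe w

namespace Pool.SXB

theorem LPR_par (A n : V3) (h : A ⨯₃ n = 0) : (n ⬝ᵥ n) • A = (A ⬝ᵥ n) • n := by
  have h0 : A 1 * n 2 - A 2 * n 1 = 0 := by simpa [cross_apply] using congrFun h 0
  have h1 : A 2 * n 0 - A 0 * n 2 = 0 := by simpa [cross_apply] using congrFun h 1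
  have h2 : A 0 * n 1 - A 1 * n 0 = 0 := by simpa [cross_apply] using congrFun h 2
  ext i
  simp only [Pi.smul_apply, smul_eq_mul, Matrix.vec3_dotProduct]
  fin_cases i
  · simp only [Fin.zero_eta, Fin.isValue]
    linear_combination n 1 * h2 - n 2 * h1
  · simp only [Fin.mk_one, Fin.isValue]
    linear_combination n 2 * h0 - n 0 * h2
  · simp only [Fin.reduceFinMk, Fin.isValue]
    linear_combination n 0 * h1 - n 1 * h0

theorem LPR_dot (b m : V3) : (b ⨯₃ m) ⬝ᵥ b = 0 := by
  simp only [cross_apply, Matrix.vec3_dotProduct]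
  simp
  ring

theorem blk_LPR (hGOD : Stmt_GOD) (hBAD : Stmt_BAD) : Stmt_LPR := by
  intro U F G hP a b hab x0 hx0 hpos hmax
  by_cases h : AA F G a b x0 ⨯₃ nn F G x0 = 0
  · have hn : nn F G x0 ⬝ᵥ nn F G x0 ≠ 0 := by
      intro h0
      exact hP.imm x0 hx0 (dotProduct_self_eq_zero.1 h0)
    have hpar := LPR_par _ _ h
    have hA : AA F G a b x0 =
        ((nn F G x0 ⬝ᵥ nn F G x0)⁻¹ * (AA F G a b x0 ⬝ᵥ nn F G x0)) • nn F G x0 := by
      rw [mul_smul, ← hpar, smul_smul, inv_mul_cancel₀ hn, one_smul]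
    refine hBAD U F G hP a b x0 hx0 hpos _ ?_ hA hmax
    intro hL
    rw [hL, zero_smul] at hA
    unfold AA at hA
    apply hab
    have h1 : a = -(b ⨯₃ mm F G x0) := eq_neg_of_add_eq_zero_left hA
    rw [h1, neg_dotProduct, LPR_dot, neg_zero]
  · exact hGOD U F G hP a b x0 hx0 hpos h hmax

end Pool.SXB
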