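import Pool.Agent.Work.MP_02e829_sb.Interface7
import Pool.Agent.Work.MP_02e829_sb.B_SAD

/-! # Block SAD7: local maximum of a functional with the Klein form, the field is normal -/

open Set Filter Manifold Matrix MeasureTheory Metric
open scoped Topology ContDiff Manifold

set_option autoImplicit false

universe w

namespace Pool.SXB

open Pool.FR (pd ee)

theorem SAD7_alg (a b m y v z : V3) (c : ℝ) :
    a ⬝ᵥ y + b ⬝ᵥ (m ⨯₃ y) + c * (y ⬝ᵥ (v - z ⨯₃ m) + z ⬝ᵥ (m ⨯₃ y)) =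
      (a + b ⨯₃ m + c • v) ⬝ᵥ y := by
  simp only [cross_apply, dotProduct, Fin.sum_univ_three, Pi.add_apply, Pi.sub_apply,
    Pi.smul_apply, smul_eq_mul, Matrix.cons_val_zero, Matrix.cons_val_one, Matrix.cons_val]
  ring

theorem blk_SAD7 (hY : Stmt_YC1) (hD : Stmt_DIF) (hM : Stmt_MIX) : Stmt_SAD7 := by
  intro U F G hU a b c x0 hx0 hpos L hL hA hmax
  obtain ⟨hy, hw, hv⟩ := hY U F G hU
  have hdif := hD U F G hU
  obtain ⟨hs10, hmix⟩ := hM U F G hU x0 hx0
  have hop := hU.op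
  -- smoothness
  have hm : ContDiffOn ℝ 2 (mm F G) U := by
    change ContDiffOn ℝ 2 (fun x => (1 / 2 : ℝ) • (F x + G x)) U
    exact ContDiffOn.const_smul _ (hU.smF.add hU.smG)
  have hm1 : ∀ i, ContDiffOn ℝ 1 (pd i (mm F G)) U := fun i =>
    Pool.FR.pd_contDiffOn hop hm (by norm_num) i
  have hmC1 : ContDiffOn ℝ 1 (mm F G) U := hm.of_le (by norm_num)
  have hvv : ContDiffOn ℝ 1 (vv F G) U := by
    have h1 : ContDiffOn ℝ 2 (vv F G) U := (hU.smG.sub hU.smF).const_smul (1 / 2 : ℝ)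
    exact h1.of_le (by norm_num)
  have hn : ContDiffOn ℝ 1 (nn F G) U := Pool.FR.contDiffOn_cross (hm1 0) (hm1 1)
  have hyp : ∀ i, ContDiffOn ℝ 0 (pd i (yy F G)) U := fun i =>
    Pool.FR.pd_contDiffOn hop hy (by norm_num) i
  have hAA : ContDiffOn ℝ 1 (AC F G a b c) U :=
    (contDiffOn_const.add (Pool.FR.contDiffOn_cross contDiffOn_const hmC1)).add
      (hvv.const_smul c)
  have hal : ∀ i, ContDiffOn ℝ 1 (fun x => AC F G a b c x ⬝ᵥ pd i (mm F G) x) U := fun i =>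
    Pool.FR.contDiffOn_dot hAA (hm1 i)
  have hkc : ∀ i j, ContDiffOn ℝ 0 (kk F G i j) U := by
    intro i j
    have h1 : ContDiffOn ℝ 0 (fun x => (pd i (yy F G) x ⨯₃ pd j (mm F G) x) ⬝ᵥ nn F G x) U :=
      Pool.FR.contDiffOn_dot (Pool.FR.contDiffOn_cross (hyp i) ((hm1 j).of_le (by norm_num)))
        (hn.of_le (by norm_num))
    have h2 : ContDiffOn ℝ 0 (fun x => nn F G x ⬝ᵥ nn F G x) U :=
      Pool.FR.contDiffOn_dot (hn.of_le (by norm_num)) (hn.of_le (by norm_num))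
    refine h1.div h2 ?_
    intro x hx h0
    exact hU.imm x hx (dotProduct_self_eq_zero.1 h0)
  have hkcont : ∀ i j, ContinuousAt (kk F G i j) x0 := fun i j =>
    (hkc i j).continuousOn.continuousAt (hop.mem_nhds hx0)
  -- the derivative of ll
  have hll : ∀ x ∈ U, DifferentiableAt ℝ (lc F G a b c) x ∧ ∀ i, pd i (lc F G a b c) x =
      AC F G a b c x ⬝ᵥ pd i (yy F G) x := by
    intro x hx
    have hyd := Pool.FR.diff_at hop hy le_rfl hx
    have hwd := Pool.FR.diff_at hop hw le_rfl hx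
    have hl1 : ContDiffOn ℝ 1 (fun x => a ⬝ᵥ yy F G x) U :=
      Pool.FR.contDiffOn_dot contDiffOn_const hy
    have hl2 : ContDiffOn ℝ 1 (fun x => b ⬝ᵥ ww F G x) U :=
      Pool.FR.contDiffOn_dot contDiffOn_const hw
    have hl3 : ContDiffOn ℝ 1 (fun x => yy F G x ⬝ᵥ ww F G x) U :=
      Pool.FR.contDiffOn_dot hy hw
    have hl4 : ContDiffOn ℝ 1 (fun x => c * (yy F G x ⬝ᵥ ww F G x)) U :=
      contDiffOn_const.mul hl3
    have hd1 := Pool.FR.diff_at hop hl1 le_rfl hx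
    have hd2 := Pool.FR.diff_at hop hl2 le_rfl hx
    have hd12 := Pool.FR.diff_at hop (hl1.add hl2) le_rfl hx
    have hd3 := Pool.FR.diff_at hop hl3 le_rfl hx
    have hd4 := Pool.FR.diff_at hop hl4 le_rfl hx
    refine ⟨hd12.add hd4, fun i => ?_⟩
    have h1 : pd i (lc F G a b c) x = pd i (fun y => a ⬝ᵥ yy F G y) x +
        pd i (fun y => b ⬝ᵥ ww F G y) x + pd i (fun y => c * (yy F G y ⬝ᵥ ww F G y)) x := by
      rw [← Pool.FR.pd_add i hd1 hd2]
      exact Pool.FR.pd_add i hd12 hd4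
    rw [h1, Pool.FR.pd_dot i (differentiableAt_const a) hyd,
      Pool.FR.pd_dot i (differentiableAt_const b) hwd,
      Pool.FR.pd_mul i (differentiableAt_const c) hd3, Pool.FR.pd_const, Pool.FR.pd_const,
      Pool.FR.pd_const, zero_dotProduct, zero_dotProduct, zero_add, zero_add, zero_mul, zero_add,
      Pool.FR.pd_dot i hyd hwd, (hdif x hx).2.2.2 i]
    exact SAD7_alg a b (mm F G x) (pd i (yy F G) x) (vv F G x) (yy F G x) c
  have hll0 : ∀ x ∈ U, pd 0 (lc F G a b c) x =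
      kk F G 0 1 x * (AC F G a b c x ⬝ᵥ pd 0 (mm F G) x) -
      kk F G 0 0 x * (AC F G a b c x ⬝ᵥ pd 1 (mm F G) x) := by
    intro x hx
    rw [(hll x hx).2 0, (hdif x hx).1, dotProduct_sub, dotProduct_smul, dotProduct_smul,
      smul_eq_mul, smul_eq_mul]
  have hll1 : ∀ x ∈ U, pd 1 (lc F G a b c) x =
      kk F G 1 1 x * (AC F G a b c x ⬝ᵥ pd 0 (mm F G) x) -
      kk F G 0 1 x * (AC F G a b c x ⬝ᵥ pd 1 (mm F G) x) := by
    intro x hx
    rw [(hll x hx).2 1, (hdif x hx).2.1, dotProduct_sub, dotProduct_smul, dotProduct_smul,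
      smul_eq_mul, smul_eq_mul]
  -- the derivative of the alphas
  set β : V3 := b + c • yy F G x0 with hβ
  have hald : ∀ i j, pd j (fun x => AC F G a b c x ⬝ᵥ pd i (mm F G) x) x0 =
      (β ⨯₃ pd j (mm F G) x0) ⬝ᵥ pd i (mm F G) x0 + L * ss F G j i x0 := by
    intro i j
    have hAd := Pool.FR.diff_at hop hAA le_rfl hx0
    have hmd := Pool.FR.diff_at hop (hm1 i) le_rfl hx0
    have hmd0 := Pool.FR.diff_at hop hmC1 le_rfl hx0
    rw [Pool.FR.pd_dot j hAd hmd, hA, smul_dotProduct, smul_eq_mul]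
    congr 1
    · have h1 : ContDiffOn ℝ 1 (fun x => b ⨯₃ mm F G x) U :=
        Pool.FR.contDiffOn_cross contDiffOn_const hmC1
      have h3 : ContDiffOn ℝ 1 (fun x => a + b ⨯₃ mm F G x) U := contDiffOn_const.add h1
      have hvd := Pool.FR.diff_at hop hvv le_rfl hx0
      have h2 : pd j (AC F G a b c) x0 = pd j (fun _ => a) x0 + pd j (fun x => b ⨯₃ mm F G x) x0 +
          c • pd j (vv F G) x0 := by
        have h5 : pd j (fun x => c • vv F G x) x0 = c • pd j (vv F G) x0 := by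
          rw [Pool.FR.pd_smul j (differentiableAt_const c) hvd, Pool.FR.pd_const]
          simp
        rw [← Pool.FR.pd_add j (differentiableAt_const a) (Pool.FR.diff_at hop h1 le_rfl hx0),
          ← h5]
        exact Pool.FR.pd_add j (Pool.FR.diff_at hop h3 le_rfl hx0)
          (Pool.FR.diff_at hop (hvv.const_smul c) le_rfl hx0)
      have h4 : pd j (AC F G a b c) x0 = β ⨯₃ pd j (mm F G) x0 := by
        rw [h2, Pool.FR.pd_const, zero_add, Pool.FR.pd_cross j (differentiableAt_const b) hmd0,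
          Pool.FR.pd_const, hv x0 hx0 j, hβ]
        simp
      rw [h4]
    · rw [ss, dotProduct_comm]
  have hal0 : ∀ i, AC F G a b c x0 ⬝ᵥ pd i (mm F G) x0 = 0 := by
    intro i
    rw [hA, smul_dotProduct, nn]
    fin_cases i
    · simp [cross_dot_cross, cross_apply, dotProduct, Fin.sum_univ_three]
      right
      ring
    · simp [cross_dot_cross, cross_apply, dotProduct, Fin.sum_univ_three]
      right
      ring
  set B := β ⬝ᵥ nn F G x0 with hB
  have hB0 : (β ⨯₃ pd 0 (mm F G) x0) ⬝ᵥ pd 0 (mm F G) x0 = 0 := by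
    simp only [cross_apply, dotProduct, Fin.sum_univ_three, Matrix.cons_val_zero,
      Matrix.cons_val_one, Matrix.cons_val]
    ring
  have hB1 : (β ⨯₃ pd 1 (mm F G) x0) ⬝ᵥ pd 1 (mm F G) x0 = 0 := by
    simp only [cross_apply, dotProduct, Fin.sum_univ_three, Matrix.cons_val_zero,
      Matrix.cons_val_one, Matrix.cons_val]
    ring
  have hB01 : (β ⨯₃ pd 0 (mm F G) x0) ⬝ᵥ pd 1 (mm F G) x0 = B := by
    rw [hB, nn]
    simp only [cross_apply, dotProduct, Fin.sum_univ_three, Matrix.cons_val_zero,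
      Matrix.cons_val_one, Matrix.cons_val]
    ring
  have hB10 : (β ⨯₃ pd 1 (mm F G) x0) ⬝ᵥ pd 0 (mm F G) x0 = -B := by
    rw [hB, nn]
    simp only [cross_apply, dotProduct, Fin.sum_univ_three, Matrix.cons_val_zero,
      Matrix.cons_val_one, Matrix.cons_val]
    ring
  have hQ : ∀ p d : ℝ, (p * kk F G 0 1 x0 + d * kk F G 1 1 x0) *
      (p * (L * ss F G 0 0 x0) + d * (L * ss F G 0 1 x0 - B)) -
      (p * kk F G 0 0 x0 + d * kk F G 0 1 x0) *
      (p * (L * ss F G 0 1 x0 + B) + d * (L * ss F G 1 1 x0)) ≤ 0 := by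
    intro p d
    set ξ : E2 := p • ee 0 + d • ee 1 with hξ
    have hξ0 : ξ 0 = p := by simp [hξ, ee]
    have hξ1 : ξ 1 = d := by simp [hξ, ee]
    have hcont : ContinuousAt (fun t : ℝ => x0 + t • ξ) 0 := by fun_prop
    have hz : x0 + (0 : ℝ) • ξ = x0 := by simp
    have hnhds : Tendsto (fun t : ℝ => x0 + t • ξ) (𝓝 0) (𝓝 x0) := by
      have := hcont.tendsto
      rwa [hz] at this
    have hevU : ∀ᶠ t in 𝓝 (0 : ℝ), x0 + t • ξ ∈ U := hnhds.eventually (hop.mem_nhds hx0)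
    have hcomp : ∀ f : E2 → ℝ, ContinuousAt f x0 → ContinuousAt (fun t : ℝ => f (x0 + t • ξ)) 0 := by
      intro f hf
      have h1 : ContinuousAt f (x0 + (0 : ℝ) • ξ) := by rwa [hz]
      exact ContinuousAt.comp (f := fun t : ℝ => x0 + t • ξ) (g := f) h1 hcont
    have hAder : ∀ i, HasDerivAt (fun t : ℝ => AC F G a b c (x0 + t • ξ) ⬝ᵥ
        pd i (mm F G) (x0 + t • ξ))
        (p * ((β ⨯₃ pd 0 (mm F G) x0) ⬝ᵥ pd i (mm F G) x0 + L * ss F G 0 i x0) +
          d * ((β ⨯₃ pd 1 (mm F G) x0) ⬝ᵥ pd i (mm F G) x0 + L * ss F G 1 i x0)) 0 := by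
      intro i
      have hd : DifferentiableAt ℝ (fun x => AC F G a b c x ⬝ᵥ pd i (mm F G) x)
          (x0 + (0 : ℝ) • ξ) := by
        rw [hz]
        exact Pool.FR.diff_at hop (hal i) le_rfl hx0
      have h1 := SAD_lineDeriv (fun x => AC F G a b c x ⬝ᵥ pd i (mm F G) x) x0 ξ 0 hd
      rw [hz, hald i 0, hald i 1, hξ0, hξ1] at h1
      exact h1
    have key := SAD_line (fun t : ℝ => lc F G a b c (x0 + t • ξ))
      (fun t : ℝ => p * kk F G 0 1 (x0 + t • ξ) + d * kk F G 1 1 (x0 + t • ξ))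
      (fun t : ℝ => p * kk F G 0 0 (x0 + t • ξ) + d * kk F G 0 1 (x0 + t • ξ))
      (fun t : ℝ => AC F G a b c (x0 + t • ξ) ⬝ᵥ pd 0 (mm F G) (x0 + t • ξ))
      (fun t : ℝ => AC F G a b c (x0 + t • ξ) ⬝ᵥ pd 1 (mm F G) (x0 + t • ξ)) _ _ ?_ ?_ ?_
      (hAder 0) (hAder 1) ?_ ?_ ?_
    · simp only [hz] at key
      rw [hB0, hB1, hB01, hB10, hs10] at key
      refine le_trans (le_of_eq ?_) key
      ring
    · filter_upwards [hevU] with t ht
      have h1 := SAD_lineDeriv (lc F G a b c) x0 ξ t (hll _ ht).1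
      rw [hll0 _ ht, hll1 _ ht, hξ0, hξ1, smul_eq_mul, smul_eq_mul] at h1
      refine h1.congr_deriv ?_
      ring
    · exact ((hcomp _ (hkcont 0 1)).const_mul p).add ((hcomp _ (hkcont 1 1)).const_mul d)
    · exact ((hcomp _ (hkcont 0 0)).const_mul p).add ((hcomp _ (hkcont 0 1)).const_mul d)
    · simp only [hz]
      exact hal0 0
    · simp only [hz]
      exact hal0 1
    · have := hnhds.eventually hmax
      simp only [hz]
      exact this
  obtain ⟨k0, k1, k2⟩ := SAD_alg _ _ _ _ _ _ B L hL hpos hmix hQ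
  intro i
  fin_cases i
  · change pd 0 (yy F G) x0 = 0
    rw [(hdif x0 hx0).1, k0, k1, zero_smul, zero_smul, sub_zero]
  · change pd 1 (yy F G) x0 = 0
    rw [(hdif x0 hx0).2.1, k1, k2, zero_smul, zero_smul, sub_zero]

end Pool.SXB
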