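import Pool.Agent.Work.MP_02e829_fr.Base
import Pool.Agent.Work.MP_02e829_rl.Glob

/-!
# Closed surfaces moving as at most six rigid bodies where `K ≤ 0`: interface

Paper proof: note 3111 of the problem.  Local part: maps `F G : E2 → V3` on an open set `U` of the
plane, `pd i` are the partial derivatives (`Pool.FR.Base`).  `F`, `G` are isometric, `mm` is the
mean surface, `vv` half the difference, `yy` the Rodrigues vector (`∂ᵢ vv = yy × ∂ᵢ mm`), `ww` the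
translation part, `kk`, `ss` two symmetric forms.
-/

open Set Filter Manifold Matrix MeasureTheory Metric
open scoped Topology ContDiff Manifold

set_option autoImplicit false

universe w

namespace Pool.SXB

open Pool.FR (pd ee)

abbrev E2 := Pool.FR.E2
abbrev V3 := Pool.FR.V3
abbrev E3 := EuclideanSpace ℝ (Fin 3)

/-! ### Analysis in the plane -/

/-- W0 (110 lines): `∫ dψ ∧ dW = 0`. -/
def Stmt_W0 : Prop :=
  ∀ (O : Set E2) (ψ W : E2 → ℝ), IsOpen O → ContDiff ℝ 1 ψ → HasCompactSupport ψ →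
    tsupport ψ ⊆ O → ContDiffOn ℝ 1 W O →
    ∫ x, (pd 0 ψ x * pd 1 W x - pd 1 ψ x * pd 0 W x) = 0

/-- a pair of functions with bounded distortion, the first one maximal at `q` -/
structure QR (O : Set E2) (u W : E2 → ℝ) (κ : ℝ) (q : E2) : Prop where
  op : IsOpen O
  cu : ContDiffOn ℝ 1 u O
  cW : ContDiffOn ℝ 1 W O
  pos : 0 < κ
  mem : q ∈ O
  dist : ∀ x ∈ O, pd 0 u x ^ 2 + pd 1 u x ^ 2 + pd 0 W x ^ 2 + pd 1 W x ^ 2 ≤
    κ * (pd 0 u x * pd 1 W x - pd 1 u x * pd 0 W x)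
  max : ∀ x ∈ O, u x ≤ u q

/-- WMP (120 lines): every small circle contains a point where `u` is maximal. -/
def Stmt_WMP : Prop :=
  ∀ (O : Set E2) (u W : E2 → ℝ) (κ : ℝ) (q : E2), QR O u W κ q → ∀ R : ℝ, 0 < R →
    closedBall q R ⊆ O → ∃ x ∈ sphere q R, u x = u q

/-- ENE (100 lines): the energy of the logarithm. -/
def Stmt_ENE : Prop :=
  ∀ (O : Set E2) (u W : E2 → ℝ) (κ : ℝ) (q : E2), QR O u W κ q → ∀ ψ : E2 → ℝ,
    ContDiff ℝ 1 ψ → HasCompactSupport ψ → tsupport ψ ⊆ O → ∀ ε : ℝ, 0 < ε →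
    ∫ x, ψ x ^ 2 * (pd 0 u x ^ 2 + pd 1 u x ^ 2) / (u q - u x + ε) ^ 2 ≤
      κ ^ 2 * ∫ x, (pd 0 ψ x ^ 2 + pd 1 ψ x ^ 2)

/-- CIR (150 lines): oscillation on circles costs energy. -/
def Stmt_CIR : Prop :=
  ∀ (q : E2) (ρ1 ρ2 R : ℝ), 0 < ρ1 → ρ1 < ρ2 → ρ2 ≤ R → ∃ c : ℝ, 0 < c ∧
    ∀ (O : Set E2) (v : E2 → ℝ) (L : ℝ), IsOpen O → closedBall q R ⊆ O → ContDiffOn ℝ 1 v O →
      0 ≤ L → (∀ ρ ∈ Ioo ρ1 ρ2, ∃ x ∈ sphere q ρ, ∃ y ∈ sphere q ρ, L ≤ v x - v y) →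
      c * L ^ 2 ≤ ∫ x in closedBall q R, (pd 0 v x ^ 2 + pd 1 v x ^ 2)

/-- SMP (100 lines): the strong maximum principle. -/
def Stmt_SMP : Prop :=
  ∀ (O : Set E2) (u W : E2 → ℝ) (κ : ℝ) (q : E2), QR O u W κ q → ∀ᶠ x in 𝓝 q, u x = u q

/-- TOP (80 lines): removing a point from a disc does not disconnect it. -/
def Stmt_TOP : Prop :=
  ∀ (x0 x : E2) (r : ℝ) (Z : Set E2), x ∈ ball x0 r → Z ⊆ ball x0 r → Z.Nonempty →
    (∀ z ∈ ball x0 r, z ∈ closure Z → z ∈ Z) → (∀ z ∈ Z, z ≠ x → Z ∈ 𝓝 z) →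
    Z = {x} ∨ Z = ball x0 r

/-! ### Algebra -/

/-- SOL (60 lines): the Rodrigues vector. -/
def Stmt_SOL : Prop :=
  (∀ m1 m2 v1 v2 : V3, m1 ⬝ᵥ v1 = 0 → m2 ⬝ᵥ v2 = 0 → m1 ⬝ᵥ v2 + m2 ⬝ᵥ v1 = 0 →
    m1 ⨯₃ m2 ≠ 0 → ∀ y : V3, y = ((m1 ⨯₃ m2) ⬝ᵥ (m1 ⨯₃ m2))⁻¹ •
      ((v2 ⬝ᵥ (m1 ⨯₃ m2)) • m1 - (v1 ⬝ᵥ (m1 ⨯₃ m2)) • m2 + (v1 ⬝ᵥ m2) • (m1 ⨯₃ m2)) →
      y ⨯₃ m1 = v1 ∧ y ⨯₃ m2 = v2) ∧
  (∀ m1 m2 y y' : V3, m1 ⨯₃ m2 ≠ 0 → y ⨯₃ m1 = y' ⨯₃ m1 → y ⨯₃ m2 = y' ⨯₃ m2 → y = y')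

/-- BND (30 lines): a trace free form with respect to a definite form. -/
def Stmt_BND : Prop :=
  ∀ s00 s01 s11 k00 k01 k11 : ℝ, 0 < s00 * s11 - s01 ^ 2 →
    s00 * k11 + s11 * k00 - 2 * s01 * k01 = 0 →
    (k00 ^ 2 + k01 ^ 2 + k11 ^ 2) * (s00 * s11 - s01 ^ 2) ≤
      (2 * s00 ^ 2 + 2 * s11 ^ 2 + s00 * s11) * (k01 ^ 2 - k00 * k11)

/-- HYP (50 lines): six points of a space of dimension six are in a hyperplane. -/
def Stmt_HYP : Prop :=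
  ∀ Φ : Fin 6 → V3 × V3, ∃ (a b : V3) (c : ℝ), ¬ (a = 0 ∧ b = 0) ∧
    ∀ i, a ⬝ᵥ (Φ i).1 + b ⬝ᵥ (Φ i).2 = c

/-! ### A pair of isometric surfaces in the plane -/

/-- the mean surface -/
noncomputable def mm (F G : E2 → V3) : E2 → V3 := fun x => (1 / 2 : ℝ) • (F x + G x)

/-- half the difference -/
noncomputable def vv (F G : E2 → V3) : E2 → V3 := fun x => (1 / 2 : ℝ) • (G x - F x)

/-- the normal vector of the mean surface -/
noncomputable def nn (F G : E2 → V3) (x : E2) : V3 := pd 0 (mm F G) x ⨯₃ pd 1 (mm F G) x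

/-- the Rodrigues vector -/
noncomputable def yy (F G : E2 → V3) (x : E2) : V3 :=
  (nn F G x ⬝ᵥ nn F G x)⁻¹ • ((pd 1 (vv F G) x ⬝ᵥ nn F G x) • pd 0 (mm F G) x -
    (pd 0 (vv F G) x ⬝ᵥ nn F G x) • pd 1 (mm F G) x +
    (pd 0 (vv F G) x ⬝ᵥ pd 1 (mm F G) x) • nn F G x)

/-- the translation part -/
noncomputable def ww (F G : E2 → V3) (x : E2) : V3 := vv F G x - yy F G x ⨯₃ mm F G x

/-- the second form of the mean surface -/
noncomputable def ss (F G : E2 → V3) (i j : Fin 2) (x : E2) : ℝ :=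
  pd i (pd j (mm F G)) x ⬝ᵥ nn F G x

/-- the form of the derivative of the Rodrigues vector -/
noncomputable def kk (F G : E2 → V3) (i j : Fin 2) (x : E2) : ℝ :=
  ((pd i (yy F G) x ⨯₃ pd j (mm F G) x) ⬝ᵥ nn F G x) / (nn F G x ⬝ᵥ nn F G x)

/-- the second form of a surface (with the normal of length the area) -/
noncomputable def hh (F : E2 → V3) (i j : Fin 2) (x : E2) : ℝ :=
  pd i (pd j F) x ⬝ᵥ (pd 0 F x ⨯₃ pd 1 F x)

/-- two isometric surfaces with immersed mean surface -/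
structure Pair (U : Set E2) (F G : E2 → V3) : Prop where
  op : IsOpen U
  smF : ContDiffOn ℝ 2 F U
  smG : ContDiffOn ℝ 2 G U
  iso : ∀ x ∈ U, ∀ i j, pd i F x ⬝ᵥ pd j F x = pd i G x ⬝ᵥ pd j G x
  imm : ∀ x ∈ U, nn F G x ≠ 0

/-- a linear functional of the motion -/
noncomputable def ll (F G : E2 → V3) (a b : V3) (x : E2) : ℝ :=
  a ⬝ᵥ yy F G x + b ⬝ᵥ ww F G x

/-- the Killing field along the mean surface -/
noncomputable def AA (F G : E2 → V3) (a b : V3) (x : E2) : V3 := a + b ⨯₃ mm F G x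

/-- the second form of the mean surface is definite -/
def PosAt (F G : E2 → V3) (x : E2) : Prop :=
  0 < ss F G 0 0 x * ss F G 1 1 x - ss F G 0 1 x ^ 2

/-- the Rodrigues vector is locally constant -/
def Rig (F G : E2 → V3) (x : E2) : Prop := ∀ᶠ z in 𝓝 x, ∀ i, pd i (yy F G) z = 0

/-- YC1 (100 lines) -/
def Stmt_YC1 : Prop :=
  ∀ (U : Set E2) (F G : E2 → V3), Pair U F G →
    ContDiffOn ℝ 1 (yy F G) U ∧ ContDiffOn ℝ 1 (ww F G) U ∧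
      ∀ x ∈ U, ∀ i, pd i (vv F G) x = yy F G x ⨯₃ pd i (mm F G) x

/-- DIF (120 lines) -/
def Stmt_DIF : Prop :=
  ∀ (U : Set E2) (F G : E2 → V3), Pair U F G → ∀ x ∈ U,
    pd 0 (yy F G) x = kk F G 0 1 x • pd 0 (mm F G) x - kk F G 0 0 x • pd 1 (mm F G) x ∧
    pd 1 (yy F G) x = kk F G 1 1 x • pd 0 (mm F G) x - kk F G 0 1 x • pd 1 (mm F G) x ∧
    kk F G 1 0 x = kk F G 0 1 x ∧ ∀ i, pd i (ww F G) x = mm F G x ⨯₃ pd i (yy F G) x

/-- MIX (120 lines) -/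
def Stmt_MIX : Prop :=
  ∀ (U : Set E2) (F G : E2 → V3), Pair U F G → ∀ x ∈ U, ss F G 1 0 x = ss F G 0 1 x ∧
    ss F G 0 0 x * kk F G 1 1 x + ss F G 1 1 x * kk F G 0 0 x -
      2 * ss F G 0 1 x * kk F G 0 1 x = 0

/-- EGR (120 lines) -/
def Stmt_EGR : Prop :=
  ∀ (U : Set E2) (F G : E2 → V3), Pair U F G → ∀ x ∈ U, ∀ i j,
    hh F i j x = (1 + yy F G x ⬝ᵥ yy F G x) * ss F G i j x -
      (nn F G x ⬝ᵥ nn F G x + (yy F G x ⬝ᵥ nn F G x) ^ 2) * kk F G i j x ∧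
    hh G i j x = (1 + yy F G x ⬝ᵥ yy F G x) * ss F G i j x +
      (nn F G x ⬝ᵥ nn F G x + (yy F G x ⬝ᵥ nn F G x) ^ 2) * kk F G i j x

/-- SIG (70 lines) -/
def Stmt_SIG : Prop :=
  ∀ (U : Set E2) (F G : E2 → V3), Pair U F G → ∀ x ∈ U,
    hh F 0 0 x * hh F 1 1 x - hh F 0 1 x ^ 2 = hh G 0 0 x * hh G 1 1 x - hh G 0 1 x ^ 2 ∧
    (0 < hh F 0 0 x * hh F 1 1 x - hh F 0 1 x ^ 2 → 0 < hh F 0 0 x * hh G 0 0 x → PosAt F G x)

/-- GOD (150 lines): local maximum, the Killing field is not normal. -/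
def Stmt_GOD : Prop :=
  ∀ (U : Set E2) (F G : E2 → V3), Pair U F G → ∀ (a b : V3), ∀ x0 ∈ U, PosAt F G x0 →
    AA F G a b x0 ⨯₃ nn F G x0 ≠ 0 → (∀ᶠ x in 𝓝 x0, ll F G a b x ≤ ll F G a b x0) →
    Rig F G x0

/-- SAD (120 lines): local maximum, the Killing field is normal. -/
def Stmt_SAD : Prop :=
  ∀ (U : Set E2) (F G : E2 → V3), Pair U F G → ∀ (a b : V3), ∀ x0 ∈ U, PosAt F G x0 →
    ∀ L : ℝ, L ≠ 0 → AA F G a b x0 = L • nn F G x0 →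
    (∀ᶠ x in 𝓝 x0, ll F G a b x ≤ ll F G a b x0) → ∀ i, pd i (yy F G) x0 = 0

/-- INJ (120 lines): the points where the Killing field is normal are isolated. -/
def Stmt_INJ : Prop :=
  ∀ (U : Set E2) (F G : E2 → V3), Pair U F G → ∀ (a b : V3), ∀ x0 ∈ U, PosAt F G x0 →
    ∀ L : ℝ, L ≠ 0 → AA F G a b x0 = L • nn F G x0 → ∃ r ρ : ℝ, 0 < r ∧ 0 < ρ ∧
      ball x0 r ⊆ U ∧ ∀ a' : V3, ‖a' - a‖ < ρ → ∀ x ∈ ball x0 r, ∀ x' ∈ ball x0 r,
        AA F G a' b x ⨯₃ nn F G x = 0 → AA F G a' b x' ⨯₃ nn F G x' = 0 → x = x'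

/-- BAD (150 lines): local maximum, the Killing field is normal. -/
def Stmt_BAD : Prop :=
  ∀ (U : Set E2) (F G : E2 → V3), Pair U F G → ∀ (a b : V3), ∀ x0 ∈ U, PosAt F G x0 →
    ∀ L : ℝ, L ≠ 0 → AA F G a b x0 = L • nn F G x0 →
    (∀ᶠ x in 𝓝 x0, ll F G a b x ≤ ll F G a b x0) → Rig F G x0

/-- LPR (40 lines): local maxima of generic functionals. -/
def Stmt_LPR : Prop :=
  ∀ (U : Set E2) (F G : E2 → V3), Pair U F G → ∀ (a b : V3), a ⬝ᵥ b ≠ 0 → ∀ x0 ∈ U,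
    PosAt F G x0 → (∀ᶠ x in 𝓝 x0, ll F G a b x ≤ ll F G a b x0) → Rig F G x0

/-- KIL (120 lines): constant functionals. -/
def Stmt_KIL : Prop :=
  ∀ (U : Set E2) (F G : E2 → V3), Pair U F G → ∀ (a b : V3) (c : ℝ), ¬ (a = 0 ∧ b = 0) →
    ∀ x0 ∈ U, PosAt F G x0 → (∀ᶠ x in 𝓝 x0, ll F G a b x = c) → Rig F G x0

/-! ### Surfaces -/

/-- coordinates -/
noncomputable def L3 : E3 →L[ℝ] V3 := (EuclideanSpace.equiv (Fin 3) ℝ : E3 →L[ℝ] V3)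

/-- the isometry preserves the orientation -/
def Proper (A : E3 ≃ᵃⁱ[ℝ] E3) : Prop :=
  0 < LinearMap.det (A.linearIsometryEquiv.toLinearEquiv : E3 →ₗ[ℝ] E3)

/-- ROT (80 lines): the Cayley transform. -/
def Stmt_ROT : Prop :=
  ∀ y u : V3, ∃ A : E3 ≃ᵃⁱ[ℝ] E3, Proper A ∧
    ∀ z z' : E3, L3 z' - L3 z = y ⨯₃ (L3 z' + L3 z) + (2 : ℝ) • u → z' = A z

section surface

variable {S : Type w} [TopologicalSpace S] [ChartedSpace E2 S]

/-- the surface in the chart at `p` -/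
noncomputable def loc (f : S → E3) (p : S) : E2 → V3 :=
  fun x => L3 (f ((extChartAt (𝓡 2) p).symm x))

/-- two close isometric immersions -/
structure MPair (f g : S → E3) : Prop where
  smf : ContMDiff (𝓡 2) (𝓡 3) 2 f
  smg : ContMDiff (𝓡 2) (𝓡 3) 2 g
  imm : ∀ p, Function.Injective (FRD.dvec f p)
  iso : ∀ p v w, FRD.firstForm f p v w = FRD.firstForm g p v w
  close : ∀ p v, 2 * ‖FRD.dvec g p v - FRD.dvec f p v‖ ≤ ‖FRD.dvec f p v‖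

/-- the Rodrigues vector on the surface -/
noncomputable def Yg (f g : S → E3) (q : S) : V3 :=
  yy (loc f q) (loc g q) (extChartAt (𝓡 2) q q)

/-- the translation part on the surface -/
noncomputable def Wg (f g : S → E3) (q : S) : V3 :=
  ww (loc f q) (loc g q) (extChartAt (𝓡 2) q q)

/-- the determinant of the second form in the chart at `q` -/
noncomputable def dd (f : S → E3) (q : S) : ℝ :=
  hh (loc f q) 0 0 (extChartAt (𝓡 2) q q) * hh (loc f q) 1 1 (extChartAt (𝓡 2) q q) -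
    hh (loc f q) 0 1 (extChartAt (𝓡 2) q q) ^ 2

/-- both surfaces are convex at `q`, on the same side -/
def Ell (f g : S → E3) (q : S) : Prop :=
  0 < dd f q ∧ 0 < hh (loc f q) 0 0 (extChartAt (𝓡 2) q q) *
    hh (loc g q) 0 0 (extChartAt (𝓡 2) q q)

/-- near `p` the surface is in a ball with `f p` on its boundary -/
def PosCurv (f : S → E3) (p : S) : Prop :=
  ∃ n : E3, ∀ᶠ q in 𝓝 p, ‖f q - f p‖ ^ 2 ≤ inner ℝ (f q - f p) n

/-- an isometric deformation, continuous in the `C²` topology -/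
structure Fam2 (f : ℝ → S → E3) : Prop where
  smooth : ∀ t ∈ Icc (0 : ℝ) 1, ContMDiff (𝓡 2) (𝓡 3) 2 (f t)
  imm : ∀ t ∈ Icc (0 : ℝ) 1, ∀ p, Function.Injective (FRD.dvec (f t) p)
  iso : ∀ t ∈ Icc (0 : ℝ) 1, ∀ p v w, FRD.firstForm (f t) p v w = FRD.firstForm (f 0) p v w
  cont1 : ∀ p : S, ContinuousOn (fun z : ℝ × E2 =>
    fderiv ℝ (fun x => f z.1 ((extChartAt (𝓡 2) p).symm x)) z.2)
    (Icc (0 : ℝ) 1 ×ˢ (extChartAt (𝓡 2) p).target)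
  cont2 : ∀ p : S, ContinuousOn (fun z : ℝ × E2 =>
    fderiv ℝ (fderiv ℝ (fun x => f z.1 ((extChartAt (𝓡 2) p).symm x))) z.2)
    (Icc (0 : ℝ) 1 ×ˢ (extChartAt (𝓡 2) p).target)

end surface

/-- LOC (100 lines): the pair in a chart. -/
def Stmt_LOC : Prop :=
  ∀ (S : Type w) [TopologicalSpace S] [ChartedSpace E2 S] [IsManifold (𝓡 2) 2 S] (f g : S → E3),
    MPair f g → ∀ p, Pair (extChartAt (𝓡 2) p).target (loc f p) (loc g p)

/-- GLB (120 lines): the motion does not depend on the chart. -/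
def Stmt_GLB : Prop :=
  ∀ (S : Type w) [TopologicalSpace S] [ChartedSpace E2 S] [IsManifold (𝓡 2) 2 S] (f g : S → E3),
    MPair f g →
    (∀ p, ∀ x ∈ (extChartAt (𝓡 2) p).target,
      Yg f g ((extChartAt (𝓡 2) p).symm x) = yy (loc f p) (loc g p) x ∧
      Wg f g ((extChartAt (𝓡 2) p).symm x) = ww (loc f p) (loc g p) x) ∧
    (∀ q v, L3 (FRD.dvec g q v) - L3 (FRD.dvec f q v) =
      Yg f g q ⨯₃ (L3 (FRD.dvec g q v) + L3 (FRD.dvec f q v))) ∧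
    (∀ q, L3 (g q) - L3 (f q) = Yg f g q ⨯₃ (L3 (g q) + L3 (f q)) + (2 : ℝ) • Wg f g q)

/-- CTY (60 lines): the motion is continuous. -/
def Stmt_CTY : Prop :=
  ∀ (S : Type w) [TopologicalSpace S] [ChartedSpace E2 S] [IsManifold (𝓡 2) 2 S] (f g : S → E3),
    MPair f g → Continuous (Yg f g) ∧ Continuous (Wg f g)

/-- LCN (80 lines): where the Rodrigues vector is locally constant the motion is. -/
def Stmt_LCN : Prop :=
  ∀ (S : Type w) [TopologicalSpace S] [ChartedSpace E2 S] [IsManifold (𝓡 2) 2 S] (f g : S → E3),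
    MPair f g → ∀ q, Rig (loc f q) (loc g q) (extChartAt (𝓡 2) q q) →
    ∀ᶠ q' in 𝓝 q, Yg f g q' = Yg f g q ∧ Wg f g q' = Wg f g q

/-- STA (150 lines): the static theorem. -/
def Stmt_STA : Prop :=
  ∀ (S : Type w) [TopologicalSpace S] [ChartedSpace E2 S] [IsManifold (𝓡 2) 2 S]
    [CompactSpace S] [ConnectedSpace S] (f g : S → E3), MPair f g → ∀ Sg : Set S,
    (∀ q, q ∉ Sg → Ell f g q) → ∀ Φ : Fin 6 → V3 × V3,
    (∀ q ∈ Sg, ∃ i, Yg f g q = (Φ i).1 ∧ Wg f g q = (Φ i).2) →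
    ∃ y0 w0 : V3, ∀ q, Yg f g q = y0 ∧ Wg f g q = w0

/-- VAL (120 lines): the motion of a rigidly moving point depends on the rigid motion only. -/
def Stmt_VAL : Prop :=
  ∀ (S : Type w) [TopologicalSpace S] [ChartedSpace E2 S] [IsManifold (𝓡 2) 2 S] (f g : S → E3),
    MPair f g → ∀ A : E3 ≃ᵃⁱ[ℝ] E3, Proper A → ∀ q q' : S,
    g q = A (f q) → (∀ v, FRD.dvec g q v = A.linearIsometryEquiv (FRD.dvec f q v)) →
    g q' = A (f q') → (∀ v, FRD.dvec g q' v = A.linearIsometryEquiv (FRD.dvec f q' v)) →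
    Yg f g q = Yg f g q' ∧ Wg f g q = Wg f g q'

/-- CLO (120 lines): nearby times give close pairs. -/
def Stmt_CLO : Prop :=
  ∀ (S : Type w) [TopologicalSpace S] [ChartedSpace E2 S] [IsManifold (𝓡 2) 2 S]
    [CompactSpace S] (f : ℝ → S → E3), Fam2 f → ∀ t0 ∈ Icc (0 : ℝ) 1,
    ∀ᶠ t in 𝓝[Icc (0 : ℝ) 1] t0, MPair (f t0) (f t) ∧ MPair (f t) (f t0)

/-- ELP (100 lines): positive curvature in the chart. -/
def Stmt_ELP : Prop :=
  ∀ (S : Type w) [TopologicalSpace S] [ChartedSpace E2 S] [IsManifold (𝓡 2) 2 S] (f : S → E3),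
    ContMDiff (𝓡 2) (𝓡 3) 2 f → (∀ p, Function.Injective (FRD.dvec f p)) → ∀ q,
    PosCurv f q → 0 < dd f q

/-- SGN (120 lines): the side of the tangent plane does not change. -/
def Stmt_SGN : Prop :=
  ∀ (S : Type w) [TopologicalSpace S] [ChartedSpace E2 S] [IsManifold (𝓡 2) 2 S]
    [CompactSpace S] (f : ℝ → S → E3), Fam2 f → ∀ q, 0 < dd (f 0) q →
    ∀ s ∈ Icc (0 : ℝ) 1, ∀ t ∈ Icc (0 : ℝ) 1, Ell (f s) (f t) q

/-- FIN (150 lines): the theorem. -/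
def Stmt_FIN : Prop :=
  ∀ (S : Type w) [TopologicalSpace S] [ChartedSpace E2 S] [IsManifold (𝓡 2) 2 S]
    [CompactSpace S] [ConnectedSpace S] (f : ℝ → S → E3), Fam2 f →
    (∀ t ∈ Icc (0 : ℝ) 1, ∃ g : Fin 6 → (E3 ≃ᵃⁱ[ℝ] E3), (∀ i, Proper (g i)) ∧
      ∀ p, ¬ PosCurv (f 0) p → ∃ i, f t p = g i (f 0 p) ∧
        ∀ v, FRD.dvec (f t) p v = (g i).linearIsometryEquiv (FRD.dvec (f 0) p v)) →
    ∀ t ∈ Icc (0 : ℝ) 1, ∃ A : E3 ≃ᵃⁱ[ℝ] E3, Proper A ∧ ∀ p, f t p = A (f 0 p)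

end Pool.SXB
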