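import Pool.Agent.Work.MP_02e829_sb.Interface

/-!
# From six to seven: functionals with the Klein form

The function `y · w` of the motion also obeys the maximum principle (its derivative is `v · ∂ᵢ y`),
so the functional `a · y + b · w + c (y · w)`, with the field `a + b × m + c v`, replaces
`a · y + b · w`, with the Killing field `a + b × m`, in the blocks GOD, SAD, INJ, BAD, LPR, KIL:
`∂ⱼ (a + b × m + c v) = (b + c y) × ∂ⱼ m`, so the derivative of `AC ⬝ ∂ᵢ m` is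
`((b + c y) × ∂ⱼ m) ⬝ ∂ᵢ m + AC ⬝ ∂ᵢ∂ⱼ m`: the same formulas with `b + c y` in the place of `b`.
-/

open Set Filter Manifold Matrix MeasureTheory Metric
open scoped Topology ContDiff Manifold

set_option autoImplicit false

universe w

namespace Pool.SXB

open Pool.FR (pd ee)

/-- a functional of the motion, linear in the dual quaternion -/
noncomputable def lc (F G : E2 → V3) (a b : V3) (c : ℝ) (x : E2) : ℝ :=
  a ⬝ᵥ yy F G x + b ⬝ᵥ ww F G x + c * (yy F G x ⬝ᵥ ww F G x)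

/-- its field along the mean surface -/
noncomputable def AC (F G : E2 → V3) (a b : V3) (c : ℝ) (x : E2) : V3 :=
  a + b ⨯₃ mm F G x + c • vv F G x

/-- GOD7 (uses YC1, DIF, MIX, BND, SMP; adapt B_GOD.lean; 170 lines) -/
def Stmt_GOD7 : Prop :=
  ∀ (U : Set E2) (F G : E2 → V3), Pair U F G → ∀ (a b : V3) (c : ℝ), ∀ x0 ∈ U, PosAt F G x0 →
    AC F G a b c x0 ⨯₃ nn F G x0 ≠ 0 →
    (∀ᶠ x in 𝓝 x0, lc F G a b c x ≤ lc F G a b c x0) → Rig F G x0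

/-- SAD7 (uses YC1, DIF, MIX; adapt B_SAD.lean; 180 lines) -/
def Stmt_SAD7 : Prop :=
  ∀ (U : Set E2) (F G : E2 → V3), Pair U F G → ∀ (a b : V3) (c : ℝ), ∀ x0 ∈ U, PosAt F G x0 →
    ∀ L : ℝ, L ≠ 0 → AC F G a b c x0 = L • nn F G x0 →
    (∀ᶠ x in 𝓝 x0, lc F G a b c x ≤ lc F G a b c x0) → ∀ i, pd i (yy F G) x0 = 0

/-- INJ7 (uses YC1; adapt B_INJ.lean; 140 lines) -/
def Stmt_INJ7 : Prop :=
  ∀ (U : Set E2) (F G : E2 → V3), Pair U F G → ∀ (a b : V3) (c : ℝ), ∀ x0 ∈ U, PosAt F G x0 →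
    ∀ L : ℝ, L ≠ 0 → AC F G a b c x0 = L • nn F G x0 → ∃ r ρ : ℝ, 0 < r ∧ 0 < ρ ∧
      ball x0 r ⊆ U ∧ ∀ a' : V3, ‖a' - a‖ < ρ → ∀ x ∈ ball x0 r, ∀ x' ∈ ball x0 r,
        AC F G a' b c x ⨯₃ nn F G x = 0 → AC F G a' b c x' ⨯₃ nn F G x' = 0 → x = x'

/-- BAD7 (uses YC1, GOD7, SAD7, INJ7, TOP; adapt B_BAD.lean; 180 lines) -/
def Stmt_BAD7 : Prop :=
  ∀ (U : Set E2) (F G : E2 → V3), Pair U F G → ∀ (a b : V3) (c : ℝ), ∀ x0 ∈ U, PosAt F G x0 →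
    ∀ L : ℝ, L ≠ 0 → AC F G a b c x0 = L • nn F G x0 →
    (∀ᶠ x in 𝓝 x0, lc F G a b c x ≤ lc F G a b c x0) → Rig F G x0

/-- KIL7 (uses YC1, DIF, MIX; adapt B_KIL.lean; 180 lines). If `A = 0` near `x` then
`(b + c y) × ∂ᵢ m = 0`, so `b + c y = 0` near `x`; if `c ≠ 0` then `y` is constant there. -/
def Stmt_KIL7 : Prop :=
  ∀ (U : Set E2) (F G : E2 → V3), Pair U F G → ∀ (a b : V3) (c d : ℝ),
    ¬ (a = 0 ∧ b = 0 ∧ c = 0) → ∀ x0 ∈ U, PosAt F G x0 →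
    (∀ᶠ x in 𝓝 x0, lc F G a b c x = d) → Rig F G x0

/-- LPR7 (uses GOD7, BAD7; adapt B_LPR.lean; 40 lines) -/
def Stmt_LPR7 : Prop :=
  ∀ (U : Set E2) (F G : E2 → V3), Pair U F G → ∀ (a b : V3) (c : ℝ), ∀ x0 ∈ U,
    AC F G a b c x0 ≠ 0 → PosAt F G x0 →
    (∀ᶠ x in 𝓝 x0, lc F G a b c x ≤ lc F G a b c x0) → Rig F G x0

end Pool.SXB
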